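import Pool.Agent.H945R2.E.PropsT
import Pool.Agent.H945R2.S.ARIM

/-! ARIT: local arithmetic of the coefficients, adapted from S/ARIM. -/

set_option autoImplicit false

open scoped Pointwise

namespace Pool.Agent.H945R2.E

open Pool.Agent.H918R2.Quad Pool.Agent.H945R2.D Pool.Agent.H945R2.S MvPolynomial

theorem ARIT_ok : S_ARIT := by
  classical
  intro O _ _ ι _ m hm a hm2 ha2 hma 𝔭 h𝔭 R _ _ _ _
  have hnat : ∀ k : ℕ, algebraMap O R (k : O) = (k : R) := fun k => map_natCast _ _
  refine ⟨?_, ?_⟩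
  · intro hmp
    have h0 : 𝔭 ≠ ⊥ := by
      rintro rfl
      apply hm2 ⊥ inferInstance
      rw [Ideal.mem_bot.1 hmp]
      exact Ideal.zero_mem _
    refine ⟨h0, ?_, ?_⟩
    · obtain ⟨p, e, hp, hme, hpmem⟩ := ARIMaux.exists_prime 𝔭 m hm hmp
      have hcast : (m : O) = (p : O) * (e : O) := by
        rw [hme, Nat.cast_mul]
      refine ⟨p, e, hp, hme, ?_, ?_⟩
      · rw [← hnat]
        refine ARIaux.irr 𝔭 h0 hpmem ?_
        intro h1
        apply hm2 𝔭 inferInstance
        rw [hcast]
        exact Ideal.mul_mem_right _ _ h1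
      · have he : (e : O) ∉ 𝔭 := by
          intro he
          apply hm2 𝔭 inferInstance
          rw [hcast, pow_two]
          exact Ideal.mul_mem_mul hpmem he
        rw [← hnat]
        exact IsLocalization.map_units R (⟨(e : O), he⟩ : 𝔭.primeCompl)
    · intro i
      exact IsLocalization.map_units R (⟨a i, hma 𝔭 inferInstance hmp i⟩ : 𝔭.primeCompl)
  · intro hp
    refine ⟨?_, ?_⟩
    · rw [← hnat]
      exact IsLocalization.map_units R (⟨(m : O), hp⟩ : 𝔭.primeCompl)
    · intro i
      by_cases hi : a i ∈ 𝔭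
      · right
        have h0 : 𝔭 ≠ ⊥ := by
          rintro rfl
          apply ha2 ⊥ inferInstance i
          rw [Ideal.mem_bot.1 hi]
          exact Ideal.zero_mem _
        exact ⟨hi, h0, ARIaux.irr 𝔭 h0 hi (ha2 𝔭 inferInstance i)⟩
      · left
        exact IsLocalization.map_units R (⟨a i, hi⟩ : 𝔭.primeCompl)

end Pool.Agent.H945R2.E
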