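import Pool.Agent.H945R2.E.PropsT
import Pool.Agent.H945R2.D.BAD

/-! BADT: the local modules at the tame primes (helper501, adapted from S/BADS.lean by helper747
and S/GOODM.lean). -/

set_option autoImplicit false

open scoped Pointwise

namespace Pool.Agent.H945R2.E

open Pool.Agent.H918R2.Quad Pool.Agent.H945R2.D Pool.Agent.H945R2.S MvPolynomial

namespace BADTaux

/-- An element which is a unit or irreducible is a unit times `1` or `ϖ`. -/
theorem exists_coef {R : Type} [CommRing R] [IsDomain R] [IsDiscreteValuationRing R] (ϖ : R)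
    (hϖ : Irreducible ϖ) (a : R) (ha : IsUnit a ∨ Irreducible a) :
    ∃ c : R, IsUnit c ∧ (IsUnit a → a = c) ∧ (¬ IsUnit a → a = ϖ * c) := by
  by_cases h : IsUnit a
  · exact ⟨a, h, fun _ => rfl, fun h' => absurd h h'⟩
  · have hi : Irreducible a := ha.resolve_left h
    obtain ⟨u, hu⟩ := IsDiscreteValuationRing.associated_of_irreducible R hϖ hi
    exact ⟨u, u.isUnit, fun h' => absurd h' h, fun _ => hu.symm⟩

end BADTaux

open BADTaux

theorem BADT_ok (hL : S_LOCT) (hD : S_DEGT) (hFam : S_FAMW) (hF : S_FINT) (hG : S_GD1M) :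
    S_BADT := by
  intro O R K F _ _ _ _ _ _ _ _ _ _ _ _ _ 𝔭 _ _ _ _ n m hm hmu a ha x hx0 hrel hgen b htb
  obtain ⟨ϖ, hirr⟩ := IsDiscreteValuationRing.exists_irreducible R
  have hinj : Function.Injective (algebraMap R K) := IsFractionRing.injective R K
  have hRKF : ∀ r : R, algebraMap R F r = algebraMap K F (algebraMap R K r) :=
    fun r => IsScalarTower.algebraMap_apply R K F r
  have hOF : ∀ r : O, algebraMap O F r = algebraMap R F (algebraMap O R r) :=
    fun r => IsScalarTower.algebraMap_apply O R F r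
  have hϖ0 : ϖ ≠ 0 := hirr.ne_zero
  have hϖF : algebraMap R F ϖ ≠ 0 := by
    rw [hRKF]
    intro h
    apply hϖ0
    apply hinj
    rw [map_zero]
    exact (algebraMap K F).injective (by rw [h, map_zero])
  choose c hcu hc1 hc2 using fun i => exists_coef ϖ hirr (algebraMap O R (a i)) (ha i)
  have hind : ∀ s, x s ≠ 0 → ∃ j₀ : {i : Fin (n + 2) // i ≠ s},
      AlgebraicIndependent R
        (fun i : {i : {i : Fin (n + 2) // i ≠ s} // i ≠ j₀} => x i / x s) := by
    intro s hs
    obtain ⟨j₀, hj₀⟩ := hind_of (K := K) (ι := Fin (n + 2)) (by simp) x hx0 hgen b htb x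
      (fun i j => if i = j then 1 else 0) (by
        intro i
        simp [apply_ite (algebraMap K F)]) s hs
    exact ⟨j₀, hj₀.restrictScalars hinj⟩
  have hrelR : ∑ i, algebraMap R F (algebraMap O R (a i)) * x i ^ m = 0 := by
    simpa only [← IsScalarTower.algebraMap_apply] using hrel
  classical
  set Z : Finset (Fin (n + 2)) := Finset.univ.filter (fun i => IsUnit (algebraMap O R (a i)))
    with hZdef
  have hZ : ∀ i, i ∈ Z ↔ IsUnit (algebraMap O R (a i)) := by
    intro i
    rw [hZdef, Finset.mem_filter]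
    exact ⟨fun h => h.2, fun h => ⟨Finset.mem_univ _, h⟩⟩
  rcases Finset.eq_empty_or_nonempty Z with hZe | hZne
  · -- all coefficients are divisible by `ϖ`
    have hcrel : ∑ i, algebraMap R F (c i) * x i ^ m = 0 := by
      have h1 : algebraMap R F ϖ * ∑ i, algebraMap R F (c i) * x i ^ m = 0 := by
        rw [Finset.mul_sum]
        refine Eq.trans (Finset.sum_congr rfl fun i _ => ?_) hrelR
        have h2 : ¬ IsUnit (algebraMap O R (a i)) := by
          rw [← hZ, hZe]
          exact Finset.notMem_empty i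
        rw [hc2 i h2, map_mul (algebraMap R F), mul_assoc]
      exact (mul_eq_zero.1 h1).resolve_left hϖF
    refine ⟨1, fun D hDD => ⟨Submodule.span O (Set.range x ^ D), ?_, ⟨0, ?_⟩, ?_⟩⟩
    · intro y hy
      exact ⟨1, (Ideal.ne_top_iff_one 𝔭).1 Ideal.IsPrime.ne_top', by rw [one_smul]; exact hy⟩
    · intro r _ y hy
      exact Submodule.smul_mem _ _ hy
    · intro M hM hM2 f hfM hf q hqp hq
      have hMG : ∀ y ∈ M, y ∈ Submodule.span R (Set.range x ^ D) := by
        intro y hy
        have h3 := hM hy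
        exact Submodule.span_subset_span O R _ h3
      have hGM : ∀ y ∈ Submodule.span R (Set.range x ^ D), ∃ s, s ∉ 𝔭 ∧ s • y ∈ M := by
        intro y hy
        obtain ⟨s, hs, hsy⟩ := clear_denom 𝔭 (Set.range x ^ D) y hy
        obtain ⟨t, ht, hty⟩ := hM2 _ hsy
        refine ⟨t * s, fun h => (Ideal.IsPrime.mem_or_mem ‹𝔭.IsPrime› h).elim ht hs, ?_⟩
        rw [mul_smul]
        exact hty
      obtain ⟨𝒪, hloc, hR, hRU, hloc2, hG', hreg⟩ :=
        transfer (R := R) 𝔭 M (Set.range x ^ D) hMG hGM f q hq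
      apply hreg
      exact hG 𝒪 hloc hR m hmu (by omega) c hcu x hcrel hind D hDD f hf (hMG f hfM) hG' hloc2
  · obtain ⟨h, hh, hmh⟩ : ∃ h : ℕ, 1 ≤ h ∧ (m = 2 * h ∨ m = 2 * h + 1) := ⟨m / 2, by omega, by omega⟩
    have hfin := hF (R := R) m h ϖ c Z x
    obtain ⟨D₀, hD₀⟩ := hFam (R := R) ϖ x {S | IsFacT ϖ m h c Z x S} hfin (Or.inl rfl)
      (fun S hS => hD (R := R) m h hh hmh ϖ c Z x S hS)
    refine ⟨D₀, fun D hDD => ?_⟩
    obtain ⟨κ, _, Φ, hΦ, hH1, k, hH2⟩ := hD₀ D hDD
    have hle : ∀ y ∈ Submodule.span R (∏ k, Φ k), y ∈ Submodule.span R (Set.range x ^ D) := by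
      intro y hy
      have h1 : Submodule.span R (∏ k, Φ k) ≤ Submodule.span R (Set.range x ^ D) := by
        rw [Submodule.span_le]
        exact fun h hh => hH1 h hh
      exact h1 hy
    have hpk : ∀ y ∈ Submodule.span R (Set.range x ^ D),
        algebraMap R F ϖ ^ k * y ∈ Submodule.span R (∏ k, Φ k) := by
      intro y hy
      induction hy using Submodule.span_induction with
      | mem y hy => exact hH2 y hy
      | zero => rw [mul_zero]; exact Submodule.zero_mem _
      | add a b _ _ ha hb => rw [mul_add]; exact Submodule.add_mem _ ha hb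
      | smul r a _ ha =>
        rw [mul_smul_comm]
        exact Submodule.smul_mem _ _ ha
    refine ⟨(Submodule.span R (∏ k, Φ k)).restrictScalars O, ?_, ⟨k, ?_⟩, ?_⟩
    · intro y hy
      exact clear_denom (R := R) 𝔭 (Set.range x ^ D) y (hle y hy)
    · have hmap : 𝔭.map (algebraMap O R) ≤ Ideal.span {ϖ} := by
        rw [Ideal.map_le_iff_le_comap, ← hirr.maximalIdeal_eq]
        intro c hc
        rw [Ideal.mem_comap]
        exact (IsLocalization.AtPrime.to_map_mem_maximal_iff R 𝔭 c).2 hc
      intro c hc y hy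
      have hc1 : ∃ r : R, algebraMap O R c = ϖ ^ k * r := by
        have h1 : algebraMap O R c ∈ Ideal.span {ϖ ^ k} := by
          rw [← Ideal.span_singleton_pow]
          apply Ideal.pow_right_mono hmap
          rw [← Ideal.map_pow]
          exact Ideal.mem_map_of_mem _ hc
        obtain ⟨r, hr⟩ := Ideal.mem_span_singleton.1 h1
        exact ⟨r, hr⟩
      obtain ⟨r, hr⟩ := hc1
      show c • y ∈ Submodule.span R (∏ k, Φ k)
      have hy' : y ∈ Submodule.span R (Set.range x ^ D) := Submodule.span_subset_span O R _ hy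
      have h2 : c • y = r • (algebraMap R F ϖ ^ k * y) := by
        rw [Algebra.smul_def, Algebra.smul_def, hOF, hr, map_mul, map_pow]
        ring
      rw [h2]
      exact Submodule.smul_mem _ _ (hpk y hy')
    · intro M hMP hM2 f hfM hf q hqp hq
      obtain ⟨𝒪, hloc, hR, hRU, hloc2, hG', hreg⟩ := transfer (R := R) 𝔭 M (∏ k, Φ k)
        (fun y hy => hMP hy) (fun y hy => hM2 y hy) f q hq
      apply hreg
      have hcrel : (∑ z : ZT Z, algebraMap R F (c z) * x z ^ m) +
          algebraMap R F ϖ * phT m c Z x = 0 := by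
        have h1 : (∑ z : ZT Z, algebraMap R F (c z) * x z ^ m) =
            ∑ i, if i ∈ Z then algebraMap R F (c i) * x i ^ m else 0 := by
          rw [← Finset.sum_filter, Finset.filter_mem_eq_inter, Finset.univ_inter]
          exact Finset.sum_coe_sort Z (fun i => algebraMap R F (c i) * x i ^ m)
        rw [h1, phT, Finset.mul_sum, ← Finset.sum_add_distrib]
        refine Eq.trans (Finset.sum_congr rfl fun i _ => ?_) hrelR
        by_cases hi : i ∈ Z
        · rw [if_pos hi, if_pos hi, mul_zero, add_zero, ← hc1 i ((hZ i).1 hi)]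
        · rw [if_neg hi, if_neg hi, zero_add, hc2 i (fun h => hi ((hZ i).2 h)),
            map_mul (algebraMap R F), mul_assoc]
      have hLD : LocT 𝒪 m h ϖ c Z x :=
        ⟨hloc, hR, hirr, hmu, hh, hmh, hcu, fun h => hirr.not_isUnit (hRU _ h), hϖF, hZne, hcrel,
          hind⟩
      exact hL 𝒪 m h ϖ c Z x hLD Φ hΦ f hf (hMP hfM) hG' hloc2

end Pool.Agent.H945R2.E
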