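import Pool.Agent.H945R2.E.Props

/-! BIL: the form `g` is quadratic for `p = 2` (helper228). -/

set_option autoImplicit false

open scoped Pointwise

namespace Pool.Agent.H945R2.E

open Pool.Agent.H918R2.Quad Pool.Agent.H945R2.D Pool.Agent.H945R2.S MvPolynomial

theorem BIL_ok : S_BIL := by
  intro R ι _ _ _ p hp co g hco B _ _ x y
  subst hp
  have hrel : (C ((2 : ℕ) : R)) * g = ∑ i, C (co i) * X i ^ 2 - (∑ i, X i) ^ 2 := hco.rel
  have hne : ((2 : ℕ) : R) ≠ 0 := hco.ne
  -- the universal identity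
  have huniv : aeval (fun i => (X (Sum.inl i) + X (Sum.inr i) : MvPolynomial (ι ⊕ ι) R)) g =
      aeval (fun i => (X (Sum.inl i) : MvPolynomial (ι ⊕ ι) R)) g +
      aeval (fun i => (X (Sum.inr i) : MvPolynomial (ι ⊕ ι) R)) g +
      ∑ i, C (co i) * X (Sum.inl i) * X (Sum.inr i) -
      (∑ i, X (Sum.inl i)) * ∑ i, X (Sum.inr i) := by
    have h2 : (C ((2 : ℕ) : R) : MvPolynomial (ι ⊕ ι) R) ≠ 0 := by
      intro h
      exact hne ((map_eq_zero_iff C (C_injective _ R)).1 h)
    apply mul_left_cancel₀ h2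
    have e : ∀ z : ι → MvPolynomial (ι ⊕ ι) R, C ((2 : ℕ) : R) * aeval z g =
        ∑ i, C (co i) * z i ^ 2 - (∑ i, z i) ^ 2 := by
      intro z
      have h := congrArg (aeval z) hrel
      simpa only [map_mul, map_sub, map_sum, map_pow, aeval_X, aeval_C, algebraMap_eq] using h
    rw [mul_sub, mul_add, mul_add, e, e, e]
    have e2 : (C ((2 : ℕ) : R) : MvPolynomial (ι ⊕ ι) R) = 2 := by
      rw [map_natCast]; norm_num
    rw [e2, Finset.sum_add_distrib]
    have e3 : ∑ i, C (co i) * (X (Sum.inl i) + X (Sum.inr i) : MvPolynomial (ι ⊕ ι) R) ^ 2 =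
        ∑ i, C (co i) * X (Sum.inl i) ^ 2 + ∑ i, C (co i) * X (Sum.inr i) ^ 2 +
        2 * ∑ i, C (co i) * X (Sum.inl i) * X (Sum.inr i) := by
      rw [Finset.mul_sum, ← Finset.sum_add_distrib, ← Finset.sum_add_distrib]
      exact Finset.sum_congr rfl fun i _ => by ring
    rw [e3]
    ring
  have h := congrArg (aeval (Sum.elim x y) : MvPolynomial (ι ⊕ ι) R →ₐ[R] B) huniv
  rw [map_sub, map_add, map_add, MvPolynomial.comp_aeval_apply, MvPolynomial.comp_aeval_apply,
    MvPolynomial.comp_aeval_apply] at h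
  simpa only [map_mul, map_sub, map_add, map_sum, aeval_X, aeval_C, Sum.elim_inl,
    Sum.elim_inr] using h

end Pool.Agent.H945R2.E
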