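import Pool.Agent.H945R2.E.Props
import Pool.Agent.H945R2.S.BL4

/-! BL5. Regularity of the blow-up of a nondegenerate quadric, with two additional smooth
relations. -/

set_option autoImplicit false

open scoped Pointwise

namespace Pool.Agent.H945R2.E

open Pool.Agent.H918R2.Quad Pool.Agent.H945R2.D Pool.Agent.H945R2.S MvPolynomial

namespace BL5aux

/-- A derivation maps the square of an ideal into the ideal. -/
theorem deriv_sq {S W : Type} [CommRing S] [CommRing W] [Algebra S W] (D : Derivation S W W)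
    (P : Ideal W) {x : W} (hx : x ∈ P ^ 2) : D x ∈ P := by
  rw [pow_two] at hx
  refine Submodule.mul_induction_on hx (fun a ha b hb => ?_) (fun a b ha hb => ?_)
  · rw [Derivation.leibniz, smul_eq_mul, smul_eq_mul]
    exact P.add_mem (P.mul_mem_right _ ha) (P.mul_mem_right _ hb)
  · rw [map_add]
    exact P.add_mem ha hb

/-- The derivative of a combination of four elements of an ideal. -/
theorem deriv_comb {S W : Type} [CommRing S] [CommRing W] [Algebra S W] (D : Derivation S W W)
    (P : Ideal W) {c₀ c₁ c₂ c₃ a₀ a₁ a₂ a₃ : W} (h0 : a₀ ∈ P) (h1 : a₁ ∈ P) (h2 : a₂ ∈ P)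
    (h3 : a₃ ∈ P) (hx : c₀ * a₀ + c₁ * a₁ + c₂ * a₂ + c₃ * a₃ ∈ P ^ 2) :
    c₀ * D a₀ + c₁ * D a₁ + c₂ * D a₂ + c₃ * D a₃ ∈ P := by
  have h := deriv_sq D P hx
  simp only [map_add, Derivation.leibniz, smul_eq_mul] at h
  have h5 : c₀ * D a₀ + c₁ * D a₁ + c₂ * D a₂ + c₃ * D a₃ =
      (c₀ * D a₀ + a₀ * D c₀ + (c₁ * D a₁ + a₁ * D c₁) + (c₂ * D a₂ + a₂ * D c₂) +
        (c₃ * D a₃ + a₃ * D c₃)) - (a₀ * D c₀ + a₁ * D c₁ + a₂ * D c₂ + a₃ * D c₃) := by
    ring
  rw [h5]
  exact P.sub_mem h (P.add_mem (P.add_mem (P.add_mem (P.mul_mem_right _ h0)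
    (P.mul_mem_right _ h1)) (P.mul_mem_right _ h2)) (P.mul_mem_right _ h3))

end BL5aux

open BL5aux BL4aux

theorem BL5_ok (h1 : S_REGQ) (h2 : S_PIN) : S_BL5 := by
  intro R A κ σ _ _ _ _ _ _ π hπ Q hQ ν hν pr hpr h h₁ E₁ h₂ E₂ G hker q _ hX hGq hG' hk i₁ i₂
    hi₁ hi₂ hi₁₂ hE₁ hE₂
  classical
  have hE : pr (∑ k, ∑ l, C (Q k l) * Yv ν k * Yv ν l + G) = 0 := by
    rw [← RingHom.mem_ker, hker]
    exact Ideal.subset_span (by simp)
  have hπE : pr (C π - X none * h) = 0 := by
    rw [← RingHom.mem_ker, hker]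
    exact Ideal.subset_span (by simp)
  have hE1 : pr (E₁ + X none * h₁) = 0 := by
    rw [← RingHom.mem_ker, hker]
    exact Ideal.subset_span (by simp)
  have hE2 : pr (E₂ + X none * h₂) = 0 := by
    rw [← RingHom.mem_ker, hker]
    exact Ideal.subset_span (by simp)
  obtain ⟨k, i, hki, hgrad⟩ := exists_grad π Q hQ ν hν pr h G hπE hE q hX hGq hG' hk
  set QG : MvPolynomial (Option σ) R := ∑ k, ∑ l, C (Q k l) * Yv ν k * Yv ν l + G with hQG
  set P : Ideal (MvPolynomial (Option σ) R) := q.comap pr with hP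
  have : P.IsPrime := Ideal.comap_isPrime pr q
  have hXP : (X none : MvPolynomial (Option σ) R) ∈ P := hX
  have mem0 : ∀ {x : MvPolynomial (Option σ) R}, pr x = 0 → x ∈ P := by
    intro x hx
    rw [hP, Ideal.mem_comap, hx]
    exact q.zero_mem
  have a0 : C π - X none * h ∈ P := mem0 hπE
  have a1 : E₁ + X none * h₁ ∈ P := mem0 hE1
  have a2 : E₂ + X none * h₂ ∈ P := mem0 hE2
  have a3 : QG ∈ P := mem0 hE
  refine h1 pr hpr 4 ![C π - X none * h, E₁ + X none * h₁, E₂ + X none * h₂, QG] ?_ q ?_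
  · rw [hker]
    congr 1
    ext x
    simp only [Set.mem_insert_iff, Set.mem_singleton_iff, Set.mem_range]
    constructor
    · rintro (rfl | rfl | rfl | rfl)
      · exact ⟨0, rfl⟩
      · exact ⟨1, rfl⟩
      · exact ⟨2, rfl⟩
      · exact ⟨3, rfl⟩
    · rintro ⟨j, rfl⟩
      fin_cases j <;> simp
  · intro c hc
    simp only [Fin.sum_univ_four, Matrix.cons_val_zero, Matrix.cons_val_one, Matrix.cons_val]
      at hc
    have d0 : ∀ j : σ, pderiv (some j) (C π - X none * h) ∈ P := by
      intro j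
      rw [map_sub, pderiv_C, BL4aux.pderiv_none, zero_sub]
      exact P.neg_mem (P.mul_mem_right _ hXP)
    have dE : ∀ (j : σ) (E₀ h₀ : MvPolynomial (Option σ) R), pderiv (some j) (E₀ + X none * h₀) =
        pderiv (some j) E₀ + X none * pderiv (some j) h₀ := by
      intro j E₀ h₀
      rw [map_add, BL4aux.pderiv_none]
    have comb : ∀ j : σ, c 1 * pderiv (some j) E₁ + c 2 * pderiv (some j) E₂ +
        c 3 * pderiv (some j) QG ∈ P := by
      intro j
      have h4 := deriv_comb (pderiv (some j)) P a0 a1 a2 a3 hc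
      rw [dE, dE] at h4
      have e5 : c 1 * pderiv (some j) E₁ + c 2 * pderiv (some j) E₂ + c 3 * pderiv (some j) QG =
          (c 0 * pderiv (some j) (C π - X none * h) +
            c 1 * (pderiv (some j) E₁ + X none * pderiv (some j) h₁) +
            c 2 * (pderiv (some j) E₂ + X none * pderiv (some j) h₂) +
            c 3 * pderiv (some j) QG) - (c 0 * pderiv (some j) (C π - X none * h) +
              X none * (c 1 * pderiv (some j) h₁ + c 2 * pderiv (some j) h₂)) := by
        ring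
      rw [e5]
      exact P.sub_mem h4 (P.add_mem (P.mul_mem_left _ (d0 j)) (P.mul_mem_right _ hXP))
    have hc3 : c 3 ∈ P := by
      have h4 := comb i
      have h5 : c 3 * pderiv (some i) QG ∈ P :=
        (Ideal.add_mem_iff_right _ (P.add_mem (P.mul_mem_left _ (hE₁ k i hki))
          (P.mul_mem_left _ (hE₂ k i hki)))).1 h4
      exact (Ideal.IsPrime.mem_or_mem inferInstance h5).resolve_right hgrad
    have hc2 : c 2 ∈ P := by
      have h4 := comb i₂
      have h5 := (Ideal.add_mem_iff_left _ (P.mul_mem_right _ hc3)).1 h4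
      have h6 : c 2 * pderiv (some i₂) E₂ ∈ P :=
        (Ideal.add_mem_iff_right _ (P.mul_mem_left _ hi₁₂)).1 h5
      exact (Ideal.IsPrime.mem_or_mem inferInstance h6).resolve_right hi₂
    have hc1 : c 1 ∈ P := by
      have h4 := comb i₁
      have h5 := (Ideal.add_mem_iff_left _ (P.mul_mem_right _ hc3)).1 h4
      have h6 : c 1 * pderiv (some i₁) E₁ ∈ P :=
        (Ideal.add_mem_iff_left _ (P.mul_mem_right _ hc2)).1 h5
      exact (Ideal.IsPrime.mem_or_mem inferInstance h6).resolve_right hi₁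
    have hsq : ∀ {x y : MvPolynomial (Option σ) R}, x ∈ P → y ∈ P → x * y ∈ P ^ 2 := by
      intro x y hx hy
      rw [pow_two]
      exact Ideal.mul_mem_mul hx hy
    have hc0' : c 0 * (C π - X none * h) ∈ P ^ 2 := by
      have e5 : c 0 * (C π - X none * h) = (c 0 * (C π - X none * h) +
          c 1 * (E₁ + X none * h₁) + c 2 * (E₂ + X none * h₂) + c 3 * QG) -
          (c 1 * (E₁ + X none * h₁) + c 2 * (E₂ + X none * h₂) + c 3 * QG) := by
        ring
      rw [e5]
      exact Ideal.sub_mem _ hc (Ideal.add_mem _ (Ideal.add_mem _ (hsq hc1 a1) (hsq hc2 a2))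
        (hsq hc3 a3))
    have hc0h : c 0 * h ∈ P := by
      have h4 := deriv_sq (pderiv none) P hc0'
      rw [Derivation.leibniz, map_sub, pderiv_C, Derivation.leibniz, pderiv_X_self] at h4
      simp only [smul_eq_mul] at h4
      have e5 : c 0 * h = (C π - X none * h) * pderiv none (c 0) -
          X none * (c 0 * pderiv none h) -
          (c 0 * (0 - (X none * pderiv none h + h * 1)) +
            (C π - X none * h) * pderiv none (c 0)) := by
        ring
      rw [e5]
      exact P.sub_mem (P.sub_mem (P.mul_mem_right _ a0) (P.mul_mem_right _ hXP)) h4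
    have hCπ : (C π : MvPolynomial (Option σ) R) ∈ P := by
      have e5 : (C π : MvPolynomial (Option σ) R) = (C π - X none * h) + X none * h := by ring
      rw [e5]
      exact P.add_mem a0 (P.mul_mem_right _ hXP)
    have hc0π : c 0 * C π ∈ P ^ 2 := by
      have e5 : c 0 * C π = c 0 * (C π - X none * h) + X none * (c 0 * h) := by ring
      rw [e5]
      exact Ideal.add_mem _ hc0' (hsq hXP hc0h)
    have hc0 : c 0 ∈ P := h2 π hπ P hCπ (c 0) hc0π
    intro j
    fin_cases j
    · exact hc0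
    · exact hc1
    · exact hc2
    · exact hc3

end Pool.Agent.H945R2.E
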