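import Pool.Agent.H945R2.E.Props

/-! BLS1': principal ideals, transfer 1 (adapted from the file of helper778). -/

set_option autoImplicit false

open scoped Pointwise

namespace Pool.Agent.H945R2.E

open Pool.Agent.H918R2.Quad Pool.Agent.H945R2.D Pool.Agent.H945R2.S MvPolynomial

theorem BLS3_ok : S_BLS1' := by
  intro R F _ _ _ 𝒪 hl 𝒲 hW Φ Ψ hPr hE
  obtain ⟨g, hg, hg0, hgΦ⟩ := hPr
  obtain ⟨m, hm0, hm1, hm2⟩ := hE
  obtain ⟨g0, hg0span, hgeq⟩ := hm1 g hg
  have hg00 : g0 ≠ 0 := by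
    rintro rfl
    exact hg0 (by rw [hgeq, mul_zero])
  have hspan : ∀ y ∈ Submodule.span 𝒪 Φ, y / g ∈ 𝒪 := by
    intro y hy
    induction hy using Submodule.span_induction with
    | mem x hx => exact hgΦ x hx
    | zero => rw [zero_div]; exact 𝒪.zero_mem
    | add x y _ _ hx hy => rw [add_div]; exact 𝒪.add_mem hx hy
    | smul a x _ hx =>
      have h1 : (a • x) / g = (a : F) * (x / g) := by
        rw [Subring.smul_def, smul_eq_mul, mul_div_assoc]
      rw [h1]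
      exact 𝒪.mul_mem a.2 hx
  have hz : ∀ z ∈ Ψ, z / g0 ∈ 𝒪 := by
    intro z hz
    have h1 : z / g0 = (m * z) / g := by
      rw [hgeq]; field_simp
    rw [h1]
    exact hspan _ (hm2 z hz)
  obtain ⟨z, hzΨ, hU⟩ := exists_U_gen (R := 𝒲) hl (fun r => hW _ r.2) Ψ g0 hg00 hz hg0span
  have hz0 : z ≠ 0 := by
    rintro rfl
    exact hU.1 (by rw [zero_div])
  refine ⟨z, hzΨ, hz0, fun z' hz' => ?_⟩
  have : z' / z = (z' / g0) * (z / g0)⁻¹ := by
    field_simp
  rw [this]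
  exact 𝒪.mul_mem (hz z' hz') hU.2.2

end Pool.Agent.H945R2.E
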