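import Pool.Agent.H945R2.E.Props

/-! BLS2': principal ideals, transfer 2 (helper726 for helper945). -/

set_option autoImplicit false

open scoped Pointwise

namespace Pool.Agent.H945R2.E

open Pool.Agent.H918R2.Quad Pool.Agent.H945R2.D Pool.Agent.H945R2.S MvPolynomial

theorem BLS4_ok : S_BLS2' := by
  intro R F _ _ _ 𝒪 hloc 𝒲 𝒲' hW' hle Φ Ψ hP hE
  obtain ⟨m', hm'0, hm'1, z₀, hz₀, hU⟩ := hP
  obtain ⟨m, hm0, hm1, hm2⟩ := hE
  have hmm : m * m' ≠ 0 := mul_ne_zero hm0 hm'0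
  have hspan : ∀ g ∈ Submodule.span 𝒲 Ψ, g / m' ∈ 𝒲' := by
    intro g hg
    induction hg using Submodule.span_induction with
    | mem x hx => exact hm'1 x hx
    | zero => rw [zero_div]; exact 𝒲'.zero_mem
    | add x y _ _ hx hy => rw [add_div]; exact 𝒲'.add_mem hx hy
    | smul a x _ hx =>
      have h1 : a • x = (a : F) * x := rfl
      rw [h1, mul_div_assoc]
      exact 𝒲'.mul_mem (hle a.2) hx
  have hmem : ∀ h ∈ Φ, h / (m * m') ∈ 𝒲' := by
    intro h hh
    obtain ⟨g, hg, rfl⟩ := hm1 h hh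
    rw [mul_div_mul_left _ _ hm0]
    exact hspan g hg
  refine ⟨m * m', hmm, hmem, ?_⟩
  by_contra hcon
  push Not at hcon
  have key : ∀ x ∈ Submodule.span 𝒪 Φ, x / (m * m') ∈ 𝒪 ∧ ¬ U 𝒪 (x / (m * m')) := by
    intro x hx
    induction hx using Submodule.span_induction with
    | mem x hx => exact ⟨hW' _ (hmem x hx), hcon x hx⟩
    | zero => rw [zero_div]; exact ⟨𝒪.zero_mem, not_U_zero⟩
    | add x y _ _ hx hy =>
      rw [add_div]
      refine ⟨𝒪.add_mem hx.1 hy.1, fun h => ?_⟩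
      rcases hloc _ _ hx.1 hy.1 h with h | h
      · exact hx.2 h
      · exact hy.2 h
    | smul a x _ hx =>
      have h1 : a • x = (a : F) * x := rfl
      rw [h1, mul_div_assoc]
      exact ⟨𝒪.mul_mem a.2 hx.1, fun h => hx.2 (U.of_mul_right a.2 hx.1 h)⟩
  apply (key _ (hm2 z₀ hz₀)).2
  rw [mul_div_mul_left _ _ hm0]
  exact hU

end Pool.Agent.H945R2.E
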