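import Pool.Agent.H945R2.E.Props
import Pool.Agent.H945R2.S.DEGS

/-! DEGE: degrees of the factors, `p = 2`. -/

set_option autoImplicit false

open scoped Pointwise

namespace Pool.Agent.H945R2.E

open Pool.Agent.H918R2.Quad Pool.Agent.H945R2.D Pool.Agent.H945R2.S MvPolynomial

namespace DEGEaux

open Pool.Agent.H945R2.S.DEGSaux

variable {R F ι : Type} [CommRing R] [Field F] [Algebra R F]

/-- The base factor `B2` has degree `2 e`. -/
theorem base2 [Fintype ι] (p e : ℕ) (x : ι → F) (u : ι → R) (s : ι) (c : ι → ℕ) (β : R) :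
    In R x (B2 p e x (fun i => algebraMap R F (u i) * x i ^ e) s c (algebraMap R F β))
      (2 * e) := by
  have hX : ∀ i, algebraMap R F (u i) * x i ^ e ∈ Submodule.span R (Set.range x) ^ e :=
    X_mem x u e
  have hsum : ∑ i, algebraMap R F (u i) * x i ^ e ∈ Submodule.span R (Set.range x) ^ e :=
    Submodule.sum_mem _ fun i _ => hX i
  have hdif : ∀ i, algebraMap R F (u i) * x i ^ e - (c i : F) * (algebraMap R F (u s) * x s ^ e) ∈
      Submodule.span R (Set.range x) ^ e := fun i =>
    Submodule.sub_mem _ (hX i) (natmul_mem _ (hX s))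
  have h2 : ∀ {a b : F}, a ∈ Submodule.span R (Set.range x) ^ e →
      b ∈ Submodule.span R (Set.range x) ^ e → a * b ∈ Submodule.span R (Set.range x) ^ (2 * e) := by
    intro a b ha hb
    have := Submodule.mul_mem_mul ha hb
    rwa [← pow_add, ← two_mul] at this
  rintro h (⟨y, hy, rfl⟩ | rfl | ⟨i, y, hy, rfl⟩)
  · exact natpow_mem p 3 (In_rangepow x _ y hy)
  · refine Submodule.add_mem _ (Submodule.add_mem _ ?_ ?_) ?_
    · rw [pow_two]; exact h2 hsum hsum
    · have := natmul_mem p (h2 hsum (hX s))
      rwa [← mul_assoc] at this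
    · have h1 : algebraMap R F β * (algebraMap R F (u s) * x s ^ e) ^ 2 ∈
          Submodule.span R (Set.range x) ^ (2 * e) := by
        rw [← Algebra.smul_def]
        refine Submodule.smul_mem _ _ ?_
        rw [pow_two]; exact h2 (hX s) (hX s)
      have := natpow_mem p 2 h1
      rwa [← mul_assoc] at this
  · have := natpow_mem p 2 (h2 (hdif i) (In_rangepow (R := R) x _ y hy))
    rwa [← mul_assoc] at this

end DEGEaux

open Pool.Agent.H945R2.S.DEGSaux DEGEaux in
theorem DEGE_ok : S_DEGE := by
  intro R F ι _ _ _ _ _ p e h hp hh he g x u S hS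
  have hone : (1 : F) ∈ Submodule.span R (Set.range x) ^ 0 := by
    rw [pow_zero]; exact Submodule.one_le.mp le_rfl
  rcases hS with rfl | rfl | ⟨s, c, β, _, _, hS⟩
  · refine ⟨1, fun h hh => ?_, 0, fun y hy => ?_⟩
    · rw [pow_one]
      exact Submodule.subset_span hh
    · rw [pow_one] at hy
      rw [pow_zero, one_mul]
      exact Submodule.subset_span hy
  · refine ⟨e * 1, fun h hh => ?_, 1, fun y hy => ?_⟩
    · rw [← Submodule.span_pow]
      rcases hh with ⟨y, hy, rfl⟩ | rfl
      · exact natmul_mem p (In_rangepow x _ y hy)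
      · rw [pow_mul]
        exact Submodule.pow_mem_pow _ (Submodule.sum_mem _ fun i _ => X_mem x u e i) 1
    · refine Submodule.subset_span (Or.inl ⟨y, hy, ?_⟩)
      rw [pow_one]
  · have hIn : In R x (B2 p e x (fun i => algebraMap R F (u i) * x i ^ e) s c
      (algebraMap R F β)) (2 * e) := base2 p e x u s c β
    have hp3 : ∀ y ∈ Set.range x ^ (2 * e), (p : F) ^ 3 * y ∈
        B2 p e x (fun i => algebraMap R F (u i) * x i ^ e) s c (algebraMap R F β) :=
      fun y hy => Or.inl ⟨y, hy, rfl⟩
    have hμ : (p : F) ^ 2 ∈ Submodule.span R (Set.range x) ^ 0 := by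
      have := natpow_mem p 2 hone
      rwa [mul_one] at this
    generalize hB : B2 p e x (fun i => algebraMap R F (u i) * x i ^ e) s c
      (algebraMap R F β) = B at hS hIn hp3
    generalize hm : (p : F) ^ 2 = μ at hS hμ
    have hY : In R x (Yc x c) 1 := by
      rintro y ⟨i, _, rfl⟩
      exact In_range x _ ⟨i, rfl⟩
    have hV : In R x (Set.range x) 1 := In_range x
    have hdeg : ∀ {S : Set F} {d d' : ℕ}, In R x S d → d = d' → In R x S d' := by
      intro S d d' h1 h2
      rwa [← h2]
    rcases hS with ⟨k, hk1, hk2, rfl⟩ | rfl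
    · refine ⟨2 * e, ?_, 3, ?_⟩
      · rw [← Submodule.span_pow]
        refine In_union hIn (hdeg (In_mul (In_mul (In_sing hμ) (In_pow hY k))
          (In_pow hV (2 * e - k))) ?_)
        omega
      · intro y hy
        exact Submodule.subset_span (Or.inl (hp3 y hy))
    · have hf : fc (fun i => algebraMap R F (u i) * x i ^ e) c ∈
          Submodule.span R (Set.range x) ^ e := by
        unfold fc
        refine Submodule.sum_mem _ fun i _ => ?_
        by_cases hc : c i = 0
        · rw [if_pos hc]; exact X_mem x u e i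
        · rw [if_neg hc]; exact Submodule.zero_mem _
      have hμk : ∀ k, μ ^ k ∈ Submodule.span R (Set.range x) ^ (0 * k) := by
        intro k
        rw [pow_mul]
        exact Submodule.pow_mem_pow _ hμ k
      refine ⟨3 * (2 * e), ?_, 9, ?_⟩
      · rw [← Submodule.span_pow]
        unfold Cd
        refine In_union (In_union (In_union (In_union ?_ ?_) ?_) ?_) ?_
        · exact hdeg (In_pow hIn 3) (by ring)
        · refine hdeg (In_mul (In_mul (In_mul (In_pow hIn 2) (In_sing hμ)) hY)
            (In_pow hV (2 * e - 1))) ?_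
          omega
        · refine hdeg (In_mul (In_mul (In_mul hIn (In_sing (hμk 2))) (In_pow hY (h + 1)))
            (In_pow hV (2 * (2 * e) - h - 1))) ?_
          omega
        · refine hdeg (In_mul (In_mul (In_sing (hμk 3)) (In_pow hY (2 * h + 2)))
            (In_pow hV (3 * (2 * e) - 2 * h - 2))) ?_
          omega
        · have h3 := Submodule.mul_mem_mul (hμk 3) hf
          rw [← pow_add] at h3
          refine hdeg (In_mul (In_sing h3) (In_pow hV (3 * (2 * e) - 2 * h - 1))) ?_
          omega
      · intro y hy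
        refine Submodule.subset_span ?_
        unfold Cd
        refine Or.inl (Or.inl (Or.inl (Or.inl ?_)))
        have e3 : 3 * (2 * e) = 2 * e + 2 * e + 2 * e := by ring
        rw [e3, pow_add, pow_add] at hy
        obtain ⟨_, ⟨y₁, hy₁, y₂, hy₂, rfl⟩, y₃, hy₃, rfl⟩ := hy
        have e4 : B ^ 3 = B * B * B := by rw [pow_succ, pow_two]
        rw [e4]
        refine ⟨_, ⟨_, hp3 y₁ hy₁, _, hp3 y₂ hy₂, rfl⟩, _, hp3 y₃ hy₃, ?_⟩
        simp only
        ring

end Pool.Agent.H945R2.E
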