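import Pool.Agent.H945R2.E.PropsT
import Pool.Agent.H945R2.S.DEGS

/-! DEGT: degrees of the factors, tame primes. -/

set_option autoImplicit false

open scoped Pointwise

namespace Pool.Agent.H945R2.E

open Pool.Agent.H918R2.Quad Pool.Agent.H945R2.D Pool.Agent.H945R2.S MvPolynomial

namespace DEGTaux

open Pool.Agent.H945R2.S.DEGSaux

variable {R F ι : Type} [CommRing R] [Field F] [Algebra R F]

theorem amul_mem {M : Submodule R F} (r : R) {y : F} (hy : y ∈ M) : algebraMap R F r * y ∈ M := by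
  rw [← Algebra.smul_def]
  exact Submodule.smul_mem _ _ hy

theorem baseT [Fintype ι] [DecidableEq ι] (ϖ : R) (m : ℕ) (b : ι → R) (Z : Finset ι) (x : ι → F) :
    In R x (BT ϖ m b Z x) m := by
  rintro h (⟨y, hy, rfl⟩ | rfl)
  · exact amul_mem ϖ (In_rangepow x _ y hy)
  · refine Submodule.sum_mem _ fun i _ => ?_
    by_cases hi : i ∈ Z
    · rw [if_pos hi]; exact Submodule.zero_mem _
    · rw [if_neg hi]; exact X_mem x b m i

end DEGTaux

open Pool.Agent.H945R2.S.DEGSaux DEGTaux in
theorem DEGT_ok : S_DEGT := by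
  intro R F ι _ _ _ _ _ m h hh hmh ϖ b Z x S hS
  have hone : (1 : F) ∈ Submodule.span R (Set.range x) ^ 0 := by
    rw [pow_zero]; exact Submodule.one_le.mp le_rfl
  have hIn : In R x (BT ϖ m b Z x) m := baseT ϖ m b Z x
  have hp1 : ∀ y ∈ Set.range x ^ m, algebraMap R F ϖ * y ∈ BT ϖ m b Z x :=
    fun y hy => Or.inl ⟨y, hy, rfl⟩
  have hY : In R x (YT Z x) 1 := by
    rintro y ⟨i, _, rfl⟩
    exact In_range x _ ⟨i, rfl⟩
  have hV : In R x (Set.range x) 1 := In_range x
  have hdeg : ∀ {S : Set F} {d d' : ℕ}, In R x S d → d = d' → In R x S d' := by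
    intro S d d' h1 h2
    rwa [← h2]
  rcases hS with rfl | ⟨k, hk1, hk2, rfl⟩ | ⟨hm, rfl⟩
  · refine ⟨1, fun h hh => ?_, 0, fun y hy => ?_⟩
    · rw [pow_one]
      exact Submodule.subset_span hh
    · rw [pow_one] at hy
      rw [pow_zero, one_mul]
      exact Submodule.subset_span hy
  · refine ⟨m, ?_, 1, ?_⟩
    · rw [← Submodule.span_pow]
      refine In_union hIn (hdeg (In_mul (In_mul (In_sing hone) (In_pow hY k))
        (In_pow hV (m - k))) ?_)
      omega
    · intro y hy
      rw [pow_one]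
      exact Submodule.subset_span (Or.inl (hp1 y hy))
  · have hf : fT m b Z x ∈ Submodule.span R (Set.range x) ^ m := by
      unfold fT
      refine Submodule.sum_mem _ fun i _ => ?_
      by_cases hi : i ∈ Z
      · rw [if_pos hi]; exact X_mem x b m i
      · rw [if_neg hi]; exact Submodule.zero_mem _
    have hμk : ∀ k : ℕ, (1 : F) ^ k ∈ Submodule.span R (Set.range x) ^ 0 := by
      intro k
      rw [one_pow]
      exact hone
    generalize hB : BT ϖ m b Z x = B at hIn hp1
    refine ⟨3 * m, ?_, 3, ?_⟩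
    · rw [← Submodule.span_pow]
      unfold Cd
      refine In_union (In_union (In_union (In_union ?_ ?_) ?_) ?_) ?_
      · exact hdeg (In_pow hIn 3) (by ring)
      · refine hdeg (In_mul (In_mul (In_mul (In_pow hIn 2) (In_sing hone)) hY)
          (In_pow hV (m - 1))) ?_
        omega
      · refine hdeg (In_mul (In_mul (In_mul hIn (In_sing (hμk 2))) (In_pow hY (h + 1)))
          (In_pow hV (2 * m - h - 1))) ?_
        omega
      · refine hdeg (In_mul (In_mul (In_sing (hμk 3)) (In_pow hY (2 * h + 2)))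
          (In_pow hV (3 * m - 2 * h - 2))) ?_
        omega
      · have h3 := Submodule.mul_mem_mul (hμk 3) hf
        rw [← pow_add] at h3
        refine hdeg (In_mul (In_sing h3) (In_pow hV (3 * m - 2 * h - 1))) ?_
        omega
    · intro y hy
      refine Submodule.subset_span ?_
      unfold Cd
      refine Or.inl (Or.inl (Or.inl (Or.inl ?_)))
      have e3 : 3 * m = m + m + m := by ring
      rw [e3, pow_add, pow_add] at hy
      obtain ⟨_, ⟨y₁, hy₁, y₂, hy₂, rfl⟩, y₃, hy₃, rfl⟩ := hy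
      have e4 : B ^ 3 = B * B * B := by rw [pow_succ, pow_two]
      rw [e4]
      refine ⟨_, ⟨_, hp1 y₁ hy₁, _, hp1 y₂ hy₂, rfl⟩, _, hp1 y₃ hy₃, ?_⟩
      simp only
      ring

end Pool.Agent.H945R2.E
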