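import Pool.Agent.H945R2.E.PropsT

/-! Task DINDT (MP_4d1008_ag). -/

set_option autoImplicit false

open scoped Pointwise

namespace Pool.Agent.H945R2.E

open Pool.Agent.H918R2.Quad Pool.Agent.H945R2.D Pool.Agent.H945R2.S MvPolynomial

namespace DINDTaux

theorem card_ne {ι : Type} [Fintype ι] [DecidableEq ι] (s : ι) (inst : Fintype {i : ι // i ≠ s}) :
    @Fintype.card {i : ι // i ≠ s} inst + 1 = Fintype.card ι := by
  have h1 : @Fintype.card {i : ι // i ≠ s} inst = (Finset.univ.erase s).card := by
    rw [Fintype.card_subtype]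
    congr 1
    ext i
    simp
  rw [h1, Finset.card_erase_of_mem (Finset.mem_univ s), Finset.card_univ]
  have : 0 < Fintype.card ι := Fintype.card_pos_iff.2 ⟨s⟩
  omega

theorem card_ne2 {ι : Type} [Fintype ι] [DecidableEq ι] (s d : ι) (hsd : s ≠ d) :
    Fintype.card {i : ι // i ≠ s ∧ i ≠ d} + 2 = Fintype.card ι := by
  have h1 : Fintype.card {i : ι // i ≠ s ∧ i ≠ d} = ((Finset.univ.erase s).erase d).card := by
    rw [Fintype.card_subtype]
    congr 1
    ext i
    simp [and_comm]
  rw [h1, Finset.card_erase_of_mem (by simp [hsd.symm]), Finset.card_erase_of_mem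
    (Finset.mem_univ s), Finset.card_univ]
  have : 1 < Fintype.card ι := Fintype.one_lt_card_iff.2 ⟨s, d, hsd⟩
  omega

end DINDTaux

open DINDTaux

theorem DINDT_ok (hI : S_HIND) : S_DINDT := by
  intro R F ι _ _ _ _ _ _ m hm b Z y s d hsd hdZ hsZ hs hbd ⟨j₀, hj⟩
  classical
  have hinjR : Function.Injective (algebraMap R F) := hj.algebraMap_injective
  refine hI (fun i : {i : {i : ι // i ≠ s} // i ≠ j₀} => y i) (cT y (phT m b Z y)) ?_ hj ?_
  · rw [Fintype.card_option]
    have h1 := card_ne (ι := {i : ι // i ≠ s}) j₀ inferInstance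
    have h2 := card_ne (ι := ι) s inferInstance
    have h3 := card_ne2 s d hsd
    omega
  · have hmem : ∀ i : ι, i ≠ d → y i ∈ Algebra.adjoin R (Set.range (cT (s := s) (d := d) y
        (phT m b Z y))) := by
      intro i hi
      by_cases his : i = s
      · rw [his, hs]
        exact Subalgebra.one_mem _
      · exact Algebra.subset_adjoin ⟨some ⟨i, his, hi⟩, rfl⟩
    have hph : phT m b Z y ∈ Algebra.adjoin R (Set.range (cT (s := s) (d := d) y
        (phT m b Z y))) := Algebra.subset_adjoin ⟨none, rfl⟩
    rintro ⟨⟨i, his⟩, hi⟩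
    change IsAlgebraic _ (y i)
    by_cases hid : i = d
    · subst hid
      obtain ⟨c, hc⟩ : ∃ c : Algebra.adjoin R (Set.range (cT (s := s) (d := i) y
          (phT m b Z y))), (c : F) = (∑ k ∈ Finset.univ.erase i, if k ∈ Z then 0 else
            algebraMap R F (b k) * y k ^ m) - phT m b Z y := by
        refine ⟨⟨_, Subalgebra.sub_mem _ (Subalgebra.sum_mem _ fun k hk => ?_) hph⟩, rfl⟩
        split_ifs
        · exact Subalgebra.zero_mem _
        · exact Subalgebra.mul_mem _ (Subalgebra.algebraMap_mem _ _)
            (Subalgebra.pow_mem _ (hmem k (Finset.ne_of_mem_erase hk)) _)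
      refine ⟨Polynomial.C (algebraMap R _ (b i)) * Polynomial.X ^ m + Polynomial.C c, ?_, ?_⟩
      · intro h
        have h1 := congrArg (fun p => Polynomial.coeff p m) h
        simp only [Polynomial.coeff_add, Polynomial.coeff_C_mul, Polynomial.coeff_X_pow,
          if_true, mul_one, Polynomial.coeff_C, Polynomial.coeff_zero] at h1
        rw [if_neg (by omega), add_zero] at h1
        have h2 := congrArg (fun z : Algebra.adjoin R (Set.range (cT (s := s) (d := i) y
          (phT m b Z y))) => (z : F)) h1
        exact hbd (hinjR (by simpa using h2))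
      · rw [map_add, map_mul, map_pow, Polynomial.aeval_C, Polynomial.aeval_X,
          Polynomial.aeval_C]
        have h3 : algebraMap (Algebra.adjoin R (Set.range (cT (s := s) (d := i) y
          (phT m b Z y)))) F c = (c : F) := rfl
        have h4 : algebraMap (Algebra.adjoin R (Set.range (cT (s := s) (d := i) y
          (phT m b Z y)))) F (algebraMap R _ (b i)) = algebraMap R F (b i) := rfl
        rw [h3, h4, hc]
        have h5 : phT m b Z y = algebraMap R F (b i) * y i ^ m +
            ∑ k ∈ Finset.univ.erase i, if k ∈ Z then 0 else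
              algebraMap R F (b k) * y k ^ m := by
          unfold phT
          rw [← Finset.add_sum_erase _ _ (Finset.mem_univ i), if_neg hdZ]
        rw [h5]
        ring
    · exact isAlgebraic_algebraMap (⟨y i, hmem i hid⟩ : Algebra.adjoin R (Set.range
        (cT (s := s) (d := d) y (phT m b Z y))))

end Pool.Agent.H945R2.E
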