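import Pool.Agent.H945R2.E.Props

/-! EN': the derived factors `N_k` at an exceptional point (helper92, after helper642). -/

set_option autoImplicit false

open scoped Pointwise

namespace Pool.Agent.H945R2.E

open Pool.Agent.H918R2.Quad Pool.Agent.H945R2.D Pool.Agent.H945R2.S MvPolynomial

namespace EN2aux

theorem pow_mem_W {R F : Type} [CommRing R] [Field F] [Algebra R F] (𝒲 : Subalgebra R F)
    (Y : Set F) (hY : ∀ y ∈ Y, y ∈ 𝒲) (k : ℕ) : ∀ y ∈ Y ^ k, y ∈ 𝒲 := by
  induction k with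
  | zero =>
    intro y hy
    rw [pow_zero, Set.mem_one] at hy
    rw [hy]
    exact one_mem _
  | succ k ih =>
    intro y hy
    rw [pow_succ, Set.mem_mul] at hy
    obtain ⟨a, ha, b, hb, rfl⟩ := hy
    exact mul_mem (ih a ha) (hY b hb)

theorem one_mem_pow {F : Type} [Field F] (V : Set F) (h1 : (1 : F) ∈ V) (k : ℕ) :
    (1 : F) ∈ V ^ k := by
  induction k with
  | zero => rw [pow_zero, Set.mem_one]
  | succ k ih =>
    rw [pow_succ, Set.mem_mul]
    exact ⟨1, ih, 1, h1, mul_one 1⟩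

theorem smul_mem_span {R F : Type} [CommRing R] [Field F] [Algebra R F] (𝒲 : Subalgebra R F)
    (S : Set F) (y v : F) (hv : v ∈ 𝒲) (hy : y ∈ Submodule.span 𝒲 S) :
    v * y ∈ Submodule.span 𝒲 S := by
  have := Submodule.smul_mem (Submodule.span 𝒲 S) (⟨v, hv⟩ : 𝒲) hy
  exact this

end EN2aux

open EN2aux

theorem EN2_ok : S_EN' := by
  intro R F _ _ _ 𝒲 𝒪 hW B Q V Y μ e n k hμ hV hY h1 hB hk
  refine ⟨μ, hμ, ?_, ?_⟩
  · intro h hh
    rcases hh with hh | hh
    · obtain ⟨g, hg, rfl⟩ := hB.1 h hh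
      refine ⟨g, ?_, rfl⟩
      have hle : Submodule.span 𝒲 (Q ∪ Y ^ e) ≤ Submodule.span 𝒲 (NS Q Y k) := by
        rw [Submodule.span_le]
        rintro z (hz | hz)
        · exact Submodule.subset_span (Or.inl hz)
        · obtain ⟨m, rfl⟩ := Nat.exists_eq_add_of_le hk
          rw [pow_add, Set.mem_mul] at hz
          obtain ⟨u, hu, v, hv, rfl⟩ := hz
          rw [mul_comm]
          exact smul_mem_span 𝒲 _ u v (pow_mem_W 𝒲 Y hY m v hv)
            (Submodule.subset_span (Or.inr hu))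
      exact hle hg
    · rw [Set.mem_mul] at hh
      obtain ⟨w, hw, v, hv, rfl⟩ := hh
      rw [Set.mem_mul] at hw
      obtain ⟨m, hm, y, hy, rfl⟩ := hw
      rw [Set.mem_singleton_iff] at hm
      subst hm
      refine ⟨v * y, ?_, ?_⟩
      · exact smul_mem_span 𝒲 _ y v (pow_mem_W 𝒲 V hV _ v hv)
          (Submodule.subset_span (Or.inr hy))
      · ring
  · intro z hz
    rcases hz with hz | hz
    · exact Submodule.span_mono (fun x hx => Or.inl hx) (hB.2 z hz)
    · refine Submodule.subset_span (Or.inr ?_)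
      rw [Set.mem_mul]
      refine ⟨μ * z, ?_, 1, one_mem_pow V h1 _, mul_one _⟩
      rw [Set.mem_mul]
      exact ⟨μ, Set.mem_singleton _, z, hz, rfl⟩

end Pool.Agent.H945R2.E
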