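import Pool.Agent.H945R2.E.Props
import Pool.Agent.H945R2.S.EXPLZ
import Pool.Agent.H945R2.D.HOM

/-! EXPLE: first order expansion of the third relation, `p = 2` (helper64). Adapted from
`S/EXPLZ.lean`. -/

set_option autoImplicit false

open scoped Pointwise

namespace Pool.Agent.H945R2.E

open Pool.Agent.H918R2.Quad Pool.Agent.H945R2.D Pool.Agent.H945R2.S MvPolynomial

open Pool.Agent.H945R2.S.EXPLZaux in
theorem EXPLE_ok (hB : S_BIL) (hS : S_SUMZ) : S_EXPLE := by
  intro R ι _ _ _ _ p hp2 co g hco s c β hsp Z hZ d hd hdZ B _ _ a b u w hpa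
  have hsZ : s ∉ Z := by
    rw [hZ, hsp.one]
    exact one_ne_zero
  obtain ⟨J, hJ⟩ : ∃ J : Ideal B, J = Ideal.span ({a} ∪ Set.range u ∪ Set.range w) := ⟨_, rfl⟩
  have haJ : a ∈ J := by
    rw [hJ]
    exact Ideal.subset_span (Or.inl (Or.inl rfl))
  have huJ : ∀ k, u k ∈ J := fun k => by
    rw [hJ]
    exact Ideal.subset_span (Or.inl (Or.inr ⟨k, rfl⟩))
  have hwJ : ∀ k, w k ∈ J := fun k => by
    rw [hJ]
    exact Ideal.subset_span (Or.inr ⟨k, rfl⟩)
  obtain ⟨T, hTdef⟩ : ∃ T : ι → B, T = TcZ Z s d (fun i => (c i : B)) u w (a * b) := ⟨_, rfl⟩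
  have hsum := (hS Z s d hd hsZ hdZ (fun i => (c i : B)) u w (a * b)).1
  rw [← hTdef] at hsum
  have hc0 : ∀ z : ZT Z, (c z : B) = 0 := fun z => by
    rw [(hZ z).1 z.2, Nat.cast_zero]
  obtain ⟨σ, hσ⟩ := hsp.sum
  have hsc : (∑ i, (c i : B)) = a * (σ : B) := by
    have := congrArg (Nat.cast : ℕ → B) hσ
    push_cast at this
    rw [hpa] at this
    exact this
  have hη : ∀ i, T i - (c i : B) ∈ J := by
    intro i
    rw [hTdef]
    unfold TcZ
    split_ifs with hz h h'
    · rw [(hZ i).1 hz, Nat.cast_zero, sub_zero]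
      exact hwJ _
    · rw [h, hsp.one, Nat.cast_one, sub_self]
      exact J.zero_mem
    · have h2 := (hS Z s d hd hsZ hdZ (fun i => (c i : B)) u w (a * b)).2 (fun i => (c i : B))
      have h4 : ∑ k : TT Z s d, ((c k : B) + u k) = ∑ k : TT Z s d, (c k : B) + ∑ k, u k :=
        Finset.sum_add_distrib
      have h41 : ∑ z : ZT Z, (c z : B) = 0 := Finset.sum_eq_zero fun z _ => hc0 z
      have h5 : a * b - 1 - ∑ k : TT Z s d, ((c k : B) + u k) - ∑ z, w z - (c i : B) =
          a * b - a * (σ : B) - ∑ k, u k - ∑ z, w z := by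
        rw [h4, ← hsc, h2, h', hsp.one, h41]
        push_cast
        ring
      rw [h5]
      exact J.sub_mem (J.sub_mem (J.sub_mem (J.mul_mem_right _ haJ) (J.mul_mem_right _ haJ))
        (J.sum_mem fun k _ => huJ k)) (J.sum_mem fun k _ => hwJ k)
    · have : (c i : B) + u ⟨i, hz, h, h'⟩ - (c i : B) = u ⟨i, hz, h, h'⟩ := by ring
      rw [this]
      exact huJ _
  have hTc : (fun i => (c i : B) + (T i - (c i : B))) = T := by
    funext i
    ring
  -- the expansion
  have hbil := hB p hp2 co g hco (fun i => (c i : B)) (fun i => T i - (c i : B))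
  rw [hTc] at hbil
  have hcg : aeval (fun i => (c i : B)) g = a * algebraMap R B β + ∑ i, (c i : B) := by
    have h1 : aeval (fun i => (c i : B)) g = algebraMap R B (aeval (fun i => (c i : R)) g) := by
      have e : (fun i => (c i : B)) = (algebraMap R B) ∘ (fun i => (c i : R)) := by
        funext i
        simp
      rw [e, aeval_algebraMap_apply]
    have h2 : aeval (fun i => (c i : R)) g = (p : R) * β + ∑ i, (c i : R) := by
      rw [hsp.val]; ring
    rw [h1, h2, map_add, map_mul, map_sum, map_natCast, hpa]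
    simp only [map_natCast]
  have hsumη : ∑ i, (T i - (c i : B)) = a * b - a * (σ : B) := by
    rw [Finset.sum_sub_distrib, hsum, hsc]
  -- the coefficients
  have hk : ∀ i, ∃ κ : R, co i = 1 + (p : R) * κ := fun i => by
    obtain ⟨κ, hκ⟩ := hco.one i
    exact ⟨κ, by rw [← hκ]; ring⟩
  choose κ hκ using hk
  have hcη : ∑ i, (c i : B) * (T i - (c i : B)) = ∑ i, (T i - (c i : B)) - ∑ z, w z := by
    have h2 := (hS Z s d hd hsZ hdZ (fun i => (c i : B)) u w (a * b)).2
      (fun i => (T i - (c i : B)) - (c i : B) * (T i - (c i : B)))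
    have hone : ∀ i, i ∉ Z → (c i : B) = 1 := by
      intro i hi
      have h3 := hsp.lt i
      have h4 : c i ≠ 0 := fun h => hi ((hZ i).2 h)
      have h5 : c i = 1 := by omega
      rw [h5, Nat.cast_one]
    have e1 : (T s - (c s : B)) - (c s : B) * (T s - (c s : B)) = 0 := by
      rw [hone s hsZ]; ring
    have e2 : (T d - (c d : B)) - (c d : B) * (T d - (c d : B)) = 0 := by
      rw [hone d hdZ]; ring
    have e3 : (∑ k : TT Z s d, ((T k - (c k : B)) - (c k : B) * (T k - (c k : B)))) = 0 :=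
      Finset.sum_eq_zero fun k _ => by rw [hone k k.2.1]; ring
    have e4 : (∑ z : ZT Z, ((T z - (c z : B)) - (c z : B) * (T z - (c z : B)))) = ∑ z, w z := by
      refine Finset.sum_congr rfl fun z _ => ?_
      rw [hc0 z, hTdef]
      unfold TcZ
      rw [dif_pos z.2]
      ring
    rw [e1, e2, e3, e4, Finset.sum_sub_distrib] at h2
    linear_combination -h2
  have hcoη : ∑ i, algebraMap R B (co i) * (c i : B) * (T i - (c i : B)) =
      ∑ i, (T i - (c i : B)) - ∑ z, w z +
        a * ∑ i, algebraMap R B (κ i) * (c i : B) * (T i - (c i : B)) := by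
    rw [← hcη, Finset.mul_sum, ← Finset.sum_add_distrib]
    refine Finset.sum_congr rfl fun i _ => ?_
    rw [hκ i, map_add, map_one, map_mul, map_natCast, hpa]
    ring
  -- the remainder
  obtain ⟨E, hE⟩ : ∃ E : B, E = a * ((∑ i, algebraMap R B (κ i) * (c i : B) * (T i - (c i : B))) -
    (σ : B) * (a * b - a * (σ : B))) + aeval (fun i => T i - (c i : B)) g := ⟨_, rfl⟩
  have hEm : E ∈ Ideal.span {a} * Ideal.span ({a} ∪ Set.range u ∪ Set.range w) ⊔
      Ideal.span ({a} ∪ Set.range u ∪ Set.range w) ^ 2 := by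
    rw [hE, ← hJ]
    refine Submodule.add_mem_sup ?_ ?_
    · refine Ideal.mul_mem_mul (Ideal.mem_span_singleton_self a) (J.sub_mem ?_ ?_)
      · exact J.sum_mem fun i _ => J.mul_mem_left _ (hη i)
      · exact J.mul_mem_left _ (J.sub_mem (J.mul_mem_right _ haJ) (J.mul_mem_right _ haJ))
    · have := HOM_ok p hco.ne co g hco.rel J (fun i => T i - (c i : B)) hη
      rwa [hp2] at this
  obtain ⟨v, hv, μ, μ', hr⟩ := mem_form a a u w dvd_rfl E hEm
  refine ⟨b ^ 2 + b + algebraMap R B β + v, μ, fun z => μ' z - 1, ?_, ?_⟩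
  · unfold TotZ
    rw [← hTdef, hp2]
    have h7 : a ^ (2 - 1 - 0) * b ^ (2 - 0) = a * b ^ 2 := by
      simp
    have h8 : ∑ z, w z * (μ' z - 1) = ∑ z, w z * μ' z - ∑ z, w z := by
      rw [← Finset.sum_sub_distrib]
      exact Finset.sum_congr rfl fun z _ => by ring
    rw [h7, h8, hbil, hcg, hcoη, hsumη, hsc]
    rw [hE] at hr
    linear_combination hr
  · have : b ^ 2 + b + algebraMap R B β + v - (b ^ 2 + b + algebraMap R B β) = v := by ring
    rw [this]
    exact hv

end Pool.Agent.H945R2.E
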