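import Pool.Agent.H945R2.E.Props
import Pool.Agent.H945R2.D.FRC

/-! Task FABW: the parameters `a`, `b` are fractions (adapted from helper913). -/

set_option autoImplicit false

open scoped Pointwise

namespace Pool.Agent.H945R2.E

open Pool.Agent.H918R2.Quad Pool.Agent.H945R2.D Pool.Agent.H945R2.S MvPolynomial

theorem FABW_ok : S_FABW := by
  intro R F ι W A
  intro _ _ _ _ _ _ _ _ _ 𝒪 p e j co r g Z y s a b D pr eW hker Y a' b' hY ha' hb' hYs hsum hpp
  obtain ⟨hC, hX, hadd, hmul, hcongr, hdiv, _⟩ :=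
    FRC_ok pr eW hker (fun i : {i : ι // i ≠ s} => Y i)
  have hYi : ∀ i, Frc pr eW (fun i : {i : ι // i ≠ s} => Y i) (Y i) := by
    intro i
    by_cases h : i = s
    · rw [h, hYs, ← map_one (algebraMap R W)]
      exact hC 1
    · exact hX ⟨i, h⟩
  have hone : Frc pr eW (fun i : {i : ι // i ≠ s} => Y i) 1 := by
    rw [← map_one (algebraMap R W)]
    exact hC 1
  have hpow : ∀ w, Frc pr eW (fun i : {i : ι // i ≠ s} => Y i) w → ∀ n : ℕ,
      Frc pr eW (fun i : {i : ι // i ≠ s} => Y i) (w ^ n) := by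
    intro w hw n
    induction n with
    | zero => rw [pow_zero]; exact hone
    | succ n ih => rw [pow_succ]; exact hmul _ _ ih hw
  have hTi : ∀ i, Frc pr eW (fun i : {i : ι // i ≠ s} => Y i) (Tz Z r e Y i) := by
    intro i
    by_cases h : i ∈ Z
    · rw [Tz, if_pos h]
      exact hmul _ _ (hC _) (hpow _ (hYi i) e)
    · rw [Tz, if_neg h]
      exact hYi i
  have hS : Frc pr eW (fun i : {i : ι // i ≠ s} => Y i) (∑ i, Tz Z r e Y i) := by
    have : ∀ S : Finset ι, Frc pr eW (fun i : {i : ι // i ≠ s} => Y i)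
        (∑ i ∈ S, Tz Z r e Y i) := by
      intro S
      induction S using Finset.induction_on with
      | empty =>
        rw [Finset.sum_empty, ← map_zero (algebraMap R W)]
        exact hC 0
      | insert i S hi ih =>
        rw [Finset.sum_insert hi]
        exact hadd _ _ (hTi i) ih
    exact this Finset.univ
  have heL : eW (∑ i, Tz Z r e Y i) = a * b := by
    rw [map_sum, ← D.hL]
    refine Finset.sum_congr rfl fun i _ => ?_
    by_cases h : i ∈ Z
    · rw [Tz, Tz, if_pos h, if_pos h, map_mul, map_pow, hY, AlgHom.commutes]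
    · rw [Tz, Tz, if_neg h, if_neg h, hY]
  have hp : Frc pr eW (fun i : {i : ι // i ≠ s} => Y i) (p : W) := by
    rw [← map_natCast (algebraMap R W) p]
    exact hC _
  refine ⟨?_, ?_, hYi⟩
  · -- L^j a'
    refine hdiv ((∑ i, Tz Z r e Y i) ^ j) a' ?_ (hpow _ hS j) ?_
    · rw [map_pow, heL]
      exact pow_ne_zero _ (mul_ne_zero D.ha0 D.hb0)
    · refine hcongr (p : W) _ ?_ hp
      rw [map_mul, map_pow, hsum, hpp]
      simp only [map_mul, map_pow]
      ring
  · refine hdiv (p : W) b' ?_ hp ?_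
    · rw [map_natCast, D.hp]
      exact mul_ne_zero (pow_ne_zero _ D.ha0) (pow_ne_zero _ D.hb0)
    · refine hcongr ((∑ i, Tz Z r e Y i) ^ (j + 1)) _ ?_ (hpow _ hS (j + 1))
      rw [map_mul, hpp, map_pow, hsum]
      simp only [map_mul, map_pow]
      ring

end Pool.Agent.H945R2.E
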