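import Pool.Agent.H945R2.E.Props

/-! FINE: finitely many factors, `p = 2` (helper605, adapted from S/FINS). -/

set_option autoImplicit false

open scoped Pointwise

namespace Pool.Agent.H945R2.E

open Pool.Agent.H918R2.Quad Pool.Agent.H945R2.D Pool.Agent.H945R2.S MvPolynomial

theorem FINE_ok : S_FINE := by
  intro R F ι _ _ _ _ _ _ p e h hp g x X
  have h1 : {S | IsFacE p e h g x X S} ⊆
      ({Set.range x} ∪ {Ifs p e x X 1}) ∪
      ⋃ s ∈ (Set.univ : Set ι), ⋃ c ∈ Set.pi Set.univ (fun _ : ι => Set.Iio p),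
        ⋃ β ∈ {β : R | SpZ p g s c β},
          ((fun k => Nd (B2 p e x X s c (algebraMap R F β)) ((p : F) ^ 2)
            (Set.range x) (Yc x c) (2 * e) k) '' (Set.Iic h) ∪
            {Cd (B2 p e x X s c (algebraMap R F β)) ((p : F) ^ 2) (fc X c)
              (Set.range x) (Yc x c) (2 * e) h}) := by
    intro S hS
    rcases hS with hS | hS | ⟨s, c, β, hsp, hlt, hS⟩
    · exact Or.inl (Or.inl hS)
    · exact Or.inl (Or.inr hS)
    · refine Or.inr ?_
      simp only [Set.mem_iUnion]
      refine ⟨s, Set.mem_univ s, c, fun i _ => hsp.lt i, β, hsp, ?_⟩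
      rcases hS with ⟨k, hk1, hk2, hS⟩ | hS
      · exact Or.inl ⟨k, hk2, hS.symm⟩
      · exact Or.inr hS
  refine Set.Finite.subset ?_ h1
  refine Set.Finite.union (Set.Finite.union (Set.finite_singleton _)
    (Set.finite_singleton _)) ?_
  refine Set.Finite.biUnion Set.finite_univ fun s _ => ?_
  refine Set.Finite.biUnion
    (Set.Finite.pi (t := fun _ : ι => Set.Iio p) fun _ => Set.finite_Iio p) fun c _ => ?_
  refine Set.Finite.biUnion ?_ fun β _ => ?_
  · apply Set.Subsingleton.finite
    intro β hβ β' hβ'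
    have h2 : (p : R) * β = (p : R) * β' := by
      rw [hβ.val, hβ'.val]
    exact mul_left_cancel₀ hp h2
  · exact Set.Finite.union ((Set.finite_Iic h).image _) (Set.finite_singleton _)

end Pool.Agent.H945R2.E
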