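import Pool.Agent.H945R2.E.PropsT

/-! FINT: finitely many factors, tame primes (helper118). -/

set_option autoImplicit false

open scoped Pointwise

namespace Pool.Agent.H945R2.E

open Pool.Agent.H918R2.Quad Pool.Agent.H945R2.D Pool.Agent.H945R2.S MvPolynomial

theorem FINT_ok : S_FINT := by
  intro R F ι _ _ _ _ _ m h ϖ b Z x
  have h1 : {S | IsFacT ϖ m h b Z x S} ⊆
      ({Set.range x} ∪
        (fun k => Nd (BT ϖ m b Z x) 1 (Set.range x) (YT Z x) m k) '' (Set.Iic h)) ∪
        {Cd (BT ϖ m b Z x) 1 (fT m b Z x) (Set.range x) (YT Z x) m h} := by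
    intro S hS
    rcases hS with hS | ⟨k, hk1, hk2, hS⟩ | ⟨_, hS⟩
    · exact Or.inl (Or.inl hS)
    · exact Or.inl (Or.inr ⟨k, hk2, hS.symm⟩)
    · exact Or.inr hS
  exact Set.Finite.subset (((Set.finite_singleton _).union ((Set.finite_Iic h).image _)).union
    (Set.finite_singleton _)) h1

end Pool.Agent.H945R2.E
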