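import Pool.Agent.H945R2.E.Props
import Pool.Agent.H918R2.Quad.Glue

/-! # Gluing (task GLOG) -/

set_option autoImplicit false

open scoped Pointwise

namespace Pool.Agent.H945R2.E

open Pool.Agent.H918R2.Quad Pool.Agent.H945R2.D Pool.Agent.H945R2.S MvPolynomial

/-- GLOG. -/
theorem GLOG_ok : S_GLOG := by
  intro O K F _ _ _ _ _ _ _ _ _ n x hx0 hgen S hSm hloc hout
  classical
  have hOK : Function.Injective (algebraMap O K) := IsFractionRing.injective O K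
  have hOF : Function.Injective (algebraMap O F) := by
    rw [IsScalarTower.algebraMap_eq O K F]
    exact (algebraMap K F).injective.comp hOK
  have hS0 : ∀ 𝔭 ∈ S, 𝔭 ≠ ⊥ := fun 𝔭 h𝔭 => (hSm 𝔭 h𝔭).2
  have hSmax : ∀ 𝔭 ∈ S, 𝔭.IsMaximal := fun 𝔭 h𝔭 => (hSm 𝔭 h𝔭).1
  -- the degree
  have hdeg : ∀ 𝔭 : Ideal O, ∃ D₀ : ℕ, 𝔭 ∈ S → ∀ D, D₀ ≤ D → ∃ P : Submodule O F,
      (∀ y ∈ P, ∃ s, s ∉ 𝔭 ∧ s • y ∈ Submodule.span O (Set.range x ^ D)) ∧
      (∃ k : ℕ, ∀ c ∈ 𝔭 ^ k, ∀ y ∈ Submodule.span O (Set.range x ^ D), c • y ∈ P) ∧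
      ∀ M : Submodule O F, M ≤ P → (∀ y ∈ P, ∃ s, s ∉ 𝔭 ∧ s • y ∈ M) → RegAt 𝔭 M := by
    intro 𝔭
    by_cases h𝔭 : 𝔭 ∈ S
    · obtain ⟨D₀, hD₀⟩ := hloc 𝔭 h𝔭
      exact ⟨D₀, fun _ => hD₀⟩
    · exact ⟨0, fun h => absurd h h𝔭⟩
  choose D₀ hD₀ using hdeg
  set D : ℕ := max 1 (S.sup D₀) with hD
  have hD1 : 1 ≤ D := le_max_left _ _
  have hDS : ∀ 𝔭 ∈ S, D₀ 𝔭 ≤ D := fun 𝔭 h𝔭 => (Finset.le_sup h𝔭).trans (le_max_right _ _)
  have hbad : ∀ 𝔭 : Ideal O, ∃ P : Submodule O F, 𝔭 ∈ S →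
      ((∀ y ∈ P, ∃ s, s ∉ 𝔭 ∧ s • y ∈ Submodule.span O (Set.range x ^ D)) ∧
      (∃ k : ℕ, ∀ c ∈ 𝔭 ^ k, ∀ y ∈ Submodule.span O (Set.range x ^ D), c • y ∈ P) ∧
      ∀ M : Submodule O F, M ≤ P → (∀ y ∈ P, ∃ s, s ∉ 𝔭 ∧ s • y ∈ M) → RegAt 𝔭 M) := by
    intro 𝔭
    by_cases h𝔭 : 𝔭 ∈ S
    · obtain ⟨P, hP⟩ := hD₀ 𝔭 h𝔭 D (hDS 𝔭 h𝔭)
      exact ⟨P, fun _ => hP⟩
    · exact ⟨⊥, fun h => absurd h h𝔭⟩
  choose P hP using hbad
  obtain ⟨M, hMN, hMP, hM1, hM2⟩ := glue (Submodule.span O (Set.range x ^ D)) S hSmax P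
    (fun 𝔭 h𝔭 => (hP 𝔭 h𝔭).1) (fun 𝔭 h𝔭 => (hP 𝔭 h𝔭).2.1)
  have hbotS : (⊥ : Ideal O) ∉ S := fun h => hS0 ⊥ h rfl
  have hMbot : ∀ y ∈ Submodule.span O (Set.range x ^ D), ∃ s : O, s ≠ 0 ∧ s • y ∈ M := by
    intro y hy
    obtain ⟨s, hs, hsy⟩ := hM2 ⊥ Ideal.isPrime_bot hbotS y hy
    exact ⟨s, fun h => hs (by rw [h]; exact Ideal.zero_mem _), hsy⟩
  have hxG : ∀ i, x i ∈ Submodule.span O (Set.range x ^ D) := by
    intro i
    apply Submodule.subset_span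
    obtain ⟨k, hk⟩ : ∃ k, D = k + 1 := ⟨D - 1, by omega⟩
    rw [hk, pow_succ]
    have h0 : (1 : F) ∈ Set.range x := ⟨0, hx0⟩
    have h1 : (1 : F) ^ k ∈ Set.range x ^ k := Set.pow_mem_pow h0
    rw [one_pow] at h1
    have h2 : (1 : F) * x i ∈ Set.range x ^ k * Set.range x :=
      Set.mul_mem_mul h1 (Set.mem_range_self i)
    rwa [one_mul] at h2
  have h1G : (1 : F) ∈ Submodule.span O (Set.range x ^ D) := by
    have := hxG 0
    rwa [hx0] at this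
  obtain ⟨t, ht0, htM⟩ := hMbot 1 h1G
  have htF : algebraMap O F t ≠ 0 := fun h => ht0 (hOF (by rw [h, map_zero]))
  refine ⟨M, ?_, ⟨t • 1, htM, ?_⟩, ?_, ?_⟩
  · have hG3 : (Set.range x ^ D).Finite := by
      generalize D = k
      induction k with
      | zero => rw [pow_zero]; exact Set.finite_one
      | succ k ih => rw [pow_succ]; exact ih.mul (Set.finite_range x)
    exact Submodule.FG.of_le (Submodule.fg_span hG3) hMN
  · rw [Algebra.smul_def, mul_one]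
    exact htF
  · intro f hfM hf0 y
    have hdivM : ∀ u ∈ M, u / f ∈ chart O M f := fun u hu =>
      Algebra.subset_adjoin ⟨u, hu, rfl⟩
    have hy : y ∈ IntermediateField.adjoin K (Set.range x) := by
      rw [hgen]; trivial
    induction hy using IntermediateField.adjoin_induction with
    | mem y hy =>
      obtain ⟨i, rfl⟩ := hy
      obtain ⟨s, hs0, hsM⟩ := hMbot (x i) (hxG i)
      have hsF : algebraMap O F s ≠ 0 := fun h => hs0 (hOF (by rw [h, map_zero]))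
      refine ⟨(s • x i) / f * algebraMap O F t,
        Subalgebra.mul_mem _ (hdivM _ hsM) (Subalgebra.algebraMap_mem _ _),
        (t • 1) / f * algebraMap O F s,
        Subalgebra.mul_mem _ (hdivM _ htM) (Subalgebra.algebraMap_mem _ _), ?_, ?_⟩
      · rw [Algebra.smul_def, mul_one]
        exact mul_ne_zero (div_ne_zero htF hf0) hsF
      · rw [Algebra.smul_def, Algebra.smul_def, mul_one]
        field_simp
    | algebraMap k =>
      obtain ⟨b, c, hc, rfl⟩ := IsFractionRing.div_surjective (A := O) k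
      have hc0 : c ≠ 0 := nonZeroDivisors.ne_zero hc
      refine ⟨algebraMap O F b, Subalgebra.algebraMap_mem _ _, algebraMap O F c,
        Subalgebra.algebraMap_mem _ _, fun h => hc0 (hOF (by rw [h, map_zero])), ?_⟩
      rw [map_div₀, ← IsScalarTower.algebraMap_apply, ← IsScalarTower.algebraMap_apply]
    | add y z _ _ hy hz =>
      obtain ⟨b, hb, c, hc, hc0, rfl⟩ := hy
      obtain ⟨b', hb', c', hc', hc0', rfl⟩ := hz
      refine ⟨b * c' + b' * c, Subalgebra.add_mem _ (Subalgebra.mul_mem _ hb hc')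
        (Subalgebra.mul_mem _ hb' hc), c * c', Subalgebra.mul_mem _ hc hc',
        mul_ne_zero hc0 hc0', ?_⟩
      field_simp
    | inv y _ hy =>
      obtain ⟨b, hb, c, hc, hc0, rfl⟩ := hy
      by_cases hb0 : b = 0
      · refine ⟨0, Subalgebra.zero_mem _, 1, Subalgebra.one_mem _, one_ne_zero, ?_⟩
        rw [hb0]; simp
      · exact ⟨c, hc, b, hb, hb0, by rw [inv_div]⟩
    | mul y z _ _ hy hz =>
      obtain ⟨b, hb, c, hc, hc0, rfl⟩ := hy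
      obtain ⟨b', hb', c', hc', hc0', rfl⟩ := hz
      refine ⟨b * b', Subalgebra.mul_mem _ hb hb', c * c', Subalgebra.mul_mem _ hc hc',
        mul_ne_zero hc0 hc0', ?_⟩
      field_simp
  · intro f hfM hf0 q hq
    have hpp : (q.comap (algebraMap O (chart O M f))).IsPrime := inferInstance
    by_cases h𝔭 : q.comap (algebraMap O (chart O M f)) ∈ S
    · exact (hP _ h𝔭).2.2 M (hMP _ h𝔭) (hM1 _ h𝔭) f hfM hf0 q rfl
    · exact hout _ hpp h𝔭 D hD1 M hMN (hM2 _ hpp h𝔭) f hfM hf0 q rfl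

end Pool.Agent.H945R2.E
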