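import Pool.Agent.H945R2.E.PropsT
import Pool.Agent.H945R2.D.GD1
import Pool.Agent.H945R2.D.HT

/-! GT: regularity at the non exceptional points (tame primes). -/

set_option autoImplicit false

open scoped Pointwise

namespace Pool.Agent.H945R2.E

open Pool.Agent.H918R2.Quad Pool.Agent.H945R2.D Pool.Agent.H945R2.S MvPolynomial

theorem GT_ok (hREGQ : S_REGQ) (hPIN : S_PIN) : S_GT := by
  intro R F ι _ _ _ _ _ _ _ 𝒪 hloc hR m hmu hm ϖ hirr hϖU b hb Z y s hys hy hrel hind hlocof hpt
  obtain ⟨j₀, hj₀⟩ := hind
  have hm0 : m ≠ 0 := by omega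
  let a : ι → R := fun i => if i ∈ Z then b i else ϖ * b i
  have haZ : ∀ i ∈ Z, a i = b i := fun i hi => if_pos hi
  have haZ' : ∀ i, i ∉ Z → a i = ϖ * b i := fun i hi => if_neg hi
  let E : MvPolynomial {j : ι // j ≠ s} R := ∑ i, C (a i) * tau s i ^ m
  let I : Ideal (MvPolynomial {j : ι // j ≠ s} R) := Ideal.span {E}
  let eW : MvPolynomial {j : ι // j ≠ s} R →ₐ[R] F :=
    aeval (fun j : {j : ι // j ≠ s} => y j)
  have heC : ∀ r, eW (C r) = algebraMap R F r := fun r => aeval_C _ r
  have heX : ∀ j, eW (X j) = y j := fun j => aeval_X _ j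
  have heW : ∀ w, eW w ∈ 𝒪 := by
    intro w
    induction w using MvPolynomial.induction_on with
    | C r => rw [heC]; exact hR r
    | add p q hp hq => rw [map_add]; exact 𝒪.add_mem hp hq
    | mul_X p j hp => rw [map_mul, heX]; exact 𝒪.mul_mem hp (hy _)
  have hmap : ∀ j, eW (tau s j) = y j := fun j =>
    Pool.Agent.H945R2.D.GD1aux.aeval_tau' s y hys j
  have hrel' : ∑ i, algebraMap R F (a i) * y i ^ m = 0 := by
    have h1 : ∑ z : ZT Z, algebraMap R F (b z) * y z ^ m =
        ∑ i, if i ∈ Z then algebraMap R F (b i) * y i ^ m else 0 := by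
      rw [← Finset.sum_filter, Finset.filter_mem_eq_inter, Finset.univ_inter]
      exact Finset.sum_coe_sort Z (fun i => algebraMap R F (b i) * y i ^ m)
    rw [h1] at hrel
    rw [← hrel, phT, Finset.mul_sum, ← Finset.sum_add_distrib]
    refine Finset.sum_congr rfl fun i _ => ?_
    by_cases hi : i ∈ Z
    · rw [haZ i hi, if_pos hi, if_pos hi]; ring
    · rw [haZ' i hi, if_neg hi, if_neg hi, map_mul]; ring
  have hEt : eW E = 0 := by
    simp only [E, map_sum, map_mul, map_pow, heC, hmap]
    exact hrel'
  have hI : ∀ w ∈ I, eW w = 0 := by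
    intro w hw
    obtain ⟨c, rfl⟩ := Ideal.mem_span_singleton.1 hw
    rw [map_mul, hEt, zero_mul]
  have hadj : ∀ z ∈ Algebra.adjoin R (Set.range y), ∃ w, eW w = z := by
    intro z hz
    have h1 : Algebra.adjoin R (Set.range y) ≤ eW.range := by
      refine Algebra.adjoin_le ?_
      rintro _ ⟨i, rfl⟩
      exact ⟨tau s i, hmap i⟩
    exact h1 hz
  have hfrac : ∀ x ∈ 𝒪, ∃ a b, eW b ≠ 0 ∧ (eW b)⁻¹ ∈ 𝒪 ∧ x = eW a / eW b := by
    intro x hx
    obtain ⟨p, hp, q, hq, hU, h⟩ := hlocof.2 x hx
    obtain ⟨w, rfl⟩ := hadj p hp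
    obtain ⟨v, rfl⟩ := hadj q hq
    exact ⟨w, v, hU.1, hU.2.2, h⟩
  have hane : ∀ i, a i ≠ 0 := by
    intro i
    by_cases h : i ∈ Z
    · rw [haZ i h]; exact (hb i).ne_zero
    · rw [haZ' i h]; exact mul_ne_zero hirr.ne_zero (hb i).ne_zero
  have hE0 : constantCoeff E = a s := by
    simp only [E, map_sum, map_mul, map_pow, constantCoeff_C]
    rw [Finset.sum_eq_single s]
    · simp [tau]
    · intro j _ hj
      simp [tau, hj, hm0]
    · intro h
      exact absurd (Finset.mem_univ s) h
  have hEne : E ≠ 0 := by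
    intro h
    rw [h, map_zero] at hE0
    exact hane s hE0.symm
  have hpd : ∀ j : {j : ι // j ≠ s}, pderiv j E = C ((m : R) * a j) * X j ^ (m - 1) := by
    intro j
    simp only [E, map_sum]
    rw [Finset.sum_eq_single (j : ι)]
    · have h1 : tau (R := R) s (j : ι) = X j := by
        unfold tau
        rw [dif_neg j.2]
      rw [h1, Derivation.leibniz, pderiv_C, Derivation.leibniz_pow, pderiv_X_self]
      simp only [smul_eq_mul, C_mul, nsmul_eq_mul, mul_one, smul_zero, add_zero]
      rw [show (C (m : R) : MvPolynomial {j : ι // j ≠ s} R) = (m : MvPolynomial _ R) from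
        map_natCast C m]
      ring
    · intro i _ hi
      have h1 : pderiv j (tau (R := R) s i) = 0 := by
        unfold tau
        by_cases h : i = s
        · rw [dif_pos h]; simp
        · rw [dif_neg h, pderiv_X_of_ne]
          intro h2
          exact hi (congrArg Subtype.val h2)
      rw [Derivation.leibniz, pderiv_C, Derivation.leibniz_pow, h1]
      simp
    · intro h
      exact absurd (Finset.mem_univ _) h
  obtain ⟨A, _, _, pr, hpr, hprk, hpr0⟩ := exists_quot (R := R) I
  have haev : ∀ p : MvPolynomial {j : ι // j ≠ s} R,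
      aeval (fun j : {j : ι // j ≠ s} => (X j : MvPolynomial {j : ι // j ≠ s} R)) p = p := by
    intro p
    rw [aeval_X_left_apply]
  refine regular_of_pres 𝒪 hloc pr hpr eW ?_ heW hfrac ?_
    (fun j : {j : ι // j ≠ s} => X j) E hEne ?_ j₀ ?_ ?_
  · intro w hw
    exact hI w ((hpr0 w).1 hw)
  · intro q hq hqm
    have hunit : ∀ r : R, IsUnit r → pr (C r) ∉ q := by
      intro r hr h
      exact Ideal.IsPrime.ne_top hq (Ideal.eq_top_of_isUnit_mem q h
        ((hr.map (C (σ := {j : ι // j ≠ s}))).map pr))
    have hϖq : pr (C ϖ) ∈ q := by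
      rw [hqm, heC]
      exact hϖU
    have hXq : ∀ i : {i : ι // i ≠ s}, pr (X i) ∈ q ↔ ¬ U 𝒪 (y i) := by
      intro i
      rw [hqm, heX]
    have hE1 : pr E = 0 := (hpr0 E).2 (Ideal.mem_span_singleton_self _)
    by_cases hall : ∀ j : {j : ι // j ≠ s}, (j : ι) ∈ Z → pr (X j) ∈ q
    · by_cases hsZ : s ∈ Z
      · exfalso
        have h2 : pr (C (a s)) = - ∑ i ∈ Finset.univ.erase s, pr (C (a i) * tau s i ^ m) := by
          have h3 : pr E = pr (C (a s)) +
              ∑ i ∈ Finset.univ.erase s, pr (C (a i) * tau s i ^ m) := by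
            simp only [E]
            rw [map_sum, ← Finset.add_sum_erase _ _ (Finset.mem_univ s)]
            congr 1
            unfold tau
            rw [dif_pos rfl]
            simp
          rw [hE1] at h3
          exact eq_neg_of_add_eq_zero_left h3.symm
        have h4 : pr (C (a s)) ∈ q := by
          rw [h2]
          refine q.neg_mem (q.sum_mem fun i hi => ?_)
          have hi' := (Finset.mem_erase.1 hi).1
          rw [map_mul]
          by_cases hiZ : i ∈ Z
          · apply q.mul_mem_left
            rw [map_pow]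
            apply Ideal.pow_mem_of_mem _ _ _ (Nat.pos_of_ne_zero hm0)
            unfold tau
            rw [dif_neg hi']
            exact hall ⟨i, hi'⟩ hiZ
          · rw [haZ' i hiZ, C_mul, map_mul]
            exact q.mul_mem_right _ (q.mul_mem_right _ hϖq)
        rw [haZ s hsZ] at h4
        exact hunit _ (hb s) h4
      · have hnoU : ¬ ∃ i ∈ Z, U 𝒪 (y i) := by
          rintro ⟨i, hiZ, hU⟩
          have his : i ≠ s := fun h => hsZ (h ▸ hiZ)
          exact (hXq ⟨i, his⟩).1 (hall ⟨i, his⟩ hiZ) hU
        have hφU : U 𝒪 (phT m b Z y) := hpt.resolve_left hnoU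
        let φ' : MvPolynomial {j : ι // j ≠ s} R :=
          ∑ i, if i ∈ Z then 0 else C (b i) * tau s i ^ m
        have hφe : eW φ' = phT m b Z y := by
          simp only [φ', map_sum, phT]
          refine Finset.sum_congr rfl fun i _ => ?_
          by_cases hi : i ∈ Z
          · rw [if_pos hi, if_pos hi, map_zero]
          · rw [if_neg hi, if_neg hi, map_mul, map_pow, heC, hmap]
        have hφq : pr φ' ∉ q := by
          rw [hqm, hφe, not_not]
          exact hφU
        let ψ' : MvPolynomial {j : ι // j ≠ s} R :=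
          ∑ i, if i ∈ Z then C (b i) * tau s i ^ m else 0
        have hEsplit : E = ψ' + C ϖ * φ' := by
          simp only [E, ψ', φ']
          rw [Finset.mul_sum, ← Finset.sum_add_distrib]
          refine Finset.sum_congr rfl fun i _ => ?_
          by_cases hi : i ∈ Z
          · rw [haZ i hi, if_pos hi, if_pos hi]; ring
          · rw [haZ' i hi, if_neg hi, if_neg hi, C_mul]; ring
        refine hREGQ (pr : MvPolynomial {j : ι // j ≠ s} R →+* A) hpr 1 (fun _ => E) ?_ q ?_
        · rw [Set.range_const]
          exact hprk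
        · intro c hc i
          have hi0 : i = 0 := Subsingleton.elim _ _
          subst hi0
          have hc' : c 0 * E ∈ (q.comap (pr : MvPolynomial {j : ι // j ≠ s} R →+* A)) ^ 2 := by
            simpa using hc
          haveI : (q.comap (pr : MvPolynomial {j : ι // j ≠ s} R →+* A)).IsPrime := Ideal.comap_isPrime _ _
          have hψ : ψ' ∈ (q.comap (pr : MvPolynomial {j : ι // j ≠ s} R →+* A)) ^ 2 := by
            refine Ideal.sum_mem _ fun i _ => ?_
            by_cases hi : i ∈ Z
            · rw [if_pos hi]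
              apply Ideal.mul_mem_left
              have his : i ≠ s := fun h => hsZ (h ▸ hi)
              have h1 : tau (R := R) s i ∈ q.comap (pr : MvPolynomial {j : ι // j ≠ s} R →+* A) := by
                unfold tau
                rw [dif_neg his]
                exact hall ⟨i, his⟩ hi
              exact Ideal.pow_le_pow_right hm (Ideal.pow_mem_pow h1 m)
            · rw [if_neg hi]
              exact Ideal.zero_mem _
          have h1 : (c 0 * φ') * C ϖ ∈ (q.comap (pr : MvPolynomial {j : ι // j ≠ s} R →+* A)) ^ 2 := by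
            have h2 : (c 0 * φ') * C ϖ = c 0 * E - c 0 * ψ' := by
              rw [hEsplit]; ring
            rw [h2]
            exact Ideal.sub_mem _ hc' (Ideal.mul_mem_left _ _ hψ)
          have h3 := hPIN ϖ hirr (q.comap (pr : MvPolynomial {j : ι // j ≠ s} R →+* A)) hϖq _ h1
          rcases Ideal.IsPrime.mem_or_mem inferInstance h3 with h4 | h4
          · exact h4
          · exact absurd h4 hφq
    · push Not at hall
      obtain ⟨j, hjZ, hj⟩ := hall
      refine regular_of_pderiv E (pr : _ →+* A) hpr hprk q j ?_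
      rw [hpd]
      intro h
      have h1 : pr (C ((m : R) * a j)) * pr (X j) ^ (m - 1) ∈ q := by
        rw [← map_pow, ← map_mul]; exact h
      rw [haZ j hjZ] at h1
      rcases Ideal.IsPrime.mem_or_mem hq h1 with h2 | h2
      · exact hunit _ (hmu.mul (hb j)) h2
      · exact hj (Ideal.IsPrime.mem_of_pow_mem hq _ h2)
  · rw [haev, hpr0]
    exact Ideal.mem_span_singleton_self _
  · convert hj₀ using 2 with j
    exact heX _
  · intro w
    refine ⟨w, 1, by simp, ?_⟩
    rw [haev 1, one_mul, haev]

end Pool.Agent.H945R2.E
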