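import Pool.Agent.H945R2.E.PropsT

/-! HIND: exchange of algebraically independent families. -/

set_option autoImplicit false

open scoped Pointwise

namespace Pool.Agent.H945R2.E

open Pool.Agent.H918R2.Quad Pool.Agent.H945R2.D Pool.Agent.H945R2.S MvPolynomial

theorem HIND_ok : S_HIND := by
  intro R F σ τ _ _ _ _ _ _ x y hcard hx halg
  classical
  have hinj : Function.Injective (algebraMap R F) := hx.algebraMap_injective
  have hfs : FaithfulSMul R F := (faithfulSMul_iff_algebraMap_injective R F).2 hinj
  let M : Matroid F := AlgebraicIndependent.matroid R F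
  obtain ⟨I, hI⟩ := M.exists_isBasis (Set.range y) (Set.subset_univ _)
  have hsub : Set.range x ⊆ M.closure (Set.range y) := by
    rintro _ ⟨i, rfl⟩
    show x i ∈ (AlgebraicIndependent.matroid R F).closure (Set.range y)
    rw [AlgebraicIndependent.matroid_closure_eq]
    exact halg i
  have hxi : M.Indep (Set.range x) := hx.to_subtype_range
  have hle : (Set.range x).encard ≤ I.encard := by
    rw [hI.encard_eq_eRk, ← hxi.eRk_eq_encard, ← M.eRk_closure_eq (Set.range y)]
    exact M.eRk_mono hsub
  have hIsub : I ⊆ Set.range y := hI.subset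
  choose g hg using fun i : I => hIsub i.2
  have hginj : Function.Injective g := by
    intro i j hij
    apply Subtype.ext
    rw [← hg i, ← hg j, hij]
  have hIfin : Finite I := Finite.of_injective g hginj
  have : Fintype I := Fintype.ofFinite I
  have hcx : (Set.range x).encard = Fintype.card σ := by
    rw [← Set.image_univ, hx.injective.encard_image, Set.encard_univ]
    simp
  have hcI : I.encard = Fintype.card I := by
    rw [Set.encard_eq_coe_toFinset_card, Set.toFinset_card]
  rw [hcx, hcI] at hle
  have hle' : Fintype.card σ ≤ Fintype.card I := by exact_mod_cast hle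
  have hcompl : ((Finset.univ.image g)ᶜ : Finset τ).card ≤ 1 := by
    rw [Finset.card_compl, Finset.card_image_of_injective _ hginj, Finset.card_univ]
    omega
  have hne : Nonempty τ := by
    rw [← Fintype.card_pos_iff]
    omega
  obtain ⟨j₁, hj₁⟩ : ∃ j₁ : τ, ∀ j, j ≠ j₁ → ∃ i, g i = j := by
    by_cases h0 : ∃ j₁, j₁ ∈ ((Finset.univ.image g)ᶜ : Finset τ)
    · obtain ⟨j₁, h1⟩ := h0
      refine ⟨j₁, fun j hj => ?_⟩
      by_contra hcon
      have h2 : j ∈ ((Finset.univ.image g)ᶜ : Finset τ) := by
        rw [Finset.mem_compl, Finset.mem_image]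
        rintro ⟨i, _, hi⟩
        exact hcon ⟨i, hi⟩
      exact hj (Finset.card_le_one.1 hcompl _ h2 _ h1)
    · push Not at h0
      refine ⟨hne.some, fun j _ => ?_⟩
      have h1 := h0 j
      rw [Finset.mem_compl, not_not, Finset.mem_image] at h1
      obtain ⟨i, _, hi⟩ := h1
      exact ⟨i, hi⟩
  refine ⟨j₁, ?_⟩
  choose f hf using fun j : {j : τ // j ≠ j₁} => hj₁ j j.2
  have hfinj : Function.Injective f := by
    intro j j' hjj
    apply Subtype.ext
    rw [← hf j, ← hf j', hjj]
  have h1 : AlgebraicIndependent R (fun i : I => (i : F)) := hI.indep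
  have h2 := h1.comp f hfinj
  have h3 : (fun j : {j : τ // j ≠ j₁} => y j) = (fun i : I => (i : F)) ∘ f := by
    funext j
    show y j = (f j : F)
    rw [← hg (f j), hf j]
  rw [h3]
  exact h2

end Pool.Agent.H945R2.E
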