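import Pool.Agent.H945R2.E.PropsT
import Pool.Agent.H945R2.S.LOCS
import Pool.Agent.H945R2.D.LOC

/-! Local rings of the model at the tame primes (MP_4d1008_ag, squarefree coefficients):
assembly. -/

set_option autoImplicit false

open scoped Pointwise

namespace Pool.Agent.H945R2.E

open Pool.Agent.H918R2.Quad Pool.Agent.H945R2.D Pool.Agent.H945R2.S MvPolynomial

namespace LOCTaux

open Pool.Agent.H945R2.D.LOCaux Pool.Agent.H945R2.S.LOCSaux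

section

variable {R F : Type} [CommRing R] [Field F] [Algebra R F]

theorem nonU_add {𝒪 : Subring F} (h : IsLoc 𝒪) {x y : F} (hx : x ∈ 𝒪) (hy : y ∈ 𝒪)
    (h1 : ¬ U 𝒪 x) (h2 : ¬ U 𝒪 y) : ¬ U 𝒪 (x + y) := fun hu => (h x y hx hy hu).elim h1 h2

theorem nonU_sum {𝒪 : Subring F} (h : IsLoc 𝒪) {κ : Type} (S : Finset κ) (x : κ → F)
    (hx : ∀ k ∈ S, x k ∈ 𝒪) (h1 : ∀ k ∈ S, ¬ U 𝒪 (x k)) : ¬ U 𝒪 (∑ k ∈ S, x k) := by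
  classical
  induction S using Finset.induction_on with
  | empty => rw [Finset.sum_empty]; exact not_U_zero
  | insert k S hk ih =>
    rw [Finset.sum_insert hk]
    refine nonU_add h (hx k (Finset.mem_insert_self _ _))
      (𝒪.sum_mem fun k hk => hx k (Finset.mem_insert_of_mem hk))
      (h1 k (Finset.mem_insert_self _ _))
      (ih (fun k hk => hx k (Finset.mem_insert_of_mem hk))
        (fun k hk => h1 k (Finset.mem_insert_of_mem hk)))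

variable {ι : Type} [Fintype ι] [DecidableEq ι]

/-- There is a second unit coordinate outside `Z`. -/
theorem exists_d (𝒪 : Subring F) (h𝒪 : IsLoc 𝒪) (hR : ∀ r : R, algebraMap R F r ∈ 𝒪) (m : ℕ)
    (hm : 1 ≤ m) (b : ι → R) (hb : ∀ i, IsUnit (b i)) (Z : Finset ι) (ξ : ι → F) (s : ι)
    (hs : ξ s = 1) (hsZ : s ∉ Z) (hξ : ∀ i, ξ i ∈ 𝒪) (hφ : ¬ U 𝒪 (phT m b Z ξ)) :
    ∃ d, s ≠ d ∧ d ∉ Z ∧ U 𝒪 (ξ d) := by
  by_contra hcon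
  push Not at hcon
  have hbU : U 𝒪 (algebraMap R F (b s)) := by
    obtain ⟨v, hv⟩ := hb s
    rw [← hv]
    have h1 : algebraMap R F (v : R) * algebraMap R F ((v⁻¹ : Rˣ) : R) = 1 := by
      rw [← map_mul, Units.mul_inv, map_one]
    have h0 : algebraMap R F (v : R) ≠ 0 := left_ne_zero_of_mul_eq_one h1
    refine ⟨h0, hR _, ?_⟩
    rw [inv_eq_of_mul_eq_one_right h1]
    exact hR _
  set T : ι → F := fun i => if i ∈ Z then 0 else algebraMap R F (b i) * ξ i ^ m with hT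
  have hTm : ∀ i, T i ∈ 𝒪 := by
    intro i
    simp only [hT]
    split_ifs
    · exact 𝒪.zero_mem
    · exact 𝒪.mul_mem (hR _) (𝒪.pow_mem (hξ i) _)
  have h1 : phT m b Z ξ = T s + ∑ i ∈ Finset.univ.erase s, T i :=
    (Finset.add_sum_erase _ T (Finset.mem_univ s)).symm
  have h2 : ¬ U 𝒪 (∑ i ∈ Finset.univ.erase s, T i) := by
    refine nonU_sum h𝒪 _ _ (fun i _ => hTm i) ?_
    intro i hi hu
    simp only [hT] at hu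
    split_ifs at hu with hiZ
    · exact not_U_zero hu
    · have h3 := hu.of_mul_right (hR _) (𝒪.pow_mem (hξ i) _)
      exact hcon i (Ne.symm (Finset.ne_of_mem_erase hi)) hiZ (U_of_pow (hξ i) m hm h3)
  have h3 : T s = algebraMap R F (b s) := by
    simp only [hT]
    rw [if_neg hsZ, hs, one_pow, mul_one]
  have h4 : algebraMap R F (b s) = phT m b Z ξ + -(∑ i ∈ Finset.univ.erase s, T i) := by
    rw [h1, h3]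
    ring
  have h5 : U 𝒪 (phT m b Z ξ + -(∑ i ∈ Finset.univ.erase s, T i)) := by
    rw [← h4]
    exact hbU
  have h6 : phT m b Z ξ ∈ 𝒪 := 𝒪.sum_mem fun i _ => hTm i
  have h7 : (∑ i ∈ Finset.univ.erase s, T i) ∈ 𝒪 := 𝒪.sum_mem fun i _ => hTm i
  rcases h𝒪 _ _ h6 (𝒪.neg_mem h7) h5 with h8 | h8
  · exact hφ h8
  · apply h2
    refine ⟨neg_ne_zero.1 h8.1, h7, ?_⟩
    have h9 := h8.2.2
    rw [inv_neg] at h9
    simpa using 𝒪.neg_mem h9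

end

section exceptional

variable {R F ι : Type} [CommRing R] [IsDomain R] [IsDiscreteValuationRing R] [Field F]
  [Algebra R F] [Fintype ι] [DecidableEq ι]

theorem exceptional (hBLS1 : S_BLS1) (hBLS2 : S_BLS2) (hEN : S_EN) (hEC : S_EC) (hQS : S_QS)
    (hPT1 : S_PT1) (hPT2 : S_PT2) (hPT3 : S_PT3) (hPT4 : S_PT4) (hXB : S_XBT)
    (hS : S_SUMZ) (hET : S_ET) (hDI : S_DINDT) (hNZ : S_NZT)
    (hQC1 : S_QT1) (hQC2 : S_QT2) (hQC3 : S_QT3) (hQC4 : S_QT4) (hQC5 : S_QT5) (hQC6 : S_QT6)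
    (𝒪 : Subring F) (m h : ℕ) (ϖ : R) (b : ι → R) (Z : Finset ι) (ξ : ι → F) (s d : ι)
    (h𝒪 : IsLoc 𝒪) (hR : ∀ r : R, algebraMap R F r ∈ 𝒪) (hirr : Irreducible ϖ)
    (hm : IsUnit (m : R)) (hh : 1 ≤ h) (hmh : m = 2 * h ∨ m = 2 * h + 1)
    (hb : ∀ i, IsUnit (b i)) (hϖU : ¬ U 𝒪 (algebraMap R F ϖ)) (hϖ0 : algebraMap R F ϖ ≠ 0)
    (hZne : Z.Nonempty) (hξs : ξ s = 1) (hξ : ∀ i, ξ i ∈ 𝒪)
    (hrel : (∑ z : ZT Z, algebraMap R F (b z) * ξ z ^ m) + algebraMap R F ϖ * phT m b Z ξ = 0)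
    (hind : ∃ j₀ : {i : ι // i ≠ s},
      AlgebraicIndependent R (fun i : {i : {i : ι // i ≠ s} // i ≠ j₀} => ξ i))
    (hZU : ∀ i ∈ Z, ¬ U 𝒪 (ξ i)) (hφU : ¬ U 𝒪 (phT m b Z ξ)) (hd : s ≠ d) (hdZ : d ∉ Z)
    (hdU : U 𝒪 (ξ d))
    (hloc : ∀ 𝒱 : Subalgebra R F, (∀ w ∈ 𝒱, w ∈ 𝒪) →
      (∀ S, IsFacT ϖ m h b Z ξ S → Prin 𝒱 𝒪 S) → IsLocOf 𝒪 𝒱)
    (hPr : ∀ S, IsFacT ϖ m h b Z ξ S → Pr 𝒪 S) :
    IsRegularLocalRing 𝒪 := by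
  have hm1 : 1 ≤ m := by rcases hmh with h1 | h1 <;> omega
  have hsZ : s ∉ Z := by
    intro h1
    apply hZU s h1
    rw [hξs]
    exact U_one
  have hφ0 : phT m b Z ξ ≠ 0 := hNZ m hm1 ϖ b (fun i => (hb i).ne_zero) Z ξ s hsZ hZne hξs hrel hind
  have hφm : phT m b Z ξ ∈ 𝒪 := by
    refine 𝒪.sum_mem fun i _ => ?_
    split_ifs
    · exact 𝒪.zero_mem
    · exact 𝒪.mul_mem (hR _) (𝒪.pow_mem (hξ i) _)
  set φ := phT m b Z ξ with hφ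
  set 𝒲 := Algebra.adjoin R (Set.range ξ) with h𝒲
  have hW : ∀ w ∈ 𝒲, w ∈ 𝒪 := by
    apply adjoin_le 𝒪 hR
    rintro _ ⟨i, rfl⟩
    exact hξ i
  have hx𝒲 : ∀ i, ξ i ∈ 𝒲 := fun i => Algebra.subset_adjoin ⟨i, rfl⟩
  set q : Bool → F := qT ϖ φ with hq
  set η : ZT Z → F := fun z => ξ z with hη
  set t : TT Z s d → F := fun k => ξ k with ht
  set f : F := fY η (fun z : ZT Z => b z) m with hf
  have hY : YT Z ξ = Set.range η := by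
    ext y
    constructor
    · rintro ⟨i, hi, rfl⟩
      exact ⟨⟨i, hi⟩, rfl⟩
    · rintro ⟨z, rfl⟩
      exact ⟨z, z.2, rfl⟩
  have hfT : fT m b Z ξ = f := by
    rw [fT, Finset.sum_ite_mem, Finset.univ_inter, ← Finset.sum_coe_sort, hf, fY]
  have hX := hXB 𝒲 𝒪 m ϖ b Z ξ s hW hx𝒲 hξs
  rw [← hφ, ← hq] at hX
  have hqm : ∀ u, q u ∈ 𝒪 ∧ ¬ U 𝒪 (q u) := by
    intro u
    cases u with
    | false => exact ⟨hR _, hϖU⟩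
    | true => exact ⟨hφm, hφU⟩
  have hηm : ∀ z, η z ∈ 𝒪 ∧ ¬ U 𝒪 (η z) := fun z => ⟨hξ z, hZU z z.2⟩
  have hV : ∀ y ∈ Set.range ξ, y ∈ 𝒲 := by
    rintro _ ⟨i, rfl⟩
    exact hx𝒲 i
  have hYW : ∀ y ∈ YT Z ξ, y ∈ 𝒲 := by
    rintro _ ⟨i, _, rfl⟩
    exact hx𝒲 i
  have h1V : (1 : F) ∈ Set.range ξ := ⟨s, hξs⟩
  have hφ𝒲 : φ ∈ 𝒲 := by
    rw [hφ, phT]
    refine 𝒲.sum_mem fun i _ => ?_
    split_ifs
    · exact 𝒲.zero_mem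
    · exact 𝒲.mul_mem (𝒲.algebraMap_mem _) (𝒲.pow_mem (hx𝒲 i) _)
  have hQ𝒲 : ∀ y ∈ Set.range q, y ∈ 𝒲 := by
    rintro _ ⟨u, rfl⟩
    cases u with
    | false => exact 𝒲.algebraMap_mem _
    | true => exact hφ𝒲
  have hEN' : ∀ k, 1 ≤ k → k ≤ h → ExcS 𝒲 𝒪 (Nd (BT ϖ m b Z ξ) 1 (Set.range ξ) (YT Z ξ) m k)
      (NS (Set.range q) (Set.range η) k) := by
    intro k _ hk2
    have h1 := hEN 𝒲 𝒪 hW (BT ϖ m b Z ξ) (Set.range q) (Set.range ξ) (YT Z ξ) 1 m m k one_ne_zero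
      hV hYW h1V hX (by rcases hmh with h3 | h3 <;> omega)
    rwa [hY] at h1 ⊢
  have hEC' : m = 2 * h + 1 → ExcS 𝒲 𝒪 (Cd (BT ϖ m b Z ξ) 1 (fT m b Z ξ) (Set.range ξ)
      (YT Z ξ) m h) (CS (Set.range q) (Set.range η) f h) := by
    intro he
    have hX2 : ExcB 𝒲 𝒪 (BT ϖ m b Z ξ) 1 (Set.range q) (YT Z ξ) (2 * h + 1) := he ▸ hX
    have h1 := hEC 𝒲 𝒪 hW (BT ϖ m b Z ξ) (Set.range q) (Set.range ξ) (YT Z ξ) 1 (fT m b Z ξ) m h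
      one_ne_zero hV hYW h1V hX2 hQ𝒲
    rw [hfT] at h1 ⊢
    rwa [hY] at h1 ⊢
  have hNS : ∀ k, 1 ≤ k → k ≤ h → Pr 𝒪 (NS (Set.range q) (Set.range η) k) := by
    intro k hk1 hk2
    exact hBLS1 𝒪 h𝒪 𝒲 hW _ _ (hPr _ (Or.inr (Or.inl ⟨k, hk1, hk2, rfl⟩))) (hEN' k hk1 hk2)
  have hCS : m = 2 * h ∨ (m = 2 * h + 1 ∧ Pr 𝒪 (CS (Set.range q) (Set.range η) f h)) := by
    rcases hmh with he | he
    · exact Or.inl he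
    · exact Or.inr ⟨he, hBLS1 𝒪 h𝒪 𝒲 hW _ _ (hPr _ (Or.inr (Or.inr ⟨he, rfl⟩))) (hEC' he)⟩
  have hmU : U 𝒪 (m : F) := by
    have h1 := U_unit 𝒪 hR _ hm
    rwa [map_natCast] at h1
  -- the reduction
  have go : ∀ 𝒱₁ : Subalgebra R F, (∀ w ∈ 𝒱₁, w ∈ 𝒪) → (∀ k, t k ∈ 𝒱₁) →
      PTC 𝒱₁ 𝒪 q η f h m →
      (∀ 𝒪₁ : Subring F, IsLoc 𝒪₁ → (∀ w ∈ 𝒪₁, w ∈ 𝒪) → (∀ w ∈ 𝒱₁, w ∈ 𝒪₁) →
        (∀ w ∈ 𝒪₁, U 𝒪 w → U 𝒪₁ w) → IsLocOf 𝒪₁ (𝒱₁ : Set F) →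
        DataT 𝒪₁ m h ϖ b Z ξ s d φ → IsRegularLocalRing 𝒪₁) →
      IsRegularLocalRing 𝒪 := by
    intro 𝒱₁ h𝒱₁ ht1 hPTC H
    obtain ⟨hq1, hη1, hN1, hC1⟩ := hPTC
    have hφ1 : φ ∈ 𝒱₁ := hq1 true
    have hz1 : ∀ i ∈ Z, ξ i ∈ 𝒱₁ := fun i hi => hη1 ⟨i, hi⟩
    have hnd : ∀ i, i ≠ d → ξ i ∈ 𝒱₁ := by
      intro i h2
      by_cases h0 : i ∈ Z
      · exact hz1 i h0
      by_cases h1 : i = s
      · rw [h1, hξs]; exact 𝒱₁.one_mem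
      · exact ht1 ⟨i, h0, h1, h2⟩
    have hd1 : ξ d ^ m ∈ 𝒱₁ := by
      set T : ι → F := fun i => if i ∈ Z then 0 else algebraMap R F (b i) * ξ i ^ m with hT
      have h1 := (hS Z s d hd hsZ hdZ (fun _ : ι => (0 : F)) (fun _ => 0) (fun _ => 0) 0).2 T
      have h2 : T d = φ - T s - ∑ k : TT Z s d, T k - ∑ z : ZT Z, T z := by
        have h3 : φ = ∑ i, T i := rfl
        rw [h3, h1]
        ring
      have h4 : ∀ i, i ≠ d → T i ∈ 𝒱₁ := by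
        intro i hi
        simp only [hT]
        split_ifs
        · exact 𝒱₁.zero_mem
        · exact 𝒱₁.mul_mem (𝒱₁.algebraMap_mem _) (𝒱₁.pow_mem (hnd i hi) _)
      have h5 : T d ∈ 𝒱₁ := by
        rw [h2]
        refine 𝒱₁.sub_mem (𝒱₁.sub_mem (𝒱₁.sub_mem hφ1 (h4 s hd)) (𝒱₁.sum_mem fun k _ => h4 k k.2.2.2))
          (𝒱₁.sum_mem fun z _ => h4 z fun hz => hdZ (hz ▸ z.2))
      have h6 : T d = algebraMap R F (b d) * ξ d ^ m := by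
        simp only [hT]
        rw [if_neg hdZ]
      obtain ⟨v, hv⟩ := hb d
      have h7 : ξ d ^ m = algebraMap R F ((v⁻¹ : Rˣ) : R) * T d := by
        rw [h6, ← hv, ← mul_assoc, ← map_mul, Units.inv_mul, map_one, one_mul]
      rw [h7]
      exact 𝒱₁.mul_mem (𝒱₁.algebraMap_mem _) h5
    set 𝒱 := Algebra.adjoin R ((𝒱₁ : Set F) ∪ Set.range (fun _ : Unit => ξ d)) with h𝒱
    have h𝒱𝒪 : ∀ w ∈ 𝒱, w ∈ 𝒪 := by
      apply adjoin_le 𝒪 hR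
      rintro y (hy | ⟨_, rfl⟩)
      · exact h𝒱₁ y hy
      · exact hξ d
    have h1𝒱 : ∀ w ∈ 𝒱₁, w ∈ 𝒱 := fun w hw => Algebra.subset_adjoin (Or.inl hw)
    have hle : 𝒲 ≤ 𝒱 := by
      rw [h𝒲, Algebra.adjoin_le_iff]
      rintro y ⟨i, rfl⟩
      by_cases h0 : i = d
      · rw [h0]
        exact Algebra.subset_adjoin (Or.inr ⟨(), rfl⟩)
      · exact h1𝒱 _ (hnd i h0)
    have hmono1 : ∀ S, Prin 𝒱₁ 𝒪 S → Prin 𝒱 𝒪 S := by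
      rintro S ⟨m, hm, h1, h2⟩
      exact ⟨m, hm, fun h hh => h1𝒱 _ (h1 h hh), h2⟩
    have hfac : ∀ S, IsFacT ϖ m h b Z ξ S → Prin 𝒱 𝒪 S := by
      rintro S (rfl | ⟨k, hk1, hk2, rfl⟩ | ⟨he, rfl⟩)
      · refine ⟨1, one_ne_zero, ?_, 1, h1V, ?_⟩
        · rintro _ ⟨i, rfl⟩
          rw [div_one]
          exact hle (hx𝒲 i)
        · rw [div_one]
          exact U_one
      · exact hBLS2 𝒪 𝒲 𝒱 h𝒱𝒪 hle _ _ (hmono1 _ (hN1 k hk1 hk2)) (hEN' k hk1 hk2)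
      · exact hBLS2 𝒪 𝒲 𝒱 h𝒱𝒪 hle _ _ (hmono1 _ (hC1 he)) (hEC' he)
    obtain ⟨𝒪₁, l1, l2, l3, l4, l5, l6⟩ := hET 𝒪 h𝒪 𝒱₁ h𝒱₁ m hm1 hmU (fun _ : Unit => ξ d)
      (fun _ => hdU) (fun _ => hd1) (hloc 𝒱 h𝒱𝒪 hfac)
    apply l6
    have hU : ∀ y, U 𝒪₁ y → U 𝒪 y := fun y hy => ⟨hy.1, l2 _ hy.2.1, l2 _ hy.2.2⟩
    refine H 𝒪₁ l1 l2 l3 l4 l5 ⟨l1, fun r => l3 _ (𝒱₁.algebraMap_mem r), hirr, hm, hh, hmh, hb,
      hsZ, hdZ, hd, hξs, fun i hi => l3 _ (hnd i hi), fun i hi hu => hZU i hi (hU _ hu),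
      l3 _ hφ1, hφ0, fun hu => hφU (hU _ hu), fun hu => hϖU (hU _ hu), hϖ0, hrel, ?_⟩
    exact hDI m hm1 b Z ξ s d hd hdZ hsZ hξs (hb d).ne_zero hind
  have hfdiv : ∀ z₀, η z₀ ≠ 0 → (∀ z, η z / η z₀ ∈ 𝒪) → f / η z₀ ^ m ∈ 𝒪 := by
    intro z₀ h0 hz
    rw [hf, fY, Finset.sum_div]
    refine 𝒪.sum_mem fun z _ => ?_
    rw [mul_div_assoc, ← div_pow]
    exact 𝒪.mul_mem (hR _) (𝒪.pow_mem (hz z) _)
  have hadj : ∀ (S : Set F), (∀ w ∈ S, w ∈ 𝒪) →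
      ∀ w ∈ Algebra.adjoin R (S ∪ Set.range t), w ∈ 𝒪 := by
    intro S hS
    apply adjoin_le 𝒪 hR
    rintro w (hw | ⟨k, rfl⟩)
    · exact hS w hw
    · exact hξ k
  have htadj : ∀ (S : Set F) (k : TT Z s d), t k ∈ Algebra.adjoin R (S ∪ Set.range t) :=
    fun S k => Algebra.subset_adjoin (Or.inr ⟨k, rfl⟩)
  rcases hQS 𝒪 h𝒪 q η f h m hh hqm hηm hfdiv hNS hCS with
    ⟨l, h1⟩ | ⟨k, z₀, l, hk1, hk2, h1⟩ | ⟨k, z₀, hk1, hk2, hk3, h1, h2⟩ | ⟨z₀, he, h1⟩ |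
    ⟨z₀, he, h1, h2, h3⟩ | ⟨z₀, k₁, he, h1, h2, h3, h4, h5⟩
  · -- chart 1
    have hG : ∀ w ∈ G1 q η l, w ∈ 𝒪 := by
      rintro w ((rfl | ⟨m', rfl⟩) | ⟨z, rfl⟩)
      · exact (hqm l).1
      · exact h1.hq m'
      · exact h1.hy z
    have hsub : ∀ w ∈ G1 q η l, w ∈ Algebra.adjoin R (G1 q η l ∪ Set.range t) :=
      fun w hw => Algebra.subset_adjoin (Or.inl hw)
    refine go (Algebra.adjoin R (G1 q η l ∪ Set.range t)) (hadj _ hG) (htadj _)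
      (hPT1 _ 𝒪 (hadj _ hG) q η (fun z : ZT Z => b z) h m hh hmh l h1 hsub) ?_
    intro 𝒪₁ l1 l2 l3 l4 l5 hctx
    have hU : ∀ y, U 𝒪₁ y → U 𝒪 y := fun y hy => ⟨hy.1, l2 _ hy.2.1, l2 _ hy.2.2⟩
    exact hQC1 𝒪₁ m h ϖ b Z ξ s d φ hctx q η t hq hη ht l
      ⟨h1.ql, fun m' => l3 _ (hsub _ (Or.inl (Or.inr ⟨m', rfl⟩))),
        fun z => l3 _ (hsub _ (Or.inr ⟨z, rfl⟩)), fun z h => h1.hyU z (hU _ h)⟩ l5
  · -- chart 2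
    have hG : ∀ w ∈ G2 q η k z₀ l, w ∈ 𝒪 := by
      rintro w (((rfl | hw) | ⟨m', rfl⟩) | ⟨z, rfl⟩)
      · exact h1.hε
      · rw [Set.mem_singleton_iff.1 hw]; exact h1.hω
      · exact h1.hq m'
      · exact h1.hy z
    have hsub : ∀ w ∈ G2 q η k z₀ l, w ∈ Algebra.adjoin R (G2 q η k z₀ l ∪ Set.range t) :=
      fun w hw => Algebra.subset_adjoin (Or.inl hw)
    refine go (Algebra.adjoin R (G2 q η k z₀ l ∪ Set.range t)) (hadj _ hG) (htadj _)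
      (hPT2 _ 𝒪 (hadj _ hG) q η (fun z : ZT Z => b z) h m hh hmh k z₀ l hk1 hk2 h1 hsub) ?_
    intro 𝒪₁ l1 l2 l3 l4 l5 hctx
    have hU : ∀ y, U 𝒪₁ y → U 𝒪 y := fun y hy => ⟨hy.1, l2 _ hy.2.1, l2 _ hy.2.2⟩
    exact hQC2 𝒪₁ m h ϖ b Z ξ s d φ hctx q η t hq hη ht k z₀ l hk1 hk2
      ⟨h1.yz, h1.ql, fun z => l3 _ (hsub _ (Or.inr ⟨z, rfl⟩)),
        fun m' => l3 _ (hsub _ (Or.inl (Or.inr ⟨m', rfl⟩))),
        l3 _ (hsub _ (Or.inl (Or.inl (Or.inl rfl)))), fun h => h1.hεU (hU _ h),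
        l3 _ (hsub _ (Or.inl (Or.inl (Or.inr rfl)))), fun h => h1.hωU (hU _ h)⟩ l5
  · -- chart 3
    have hG : ∀ w ∈ G3 q η k z₀, w ∈ 𝒪 := by
      rintro w ((rfl | ⟨m', rfl⟩) | ⟨z, rfl⟩)
      · exact (hηm z₀).1
      · exact h1.hq m'
      · exact h1.hy z
    have hsub : ∀ w ∈ G3 q η k z₀, w ∈ Algebra.adjoin R (G3 q η k z₀ ∪ Set.range t) :=
      fun w hw => Algebra.subset_adjoin (Or.inl hw)
    refine go (Algebra.adjoin R (G3 q η k z₀ ∪ Set.range t)) (hadj _ hG) (htadj _)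
      (hPT3 _ 𝒪 (hadj _ hG) q η (fun z : ZT Z => b z) h m hh hmh k z₀ hk1 hk2 h1 (Or.inl h2)
        hsub) ?_
    intro 𝒪₁ l1 l2 l3 l4 l5 hctx
    obtain ⟨u, hu⟩ := h2
    exact hQC3 𝒪₁ m h ϖ b Z ξ s d φ hctx q η t hq hη ht k z₀ hk1 hk2 hk3
      ⟨h1.yz, fun z => l3 _ (hsub _ (Or.inr ⟨z, rfl⟩)),
        fun m' => l3 _ (hsub _ (Or.inl (Or.inr ⟨m', rfl⟩)))⟩
      ⟨u, l4 _ (l3 _ (hsub _ (Or.inl (Or.inr ⟨u, rfl⟩)))) hu⟩ l5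
  · -- chart 3, m even
    have hG : ∀ w ∈ G3 q η h z₀, w ∈ 𝒪 := by
      rintro w ((rfl | ⟨m', rfl⟩) | ⟨z, rfl⟩)
      · exact (hηm z₀).1
      · exact h1.hq m'
      · exact h1.hy z
    have hsub : ∀ w ∈ G3 q η h z₀, w ∈ Algebra.adjoin R (G3 q η h z₀ ∪ Set.range t) :=
      fun w hw => Algebra.subset_adjoin (Or.inl hw)
    refine go (Algebra.adjoin R (G3 q η h z₀ ∪ Set.range t)) (hadj _ hG) (htadj _)
      (hPT3 _ 𝒪 (hadj _ hG) q η (fun z : ZT Z => b z) h m hh hmh h z₀ hh le_rfl h1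
        (Or.inr ⟨rfl, Or.inl he⟩) hsub) ?_
    intro 𝒪₁ l1 l2 l3 l4 l5 hctx
    exact hQC6 𝒪₁ m h ϖ b Z ξ s d φ hctx q η t hq hη ht z₀ he
      ⟨h1.yz, fun z => l3 _ (hsub _ (Or.inr ⟨z, rfl⟩)),
        fun m' => l3 _ (hsub _ (Or.inl (Or.inr ⟨m', rfl⟩)))⟩ l5
  · -- chart 3, f a unit
    have hG : ∀ w ∈ G3 q η h z₀, w ∈ 𝒪 := by
      rintro w ((rfl | ⟨m', rfl⟩) | ⟨z, rfl⟩)
      · exact (hηm z₀).1
      · exact h1.hq m'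
      · exact h1.hy z
    have hsub : ∀ w ∈ G3 q η h z₀, w ∈ Algebra.adjoin R (G3 q η h z₀ ∪ Set.range t) :=
      fun w hw => Algebra.subset_adjoin (Or.inl hw)
    refine go (Algebra.adjoin R (G3 q η h z₀ ∪ Set.range t)) (hadj _ hG) (htadj _)
      (hPT3 _ 𝒪 (hadj _ hG) q η (fun z : ZT Z => b z) h m hh hmh h z₀ hh le_rfl h1
        (Or.inr ⟨rfl, Or.inr h3⟩) hsub) ?_
    intro 𝒪₁ l1 l2 l3 l4 l5 hctx
    have hU : ∀ y, U 𝒪₁ y → U 𝒪 y := fun y hy => ⟨hy.1, l2 _ hy.2.1, l2 _ hy.2.2⟩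
    have hηz : ∀ z, η z / η z₀ ∈ 𝒪₁ := fun z => l3 _ (hsub _ (Or.inr ⟨z, rfl⟩))
    have hf1 : f / η z₀ ^ m ∈ 𝒪₁ := by
      rw [hf, fY, Finset.sum_div]
      refine 𝒪₁.sum_mem fun z _ => ?_
      rw [mul_div_assoc, ← div_pow]
      exact 𝒪₁.mul_mem (l3 _ (Subalgebra.algebraMap_mem _ _)) (𝒪₁.pow_mem (hηz z) _)
    exact hQC5 𝒪₁ m h ϖ b Z ξ s d φ hctx q η t hq hη ht f hf z₀ he
      ⟨h1.yz, hηz, fun m' => l3 _ (hsub _ (Or.inl (Or.inr ⟨m', rfl⟩)))⟩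
      (fun m' h => h2 m' (hU _ h)) (l4 _ hf1 h3) l5
  · -- chart 4
    have hzst : ∀ k, zst q η f h m z₀ k ∈ 𝒪 ∧ ¬ U 𝒪 (zst q η f h m z₀ k) := by
      intro k
      match k with
      | none => exact hηm z₀
      | some none => exact ⟨hfdiv z₀ h1.yz h1.hy, h3⟩
      | some (some m') => exact ⟨h1.hq m', h2 m'⟩
    have hG : ∀ w ∈ G4 q η f h m z₀ k₁, w ∈ 𝒪 := by
      rintro w ((rfl | ⟨m', rfl⟩) | ⟨z, rfl⟩)
      · exact (hzst k₁).1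
      · exact h5 m'
      · exact h1.hy z
    have hsub : ∀ w ∈ G4 q η f h m z₀ k₁,
        w ∈ Algebra.adjoin R (G4 q η f h m z₀ k₁ ∪ Set.range t) :=
      fun w hw => Algebra.subset_adjoin (Or.inl hw)
    refine go (Algebra.adjoin R (G4 q η f h m z₀ k₁ ∪ Set.range t)) (hadj _ hG) (htadj _)
      (hPT4 _ 𝒪 (hadj _ hG) q η (fun z : ZT Z => b z) h m hh he z₀ k₁ h1 h4 h5 hsub) ?_
    intro 𝒪₁ l1 l2 l3 l4 l5 hctx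
    have hU : ∀ y, U 𝒪₁ y → U 𝒪 y := fun y hy => ⟨hy.1, l2 _ hy.2.1, l2 _ hy.2.2⟩
    have hk : ∀ k, zst q η f h m z₀ k / zst q η f h m z₀ k₁ ∈ 𝒪₁ :=
      fun k => l3 _ (hsub _ (Or.inl (Or.inr ⟨k, rfl⟩)))
    have hk' : ∀ k, zst q η f h m z₀ k ∈ 𝒪₁ := by
      intro k
      have h6 : zst q η f h m z₀ k =
          (zst q η f h m z₀ k / zst q η f h m z₀ k₁) * zst q η f h m z₀ k₁ := by
        field_simp
      rw [h6]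
      exact 𝒪₁.mul_mem (hk k) (l3 _ (hsub _ (Or.inl (Or.inl rfl))))
    exact hQC4 𝒪₁ m h ϖ b Z ξ s d φ hctx q η t hq hη ht f hf z₀ k₁ he
      ⟨h1.yz, fun z => l3 _ (hsub _ (Or.inr ⟨z, rfl⟩)), fun m' => hk' (some (some m'))⟩
      (fun k h => (hzst k).2 (hU _ h)) h4 hk l5

end exceptional

end LOCTaux

open LOCTaux Pool.Agent.H945R2.D.LOCaux Pool.Agent.H945R2.S.LOCSaux

theorem LOCT_ok (hMAS : S_MAS) (hPRA : S_PRA) (hSIM : S_SIM) (hSCT : S_SCT) (hTT : S_TT1)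
    (hGT : S_GT) (hBLS1 : S_BLS1) (hBLS2 : S_BLS2) (hEN : S_EN) (hEC : S_EC) (hQS : S_QS)
    (hPT1 : S_PT1) (hPT2 : S_PT2) (hPT3 : S_PT3) (hPT4 : S_PT4) (hXB : S_XBT)
    (hS : S_SUMZ) (hET : S_ET) (hDI : S_DINDT) (hNZ : S_NZT)
    (hQC1 : S_QT1) (hQC2 : S_QT2) (hQC3 : S_QT3) (hQC4 : S_QT4) (hQC5 : S_QT5)
    (hQC6 : S_QT6) : S_LOCT := by
  intro R F ι κ _ _ _ _ _ _ _ _ 𝒪 m h ϖ b Z x hD Φ hΦ f hf hfG hG hloc2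
  have hm2 : 2 ≤ m := by
    have h1 := hD.hh
    rcases hD.hmh with h2 | h2 <;> omega
  have hPr : ∀ S, IsFacT ϖ m h b Z x S → Pr 𝒪 S := by
    intro S hS
    have h1 : S ∈ Set.range Φ := by rw [hΦ]; exact hS
    obtain ⟨k, rfl⟩ := h1
    exact hPRA 𝒪 hD.loc hD.hR Φ f hf hfG hG k
  have hMAS' : ∀ 𝒱 : Subalgebra R F, (∀ w ∈ 𝒱, w ∈ 𝒪) →
      (∀ S, IsFacT ϖ m h b Z x S → Prin 𝒱 𝒪 S) → IsLocOf 𝒪 𝒱 := by
    intro 𝒱 h𝒱 hall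
    refine hMAS 𝒪 hD.loc hD.hR 𝒱 h𝒱 Φ f hf hfG hG hloc2 fun k => hall _ ?_
    have h1 : Φ k ∈ Set.range Φ := ⟨k, rfl⟩
    rw [hΦ] at h1
    exact h1
  obtain ⟨_, ⟨s, rfl⟩, hs, hx⟩ := hPr _ (Or.inl rfl)
  have hxs : ∀ i, x i / x s ∈ 𝒪 := fun i => hx _ ⟨i, rfl⟩
  set ξ : ι → F := fun i => x i / x s with hξ
  have hx1 : (fun i => x s * ξ i) = x := by
    funext i
    simp only [hξ]
    field_simp
  have hsc := hSCT (R := R) m h hD.hh hD.hmh ϖ b Z ξ (x s) hs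
  rw [hx1] at hsc
  have hPr' : ∀ S, IsFacT ϖ m h b Z ξ S → Pr 𝒪 S := by
    intro S hS
    obtain ⟨Φ', h1, h2⟩ := hsc.2 S hS
    exact (hSIM 𝒪 hD.hR Φ' S h2).1 (hPr Φ' h1)
  have hloc' : ∀ 𝒱 : Subalgebra R F, (∀ w ∈ 𝒱, w ∈ 𝒪) →
      (∀ S, IsFacT ϖ m h b Z ξ S → Prin 𝒱 𝒪 S) → IsLocOf 𝒪 𝒱 := by
    intro 𝒱 h𝒱 hall
    apply hMAS' 𝒱 h𝒱
    intro S hS
    obtain ⟨Φ', h1, h2⟩ := hsc.1 S hS
    exact (hSIM 𝒪 hD.hR S Φ' h2).2 𝒱 (hall Φ' h1)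
  have hξs : ξ s = 1 := div_self hs
  have hrel : (∑ z : ZT Z, algebraMap R F (b z) * ξ z ^ m) +
      algebraMap R F ϖ * phT m b Z ξ = 0 := by
    have h1 : ∀ i, algebraMap R F (b i) * x i ^ m =
        x s ^ m * (algebraMap R F (b i) * ξ i ^ m) := by
      intro i
      have h0 : x s * ξ i = x i := congrFun hx1 i
      rw [← h0, mul_pow]
      ring
    have h2 : (∑ z : ZT Z, algebraMap R F (b z) * x z ^ m) =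
        x s ^ m * ∑ z : ZT Z, algebraMap R F (b z) * ξ z ^ m := by
      rw [Finset.mul_sum]
      exact Finset.sum_congr rfl fun z _ => h1 z
    have h3 : phT m b Z x = x s ^ m * phT m b Z ξ := by
      rw [phT, phT, Finset.mul_sum]
      refine Finset.sum_congr rfl fun i _ => ?_
      split_ifs
      · rw [mul_zero]
      · exact h1 i
    have h4 := hD.rel
    rw [h2, h3] at h4
    have h5 : x s ^ m * ((∑ z : ZT Z, algebraMap R F (b z) * ξ z ^ m) +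
        algebraMap R F ϖ * phT m b Z ξ) = 0 := by
      rw [← h4]
      ring
    exact (mul_eq_zero.1 h5).resolve_left (pow_ne_zero _ hs)
  have hind := hD.hind s hs
  have hW : ∀ w ∈ Algebra.adjoin R (Set.range ξ), w ∈ 𝒪 := by
    apply adjoin_le 𝒪 hD.hR
    rintro _ ⟨i, rfl⟩
    exact hxs i
  by_cases hA : (∃ i ∈ Z, U 𝒪 (ξ i)) ∨ U 𝒪 (phT m b Z ξ)
  · refine hGT 𝒪 hD.loc hD.hR m hD.hm hm2 ϖ hD.irr hD.ϖU b hD.hb Z ξ s hξs hxs hrel hind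
      (hloc' _ hW ?_) hA
    intro S hS
    exact hTT _ 𝒪 hD.loc hW m h hD.hh hD.hmh ϖ b Z ξ s
      (fun i => Algebra.subset_adjoin ⟨i, rfl⟩) hξs hA S hS
  · push Not at hA
    obtain ⟨hA1, hA2⟩ := hA
    have hsZ : s ∉ Z := by
      intro h1
      apply hA1 s h1
      rw [hξs]
      exact U_one
    obtain ⟨d, hd, hdZ, hdU⟩ := exists_d 𝒪 hD.loc hD.hR m (by omega) b hD.hb Z ξ s hξs hsZ hxs hA2
    exact exceptional hBLS1 hBLS2 hEN hEC hQS hPT1 hPT2 hPT3 hPT4 hXB hS hET hDI hNZ hQC1 hQC2 hQC3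
      hQC4 hQC5 hQC6 𝒪 m h ϖ b Z ξ s d hD.loc hD.hR hD.irr hD.hm hD.hh hD.hmh hD.hb hD.ϖU hD.ϖ0
      hD.hZ hξs hxs hrel hind hA1 hA2 hd hdZ hdU hloc' hPr'

end Pool.Agent.H945R2.E
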