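import Pool.Agent.H945R2.E.Props

set_option autoImplicit false

open scoped Pointwise

namespace Pool.Agent.H945R2.E

open Pool.Agent.H918R2.Quad Pool.Agent.H945R2.D Pool.Agent.H945R2.S

namespace PINaux

/-- the property: `π` is not in the symbolic square of a prime -/
def Q (A : Type) [CommRing A] (π : A) : Prop :=
  ∀ (p : Ideal A), p.IsPrime → π ∈ p → ∀ c : A, c * π ∈ p ^ 2 → c ∈ p

section poly

open Polynomial

variable {A : Type} [CommRing A] [IsDomain A]

/-- pseudo-division -/
theorem pd (f : A[X]) (hf : f ≠ 0) : ∀ (n : ℕ) (g : A[X]), g.degree < n →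
    ∃ (N : ℕ) (q r : A[X]), C f.leadingCoeff ^ N * g = q * f + r ∧ r.degree < f.degree ∧
      ∀ J : Ideal A, g ∈ J.map (C : A →+* A[X]) → q ∈ J.map (C : A →+* A[X]) ∧
        r ∈ J.map (C : A →+* A[X]) := by
  intro n
  induction n with
  | zero =>
    intro g hg
    have h0 : g = 0 := by
      by_contra hne
      rw [Polynomial.degree_eq_natDegree hne] at hg
      simp at hg
    subst h0
    exact ⟨0, 0, 0, by simp, by simpa [bot_lt_iff_ne_bot] using hf, fun J _ => ⟨J.map C |>.zero_mem,
      J.map C |>.zero_mem⟩⟩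
  | succ n ih =>
    intro g hg
    by_cases hlt : g.degree < f.degree
    · exact ⟨0, 0, g, by simp, hlt, fun J h => ⟨(J.map C).zero_mem, h⟩⟩
    · have hle : f.degree ≤ g.degree := not_lt.1 hlt
      have hg0 : g ≠ 0 := by
        rintro rfl
        rw [Polynomial.degree_zero, le_bot_iff, Polynomial.degree_eq_bot] at hle
        exact hf hle
      have hfa : f.leadingCoeff ≠ 0 := Polynomial.leadingCoeff_ne_zero.2 hf
      have hga : g.leadingCoeff ≠ 0 := Polynomial.leadingCoeff_ne_zero.2 hg0
      have hnat : f.natDegree ≤ g.natDegree := Polynomial.natDegree_le_natDegree hle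
      set m := g.natDegree - f.natDegree with hm
      set u : A[X] := C g.leadingCoeff * X ^ m with hu
      have hu0 : u ≠ 0 := by
        rw [hu]
        exact mul_ne_zero (by simpa using hga) (pow_ne_zero _ Polynomial.X_ne_zero)
      have hud : u.degree = m := by
        rw [hu, Polynomial.degree_C_mul_X_pow _ hga]
      have hul : u.leadingCoeff = g.leadingCoeff := by
        rw [hu, Polynomial.leadingCoeff_mul, Polynomial.leadingCoeff_C,
          Polynomial.leadingCoeff_X_pow, mul_one]
      have hd1 : (C f.leadingCoeff * g).degree = g.degree := by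
        rw [Polynomial.degree_mul, Polynomial.degree_C hfa, zero_add]
      have hd2 : (u * f).degree = g.degree := by
        rw [Polynomial.degree_mul, hud, Polynomial.degree_eq_natDegree hf,
          Polynomial.degree_eq_natDegree hg0, ← Nat.cast_add]
        congr 1
        omega
      have hlt' : (C f.leadingCoeff * g - u * f).degree < (n : WithBot ℕ) := by
        have h1 : (C f.leadingCoeff * g - u * f).degree < (C f.leadingCoeff * g).degree := by
          refine Polynomial.degree_sub_lt_left (by rw [hd1, hd2]) (mul_ne_zero (by simpa using hfa) hg0)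
            ?_
          rw [Polynomial.leadingCoeff_mul, Polynomial.leadingCoeff_mul, hul,
            Polynomial.leadingCoeff_C, mul_comm]
        rw [hd1] at h1
        by_cases hz : C f.leadingCoeff * g - u * f = 0
        · rw [hz, Polynomial.degree_zero]
          exact WithBot.bot_lt_coe n
        · rw [Polynomial.degree_eq_natDegree hz] at h1 ⊢
          rw [Polynomial.degree_eq_natDegree hg0] at h1 hg
          have h2 : (C f.leadingCoeff * g - u * f).natDegree < g.natDegree := by exact_mod_cast h1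
          have h3 : g.natDegree < n + 1 := by exact_mod_cast hg
          exact_mod_cast (show (C f.leadingCoeff * g - u * f).natDegree < n by omega)
      obtain ⟨N, q, r, he, hr, hJ⟩ := ih _ hlt'
      refine ⟨N + 1, q + C f.leadingCoeff ^ N * u, r, ?_, hr, ?_⟩
      · linear_combination he
      · intro J hgJ
        have huJ : u ∈ J.map (C : A →+* A[X]) := by
          rw [hu]
          refine Ideal.mul_mem_right _ _ (Ideal.mem_map_of_mem _ ?_)
          exact (Ideal.mem_map_C_iff.1 hgJ) _
        have h1 : C f.leadingCoeff * g - u * f ∈ J.map (C : A →+* A[X]) :=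
          Ideal.sub_mem _ (Ideal.mul_mem_left _ _ hgJ) (Ideal.mul_mem_right _ _ huJ)
        exact ⟨Ideal.add_mem _ (hJ J h1).1 (Ideal.mul_mem_left _ _ huJ), (hJ J h1).2⟩

theorem pd' (f : A[X]) (hf : f ≠ 0) (g : A[X]) :
    ∃ (N : ℕ) (q r : A[X]), C f.leadingCoeff ^ N * g = q * f + r ∧ r.degree < f.degree ∧
      ∀ J : Ideal A, g ∈ J.map (C : A →+* A[X]) → q ∈ J.map (C : A →+* A[X]) ∧
        r ∈ J.map (C : A →+* A[X]) := by
  refine pd f hf (g.natDegree + 1) g ?_
  exact lt_of_le_of_lt Polynomial.degree_le_natDegree (by exact_mod_cast Nat.lt_succ_self _)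

/-- an element of minimal degree -/
theorem mini (p : Ideal A) (I : Ideal A[X]) (hpI : p.map (C : A →+* A[X]) ≤ I)
    (hI : ¬ I ≤ p.map (C : A →+* A[X])) :
    ∃ f ∈ I, f.leadingCoeff ∉ p ∧ ∀ g ∈ I, ∃ (N : ℕ) (q : A[X]),
      C f.leadingCoeff ^ N * g - q * f ∈ p.map (C : A →+* A[X]) := by
  classical
  have hex : ∃ n : ℕ, ∃ f ∈ I, f ∉ p.map (C : A →+* A[X]) ∧ f.natDegree = n := by
    obtain ⟨f, hf, hf'⟩ := Set.not_subset.1 hI
    exact ⟨_, f, hf, hf', rfl⟩
  obtain ⟨f, hfI, hfp, hfn⟩ := Nat.find_spec hex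
  have hmin : ∀ g ∈ I, g.natDegree < f.natDegree → g ∈ p.map (C : A →+* A[X]) := by
    intro g hg hlt
    by_contra hcon
    exact Nat.find_min hex (m := g.natDegree) (by omega) ⟨g, hg, hcon, rfl⟩
  have hf0 : f ≠ 0 := by
    rintro rfl
    exact hfp (Ideal.zero_mem _)
  refine ⟨f, hfI, ?_, ?_⟩
  · intro hlc
    have h1 : C f.leadingCoeff * X ^ f.natDegree ∈ p.map (C : A →+* A[X]) :=
      Ideal.mul_mem_right _ _ (Ideal.mem_map_of_mem _ hlc)
    have h2 := f.eraseLead_add_C_mul_X_pow
    have h3 : f.eraseLead ∈ I := by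
      have : f.eraseLead = f - C f.leadingCoeff * X ^ f.natDegree := by
        linear_combination h2
      rw [this]
      exact Ideal.sub_mem _ hfI (hpI h1)
    have h4 : f.eraseLead ∉ p.map (C : A →+* A[X]) := by
      intro h5
      apply hfp
      rw [← h2]
      exact Ideal.add_mem _ h5 h1
    rcases Polynomial.eraseLead_natDegree_lt_or_eraseLead_eq_zero f with h5 | h5
    · exact h4 (hmin _ h3 h5)
    · rw [h5] at h4
      exact h4 (Ideal.zero_mem _)
  · intro g hg
    obtain ⟨N, q, r, he, hr, -⟩ := pd' f hf0 g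
    refine ⟨N, q, ?_⟩
    have h1 : C f.leadingCoeff ^ N * g - q * f = r := by linear_combination he
    rw [h1]
    by_cases hr0 : r = 0
    · rw [hr0]; exact Ideal.zero_mem _
    · refine hmin r ?_ ?_
      · rw [← h1]
        exact Ideal.sub_mem _ (Ideal.mul_mem_left _ _ hg) (Ideal.mul_mem_left _ _ hfI)
      · exact Polynomial.natDegree_lt_natDegree hr0 hr

theorem step {π : A} (hQ : Q A π) : Q A[X] (C π) := by
  intro P hP hπ c hc
  set p : Ideal A := P.comap (C : A →+* A[X]) with hp
  have hpp : p.IsPrime := Ideal.IsPrime.comap _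
  have hπp : π ∈ p := hπ
  have hpP : p.map (C : A →+* A[X]) ≤ P := Ideal.map_le_iff_le_comap.2 le_rfl
  by_cases hcase : P ≤ p.map (C : A →+* A[X])
  · have he : P = p.map (C : A →+* A[X]) := le_antisymm hcase hpP
    rw [he] at hc ⊢
    rw [← Ideal.map_pow] at hc
    rw [Ideal.mem_map_C_iff] at hc ⊢
    intro n
    have h1 := hc n
    rw [Polynomial.coeff_mul_C] at h1
    exact hQ p hpp hπp _ h1
  · by_contra hcP
    have hmp : (p.map (C : A →+* A[X])).IsPrime := Ideal.isPrime_map_C_of_isPrime
    obtain ⟨f, hfP, hfp, hfm⟩ := mini p P hpP hcase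
    have hCmem : ∀ s : A, C s ∈ P → s ∈ p := fun s h => h
    have hf0 : f ≠ 0 := by
      rintro rfl
      exact hfp (by simp)
    have hfmap : f ∉ p.map (C : A →+* A[X]) := fun h => hfp ((Ideal.mem_map_C_iff.1 h) _)
    have hfd : 0 < f.degree := by
      by_contra hcon
      have h1 := Polynomial.eq_C_of_degree_le_zero (not_lt.1 hcon)
      have h2 : f.leadingCoeff = f.coeff 0 := by rw [h1]; simp
      rw [h1] at hfP
      exact hfp (by rw [h2]; exact hCmem _ hfP)
    -- `P ⊔ (c)` contains a constant outside `p`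
    have hI3 : ∃ s, s ∉ p ∧ C s ∈ P ⊔ Ideal.span {c} := by
      have h1 : p.map (C : A →+* A[X]) ≤ P ⊔ Ideal.span {c} := hpP.trans le_sup_left
      have h2 : ¬ (P ⊔ Ideal.span {c}) ≤ p.map (C : A →+* A[X]) := fun h =>
        hcase (le_sup_left.trans h)
      obtain ⟨h, hh, hhp, hhm⟩ := mini p _ h1 h2
      obtain ⟨N, q, hN⟩ := hhm f (Ideal.mem_sup_left hfP)
      have hqh : q * h ∈ P := by
        have : q * h = C h.leadingCoeff ^ N * f - (C h.leadingCoeff ^ N * f - q * h) := by ring
        rw [this]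
        exact Ideal.sub_mem _ (Ideal.mul_mem_left _ _ hfP) (hpP hN)
      rcases hP.mem_or_mem hqh with hq | hh'
      · obtain ⟨M, q2, hM⟩ := hfm q hq
        have h3 : f * (C (f.leadingCoeff ^ M * h.leadingCoeff ^ N) - q2 * h) ∈
            p.map (C : A →+* A[X]) := by
          have : f * (C (f.leadingCoeff ^ M * h.leadingCoeff ^ N) - q2 * h) =
              C f.leadingCoeff ^ M * (C h.leadingCoeff ^ N * f - q * h) +
                h * (C f.leadingCoeff ^ M * q - q2 * f) := by
            rw [Polynomial.C_mul, Polynomial.C_pow, Polynomial.C_pow]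
            ring
          rw [this]
          exact Ideal.add_mem _ (Ideal.mul_mem_left _ _ hN) (Ideal.mul_mem_left _ _ hM)
        rcases hmp.mem_or_mem h3 with h4 | h4
        · exact absurd h4 hfmap
        · refine ⟨f.leadingCoeff ^ M * h.leadingCoeff ^ N, ?_, ?_⟩
          · intro h5
            rcases hpp.mem_or_mem h5 with h6 | h6
            · exact hfp (hpp.mem_of_pow_mem _ h6)
            · exact hhp (hpp.mem_of_pow_mem _ h6)
          · have : (C (f.leadingCoeff ^ M * h.leadingCoeff ^ N) : A[X]) =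
                (C (f.leadingCoeff ^ M * h.leadingCoeff ^ N) - q2 * h) + q2 * h := by ring
            rw [this]
            exact Ideal.add_mem _ (h1 h4) (Ideal.mul_mem_left _ _ hh)
      · exfalso
        obtain ⟨M, q2, hM⟩ := hhm c (Ideal.mem_sup_right (Ideal.mem_span_singleton_self c))
        have h3 : C h.leadingCoeff ^ M * c ∈ P := by
          have : C h.leadingCoeff ^ M * c = (C h.leadingCoeff ^ M * c - q2 * h) + q2 * h := by ring
          rw [this]
          exact Ideal.add_mem _ (hpP hM) (Ideal.mul_mem_left _ _ hh')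
        rcases hP.mem_or_mem h3 with h4 | h4
        · exact hhp (hCmem _ (hP.mem_of_pow_mem _ h4))
        · exact hcP h4
    obtain ⟨s, hs, hsI⟩ := hI3
    obtain ⟨x, hx, y, hy, hxy⟩ := Submodule.mem_sup.1 hsI
    obtain ⟨U, rfl⟩ := Ideal.mem_span_singleton'.1 hy
    obtain ⟨K, q3, hK⟩ := hfm x hx
    -- elements of `P ^ 2`
    have hP2 : ∀ z ∈ P ^ 2, ∃ (N : ℕ) (q : A[X]),
        C f.leadingCoeff ^ N * z - q * f ∈ (p ^ 2).map (C : A →+* A[X]) := by
      intro z hz
      rw [pow_two] at hz
      refine Submodule.mul_induction_on hz ?_ ?_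
      · intro g1 hg1 g2 hg2
        obtain ⟨N1, q1, h1⟩ := hfm g1 hg1
        obtain ⟨N2, q2, h2⟩ := hfm g2 hg2
        refine ⟨N1 + N2, q1 * C f.leadingCoeff ^ N2 * g2 +
          q2 * (C f.leadingCoeff ^ N1 * g1 - q1 * f), ?_⟩
        have : C f.leadingCoeff ^ (N1 + N2) * (g1 * g2) -
            (q1 * C f.leadingCoeff ^ N2 * g2 +
              q2 * (C f.leadingCoeff ^ N1 * g1 - q1 * f)) * f =
            (C f.leadingCoeff ^ N1 * g1 - q1 * f) * (C f.leadingCoeff ^ N2 * g2 - q2 * f) := by
          ring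
        rw [this, pow_two, Ideal.map_mul]
        exact Ideal.mul_mem_mul h1 h2
      · rintro z1 z2 ⟨N1, q1, h1⟩ ⟨N2, q2, h2⟩
        refine ⟨N1 + N2, C f.leadingCoeff ^ N2 * q1 + C f.leadingCoeff ^ N1 * q2, ?_⟩
        have : C f.leadingCoeff ^ (N1 + N2) * (z1 + z2) -
            (C f.leadingCoeff ^ N2 * q1 + C f.leadingCoeff ^ N1 * q2) * f =
            C f.leadingCoeff ^ N2 * (C f.leadingCoeff ^ N1 * z1 - q1 * f) +
              C f.leadingCoeff ^ N1 * (C f.leadingCoeff ^ N2 * z2 - q2 * f) := by ring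
        rw [this]
        exact Ideal.add_mem _ (Ideal.mul_mem_left _ _ h1) (Ideal.mul_mem_left _ _ h2)
    obtain ⟨N, q4, hN⟩ := hP2 _ hc
    -- the constant `t`
    set a := f.leadingCoeff with ha
    have hπm : ∀ w ∈ p.map (C : A →+* A[X]), C π * w ∈ (p ^ 2).map (C : A →+* A[X]) := by
      intro w hw
      rw [pow_two, Ideal.map_mul]
      exact Ideal.mul_mem_mul (Ideal.mem_map_of_mem _ hπp) hw
    obtain ⟨H, hH⟩ : ∃ H : A[X], C (a ^ N * a ^ K * s * π) - H * f ∈
        (p ^ 2).map (C : A →+* A[X]) := by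
      refine ⟨C a ^ K * U * q4 + C a ^ N * C π * q3, ?_⟩
      have : (C (a ^ N * a ^ K * s * π) : A[X]) - (C a ^ K * U * q4 + C a ^ N * C π * q3) * f =
          C a ^ K * U * (C a ^ N * (c * C π) - q4 * f) +
            C a ^ N * (C π * (C a ^ K * x - q3 * f)) := by
        simp only [Polynomial.C_mul, Polynomial.C_pow]
        rw [← hxy]
        ring
      rw [this]
      exact Ideal.add_mem _ (Ideal.mul_mem_left _ _ hN) (Ideal.mul_mem_left _ _ (hπm _ hK))
    obtain ⟨M, q5, r, he, hr, hJ⟩ := pd' f hf0 (C (a ^ N * a ^ K * s * π) - H * f)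
    have hrm := (hJ (p ^ 2) hH).2
    have hkey : C (a ^ M * (a ^ N * a ^ K * s * π)) - r = (C a ^ M * H + q5) * f := by
      rw [Polynomial.C_mul, Polynomial.C_pow]
      linear_combination he
    have hzero : C a ^ M * H + q5 = 0 := by
      by_contra hne
      have h1 : f.degree ≤ (C (a ^ M * (a ^ N * a ^ K * s * π)) - r).degree := by
        rw [hkey]
        rw [mul_comm]
        exact Polynomial.degree_le_mul_left _ hne
      have h2 : (C (a ^ M * (a ^ N * a ^ K * s * π)) - r).degree < f.degree := by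
        refine lt_of_le_of_lt (Polynomial.degree_sub_le _ _) (max_lt ?_ hr)
        exact lt_of_le_of_lt Polynomial.degree_C_le hfd
      exact absurd h1 (not_le.2 h2)
    rw [hzero, zero_mul, sub_eq_zero] at hkey
    rw [← hkey, Ideal.mem_map_C_iff] at hrm
    have h5 := hrm 0
    rw [Polynomial.coeff_C_zero] at h5
    have h6 : a ^ M * (a ^ N * a ^ K * s) * π ∈ p ^ 2 := by
      have : a ^ M * (a ^ N * a ^ K * s) * π = a ^ M * (a ^ N * a ^ K * s * π) := by ring
      rw [this]
      exact h5
    have h7 := hQ p hpp hπp _ h6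
    rcases hpp.mem_or_mem h7 with h8 | h8
    · exact hfp (hpp.mem_of_pow_mem _ h8)
    · rcases hpp.mem_or_mem h8 with h9 | h9
      · rcases hpp.mem_or_mem h9 with h10 | h10
        · exact hfp (hpp.mem_of_pow_mem _ h10)
        · exact hfp (hpp.mem_of_pow_mem _ h10)
      · exact hs h9

end poly

open MvPolynomial

theorem Q_equiv {A B : Type} [CommRing A] [CommRing B] (e : A ≃+* B) {π : A} (h : Q A π) :
    Q B (e π) := by
  intro p hp hπ c hc
  have h1 := h (p.comap (e : A →+* B)) (Ideal.IsPrime.comap _) hπ (e.symm c) ?_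
  · have h2 : e (e.symm c) ∈ p := h1
    rwa [RingEquiv.apply_symm_apply] at h2
  · have h3 : (p.comap (e : A →+* B)) ^ 2 = (p ^ 2).comap (e : A →+* B) := by
      have h4 : ∀ J : Ideal B, J.comap (e : A →+* B) = J.map (e.symm : B →+* A) := by
        intro J
        ext x
        rw [Ideal.mem_comap]
        constructor
        · intro hx
          have := Ideal.mem_map_of_mem (e.symm : B →+* A) hx
          simpa using this
        · intro hx
          have h5 := Ideal.mem_map_of_mem (e : A →+* B) hx
          rw [Ideal.map_map] at h5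
          simpa using h5
      rw [h4, h4, Ideal.map_pow]
    rw [h3, Ideal.mem_comap]
    simpa using hc

theorem Q_base {R : Type} [CommRing R] [IsDomain R] [IsDiscreteValuationRing R] {π : R}
    (hπ : Irreducible π) : Q R π := by
  intro p hp hπp c hc
  have hmax : (Ideal.span {π}).IsMaximal := PrincipalIdealRing.isMaximal_of_irreducible hπ
  have h1 : Ideal.span {π} = p :=
    hmax.eq_of_le hp.ne_top ((Ideal.span_singleton_le_iff_mem _).2 hπp)
  rw [← h1, Ideal.span_singleton_pow, Ideal.mem_span_singleton] at hc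
  rw [← h1, Ideal.mem_span_singleton]
  rw [pow_two] at hc
  exact (mul_dvd_mul_iff_right hπ.ne_zero).1 hc

theorem Q_fin {R : Type} [CommRing R] [IsDomain R] [IsDiscreteValuationRing R] {π : R}
    (hπ : Irreducible π) (n : ℕ) : Q (MvPolynomial (Fin n) R) (C π) := by
  induction n with
  | zero =>
    have h := Q_equiv (MvPolynomial.isEmptyRingEquiv R (Fin 0)).symm (Q_base hπ)
    have h1 : (MvPolynomial.isEmptyRingEquiv R (Fin 0)).symm π = C π := by
      rfl
    rwa [h1] at h
  | succ n ih =>
    have h := Q_equiv (MvPolynomial.finSuccEquiv R n).symm.toRingEquiv (step ih)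
    have h1 : (MvPolynomial.finSuccEquiv R n).symm.toRingEquiv (Polynomial.C (C π)) = C π := by
      show (MvPolynomial.finSuccEquiv R n).symm (Polynomial.C (C π)) = C π
      rw [AlgEquiv.symm_apply_eq]
      simp [MvPolynomial.finSuccEquiv_apply]
    rwa [h1] at h

theorem Q_fintype {R σ : Type} [CommRing R] [IsDomain R] [IsDiscreteValuationRing R] [Finite σ]
    {π : R} (hπ : Irreducible π) : Q (MvPolynomial σ R) (C π) := by
  obtain ⟨n, ⟨e⟩⟩ := Finite.exists_equiv_fin σ
  have h := Q_equiv (MvPolynomial.renameEquiv R e.symm).toRingEquiv (Q_fin hπ n)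
  have h1 : (MvPolynomial.renameEquiv R e.symm).toRingEquiv (C π) = C π := by
    show rename e.symm (C π) = C π
    simp
  rwa [h1] at h

theorem fin_red {R σ : Type} [CommRing R] (P : Ideal (MvPolynomial σ R))
    {z : MvPolynomial σ R} (hz : z ∈ P ^ 2) :
    ∃ s : Finset σ, ∀ t : Finset σ, s ⊆ t → ∃ z' : MvPolynomial t R,
      rename Subtype.val z' = z ∧
        z' ∈ (P.comap (rename (Subtype.val : t → σ) : MvPolynomial t R →ₐ[R] _).toRingHom) ^ 2 := by
  classical
  rw [pow_two] at hz
  refine Submodule.mul_induction_on hz ?_ ?_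
  · intro x hx y hy
    refine ⟨x.vars ∪ y.vars, fun t ht => ?_⟩
    obtain ⟨x', hx'⟩ := exists_rename_eq_of_vars_subset_range x (Subtype.val : t → σ)
      Subtype.val_injective (by
        intro i hi
        rw [Subtype.range_val]
        exact ht (Finset.mem_union_left _ hi))
    obtain ⟨y', hy'⟩ := exists_rename_eq_of_vars_subset_range y (Subtype.val : t → σ)
      Subtype.val_injective (by
        intro i hi
        rw [Subtype.range_val]
        exact ht (Finset.mem_union_right _ hi))
    refine ⟨x' * y', by rw [map_mul, hx', hy'], ?_⟩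
    rw [pow_two]
    refine Ideal.mul_mem_mul ?_ ?_
    · show rename Subtype.val x' ∈ P
      rw [hx']; exact hx
    · show rename Subtype.val y' ∈ P
      rw [hy']; exact hy
  · rintro x y ⟨s1, h1⟩ ⟨s2, h2⟩
    refine ⟨s1 ∪ s2, fun t ht => ?_⟩
    obtain ⟨x', hx', hx2⟩ := h1 t (Finset.subset_union_left.trans ht)
    obtain ⟨y', hy', hy2⟩ := h2 t (Finset.subset_union_right.trans ht)
    exact ⟨x' + y', by rw [map_add, hx', hy'], Ideal.add_mem _ hx2 hy2⟩

end PINaux

open PINaux MvPolynomial in
theorem PIN_ok : S_PIN := by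
  classical
  intro R σ _ _ _ π hπ P _ hπP c hc
  obtain ⟨s, hs⟩ := fin_red P hc
  set t : Finset σ := s ∪ c.vars with ht
  obtain ⟨z', hz', hz2⟩ := hs t Finset.subset_union_left
  obtain ⟨c', hc'⟩ := exists_rename_eq_of_vars_subset_range c (Subtype.val : t → σ)
    Subtype.val_injective (by
      intro i hi
      rw [Subtype.range_val]
      exact Finset.mem_union_right _ hi)
  have h1 : z' = c' * C π := by
    apply rename_injective (Subtype.val : t → σ) Subtype.val_injective
    rw [hz', map_mul, hc', rename_C]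
  rw [h1] at hz2
  have h2 := Q_fintype hπ (P.comap (rename (Subtype.val : t → σ) : MvPolynomial t R →ₐ[R] _).toRingHom)
    (Ideal.IsPrime.comap _) (by
      show rename Subtype.val (C π) ∈ P
      rw [rename_C]
      exact hπP) c' hz2
  have h3 : rename Subtype.val c' ∈ P := h2
  rwa [hc'] at h3

end Pool.Agent.H945R2.E
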