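import Pool.Agent.H945R2.E.Props

/-! QE2: chart 2 of the resolution, `p = 2`. -/

set_option autoImplicit false

open scoped Pointwise

namespace Pool.Agent.H945R2.E

open Pool.Agent.H918R2.Quad Pool.Agent.H945R2.D Pool.Agent.H945R2.S MvPolynomial

namespace QE2aux

theorem map_TcZ {ι B B' : Type} [Fintype ι] [DecidableEq ι] [CommRing B] [CommRing B']
    (f : B →+* B') (Z : Finset ι) (s d : ι) (c : ι → B) (v : TT Z s d → B) (w : ZT Z → B) (l : B)
    (i : ι) :
    f (TcZ Z s d c v w l i) =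
      TcZ Z s d (fun i => f (c i)) (fun k => f (v k)) (fun z => f (w z)) (f l) i := by
  unfold TcZ
  split_ifs
  · rfl
  · simp
  · simp
  · simp

theorem map_TotZ {R ι B B' : Type} [Fintype ι] [DecidableEq ι] [CommRing R] [CommRing B]
    [Algebra R B] [CommRing B'] [Algebra R B'] (f : B →ₐ[R] B') (p j : ℕ) (g : MvPolynomial ι R)
    (c : ι → ℕ) (Z : Finset ι) (s d : ι) (a b : B) (v : TT Z s d → B) (w : ZT Z → B) :
    f (TotZ p j g c Z s d a b v w) =
      TotZ p j g c Z s d (f a) (f b) (fun k => f (v k)) (fun z => f (w z)) := by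
  unfold TotZ
  rw [map_add, map_mul, map_pow, map_pow]
  congr 1
  have h1 : f (aeval (TcZ Z s d (fun i => (c i : B)) v w (a * b)) g) =
      (f.comp (aeval (TcZ Z s d (fun i => (c i : B)) v w (a * b)))) g := rfl
  rw [h1]
  congr 1
  apply MvPolynomial.algHom_ext
  intro i
  rw [AlgHom.comp_apply, aeval_X, aeval_X]
  have h3 := map_TcZ (f : B →+* B') Z s d (fun i => (c i : B)) v w (a * b) i
  have h4 : f (TcZ Z s d (fun i => (c i : B)) v w (a * b) i) =
    TcZ Z s d (fun i => f (c i : B)) (fun k => f (v k)) (fun z => f (w z)) (f (a * b)) i := h3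
  rw [h4, map_mul]
  simp only [map_natCast]

theorem map_Gam {R B B' τ : Type} [CommRing R] [CommRing B] [Algebra R B] [CommRing B']
    [Algebra R B'] [Fintype τ] (f : B →ₐ[R] B') (β : R) (A : Polynomial R) (l : τ → Polynomial R)
    (a b : B) (v : τ → B) :
    f (Gam β A l a b v) = Gam β A l (f a) (f b) (fun k => f (v k)) := by
  unfold Gam
  simp only [map_add, map_mul, map_pow, map_sum, AlgHom.commutes, Polynomial.aeval_algHom_apply]

theorem ideal_bound {B κ ζ : Type} [CommRing B] (τ ε ω : B) (hτ : τ = ε * ω) (k m : ℕ)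
    (Y : κ → B) (w : ζ → B) (hY : ∀ i, ∃ v, Y i = τ ^ k * ε * v)
    (hw : ∀ z, ∃ v, w z = τ ^ (2 * k + 2 + m) * v) :
    Ideal.span (Set.range Y) ^ 3 ⊔ Ideal.span (Set.range Y) * Ideal.span (Set.range w) ⊔
      Ideal.span (Set.range w) ^ 2 ≤ Ideal.span {τ ^ (2 * k) * ε ^ 2 * ε} := by
  have h1 : Ideal.span (Set.range Y) ≤ Ideal.span {τ ^ k * ε} := by
    rw [Ideal.span_le]
    rintro _ ⟨i, rfl⟩
    obtain ⟨v, hv⟩ := hY i
    exact Ideal.mem_span_singleton'.2 ⟨v, by rw [hv]; ring⟩
  have h2 : Ideal.span (Set.range w) ≤ Ideal.span {τ ^ (2 * k + 2 + m)} := by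
    rw [Ideal.span_le]
    rintro _ ⟨i, rfl⟩
    obtain ⟨v, hv⟩ := hw i
    exact Ideal.mem_span_singleton'.2 ⟨v, by rw [hv]; ring⟩
  refine sup_le (sup_le ?_ ?_) ?_
  · refine (Ideal.pow_right_mono h1 3).trans ?_
    rw [Ideal.span_singleton_pow, Ideal.span_singleton_le_span_singleton]
    exact ⟨τ ^ k, by ring⟩
  · refine (Ideal.mul_mono h1 h2).trans ?_
    rw [Ideal.span_singleton_mul_span_singleton, Ideal.span_singleton_le_span_singleton]
    refine ⟨ω ^ 2 * τ ^ k * τ ^ m, ?_⟩
    have e1 : τ ^ (2 * k + 2 + m) = τ ^ (2 * k) * (ε * ω) ^ 2 * τ ^ m := by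
      rw [pow_add, pow_add, ← hτ]
    rw [e1]; ring
  · refine (Ideal.pow_right_mono h2 2).trans ?_
    rw [Ideal.span_singleton_pow, Ideal.span_singleton_le_span_singleton]
    refine ⟨ε * ω ^ 4 * τ ^ (2 * k) * τ ^ m * τ ^ m, ?_⟩
    have e1 : τ ^ (2 * k + 2 + m) = τ ^ (2 * k) * (ε * ω) ^ 2 * τ ^ m := by
      rw [pow_add, pow_add, ← hτ]
    rw [e1]; ring

end QE2aux

open QE2aux

open Classical in
theorem QE2_ok (hP : S_QPREE) (hF : S_QTFE) (hB : S_BL4) : S_QE2 := by
  intro R F ι _ _ _ _ _ _ _ 𝒪 p e h co r g Z y s d a b c β Al ll Q hQC hExp q η hq hη k z₀ l hk1 hkh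
    hC hloc
  obtain ⟨hQ, hexp⟩ := hExp
  obtain ⟨hq0, hqp, hqG, hqT⟩ := hF 𝒪 p e h co r g Z y s d a b c β Al ll hQC q hq
  obtain ⟨m, hm⟩ : ∃ m, e = 2 * k + 2 + m := ⟨e - (2 * k + 2), by
    have h1 := hQC.heh
    omega⟩
  have hy0 := hC.yz
  have hql := hC.ql
  -- the polynomial ring
  let σ : Type := {m : KT Z s d // m ≠ l} ⊕ Option (Option {z : ZT Z // z ≠ z₀})
  let W : Type := MvPolynomial (Option σ) R
  let ν : KT Z s d → Option σ := fun m => if h : m = l then none else some (Sum.inl ⟨m, h⟩)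
  let H : ZT Z → W := fun z => if h : z = z₀ then 1 else X (some (Sum.inr (some (some ⟨z, h⟩))))
  let ε : W := X none
  let ω : W := X (some (Sum.inr none))
  let bb : W := X (some (Sum.inr (some none)))
  let τ : W := ε * ω
  let Yq : KT Z s d → W := fun m => τ ^ k * ε * Yv ν m
  let Yy : ZT Z → W := fun z => τ * H z
  let pt : Option σ → F := fun o => o.elim (q l / η z₀ ^ k) (fun i => Sum.elim
    (fun m => q m.1 / q l) (fun o' => o'.elim (η z₀ ^ (k + 1) / q l)
      (fun o'' => o''.elim b (fun z => η z.1 / η z₀))) i)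
  let eW : W →ₐ[R] F := aeval pt
  have heε : eW ε = q l / η z₀ ^ k := by
    show aeval pt (X none) = _
    rw [aeval_X]; rfl
  have heω : eW ω = η z₀ ^ (k + 1) / q l := by
    show aeval pt (X (some (Sum.inr none))) = _
    rw [aeval_X]; rfl
  have heb : eW bb = b := by
    show aeval pt (X (some (Sum.inr (some none)))) = _
    rw [aeval_X]; rfl
  have heτ : eW τ = η z₀ := by
    show eW (ε * ω) = _
    rw [map_mul, heε, heω]
    field_simp
    exact pow_succ _ _
  have heH : ∀ z, eW (H z) = η z / η z₀ := by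
    intro z
    show aeval pt (if h : z = z₀ then 1 else X (some (Sum.inr (some (some ⟨z, h⟩))))) = _
    split_ifs with h
    · rw [h, div_self hy0, map_one]
    · rw [aeval_X]; rfl
  have heYv : ∀ m, eW (Yv ν m) = q m / q l := by
    intro m
    show aeval pt ((if h : m = l then none else some (Sum.inl ⟨m, h⟩) : Option σ).elim 1
      (fun i => X (some i))) = _
    split_ifs with h
    · rw [h, div_self hql]
      show aeval pt 1 = 1
      rw [map_one]
    · show aeval pt (X (some (Sum.inl ⟨m, h⟩))) = _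
      rw [aeval_X]; rfl
  have heYq : ∀ m, eW (Yq m) = q m := by
    intro m
    show eW (τ ^ k * ε * Yv ν m) = q m
    rw [map_mul, map_mul, map_pow, heτ, heε, heYv]
    field_simp
  have heYy : ∀ z, eW (Yy z) = η z := by
    intro z
    show eW (τ * H z) = η z
    rw [map_mul, heτ, heH]
    field_simp
  -- the first relation
  let hh : W := τ ^ k * Yv ν none
  let R1 : W := C (p : R) - X none * hh
  have hR1 : R1 = (p : W) - Yq none := by
    show C (p : R) - X none * (τ ^ k * Yv ν none) = (p : W) - τ ^ k * ε * Yv ν none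
    rw [map_natCast]
    show (p : W) - ε * (τ ^ k * Yv ν none) = _
    ring
  have heR1 : eW R1 = 0 := by
    rw [hR1, map_sub, map_natCast, heYq, ← hqp, sub_self]
  -- the second relation
  let h1' : W := τ ^ k * Yv ν none * Polynomial.aeval bb Al +
    ∑ k', τ ^ k * Yv ν (some (some k')) * Polynomial.aeval bb (ll k') - τ ^ k * Yv ν (some none)
  let E1 : W := bb ^ 2 + bb + C β
  let R2 : W := E1 + X none * h1'
  have hR2 : R2 = Gam β Al ll (Yq none) bb (fun k' => Yq (some (some k'))) - Yq (some none) := by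
    have e1 : ∑ k', (τ ^ k * ε * Yv ν (some (some k'))) * Polynomial.aeval bb (ll k') =
        ε * ∑ k', τ ^ k * Yv ν (some (some k')) * Polynomial.aeval bb (ll k') := by
      rw [Finset.mul_sum]
      exact Finset.sum_congr rfl fun k' _ => by ring
    show bb ^ 2 + bb + algebraMap R W β + ε * (τ ^ k * Yv ν none * Polynomial.aeval bb Al +
      ∑ k', τ ^ k * Yv ν (some (some k')) * Polynomial.aeval bb (ll k') - τ ^ k * Yv ν (some none)) =
      bb ^ 2 + bb + algebraMap R W β + (τ ^ k * ε * Yv ν none) * Polynomial.aeval bb Al +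
      ∑ k', (τ ^ k * ε * Yv ν (some (some k'))) * Polynomial.aeval bb (ll k') -
      τ ^ k * ε * Yv ν (some none)
    rw [e1]
    ring
  have heR2 : eW R2 = 0 := by
    rw [hR2, map_sub, map_Gam, heYq, heYq, heb, hqG]
    simp only [heYq]
    exact sub_self _
  -- the third relation in W
  let Tot : W := TotZ p 0 g c Z s d (Yq none) bb
    (fun k => Yq (some (some k))) (fun z => algebraMap R W (r z) * Yy z ^ e)
  have heTot : eW Tot = 0 := by
    show eW (TotZ p 0 g c Z s d (Yq none) bb
      (fun k => Yq (some (some k))) (fun z => algebraMap R W (r z) * Yy z ^ e)) = 0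
    rw [map_TotZ, heYq, heb]
    simp only [heYq, map_mul, map_pow, heYy, AlgHom.commutes]
    rw [hη]
    exact hqT
  -- the quotient by the first two relations
  obtain ⟨B, iB1, iB2, mk, hmks, hmkk, hmk⟩ := exists_quot (R := R) (Ideal.span {R1, R2} : Ideal W)
  have hmkR1 : (p : B) = mk (Yq none) := by
    have h1 : mk R1 = 0 := (hmk R1).2 (Ideal.subset_span (by simp))
    rw [hR1, map_sub, map_natCast] at h1
    exact sub_eq_zero.1 h1
  have hmkR2 : mk (Yq (some none)) =
      Gam β Al ll (mk (Yq none)) (mk bb) (fun k' => mk (Yq (some (some k')))) := by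
    have h1 : mk R2 = 0 := (hmk R2).2 (Ideal.subset_span (by simp))
    rw [hR2, map_sub, map_Gam] at h1
    exact (sub_eq_zero.1 h1).symm
  have hmkYq : ∀ m, mk (Yq m) = mk τ ^ k * mk ε * mk (Yv ν m) := by
    intro m
    show mk (τ ^ k * ε * Yv ν m) = _
    rw [map_mul, map_mul, map_pow]
  have hmkYy : ∀ z, mk (Yy z) = mk τ * mk (H z) := fun z => map_mul _ _ _
  have hmkτ : mk τ = mk ε * mk ω := map_mul _ _ _
  have hex := hexp (B := B) (fun m => mk (Yq m)) (mk bb)
    (fun z => algebraMap R B (r z) * mk (Yy z) ^ e) hmkR1 hmkR2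
  have hex2 := ideal_bound (mk τ) (mk ε) (mk ω) hmkτ k m (fun m => mk (Yq m))
    (fun z : ZT Z => algebraMap R B (r z) * mk (Yy z) ^ e)
    (fun i => ⟨mk (Yv ν i), hmkYq i⟩)
    (fun z => ⟨algebraMap R B (r z) * mk (H z) ^ e, by
      show algebraMap R B (r z) * mk (Yy z) ^ e = _
      rw [hmkYy, mul_pow, ← hm]; ring⟩) hex
  obtain ⟨hBB, hhB⟩ := Ideal.mem_span_singleton'.1 hex2
  obtain ⟨h', hh'⟩ := hmks hBB
  let G : W := -(ω ^ 2 * τ ^ m * ∑ z : ZT Z, C (r z) * H z ^ e) + X none * h'
  let E : W := ∑ i, ∑ i', C (Q i i') * Yv ν i * Yv ν i' + G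
  let Dd : W := τ ^ (2 * k) * ε ^ 2
  have hmTot : mk Tot = TotZ p 0 g c Z s d (mk (Yq none)) (mk bb)
      (fun k => mk (Yq (some (some k)))) (fun z => algebraMap R B (r z) * mk (Yy z) ^ e) := by
    show mk (TotZ p 0 g c Z s d (Yq none) bb
      (fun k => Yq (some (some k))) (fun z => algebraMap R W (r z) * Yy z ^ e)) = _
    rw [map_TotZ]
    simp only [map_mul, map_pow, AlgHom.commutes]
  have hmE : mk (Tot - Dd * E) = 0 := by
    have e1 : mk (Dd * E) = (mk τ ^ (2 * k) * mk ε ^ 2) * (∑ i, ∑ i', algebraMap R B (Q i i') *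
        mk (Yv ν i) * mk (Yv ν i') +
        (-(mk ω ^ 2 * mk τ ^ m * ∑ z : ZT Z, algebraMap R B (r z) * mk (H z) ^ e) +
          mk ε * hBB)) := by
      show mk ((τ ^ (2 * k) * ε ^ 2) * (∑ i, ∑ i', C (Q i i') * Yv ν i * Yv ν i' +
        (-(ω ^ 2 * τ ^ m * ∑ z : ZT Z, C (r z) * H z ^ e) + X none * h'))) = _
      have hC' : ∀ x : R, mk (C x) = algebraMap R B x := fun x => mk.commutes x
      simp only [map_mul, map_pow, map_add, map_sum, map_neg, hC', hh']
      rfl
    have e2 : ∑ i, ∑ i', algebraMap R B (Q i i') * mk (Yq i) * mk (Yq i') =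
        (mk τ ^ (2 * k) * mk ε ^ 2) * ∑ i, ∑ i', algebraMap R B (Q i i') *
        mk (Yv ν i) * mk (Yv ν i') := by
      rw [Finset.mul_sum]
      apply Finset.sum_congr rfl
      intro i _
      rw [Finset.mul_sum]
      apply Finset.sum_congr rfl
      intro i' _
      rw [hmkYq, hmkYq]
      ring
    have e3 : ∑ z : ZT Z, algebraMap R B (r z) * mk (Yy z) ^ e =
        (mk τ ^ (2 * k) * mk ε ^ 2) * (mk ω ^ 2 * mk τ ^ m * ∑ z : ZT Z, algebraMap R B (r z) *
          mk (H z) ^ e) := by
      have e4 : mk τ ^ e = (mk τ ^ (2 * k) * mk ε ^ 2) * (mk ω ^ 2 * mk τ ^ m) := by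
        rw [hm, pow_add, pow_add]
        have : mk τ ^ 2 = mk ε ^ 2 * mk ω ^ 2 := by rw [hmkτ, mul_pow]
        rw [this]; ring
      rw [← mul_assoc, ← e4, Finset.mul_sum]
      apply Finset.sum_congr rfl
      intro z _
      rw [hmkYy, mul_pow]
      ring
    have e5 : mk Tot = (∑ i, ∑ i', algebraMap R B (Q i i') * mk (Yq i) * mk (Yq i') -
        ∑ z : ZT Z, algebraMap R B (r z) * mk (Yy z) ^ e) +
        hBB * (mk τ ^ (2 * k) * mk ε ^ 2 * mk ε) := by
      rw [hmTot, hhB]; ring
    rw [map_sub, e1, e5, e2, e3]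
    ring
  obtain ⟨rr, rr2, hrr⟩ := Ideal.mem_span_pair.1 ((hmk _).1 hmE)
  have hD0 : eW Dd ≠ 0 := by
    show eW (τ ^ (2 * k) * ε ^ 2) ≠ 0
    rw [map_mul, map_pow, map_pow, heτ, heε]
    exact mul_ne_zero (pow_ne_zero _ hy0) (pow_ne_zero _ (div_ne_zero hql (pow_ne_zero _ hy0)))
  have hE0 : eW E = 0 := by
    have h1 : eW (Dd * E) = 0 := by
      have h2 : Dd * E = Tot - (rr * R1 + rr2 * R2) := by rw [hrr]; ring
      rw [h2, map_sub, map_add, map_mul, map_mul, heR1, heR2, heTot]; simp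
    rw [map_mul] at h1
    exact (mul_eq_zero.1 h1).resolve_left hD0
  obtain ⟨A, iA1, iA2, pr, hprs, hprk, hpr⟩ :=
    exists_quot (R := R) (Ideal.span {R1, R2, E} : Ideal W)
  have hprR1 : pr R1 = 0 := (hpr R1).2 (Ideal.subset_span (by simp))
  have hprR2 : pr R2 = 0 := (hpr R2).2 (Ideal.subset_span (by simp))
  have hprE : pr E = 0 := (hpr E).2 (Ideal.subset_span (by simp))
  have hker : ∀ w, pr w = 0 → eW w = 0 := by
    intro w hw
    have h1 := (hpr w).1 hw
    obtain ⟨x, y, z, hxy⟩ := Submodule.mem_span_triple.1 h1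
    simp only [smul_eq_mul] at hxy
    rw [← hxy, map_add, map_add, map_mul, map_mul, map_mul, heR1, heR2, hE0]
    simp
  -- the range
  have hrange : (Algebra.adjoin R (insert b (G2 q η k z₀ l))) = eW.range := by
    show _ = (aeval pt).range
    rw [← Algebra.adjoin_range_eq_range_aeval]
    apply le_antisymm
    · apply Algebra.adjoin_le
      rintro x (rfl | (((rfl | rfl) | ⟨m, rfl⟩) | ⟨z, rfl⟩))
      · exact Algebra.subset_adjoin ⟨some (Sum.inr (some none)), rfl⟩
      · exact Algebra.subset_adjoin ⟨none, rfl⟩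
      · exact Algebra.subset_adjoin ⟨some (Sum.inr none), rfl⟩
      · by_cases hm : m = l
        · show q m / q l ∈ _
          rw [hm, div_self hql]
          exact one_mem _
        · exact Algebra.subset_adjoin ⟨some (Sum.inl ⟨m, hm⟩), rfl⟩
      · by_cases hz : z = z₀
        · show η z / η z₀ ∈ _
          rw [hz, div_self hy0]
          exact one_mem _
        · exact Algebra.subset_adjoin ⟨some (Sum.inr (some (some ⟨z, hz⟩))), rfl⟩
    · apply Algebra.adjoin_mono
      rintro x ⟨o, rfl⟩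
      rcases o with _ | (m | _ | _ | z)
      · exact Or.inr (Or.inl (Or.inl (Or.inl rfl)))
      · exact Or.inr (Or.inl (Or.inr ⟨m.1, rfl⟩))
      · exact Or.inr (Or.inl (Or.inl (Or.inr rfl)))
      · exact Or.inl rfl
      · exact Or.inr (Or.inr ⟨z.1, rfl⟩)
  have hlocOf' : IsLocOf 𝒪 (eW.range : Set F) := by
    rw [← hrange]; exact hloc
  have hW : ∀ w, eW w ∈ 𝒪 := fun w => hlocOf'.1 _ ⟨w, rfl⟩
  have hprp : pr (p : W) = pr (Yq none) := by
    rw [hR1, map_sub] at hprR1
    exact sub_eq_zero.1 hprR1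
  have hprG : pr (Yq (some none)) =
      pr (Gam β Al ll (Yq none) bb (fun k' => Yq (some (some k')))) := by
    rw [hR2, map_sub] at hprR2
    exact (sub_eq_zero.1 hprR2).symm
  have hprTot : pr Tot = 0 := by
    have h2 : Tot = Dd * E + (rr * R1 + rr2 * R2) := by rw [hrr]; ring
    rw [h2, map_add, map_add, map_mul pr Dd, map_mul pr rr, map_mul pr rr2, hprE, hprR1, hprR2]
    simp
  refine hP 𝒪 p e h co r g Z y s d a b c β Al ll hQC pr hprs eW hker hW hlocOf' Yq Yy bb
    (fun m => by rw [heYq, hq]) (fun z => by rw [heYy, hη]) heb hprp hprG hprTot ?_ ?_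
  · -- generation
    intro P hPr hPS hPa hPm _ hPd
    have gτ : P τ := by
      have h1 : P (Yy z₀) := hPS _ (Or.inl (Or.inr ⟨z₀, rfl⟩))
      have h2 : Yy z₀ = τ := by
        show τ * H z₀ = τ
        have : H z₀ = 1 := by
          show (if h : z₀ = z₀ then (1 : W) else X (some (Sum.inr (some (some ⟨z₀, h⟩))))) = 1
          rw [dif_pos rfl]
        rw [this, mul_one]
      rwa [h2] at h1
    have gτk : ∀ n : ℕ, P (τ ^ n) := by
      intro n
      induction n with
      | zero => rw [pow_zero]; simpa using hPr 1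
      | succ n ih => rw [pow_succ]; exact hPm _ _ ih gτ
    have hν : Yv ν l = (1 : W) := by
      show ((if h : l = l then none else some (Sum.inl ⟨l, h⟩) : Option σ).elim 1
        (fun i => X (some i))) = (1 : W)
      rw [dif_pos rfl]; rfl
    have gτε : P (τ ^ k * ε) := by
      have h1 : P (Yq l) := hPS _ (Or.inl (Or.inl ⟨l, rfl⟩))
      have h2 : Yq l = τ ^ k * ε := by
        show τ ^ k * ε * Yv ν l = τ ^ k * ε
        rw [hν, mul_one]
      rwa [h2] at h1
    have hτ0 : eW (τ ^ k) ≠ 0 := by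
      rw [map_pow, heτ]; exact pow_ne_zero _ hy0
    have hε0 : eW ε ≠ 0 := by
      rw [heε]; exact div_ne_zero hql (pow_ne_zero _ hy0)
    have gε : P ε := hPd _ _ hτ0 (gτk k) gτε
    have gω : P ω := hPd _ _ hε0 gε gτ
    have gYv : ∀ m, P (Yv ν m) := by
      intro m
      refine hPd (τ ^ k * ε) _ ?_ gτε (hPS _ (Or.inl (Or.inl ⟨m, rfl⟩)))
      rw [map_mul]; exact mul_ne_zero hτ0 hε0
    have gH : ∀ z, P (H z) := by
      intro z
      refine hPd τ _ ?_ gτ (hPS _ (Or.inl (Or.inr ⟨z, rfl⟩)))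
      rw [heτ]; exact hy0
    have gX : ∀ o : Option σ, P (X o) := by
      intro o
      rcases o with _ | (m | _ | _ | z)
      · exact gε
      · have h1 := gYv m.1
        have h2 : Yv ν m.1 = (X (some (Sum.inl m)) : W) := by
          show ((if h : m.1 = l then none else some (Sum.inl ⟨m.1, h⟩) : Option σ).elim 1
            (fun i => X (some i))) = (X (some (Sum.inl m)) : W)
          rw [dif_neg m.2]; rfl
        rwa [h2] at h1
      · exact gω
      · exact hPS _ (Or.inr rfl)
      · have h1 := gH z.1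
        have h2 : H z.1 = (X (some (Sum.inr (some (some z)))) : W) := by
          show (if h : z.1 = z₀ then (1 : W) else X (some (Sum.inr (some (some ⟨z.1, h⟩))))) = _
          rw [dif_neg z.2]
        rwa [h2] at h1
    intro w
    induction w using MvPolynomial.induction_on with
    | C x => exact hPr x
    | add w w' h1 h2 => exact hPa _ _ h1 h2
    | mul_X w o h1 => exact hPm _ _ h1 (gX o)
  · intro 𝔮 _ h𝔮
    have hεq : pr ε ∈ 𝔮 := by
      rw [h𝔮, heε]; exact hC.hεU
    have hωq : pr ω ∈ 𝔮 := by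
      rw [h𝔮, heω]; exact hC.hωU
    have hνinj : Function.Injective ν := by
      intro m m' hmm
      simp only [ν] at hmm
      split_ifs at hmm with h1 h2 h2
      · rw [h1, h2]
      · have := Option.some.inj hmm
        have := Sum.inl.inj this
        exact congrArg Subtype.val this
    have h2q : pr (p : W) ∈ 𝔮 := by
      rw [hprp]
      show pr (τ ^ k * ε * Yv ν none) ∈ 𝔮
      rw [map_mul, map_mul]
      exact 𝔮.mul_mem_right _ (𝔮.mul_mem_left _ hεq)
    refine hB (p : R) hQC.data.irr Q hQ ν hνinj (pr : W →+* A) hprs hh h1' E1 G hprk 𝔮 hεq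
      ?_ ?_ ?_ (Sum.inr (some none)) ?_ ?_
    · show pr G ∈ 𝔮
      show pr (-(ω ^ 2 * τ ^ m * ∑ z : ZT Z, C (r z) * H z ^ e) + X none * h') ∈ 𝔮
      rw [map_add, map_neg, map_mul pr (X none)]
      refine 𝔮.add_mem (𝔮.neg_mem ?_) (𝔮.mul_mem_right _ hεq)
      rw [mul_assoc, pow_two, mul_assoc, map_mul]
      exact 𝔮.mul_mem_right _ hωq
    · intro m' i hi
      have hi' : ∃ i₁, i = Sum.inl i₁ := by
        simp only [ν] at hi
        split_ifs at hi with h1
        exact ⟨_, (Option.some.inj hi).symm⟩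
      obtain ⟨i₁, rfl⟩ := hi'
      have hdω : pderiv (some (Sum.inl i₁)) ω = 0 := by
        show pderiv (some (Sum.inl i₁)) (X (some (Sum.inr none)) : W) = 0
        exact pderiv_X_of_ne (by simp)
      have hdε : pderiv (some (Sum.inl i₁)) ε = 0 := by
        show pderiv (some (Sum.inl i₁)) (X none : W) = 0
        exact pderiv_X_of_ne (by simp)
      have hdτ : pderiv (some (Sum.inl i₁)) τ = 0 := by
        show pderiv (some (Sum.inl i₁)) (ε * ω) = 0
        rw [pderiv_mul, hdω, hdε]; simp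
      have hdH : ∀ z, pderiv (some (Sum.inl i₁)) (H z) = 0 := by
        intro z
        show pderiv (some (Sum.inl i₁))
          (if h : z = z₀ then (1 : W) else X (some (Sum.inr (some (some ⟨z, h⟩))))) = 0
        split_ifs with h
        · simp
        · exact pderiv_X_of_ne (by simp)
      have hdG : pderiv (some (Sum.inl i₁)) G = ε * pderiv (some (Sum.inl i₁)) h' := by
        show pderiv (some (Sum.inl i₁)) (-(ω ^ 2 * τ ^ m * ∑ z : ZT Z, C (r z) * H z ^ e) +
          X none * h') = _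
        rw [map_add, map_neg, pderiv_mul, pderiv_mul, pderiv_mul, pderiv_pow, pderiv_pow, hdω, hdτ,
          map_sum]
        have h1 : ∑ z : ZT Z, pderiv (some (Sum.inl i₁)) (C (r z) * H z ^ e) = 0 := by
          apply Finset.sum_eq_zero
          intro z _
          rw [pderiv_C_mul, pderiv_pow, hdH]
          simp
        rw [h1]
        have h2 : pderiv (some (Sum.inl i₁)) (X none : W) = 0 := hdε
        rw [h2]
        simp
        exact Or.inl rfl
      show pr (pderiv (some (Sum.inl i₁)) G) ∈ 𝔮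
      rw [hdG, map_mul]
      exact 𝔮.mul_mem_right _ hεq
    · refine ⟨l, ?_⟩
      have hν : Yv ν l = (1 : W) := by
        show ((if h : l = l then none else some (Sum.inl ⟨l, h⟩) : Option σ).elim 1
          (fun i => X (some i))) = (1 : W)
        rw [dif_pos rfl]; rfl
      show pr (Yv ν l) ∉ 𝔮
      rw [hν, map_one]
      exact fun h1 => (Ideal.IsPrime.ne_top ‹𝔮.IsPrime›) ((Ideal.eq_top_iff_one 𝔮).2 h1)
    · have hd : pderiv (some (Sum.inr (some none))) E1 = (p : W) * bb + 1 := by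
        show pderiv (some (Sum.inr (some none))) (bb ^ 2 + bb + C β) = _
        have h1 : pderiv (some (Sum.inr (some none))) bb = 1 := pderiv_X_self _
        rw [map_add, map_add, pderiv_pow, h1, pderiv_C, hQC.two]
        push_cast
        ring
      show pr (pderiv (some (Sum.inr (some none))) E1) ∉ 𝔮
      rw [hd, map_add, map_mul, map_one]
      intro h1
      have h3 : (1 : A) ∈ 𝔮 := by
        have h4 := 𝔮.sub_mem h1 (𝔮.mul_mem_right (pr bb) h2q)
        rwa [add_sub_cancel_left] at h4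
      exact (Ideal.IsPrime.ne_top ‹𝔮.IsPrime›) ((Ideal.eq_top_iff_one 𝔮).2 h3)
    · intro m' i hi
      have hi' : ∃ i₁, i = Sum.inl i₁ := by
        simp only [ν] at hi
        split_ifs at hi with h1
        exact ⟨_, (Option.some.inj hi).symm⟩
      obtain ⟨i₁, rfl⟩ := hi'
      have hd : pderiv (some (Sum.inl i₁)) E1 = 0 := by
        show pderiv (some (Sum.inl i₁)) (bb ^ 2 + bb + C β) = _
        have h1 : pderiv (some (Sum.inl i₁)) bb = 0 := by
          show pderiv (some (Sum.inl i₁)) (X (some (Sum.inr (some none))) : W) = 0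
          exact pderiv_X_of_ne (by simp)
        rw [map_add, map_add, pderiv_pow, h1, pderiv_C]
        simp
      show pr (pderiv (some (Sum.inl i₁)) E1) ∈ 𝔮
      rw [hd, map_zero]
      exact 𝔮.zero_mem

end Pool.Agent.H945R2.E
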