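import Pool.Agent.H945R2.E.Props
import Pool.Agent.H945R2.S.QC1

/-! QE3: chart 3 of the resolution, unit case, `p = 2` (helper818, after QC3 and QE1). -/

set_option autoImplicit false

open scoped Pointwise

namespace Pool.Agent.H945R2.E

open Pool.Agent.H918R2.Quad Pool.Agent.H945R2.D Pool.Agent.H945R2.S MvPolynomial

namespace QE3aux

theorem Gam_map {R B B' τ : Type} [CommRing R] [CommRing B] [Algebra R B] [CommRing B']
    [Algebra R B'] [Fintype τ] (f : B →ₐ[R] B') (β : R) (A : Polynomial R)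
    (l : τ → Polynomial R) (a b : B) (v : τ → B) :
    f (Gam β A l a b v) = Gam β A l (f a) (f b) (fun k => f (v k)) := by
  unfold Gam
  simp only [map_add, map_mul, map_pow, map_sum, AlgHom.commutes, Polynomial.aeval_algHom_apply]

/-- The place of the coordinate `m` among the variables. -/
def nu {κ ζ : Type} (z₀ : ζ) (m : κ) : Option ((κ ⊕ {z : ζ // z ≠ z₀}) ⊕ Unit) :=
  some (Sum.inl (Sum.inl m))

theorem nu_inj {κ ζ : Type} (z₀ : ζ) : Function.Injective (nu (κ := κ) z₀) := by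
  intro m m' h
  unfold nu at h
  simpa using h

theorem nu_some {κ ζ : Type} (z₀ : ζ) (k : κ) (i : (κ ⊕ {z : ζ // z ≠ z₀}) ⊕ Unit)
    (h : nu z₀ k = some i) : ∃ m, i = Sum.inl (Sum.inl m) :=
  ⟨k, (Option.some.inj h).symm⟩

/-- The point of chart 3. -/
def pt {F κ ζ : Type} [Field F] (q : κ → F) (η : ζ → F) (k : ℕ) (z₀ : ζ) (b : F) :
    Option ((κ ⊕ {z : ζ // z ≠ z₀}) ⊕ Unit) → F :=
  fun o => o.elim (η z₀) (fun i => Sum.elim (fun i => Sum.elim (fun m => q m / η z₀ ^ k)
    (fun z => η z.1 / η z₀) i) (fun _ => b) i)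

/-- The coordinates `y_z / y_{z₀}`. -/
noncomputable def Hz {R κ ζ : Type} [CommRing R] [DecidableEq ζ] (z₀ z : ζ) :
    MvPolynomial (Option ((κ ⊕ {z : ζ // z ≠ z₀}) ⊕ Unit)) R :=
  if h : z = z₀ then 1 else X (some (Sum.inl (Sum.inr ⟨z, h⟩)))

theorem eval_Hz {R F κ ζ : Type} [CommRing R] [DecidableEq ζ] [Field F] [Algebra R F]
    (q : κ → F) (η : ζ → F) (k : ℕ) (z₀ : ζ) (b : F) (h0 : η z₀ ≠ 0) (z : ζ) :
    aeval (pt q η k z₀ b) (Hz (R := R) (κ := κ) z₀ z) = η z / η z₀ := by
  unfold Hz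
  split_ifs with h
  · rw [h, div_self h0, map_one]
  · rw [aeval_X]
    rfl

theorem pderiv_Hz {R κ ζ : Type} [CommRing R] [DecidableEq ζ] (z₀ z : ζ) (m : κ) :
    pderiv (some (Sum.inl (Sum.inl m))) (Hz (R := R) (κ := κ) z₀ z) = 0 := by
  unfold Hz
  split_ifs with h
  · exact pderiv_one
  · exact pderiv_X_of_ne (by simp)

end QE3aux

open QE3aux

theorem QE3_ok (hP : S_QPREE) (hF : S_QTFE) (hB : S_BL4) : S_QE3 := by
  intro R F ι _ _ _ _ _ _ _ 𝒪 p e h co r g Z y s d a b c β Ap lp Q hD hexpE q η hq hη n z₀ hn1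
    hnh hC hunit hlocOf
  obtain ⟨hq0, hqp, hqG, hqT⟩ := hF 𝒪 p e h co r g Z y s d a b c β Ap lp hD q hq
  obtain ⟨hQ, hQE⟩ := hexpE
  have he2 : 2 * n + 1 ≤ e := by
    have h1 := hD.heh
    omega
  let κ : Type := KT Z s d
  let σ : Type := (κ ⊕ {z : ZT Z // z ≠ z₀}) ⊕ Unit
  let W : Type := MvPolynomial (Option σ) R
  let ν : κ → Option σ := nu z₀
  let τ : W := X none
  let H : ZT Z → W := Hz z₀
  let Yq : κ → W := fun m => τ ^ n * Yv ν m
  let Yy : ZT Z → W := fun z => τ * H z
  let bb : W := X (some (Sum.inr ()))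
  let eW : W →ₐ[R] F := aeval (pt q η n z₀ b)
  have hτn0 : η z₀ ^ n ≠ 0 := pow_ne_zero n hC.yz
  have hHz0 : H z₀ = 1 := by
    show Hz z₀ z₀ = 1
    unfold Hz
    rw [dif_pos rfl]
  have heτ : eW τ = η z₀ := by
    show aeval (pt q η n z₀ b) (X none) = η z₀
    rw [aeval_X]; rfl
  have hebb : eW bb = b := by
    show aeval (pt q η n z₀ b) (X (some (Sum.inr ()))) = b
    rw [aeval_X]; rfl
  have heYv : ∀ m, eW (Yv ν m) = q m / η z₀ ^ n := by
    intro m
    show aeval (pt q η n z₀ b) (X (some (Sum.inl (Sum.inl m)))) = _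
    rw [aeval_X]; rfl
  have heYq : ∀ m, eW (Yq m) = q m := by
    intro m
    show eW (τ ^ n * Yv ν m) = q m
    rw [map_mul, map_pow, heτ, heYv, mul_div_cancel₀ _ hτn0]
  have heH : ∀ z : ZT Z, eW (H z) = η z / η z₀ := fun z => eval_Hz q η n z₀ b hC.yz z
  have heYy : ∀ z : ZT Z, eW (Yy z) = η z := by
    intro z
    show eW (τ * H z) = _
    rw [map_mul, heτ, heH, mul_div_cancel₀ _ hC.yz]
  let wW : ZT Z → W := fun z => algebraMap R W (r z) * Yy z ^ e
  let Tot : W := TotZ p 0 g c Z s d (Yq none) bb (fun k => Yq (some (some k))) wW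
  have heTot : eW Tot = 0 := by
    have h1 := QC1aux.TotZ_map eW p 0 g c Z s d (Yq none) bb
      (fun k => Yq (some (some k))) wW
    have h3 : (fun k => eW (Yq (some (some k)))) = fun k => q (some (some k)) :=
      funext fun k => heYq _
    have h4 : (fun z => eW (wW z)) = fun z : ZT Z => algebraMap R F (r z) * y z ^ e := by
      funext z
      show eW (algebraMap R W (r z) * Yy z ^ e) = _
      rw [map_mul, AlgHom.commutes, map_pow, heYy, hη]
    show eW (TotZ p 0 g c Z s d (Yq none) bb (fun k => Yq (some (some k))) wW) = 0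
    rw [h1, hebb, h3, h4, heYq]
    exact hqT
  have hτn : τ ^ n = τ * τ ^ (n - 1) := by
    rw [← pow_succ']; congr 1; omega
  -- the first relation
  let hh : W := τ ^ (n - 1) * Yv ν none
  let R1 : W := C (p : R) - X none * hh
  have hR1 : R1 = (p : W) - Yq none := by
    show C (p : R) - X none * (τ ^ (n - 1) * Yv ν none) = (p : W) - τ ^ n * Yv ν none
    rw [map_natCast, hτn]
    ring
  have heR1 : eW R1 = 0 := by
    rw [hR1, map_sub, map_natCast, heYq, ← hqp, sub_self]
  -- the second relation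
  let E1 : W := bb ^ 2 + bb + C β
  let h1' : W := τ ^ (n - 1) * (Yv ν none * Polynomial.aeval bb Ap +
    ∑ k, Yv ν (some (some k)) * Polynomial.aeval bb (lp k) - Yv ν (some none))
  let R2 : W := E1 + X none * h1'
  have hR2 : R2 = Gam β Ap lp (Yq none) bb (fun k => Yq (some (some k))) - Yq (some none) := by
    show bb ^ 2 + bb + C β + τ * (τ ^ (n - 1) * (Yv ν none * Polynomial.aeval bb Ap +
      ∑ k, Yv ν (some (some k)) * Polynomial.aeval bb (lp k) - Yv ν (some none))) =
      (bb ^ 2 + bb + algebraMap R W β + τ ^ n * Yv ν none * Polynomial.aeval bb Ap +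
        ∑ k, τ ^ n * Yv ν (some (some k)) * Polynomial.aeval bb (lp k)) - τ ^ n * Yv ν (some none)
    have h2 : ∑ k, τ ^ n * Yv ν (some (some k)) * Polynomial.aeval bb (lp k) =
        τ ^ n * ∑ k, Yv ν (some (some k)) * Polynomial.aeval bb (lp k) := by
      rw [Finset.mul_sum]
      exact Finset.sum_congr rfl fun k _ => by rw [mul_assoc]
    rw [h2, MvPolynomial.algebraMap_eq, hτn]
    ring
  have heR2 : eW R2 = 0 := by
    rw [hR2, map_sub, Gam_map, heYq, heYq, hebb]
    have h3 : (fun k => eW (Yq (some (some k)))) = fun k => q (some (some k)) :=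
      funext fun k => heYq _
    rw [h3, ← hqG, sub_self]
  -- the quotient by the first two relations
  obtain ⟨B, iB1, iB2, mk, hmks, hmkk, hmk⟩ :=
    exists_quot (R := R) (Ideal.span {R1, R2} : Ideal W)
  have hmkR1 : (p : B) = mk (Yq none) := by
    have h1 : mk R1 = 0 := (hmk R1).2 (Ideal.subset_span (by simp))
    rw [hR1, map_sub, map_natCast] at h1
    exact sub_eq_zero.1 h1
  have hmkR2 : mk (Yq (some none)) =
      Gam β Ap lp (mk (Yq none)) (mk bb) (fun k => mk (Yq (some (some k)))) := by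
    have h1 : mk R2 = 0 := (hmk R2).2 (Ideal.subset_span (by simp))
    rw [hR2, map_sub, Gam_map] at h1
    exact (sub_eq_zero.1 h1).symm
  have hexp := hQE (B := B) (fun k => mk (Yq k)) (mk bb) (fun z => mk (wW z)) hmkR1 hmkR2
  have hmTot : mk Tot = TotZ p 0 g c Z s d (mk (Yq none)) (mk bb)
      (fun k => mk (Yq (some (some k)))) (fun z => mk (wW z)) :=
    QC1aux.TotZ_map mk p 0 g c Z s d (Yq none) bb (fun k => Yq (some (some k))) wW
  have hmem : mk Tot - (∑ k, ∑ k', algebraMap R B (Q k k') * mk (Yq k) * mk (Yq k') -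
      ∑ z, mk (wW z)) ∈ Ideal.span {mk τ ^ (2 * n + 1)} := by
    rw [hmTot]
    refine (show _ ≤ Ideal.span {mk τ ^ (2 * n + 1)} from ?_) hexp
    have h1 : Ideal.span (Set.range (fun k => mk (Yq k))) ≤ Ideal.span {mk τ ^ n} := by
      rw [Ideal.span_le]
      rintro x ⟨k, rfl⟩
      exact Ideal.mem_span_singleton'.2 ⟨mk (Yv ν k), by
        show mk (Yv ν k) * mk τ ^ n = mk (τ ^ n * Yv ν k)
        rw [map_mul, map_pow, mul_comm]⟩
    have h2 : Ideal.span (Set.range (fun z => mk (wW z))) ≤ Ideal.span {mk τ ^ e} := by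
      rw [Ideal.span_le]
      rintro x ⟨z, rfl⟩
      refine Ideal.mem_span_singleton'.2 ⟨mk (algebraMap R W (r z) * H z ^ e), ?_⟩
      show mk (algebraMap R W (r z) * H z ^ e) * mk τ ^ e =
        mk (algebraMap R W (r z) * (τ * H z) ^ e)
      rw [← map_pow, ← map_mul]
      congr 1
      rw [mul_pow]
      ring
    refine sup_le (sup_le ?_ ?_) ?_
    · refine (Ideal.pow_right_mono h1 3).trans ?_
      rw [Ideal.span_singleton_pow]
      apply Ideal.span_singleton_le_span_singleton.2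
      rw [← pow_mul]
      exact pow_dvd_pow _ (by omega)
    · refine (Ideal.mul_mono h1 h2).trans ?_
      rw [Ideal.span_singleton_mul_span_singleton]
      apply Ideal.span_singleton_le_span_singleton.2
      rw [← pow_add]
      exact pow_dvd_pow _ (by omega)
    · refine (Ideal.pow_right_mono h2 2).trans ?_
      rw [Ideal.span_singleton_pow]
      apply Ideal.span_singleton_le_span_singleton.2
      rw [← pow_mul]
      exact pow_dvd_pow _ (by omega)
  obtain ⟨hBB, hhB⟩ := Ideal.mem_span_singleton'.1 hmem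
  obtain ⟨h', hh'⟩ := hmks hBB
  let G0 : W := ∑ z : ZT Z, C (r z) * H z ^ e
  let G : W := X none * h' - X none ^ (e - 2 * n) * G0
  let E : W := ∑ k, ∑ l, C (Q k l) * Yv ν k * Yv ν l + G
  have hsumw : ∑ z, wW z = τ ^ (2 * n) * (τ ^ (e - 2 * n) * G0) := by
    show ∑ z : ZT Z, algebraMap R W (r z) * (τ * H z) ^ e = τ ^ (2 * n) * (τ ^ (e - 2 * n) *
      ∑ z : ZT Z, (C (r z) : W) * H z ^ e)
    rw [← mul_assoc, Finset.mul_sum]
    apply Finset.sum_congr rfl
    intro z _
    rw [mul_pow]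
    have h1 : τ ^ e = τ ^ (2 * n) * τ ^ (e - 2 * n) := by rw [← pow_add]; congr 1; omega
    rw [h1, MvPolynomial.algebraMap_eq]; ring
  have hsumq : ∑ k, ∑ k', algebraMap R W (Q k k') * Yq k * Yq k' =
      τ ^ (2 * n) * ∑ k, ∑ k', C (Q k k') * Yv ν k * Yv ν k' := by
    rw [Finset.mul_sum]
    apply Finset.sum_congr rfl
    intro k _
    rw [Finset.mul_sum]
    apply Finset.sum_congr rfl
    intro k' _
    show algebraMap R W (Q k k') * (τ ^ n * Yv ν k) * (τ ^ n * Yv ν k') = _
    have h1 : τ ^ (2 * n) = τ ^ n * τ ^ n := by rw [← pow_add]; congr 1; omega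
    rw [h1, MvPolynomial.algebraMap_eq]; ring
  have hmE : mk (Tot - τ ^ (2 * n) * E) = 0 := by
    have h1 : τ ^ (2 * n) * E =
        (∑ k, ∑ k', algebraMap R W (Q k k') * Yq k * Yq k' - ∑ z, wW z) +
        h' * τ ^ (2 * n + 1) := by
      rw [hsumq, hsumw]
      show τ ^ (2 * n) * (∑ k, ∑ l, C (Q k l) * Yv ν k * Yv ν l +
        (τ * h' - τ ^ (e - 2 * n) * G0)) = _
      rw [pow_succ τ (2 * n)]
      ring
    have h2 : mk (∑ k, ∑ k', algebraMap R W (Q k k') * Yq k * Yq k' - ∑ z, wW z) =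
        (∑ k, ∑ k', algebraMap R B (Q k k') * mk (Yq k) * mk (Yq k') - ∑ z, mk (wW z)) := by
      rw [map_sub, map_sum, map_sum]
      congr 1
      apply Finset.sum_congr rfl
      intro k _
      rw [map_sum]
      apply Finset.sum_congr rfl
      intro k' _
      rw [map_mul, map_mul, AlgHom.commutes]
    rw [h1, map_sub, map_add, h2, map_mul, map_pow, hh', hhB]
    ring
  obtain ⟨ρ, ρ', hρ⟩ := Ideal.mem_span_pair.1 ((hmk _).1 hmE)
  have hE0 : eW E = 0 := by
    have h1 : eW (τ ^ (2 * n) * E) = 0 := by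
      have h2 : τ ^ (2 * n) * E = Tot - (ρ * R1 + ρ' * R2) := by
        rw [hρ]; ring
      rw [h2, map_sub, map_add, map_mul, map_mul, heR1, heR2, mul_zero, mul_zero, add_zero,
        sub_zero, heTot]
    rw [map_mul, map_pow, heτ] at h1
    exact (mul_eq_zero.1 h1).resolve_left (pow_ne_zero _ hC.yz)
  obtain ⟨A, iA1, iA2, pr, hprs, hprk, hpr⟩ :=
    exists_quot (R := R) (Ideal.span {R1, R2, E} : Ideal W)
  have hprR1 : pr R1 = 0 := (hpr R1).2 (Ideal.subset_span (by simp))
  have hprR2 : pr R2 = 0 := (hpr R2).2 (Ideal.subset_span (by simp))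
  have hprE : pr E = 0 := (hpr E).2 (Ideal.subset_span (by simp))
  have hker : ∀ w, pr w = 0 → eW w = 0 := by
    intro w hw
    have h1 := (hpr w).1 hw
    have h2 : (Ideal.span {R1, R2, E} : Ideal W) ≤ RingHom.ker (eW : W →+* F) := by
      rw [Ideal.span_le]
      rintro x (rfl | rfl | rfl)
      · exact heR1
      · exact heR2
      · exact hE0
    exact h2 h1
  -- the range
  have hrange : Algebra.adjoin R (insert b (G3 q η n z₀)) = eW.range := by
    show _ = (aeval (pt q η n z₀ b)).range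
    rw [← Algebra.adjoin_range_eq_range_aeval]
    apply le_antisymm
    · apply Algebra.adjoin_le
      rintro x (hx | (hx | ⟨k, rfl⟩) | ⟨z, rfl⟩)
      · rw [hx]
        exact Algebra.subset_adjoin ⟨some (Sum.inr ()), rfl⟩
      · rw [Set.mem_singleton_iff] at hx
        rw [hx]
        exact Algebra.subset_adjoin ⟨none, rfl⟩
      · exact Algebra.subset_adjoin ⟨some (Sum.inl (Sum.inl k)), rfl⟩
      · by_cases hz : z = z₀
        · show η z / η z₀ ∈ _
          rw [hz, div_self hC.yz]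
          exact one_mem _
        · exact Algebra.subset_adjoin ⟨some (Sum.inl (Sum.inr ⟨z, hz⟩)), rfl⟩
    · apply Algebra.adjoin_mono
      rintro x ⟨o, rfl⟩
      rcases o with _ | ((k | z) | u)
      · exact Or.inr (Or.inl (Or.inl rfl))
      · exact Or.inr (Or.inl (Or.inr ⟨k, rfl⟩))
      · exact Or.inr (Or.inr ⟨z.1, rfl⟩)
      · exact Or.inl rfl
  have hlocOf' : IsLocOf 𝒪 (eW.range : Set F) := by
    rw [← hrange]; exact hlocOf
  have hW : ∀ w, eW w ∈ 𝒪 := fun w => hlocOf'.1 _ ⟨w, rfl⟩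
  have hprp : pr (p : W) = pr (Yq none) := by
    rw [hR1, map_sub] at hprR1
    exact sub_eq_zero.1 hprR1
  have hprG : pr (Yq (some none)) =
      pr (Gam β Ap lp (Yq none) bb (fun k => Yq (some (some k)))) := by
    rw [hR2, map_sub] at hprR2
    exact (sub_eq_zero.1 hprR2).symm
  have hprTot : pr Tot = 0 := by
    have h2 : Tot = τ ^ (2 * n) * E + (ρ * R1 + ρ' * R2) := by
      rw [hρ]; ring
    rw [h2, map_add, map_add, map_mul, map_mul, map_mul, hprE, hprR1, hprR2]
    simp
  refine hP 𝒪 p e h co r g Z y s d a b c β Ap lp hD pr hprs eW hker hW hlocOf' Yq Yy bb ?_ ?_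
    hebb hprp hprG hprTot ?_ ?_
  · intro m
    rw [heYq, hq]
  · intro z
    rw [heYy, hη]
  · intro P hPr hPS hPa hPm hPe hPd w
    have hPτ : P τ := by
      have h1 := hPS (Yy z₀) (Or.inl (Or.inr ⟨z₀, rfl⟩))
      have h2 : Yy z₀ = τ := by
        show τ * H z₀ = τ
        rw [hHz0, mul_one]
      rwa [h2] at h1
    have heτ0 : eW τ ≠ 0 := by rw [heτ]; exact hC.yz
    have hP1 : P 1 := by
      have h1 := hPr 1
      rwa [map_one] at h1
    have hPpow : ∀ i : ℕ, P (τ ^ i) := by
      intro i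
      induction i with
      | zero => rw [pow_zero]; exact hP1
      | succ i ih => rw [pow_succ]; exact hPm _ _ ih hPτ
    have heτn0 : eW (τ ^ n) ≠ 0 := by
      rw [map_pow, heτ]; exact hτn0
    have hPv : ∀ m, P (Yv ν m) := fun m => hPd (τ ^ n) (Yv ν m) heτn0 (hPpow n)
      (hPS _ (Or.inl (Or.inl ⟨m, rfl⟩)))
    have hPz : ∀ z : ZT Z, P (H z) := fun z =>
      hPd τ _ heτ0 hPτ (hPS _ (Or.inl (Or.inr ⟨z, rfl⟩)))
    have hPb : P bb := hPS _ (Or.inr rfl)
    have hPX : ∀ o, P (X o) := by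
      intro o
      rcases o with _ | ((k | z) | u)
      · exact hPτ
      · exact hPv k
      · have h1 := hPz z.1
        have h2 : H z.1 = X (some (Sum.inl (Sum.inr z))) := by
          show Hz z₀ z.1 = _
          unfold Hz
          rw [dif_neg z.2]
        rwa [h2] at h1
      · exact hPb
    induction w using MvPolynomial.induction_on with
    | C r => exact hPr r
    | add p q hp hq => exact hPa _ _ hp hq
    | mul_X p n hp => exact hPm _ _ hp (hPX n)
  · intro 𝔮 _ h𝔮
    have h1 : pr (X none) ∈ 𝔮 := by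
      rw [h𝔮]
      show ¬ U 𝒪 (eW τ)
      rw [heτ, hη]
      exact hD.data.hyZ _ z₀.2
    obtain ⟨m₀, hm₀⟩ := hunit
    refine hB (p : R) hD.data.irr Q hQ ν (nu_inj z₀) (pr : W →+* A) hprs hh h1' E1 G hprk 𝔮 h1
      ?_ ?_ ⟨m₀, ?_⟩ (Sum.inr ()) ?_ ?_
    · show pr (X none * h' - X none ^ (e - 2 * n) * G0) ∈ 𝔮
      rw [map_sub, map_mul, map_mul, map_pow]
      exact 𝔮.sub_mem (Ideal.mul_mem_right _ _ h1)
        (Ideal.mul_mem_right _ _ (Ideal.pow_mem_of_mem _ h1 _ (by omega)))
    · intro k i hki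
      obtain ⟨m, rfl⟩ := nu_some z₀ k i hki
      have hd1 : pderiv (some (Sum.inl (Sum.inl m))) (X none : W) = 0 := pderiv_X_of_ne (by simp)
      have hd2 : pderiv (some (Sum.inl (Sum.inl m))) G0 = 0 := by
        show pderiv (some (Sum.inl (Sum.inl m))) (∑ z : ZT Z, (C (r z) : W) * H z ^ e) = 0
        rw [map_sum]
        apply Finset.sum_eq_zero
        intro z _
        have h3 : pderiv (some (Sum.inl (Sum.inl m))) (H z) = 0 := pderiv_Hz z₀ z m
        rw [pderiv_C_mul, pderiv_pow, h3]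
        simp
      have hd : pderiv (some (Sum.inl (Sum.inl m))) G =
          X none * pderiv (some (Sum.inl (Sum.inl m))) h' := by
        show pderiv (some (Sum.inl (Sum.inl m))) (X none * h' - X none ^ (e - 2 * n) * G0) = _
        rw [map_sub, pderiv_mul, pderiv_mul, pderiv_pow, hd1, hd2]
        simp
      show pr (pderiv (some (Sum.inl (Sum.inl m))) G) ∈ 𝔮
      rw [hd, map_mul]
      exact Ideal.mul_mem_right _ _ h1
    · intro hmem'
      have h2 : pr (Yv ν m₀) ∈ 𝔮 := hmem'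
      rw [h𝔮, heYv] at h2
      exact h2 hm₀
    · show pr (pderiv (some (Sum.inr ())) E1) ∉ 𝔮
      have hd : pderiv (some (Sum.inr ())) E1 = (2 : W) * bb + 1 := by
        show pderiv (some (Sum.inr ())) (bb ^ 2 + bb + C β) = _
        have h3 : pderiv (some (Sum.inr ())) bb = 1 := pderiv_X_self _
        rw [map_add, map_add, pderiv_pow, pderiv_C, h3]
        push_cast
        ring
      have h2 : pr (2 : W) ∈ 𝔮 := by
        have h3 : pr (p : W) ∈ 𝔮 := by
          rw [hprp]
          show pr (τ ^ n * Yv ν none) ∈ 𝔮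
          rw [map_mul, map_pow]
          exact Ideal.mul_mem_right _ _ (Ideal.pow_mem_of_mem _ h1 _ (by omega))
        have h4 : (p : W) = 2 := by
          rw [hD.two]; norm_num
        rwa [h4] at h3
      intro h5
      rw [hd, map_add, map_mul, map_one] at h5
      have h6 : (1 : A) ∈ 𝔮 := by
        have := 𝔮.sub_mem h5 (Ideal.mul_mem_right (pr bb) 𝔮 h2)
        simpa using this
      exact (inferInstance : 𝔮.IsPrime).ne_top ((Ideal.eq_top_iff_one _).2 h6)
    · intro k i hki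
      obtain ⟨m, rfl⟩ := nu_some z₀ k i hki
      have hd : pderiv (some (Sum.inl (Sum.inl m))) E1 = 0 := by
        show pderiv (some (Sum.inl (Sum.inl m))) (bb ^ 2 + bb + C β) = _
        have h3 : pderiv (some (Sum.inl (Sum.inl m))) bb = 0 := pderiv_X_of_ne (by simp)
        rw [map_add, map_add, pderiv_pow, pderiv_C, h3]
        simp
      show pr (pderiv (some (Sum.inl (Sum.inl m))) E1) ∈ 𝔮
      rw [hd, map_zero]
      exact 𝔮.zero_mem

end Pool.Agent.H945R2.E
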