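import Pool.Agent.H945R2.E.Props
import Pool.Agent.H945R2.S.QC5

/-! QE5: chart 3 of the resolution, `f` a unit, `p = 2` (helper20, adaptation of QC5 by
helper485). -/

set_option autoImplicit false

open scoped Pointwise

namespace Pool.Agent.H945R2.E

open Pool.Agent.H918R2.Quad Pool.Agent.H945R2.D Pool.Agent.H945R2.S MvPolynomial
open Pool.Agent.H945R2.S.QC5aux

namespace QE5aux

theorem map_Gam {R B B' τ : Type} [CommRing R] [CommRing B] [Algebra R B] [CommRing B']
    [Algebra R B'] [Fintype τ] (f : B →ₐ[R] B') (β : R) (A : Polynomial R)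
    (l : τ → Polynomial R) (a b : B) (v : τ → B) :
    f (Gam β A l a b v) = Gam β A l (f a) (f b) (fun k => f (v k)) := by
  unfold Gam
  simp only [map_add, map_pow, map_mul, map_sum, AlgHom.commutes, Polynomial.aeval_algHom_apply]

end QE5aux

open QE5aux

theorem QE5_ok (hP : S_QPREE) (hF : S_QTFE) (hB : S_RLW2) : S_QE5 := by
  intro R F ι _ _ _ _ _ _ _ 𝒪 p e h co r g Z y s d a b c β A' l Q hQ hexpE q η hq hη f hf z₀ hC
    hnU hfU hloc
  have hD := hQ.data
  have he := hQ.heh
  obtain ⟨hQrad, hexp⟩ := hexpE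
  obtain ⟨hq0, hpF, hGF, hTotF⟩ := hF 𝒪 p e h co r g Z y s d a b c β A' l hQ q hq
  have hτ0 : η z₀ ≠ 0 := hC.yz
  have hτU : ¬ U 𝒪 (η z₀) := by rw [hη]; exact hD.hyZ _ z₀.2
  have hηz : ∀ z : ZT Z, η z = y z := fun z => by rw [hη]
  -- the polynomial ring
  let σ : Type := KT Z s d ⊕ ({z : ZT Z // z ≠ z₀} ⊕ Unit)
  let W : Type := MvPolynomial (Option σ) R
  let τ : W := X none
  let bW : W := X (some (Sum.inr (Sum.inr ())))
  let x : KT Z s d → W := fun m => X (some (Sum.inl m))
  let H : ZT Z → W := fun z => if hz : z = z₀ then 1 else X (some (Sum.inr (Sum.inl ⟨z, hz⟩)))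
  let Yq : KT Z s d → W := fun m => τ ^ h * x m
  let Yy : ZT Z → W := fun z => τ * H z
  let pt : Option σ → F := fun o => o.elim (η z₀) (fun k => Sum.elim (fun m => q m / η z₀ ^ h)
    (Sum.elim (fun z => η z.1 / η z₀) (fun _ => b)) k)
  let eW : W →ₐ[R] F := aeval pt
  have heτ : eW τ = η z₀ := by
    show aeval pt (X none) = η z₀
    rw [aeval_X]; rfl
  have heb : eW bW = b := by
    show aeval pt (X (some (Sum.inr (Sum.inr ())))) = b
    rw [aeval_X]; rfl
  have hex : ∀ m, eW (x m) = q m / η z₀ ^ h := by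
    intro m
    show aeval pt (X (some (Sum.inl m))) = _
    rw [aeval_X]; rfl
  have heH : ∀ z, eW (H z) = η z / η z₀ := by
    intro z
    show aeval pt (if hz : z = z₀ then 1 else X (some (Sum.inr (Sum.inl ⟨z, hz⟩)))) = _
    split_ifs with hz
    · rw [map_one, hz, div_self hτ0]
    · rw [aeval_X]; rfl
  have hHz0 : H z₀ = 1 := by
    show (if hz : z₀ = z₀ then 1 else X (some (Sum.inr (Sum.inl ⟨z₀, hz⟩)))) = (1 : W)
    rw [dif_pos rfl]
  have heYq : ∀ m, eW (Yq m) = q m := by
    intro m
    show eW (τ ^ h * x m) = q m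
    rw [map_mul, map_pow, heτ, hex, mul_div_cancel₀ _ (pow_ne_zero _ hτ0)]
  have heYy : ∀ z, eW (Yy z) = η z := by
    intro z
    show eW (τ * H z) = η z
    rw [map_mul, heτ, heH, mul_div_cancel₀ _ hτ0]
  -- the first relation
  let hh : W := τ ^ (h - 1) * x none
  let R1 : W := C (p : R) - X none * hh
  have hττ : τ * τ ^ (h - 1) = τ ^ h := by
    rw [← pow_succ', Nat.sub_add_cancel hQ.hh]
  have hR1 : R1 = (p : W) - Yq none := by
    show C (p : R) - τ * (τ ^ (h - 1) * x none) = (p : W) - τ ^ h * x none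
    rw [map_natCast, ← mul_assoc, hττ]
  have heR1 : eW R1 = 0 := by
    rw [hR1, map_sub, map_natCast, heYq, ← hpF, sub_self]
  -- the second relation
  let E1 : W := bW ^ 2 + bW + C β
  let h1 : W := τ ^ (h - 1) * (x none * Polynomial.aeval bW A' +
    ∑ k : TT Z s d, x (some (some k)) * Polynomial.aeval bW (l k) - x (some none))
  let R2 : W := E1 + X none * h1
  have hR2 : R2 = Gam β A' l (Yq none) bW (fun k => Yq (some (some k))) - Yq (some none) := by
    show bW ^ 2 + bW + C β + τ * (τ ^ (h - 1) * (x none * Polynomial.aeval bW A' +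
      ∑ k : TT Z s d, x (some (some k)) * Polynomial.aeval bW (l k) - x (some none))) =
      bW ^ 2 + bW + algebraMap R W β + τ ^ h * x none * Polynomial.aeval bW A' +
        ∑ k : TT Z s d, τ ^ h * x (some (some k)) * Polynomial.aeval bW (l k) -
          τ ^ h * x (some none)
    have h2 : ∑ k : TT Z s d, τ ^ h * x (some (some k)) * Polynomial.aeval bW (l k) =
        τ ^ h * ∑ k : TT Z s d, x (some (some k)) * Polynomial.aeval bW (l k) := by
      rw [Finset.mul_sum]
      apply Finset.sum_congr rfl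
      intro k _
      ring
    rw [h2, ← mul_assoc τ, hττ]
    show bW ^ 2 + bW + algebraMap R W β + _ = _
    ring
  have heR2 : eW R2 = 0 := by
    rw [hR2, map_sub, map_Gam]
    simp only [heYq, heb]
    rw [← hGF, sub_self]
  let Tot : W := TotZ p 0 g c Z s d (Yq none) bW
    (fun k => Yq (some (some k))) (fun z => algebraMap R W (r z) * Yy z ^ e)
  have heTot : eW Tot = 0 := by
    show eW (TotZ p 0 g c Z s d (Yq none) bW
      (fun k => Yq (some (some k))) (fun z => algebraMap R W (r z) * Yy z ^ e)) = 0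
    rw [map_TotZ]
    simp only [map_mul, map_pow, heYq, heYy, heb, AlgHom.commutes, hηz]
    exact hTotF
  -- the quotient by the first two relations
  obtain ⟨B, iB1, iB2, mk, hmks, hmkk, hmk⟩ :=
    exists_quot (R := R) (Ideal.span {R1, R2} : Ideal W)
  have hmkR1 : (p : B) = mk (Yq none) := by
    have h1 : mk R1 = 0 := (hmk R1).2 (Ideal.subset_span (by simp))
    rw [hR1, map_sub, map_natCast] at h1
    exact sub_eq_zero.1 h1
  have hmkR2 : mk (Yq (some none)) =
      Gam β A' l (mk (Yq none)) (mk bW) (fun k => mk (Yq (some (some k)))) := by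
    have h1 : mk R2 = 0 := (hmk R2).2 (Ideal.subset_span (by simp))
    rw [hR2, map_sub, map_Gam] at h1
    exact (sub_eq_zero.1 h1).symm
  have hexpB := hexp (B := B) (fun m => mk (Yq m)) (mk bW)
    (fun z : ZT Z => algebraMap R B (r z) * mk (Yy z) ^ e) hmkR1 hmkR2
  obtain ⟨μB, νB, hTotB⟩ := expand_tot (ζ := ZT Z) (mk τ) (fun m => mk (x m)) (fun m => mk (Yq m))
    (fun z : ZT Z => algebraMap R B (r z) * mk (Yy z) ^ e) h hQ.hh
    (fun m => by
      show mk (τ ^ h * x m) = _
      rw [map_mul, map_pow])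
    (fun z : ZT Z => algebraMap R B (r z) * mk (H z) ^ e)
    (fun z => by
      show algebraMap R B (r z) * mk (τ * H z) ^ e = _
      rw [map_mul, mul_pow, he]; ring)
    (fun k k' => algebraMap R B (Q k k')) _ hexpB
  choose μ hμ using fun k => hmks (μB k)
  obtain ⟨ν, hν⟩ := hmks νB
  let v : W := -(∑ z : ZT Z, algebraMap R W (r z) * H z ^ e) + τ * ν
  let E : W := X none * v + ∑ k, X (some (Sum.inl k)) * μ k
  have hmTot : mk Tot = mk (τ ^ (2 * h) * E) := by
    show mk (TotZ p 0 g c Z s d (Yq none) bW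
      (fun k => Yq (some (some k))) (fun z => algebraMap R W (r z) * Yy z ^ e)) = _
    rw [map_TotZ]
    have h1 : ∀ z : ZT Z, mk (algebraMap R W (r z) * Yy z ^ e) =
        algebraMap R B (r z) * mk (Yy z) ^ e := by
      intro z
      rw [map_mul, map_pow, AlgHom.commutes]
    simp only [h1]
    rw [hTotB]
    show _ = mk (τ ^ (2 * h) * (τ * (-(∑ z : ZT Z, algebraMap R W (r z) * H z ^ e) + τ * ν) +
      ∑ k, x k * μ k))
    rw [map_mul, map_pow, map_add, map_mul, map_add, map_neg, map_sum, map_sum, map_mul, hν]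
    congr 2
    · congr 2
      congr 1
      apply Finset.sum_congr rfl
      intro z _
      rw [map_mul, map_pow, AlgHom.commutes]
    · apply Finset.sum_congr rfl
      intro k _
      rw [map_mul, hμ]
  have hmE : mk (Tot - τ ^ (2 * h) * E) = 0 := by
    rw [map_sub, hmTot, sub_self]
  obtain ⟨r₁, r₂, hr'⟩ := Ideal.mem_span_pair.1 ((hmk _).1 hmE)
  have hTotE : Tot = τ ^ (2 * h) * E + (r₁ * R1 + r₂ * R2) := by
    rw [hr']; ring
  have hE0 : eW E = 0 := by
    have h1 : eW (τ ^ (2 * h) * E) = 0 := by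
      have h2 : τ ^ (2 * h) * E = Tot - (r₁ * R1 + r₂ * R2) := by
        rw [hTotE]; ring
      rw [h2, map_sub, map_add, map_mul, map_mul, heR1, heR2, heTot]
      simp
    rw [map_mul, map_pow, heτ] at h1
    exact (mul_eq_zero.1 h1).resolve_left (pow_ne_zero _ hτ0)
  obtain ⟨A, iA1, iA2, pr, hprs, hprk, hpr⟩ :=
    exists_quot (R := R) (Ideal.span {R1, R2, E} : Ideal W)
  have hprR1 : pr R1 = 0 := (hpr R1).2 (Ideal.subset_span (by simp))
  have hprR2 : pr R2 = 0 := (hpr R2).2 (Ideal.subset_span (by simp))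
  have hprE : pr E = 0 := (hpr E).2 (Ideal.subset_span (by simp))
  have hker : ∀ w, pr w = 0 → eW w = 0 := by
    intro w hw
    have h1 := (hpr w).1 hw
    have h2 : (Ideal.span {R1, R2, E} : Ideal W) ≤ RingHom.ker (eW : W →+* F) := by
      rw [Ideal.span_le]
      intro z hz
      simp only [Set.mem_insert_iff, Set.mem_singleton_iff] at hz
      rcases hz with rfl | rfl | rfl
      · exact heR1
      · exact heR2
      · exact hE0
    exact h2 h1
  -- the range
  have hrange : (Algebra.adjoin R (insert b (G3 q η h z₀))) = eW.range := by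
    show _ = (aeval pt).range
    rw [← Algebra.adjoin_range_eq_range_aeval]
    apply le_antisymm
    · apply Algebra.adjoin_le
      rintro w (rfl | (rfl | ⟨m, rfl⟩) | ⟨z, rfl⟩)
      · exact Algebra.subset_adjoin ⟨some (Sum.inr (Sum.inr ())), rfl⟩
      · exact Algebra.subset_adjoin ⟨none, rfl⟩
      · exact Algebra.subset_adjoin ⟨some (Sum.inl m), rfl⟩
      · by_cases hz : z = z₀
        · show η z / η z₀ ∈ _
          rw [hz, div_self hτ0]
          exact one_mem _
        · exact Algebra.subset_adjoin ⟨some (Sum.inr (Sum.inl ⟨z, hz⟩)), rfl⟩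
    · apply Algebra.adjoin_mono
      rintro w ⟨o, rfl⟩
      rcases o with _ | (m | (z | u))
      · exact Or.inr (Or.inl (Or.inl rfl))
      · exact Or.inr (Or.inl (Or.inr ⟨m, rfl⟩))
      · exact Or.inr (Or.inr ⟨z.1, rfl⟩)
      · exact Or.inl rfl
  have hlocOf' : IsLocOf 𝒪 (eW.range : Set F) := by
    rw [← hrange]; exact hloc
  have hW : ∀ w, eW w ∈ 𝒪 := fun w => hlocOf'.1 _ ⟨w, rfl⟩
  have hprp : pr (p : W) = pr (Yq none) := by
    rw [hR1, map_sub] at hprR1
    exact sub_eq_zero.1 hprR1
  have hprG : pr (Yq (some none)) =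
      pr (Gam β A' l (Yq none) bW (fun k => Yq (some (some k)))) := by
    rw [hR2, map_sub] at hprR2
    exact (sub_eq_zero.1 hprR2).symm
  have hprTot : pr Tot = 0 := by
    have h2 : pr (τ ^ (2 * h) * E) = 0 := by
      rw [map_mul, hprE, mul_zero]
    have h3 : pr (r₁ * R1 + r₂ * R2) = 0 := by
      rw [map_add, map_mul, map_mul, hprR1, hprR2]
      simp
    rw [hTotE, map_add, h2, h3, add_zero]
  refine hP 𝒪 p e h co r g Z y s d a b c β A' l hQ pr hprs eW hker hW hlocOf' Yq Yy bW
    (fun m => by rw [heYq, hq]) (fun z => by rw [heYy, hηz]) heb hprp hprG hprTot ?_ ?_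
  · -- generation
    intro P hPR hPS hPa hPm hPe hPd w
    have g0 : P τ := by
      have h1 := hPS (Yy z₀) (Or.inl (Or.inr ⟨z₀, rfl⟩))
      have h2 : Yy z₀ = τ := by
        show τ * H z₀ = τ
        rw [hHz0, mul_one]
      rwa [h2] at h1
    have gb : P bW := hPS bW (Or.inr rfl)
    have gpow : ∀ n : ℕ, P (τ ^ n) := by
      intro n
      induction n with
      | zero =>
        have := hPR 1
        rwa [map_one] at this
      | succ n ih =>
        rw [pow_succ]
        exact hPm _ _ ih g0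
    have g1 : ∀ m, P (x m) := by
      intro m
      refine hPd (τ ^ h) (x m) ?_ (gpow h) (hPS _ (Or.inl (Or.inl ⟨m, rfl⟩)))
      rw [map_pow, heτ]
      exact pow_ne_zero _ hτ0
    have g2 : ∀ z, P (H z) := by
      intro z
      refine hPd τ (H z) ?_ g0 (hPS _ (Or.inl (Or.inr ⟨z, rfl⟩)))
      rw [heτ]; exact hτ0
    induction w using MvPolynomial.induction_on with
    | C a => exact hPR a
    | add p q hp hq => exact hPa _ _ hp hq
    | mul_X p n hp =>
      refine hPm _ _ hp ?_
      rcases n with _ | (m | (z | u))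
      · exact g0
      · exact g1 m
      · have h1 := g2 z.1
        have h2 : H z.1 = X (some (Sum.inr (Sum.inl z))) := by
          show (if hz : z.1 = z₀ then (1 : W) else X (some (Sum.inr (Sum.inl (⟨z.1, hz⟩ :
            {z : ZT Z // z ≠ z₀}))))) = X (some (Sum.inr (Sum.inl z)))
          rw [dif_neg z.2]
        rwa [h2] at h1
      · exact gb
  · intro 𝔮 _ h𝔮
    have h1' : pr (X none) ∈ 𝔮 := by
      rw [h𝔮]
      show ¬ U 𝒪 (eW τ)
      rw [heτ]; exact hτU
    refine hB (p : R) hD.irr (pr : W →+* A) hprs hh v h1 E1 μ hprk 𝔮 h1' ?_ ?_ (Sum.inr ()) ?_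
    · intro k
      show pr (x k) ∈ 𝔮
      rw [h𝔮, hex]
      exact hnU k
    · intro hv
      have h2 : pr (∑ z : ZT Z, algebraMap R W (r z) * H z ^ e) ∈ 𝔮 := by
        have h3 : ∑ z : ZT Z, algebraMap R W (r z) * H z ^ e = τ * ν - v := by
          show _ = τ * ν - (-(∑ z : ZT Z, algebraMap R W (r z) * H z ^ e) + τ * ν)
          ring
        rw [h3, map_sub, map_mul]
        exact 𝔮.sub_mem (𝔮.mul_mem_right _ h1') hv
      rw [h𝔮] at h2
      apply h2
      have h4 : eW (∑ z : ZT Z, algebraMap R W (r z) * H z ^ e) = f / η z₀ ^ e := by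
        rw [map_sum, hf]
        unfold fY
        rw [Finset.sum_div]
        apply Finset.sum_congr rfl
        intro z _
        rw [map_mul, map_pow, AlgHom.commutes, heH, div_pow]
        ring
      rw [h4]
      exact hfU
    · intro hv
      have h5 : pderiv (some (Sum.inr (Sum.inr ()))) E1 = (p : W) * bW + 1 := by
        show pderiv (some (Sum.inr (Sum.inr ()))) (bW ^ 2 + bW + C β) = _
        have h6 : pderiv (R := R) (some (Sum.inr (Sum.inr ()))) bW = (1 : W) := by
          show pderiv (R := R) (some (Sum.inr (Sum.inr ())))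
            (X (some (Sum.inr (Sum.inr ())))) = (1 : W)
          rw [pderiv_X_self]
        rw [map_add, map_add, pderiv_C, pderiv_pow, h6, hQ.two]
        push_cast
        ring
      have hp𝔮 : pr (p : W) ∈ 𝔮 := by
        have h7 : pr (p : W) = pr (X none) * pr hh := by
          have h8 : pr R1 = pr (C (p : R)) - pr (X none) * pr hh := by
            show pr (C (p : R) - X none * hh) = _
            rw [map_sub, map_mul]
          rw [hprR1, map_natCast] at h8
          exact (sub_eq_zero.1 h8.symm)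
        rw [h7]
        exact 𝔮.mul_mem_right _ h1'
      have h9 : pr ((p : W) * bW + 1) ∈ 𝔮 := by
        rw [← h5]; exact hv
      have h10 : (1 : A) ∈ 𝔮 := by
        have h11 : (1 : A) = pr ((p : W) * bW + 1) - pr (p : W) * pr bW := by
          rw [map_add, map_mul, map_one]; ring
        rw [h11]
        exact 𝔮.sub_mem h9 (𝔮.mul_mem_right _ hp𝔮)
      exact (Ideal.ne_top_iff_one 𝔮).1 (Ideal.IsPrime.ne_top inferInstance) h10

end Pool.Agent.H945R2.E
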