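import Pool.Agent.H945R2.E.Props

/-! QEXE: the second order expansion for `p = 2`. -/

set_option autoImplicit false

open scoped Pointwise

namespace Pool.Agent.H945R2.E

open Pool.Agent.H918R2.Quad Pool.Agent.H945R2.D Pool.Agent.H945R2.S MvPolynomial

namespace QEXEaux

/-- sum over ordered pairs -/
def E2 {τ B : Type} [Fintype τ] [CommRing B] (e : τ → ℕ) (v : τ → B) : B :=
  ∑ k, ∑ k', if e k < e k' then v k * v k' else 0

theorem sq_sum {τ B : Type} [Fintype τ] [CommRing B] (e : τ → ℕ) (he : Function.Injective e)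
    (v : τ → B) : (∑ k, v k) ^ 2 = ∑ k, v k ^ 2 + 2 * E2 e v := by
  classical
  have h2 : ∀ k k', v k * v k' = (if k = k' then v k ^ 2 else 0) +
      (if e k < e k' then v k * v k' else 0) + (if e k' < e k then v k' * v k else 0) := by
    intro k k'
    rcases lt_trichotomy (e k) (e k') with h | h | h
    · have hne : k ≠ k' := fun h' => by rw [h'] at h; exact lt_irrefl _ h
      rw [if_neg hne, if_pos h, if_neg (by omega)]
      ring
    · have h3 := he h
      subst h3
      rw [if_pos rfl, if_neg (lt_irrefl _)]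
      ring
    · have hne : k ≠ k' := fun h' => by rw [h'] at h; exact lt_irrefl _ h
      rw [if_neg hne, if_pos h, if_neg (by omega)]
      ring
  have h3 : ∑ k, ∑ k', (if e k' < e k then v k' * v k else 0) = E2 e v := by
    rw [Finset.sum_comm]
    rfl
  calc (∑ k, v k) ^ 2 = ∑ k, ∑ k', v k * v k' := by rw [sq, Finset.sum_mul_sum]
    _ = ∑ k, ∑ k', ((if k = k' then v k ^ 2 else 0) +
      (if e k < e k' then v k * v k' else 0) + (if e k' < e k then v k' * v k else 0)) :=
        Finset.sum_congr rfl fun k _ => Finset.sum_congr rfl fun k' _ => h2 k k'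
    _ = ∑ k, v k ^ 2 + E2 e v + E2 e v := by
        simp only [Finset.sum_add_distrib, Finset.sum_ite_eq, Finset.mem_univ, if_true, h3]
        rfl
    _ = _ := by ring

/-- the quadratic form -/
def qf {τ R B : Type} [Fintype τ] [CommRing R] [CommRing B] [Algebra R B] (e : τ → ℕ) (κ : τ → R)
    (κd : R) (v : τ → B) : B :=
  ∑ k, algebraMap R B (1 + κ k + κd) * v k ^ 2 + algebraMap R B (1 + 2 * κd) * E2 e v

noncomputable def A0 {R : Type} [CommRing R] (σ : ℕ) (κd : R) : Polynomial R :=
  (Polynomial.X - Polynomial.C (σ : R)) *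
    (Polynomial.C (κd - σ) + Polynomial.C κd * (Polynomial.X - Polynomial.C (σ : R)))

noncomputable def l0 {R : Type} [CommRing R] (σ : ℕ) (κk κd : R) : Polynomial R :=
  Polynomial.C (κk - κd) - Polynomial.C (1 + 2 * κd) * (Polynomial.X - Polynomial.C (σ : R))

/-- the remainder -/
def rest {τ ζ R B : Type} [Fintype τ] [Fintype ζ] [CommRing R] [CommRing B] [Algebra R B]
    (e' : ζ → ℕ) (κ' : ζ → R) (κd : R) (σ : ℕ) (b : B) (v : τ → B) (w : ζ → B) : B :=
  qf e' κ' κd w + algebraMap R B (1 + 2 * κd) * (∑ k, v k) * (∑ z, w z) -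
    2 * algebraMap R B κd * (∑ z, w z) - 2 * algebraMap R B (1 + 2 * κd) * (b - σ) * (∑ z, w z)

/-- the value of `g` -/
noncomputable def Gt {τ ζ R B : Type} [Fintype τ] [Fintype ζ] [CommRing R] [CommRing B]
    [Algebra R B] (e : τ → ℕ) (e' : ζ → ℕ) (κ : τ → R) (κ' : ζ → R) (κd β : R) (σ : ℕ) (b : B)
    (v : τ → B) (w : ζ → B) : B :=
  2 * Gam β (A0 σ κd) (fun k => l0 σ (κ k) κd) 2 b v + qf e κ κd v - (∑ z, w z) +
    rest e' κ' κd σ b v w - 2 * b ^ 2

theorem ident {τ ζ R B : Type} [Fintype τ] [Fintype ζ] [CommRing R] [CommRing B]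
    [Algebra R B] (e : τ → ℕ) (he : Function.Injective e) (e' : ζ → ℕ)
    (he' : Function.Injective e') (κ : τ → R) (κ' : ζ → R) (κs κd β : R) (σ : ℕ)
    (hσ : 2 + Fintype.card τ = 2 * σ)
    (hβ : 4 * β = (1 + 2 * κs) + (1 + 2 * κd) + ∑ k, (1 + 2 * κ k) - (2 * σ) ^ 2 - 2 * (2 * σ))
    (b : B) (v : τ → B) (w : ζ → B) :
    algebraMap R B (1 + 2 * κs) + algebraMap R B (1 + 2 * κd) *
        (2 * b - 1 - ∑ k, (1 + v k) - ∑ z, w z) ^ 2 +
      ∑ k, algebraMap R B (1 + 2 * κ k) * (1 + v k) ^ 2 +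
      ∑ z, algebraMap R B (1 + 2 * κ' z) * w z ^ 2 - (2 * b) ^ 2 =
    2 * Gt e e' κ κ' κd β σ b v w := by
  have hn : (Fintype.card τ : B) = 2 * σ - 2 := by
    have h : ((2 + Fintype.card τ : ℕ) : B) = ((2 * σ : ℕ) : B) := by rw [hσ]
    push_cast at h
    linear_combination h
  have hβB : 4 * algebraMap R B β = (1 + 2 * algebraMap R B κs) + (1 + 2 * algebraMap R B κd) +
      ((2 * σ - 2) + 2 * ∑ k, algebraMap R B (κ k)) - (2 * σ) ^ 2 - 2 * (2 * σ) := by
    have h := congrArg (algebraMap R B) hβ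
    simp only [map_add, map_sub, map_mul, map_pow, map_sum, map_one, map_ofNat, map_natCast,
      Finset.sum_add_distrib, ← Finset.mul_sum, Finset.sum_const, Finset.card_univ,
      nsmul_eq_mul, mul_one, hn] at h
    exact h
  have h1 : ∑ k, (1 + v k) = (2 * σ - 2) + ∑ k, v k := by
    simp only [Finset.sum_add_distrib, Finset.sum_const, Finset.card_univ, nsmul_eq_mul, mul_one,
      hn]
  have h2 : ∑ k, algebraMap R B (1 + 2 * κ k) * (1 + v k) ^ 2 =
      (2 * σ - 2) + 2 * ∑ k, algebraMap R B (κ k) + 2 * ∑ k, v k +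
      4 * ∑ k, algebraMap R B (κ k) * v k + ∑ k, v k ^ 2 +
      2 * ∑ k, algebraMap R B (κ k) * v k ^ 2 := by
    have h : ∀ k, algebraMap R B (1 + 2 * κ k) * (1 + v k) ^ 2 =
        1 + 2 * algebraMap R B (κ k) + 2 * v k + 4 * (algebraMap R B (κ k) * v k) + v k ^ 2 +
          2 * (algebraMap R B (κ k) * v k ^ 2) := by
      intro k
      simp only [map_add, map_mul, map_one, map_ofNat]
      ring
    simp only [h, Finset.sum_add_distrib, ← Finset.mul_sum, Finset.sum_const, Finset.card_univ,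
      nsmul_eq_mul, mul_one, hn]
  have h3 : ∑ z, algebraMap R B (1 + 2 * κ' z) * w z ^ 2 =
      ∑ z, w z ^ 2 + 2 * ∑ z, algebraMap R B (κ' z) * w z ^ 2 := by
    have h : ∀ z, algebraMap R B (1 + 2 * κ' z) * w z ^ 2 =
        w z ^ 2 + 2 * (algebraMap R B (κ' z) * w z ^ 2) := by
      intro k
      simp only [map_add, map_mul, map_one, map_ofNat]
      ring
    simp only [h, Finset.sum_add_distrib, ← Finset.mul_sum]
  have h4 : ∑ k, v k * Polynomial.aeval b (l0 σ (κ k) κd) =
      ∑ k, algebraMap R B (κ k) * v k - (algebraMap R B κd +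
        (1 + 2 * algebraMap R B κd) * (b - σ)) * ∑ k, v k := by
    have h : ∀ k, v k * Polynomial.aeval b (l0 σ (κ k) κd) =
        algebraMap R B (κ k) * v k - (algebraMap R B κd +
        (1 + 2 * algebraMap R B κd) * (b - σ)) * v k := by
      intro k
      simp only [l0, map_sub, map_mul, map_add, map_one, map_ofNat, Polynomial.aeval_C,
        Polynomial.aeval_X, map_natCast]
      ring
    simp only [h, Finset.sum_sub_distrib, ← Finset.mul_sum]
  have h5 : Polynomial.aeval b (A0 σ κd) = (b - σ) * (algebraMap R B κd - σ +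
      algebraMap R B κd * (b - σ)) := by
    simp only [A0, map_sub, map_mul, map_add, Polynomial.aeval_C,
        Polynomial.aeval_X, map_natCast]
  have h6 : ∑ k, algebraMap R B (1 + κ k + κd) * v k ^ 2 =
      ∑ k, algebraMap R B (κ k) * v k ^ 2 + (1 + algebraMap R B κd) * ∑ k, v k ^ 2 := by
    have h : ∀ k, algebraMap R B (1 + κ k + κd) * v k ^ 2 =
        algebraMap R B (κ k) * v k ^ 2 + (1 + algebraMap R B κd) * v k ^ 2 := by
      intro k
      simp only [map_add, map_one]
      ring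
    simp only [h, Finset.sum_add_distrib, ← Finset.mul_sum]
  have h7 : ∑ z, algebraMap R B (1 + κ' z + κd) * w z ^ 2 =
      ∑ z, algebraMap R B (κ' z) * w z ^ 2 + (1 + algebraMap R B κd) * ∑ z, w z ^ 2 := by
    have h : ∀ z, algebraMap R B (1 + κ' z + κd) * w z ^ 2 =
        algebraMap R B (κ' z) * w z ^ 2 + (1 + algebraMap R B κd) * w z ^ 2 := by
      intro k
      simp only [map_add, map_one]
      ring
    simp only [h, Finset.sum_add_distrib, ← Finset.mul_sum]
  have h8 := sq_sum e he v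
  have h9 := sq_sum e' he' w
  unfold Gt rest qf Gam
  rw [h1, h2, h3, h4, h5, h6, h7]
  simp only [map_add, map_mul, map_one, map_ofNat]
  linear_combination (1 + 2 * algebraMap R B κd) * h8 + (1 + 2 * algebraMap R B κd) * h9 - hβB

theorem grel_aeval {R ι B : Type} [CommRing R] [Fintype ι] [CommRing B] [Algebra R B]
    (co : ι → R) (g : MvPolynomial ι R) (hg : GRel 2 co g) (t : ι → B) :
    2 * aeval t g = ∑ i, algebraMap R B (co i) * t i ^ 2 - (∑ i, t i) ^ 2 := by
  have h := congrArg (aeval t) hg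
  simp only [map_mul, map_sub, map_sum, map_pow, aeval_C, aeval_X, Nat.cast_ofNat,
    map_ofNat] at h
  exact h

theorem Gt_map {τ ζ R B B' : Type} [Fintype τ] [Fintype ζ] [CommRing R] [CommRing B]
    [Algebra R B] [CommRing B'] [Algebra R B'] (φ : B →ₐ[R] B') (e : τ → ℕ) (e' : ζ → ℕ)
    (κ : τ → R) (κ' : ζ → R) (κd β : R) (σ : ℕ) (b : B) (v : τ → B) (w : ζ → B) :
    φ (Gt e e' κ κ' κd β σ b v w) =
      Gt e e' κ κ' κd β σ (φ b) (fun k => φ (v k)) (fun z => φ (w z)) := by
  have hE : ∀ {ρ : Type} [Fintype ρ] (e : ρ → ℕ) (v : ρ → B),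
      φ (E2 e v) = E2 e (fun k => φ (v k)) := by
    intro ρ _ e v
    unfold E2
    rw [map_sum]
    refine Finset.sum_congr rfl fun k _ => ?_
    rw [map_sum]
    refine Finset.sum_congr rfl fun k' _ => ?_
    split_ifs
    · rw [map_mul]
    · rw [map_zero]
  have hq : ∀ {ρ : Type} [Fintype ρ] (e : ρ → ℕ) (κ : ρ → R) (κd : R) (v : ρ → B),
      φ (qf e κ κd v) = qf e κ κd (fun k => φ (v k)) := by
    intro ρ _ e κ κd v
    unfold qf
    rw [map_add, map_mul, hE, map_sum, AlgHom.commutes]
    congr 1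
    refine Finset.sum_congr rfl fun k _ => ?_
    rw [map_mul, map_pow, AlgHom.commutes]
  unfold Gt rest Gam
  simp only [map_add, map_sub, map_mul, map_pow, map_sum, hq, AlgHom.commutes, map_ofNat,
    map_natCast, Polynomial.aeval_algHom_apply]

theorem aeval_eq (hS : S_SUMZ) {R ι : Type} [CommRing R] [IsDomain R] [Fintype ι]
    [DecidableEq ι] (co : ι → R) (g : MvPolynomial ι R) (hg : GRel 2 co g) (h2 : (2 : R) ≠ 0)
    (κ : ι → R) (hκ : ∀ i, co i = 1 + 2 * κ i) (s : ι) (c : ι → ℕ) (β : R)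
    (hsp : SpZ 2 g s c β) (Z : Finset ι) (hZ : ∀ i, i ∈ Z ↔ c i = 0) (d : ι) (hsd : s ≠ d)
    (hd : d ∉ Z) (e : TT Z s d → ℕ) (he : Function.Injective e) (e' : ZT Z → ℕ)
    (he' : Function.Injective e') : ∃ σ : ℕ, 2 + Fintype.card (TT Z s d) = 2 * σ ∧
    ∀ {B : Type} [CommRing B] [Algebra R B] (b : B) (v : TT Z s d → B) (w : ZT Z → B),
      aeval (TcZ Z s d (fun i => (c i : B)) v w (2 * b)) g =
        Gt e e' (fun k => κ k) (fun z => κ z) (κ d) β σ b v w := by
  have hs : s ∉ Z := by
    rw [hZ, hsp.one]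
    exact one_ne_zero
  have hc1 : ∀ i, i ∉ Z → c i = 1 := by
    intro i hi
    have h1 := hsp.lt i
    rw [hZ] at hi
    omega
  have hcs : c s = 1 := hsp.one
  have hcd : c d = 1 := hc1 d hd
  have hck : ∀ k : TT Z s d, c k = 1 := fun k => hc1 k k.2.1
  have hcz : ∀ z : ZT Z, c z = 0 := fun z => (hZ z).1 z.2
  obtain ⟨σ, hσ'⟩ := hsp.sum
  have hσ : 2 + Fintype.card (TT Z s d) = 2 * σ := by
    have h := (hS (B := ℤ) Z s d hsd hs hd (fun _ => 0) (fun _ => 0) (fun _ => 0) 0).2
      (fun i => (c i : ℤ))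
    simp only [hcs, hcd, hck, hcz, Finset.sum_const, Finset.card_univ, nsmul_eq_mul] at h
    have h3 : ((∑ i, c i : ℕ) : ℤ) = 1 + 1 + Fintype.card (TT Z s d) := by
      push_cast
      rw [h]
      push_cast
      ring
    rw [hσ'] at h3
    push_cast at h3
    omega
  have hβ : 4 * β = (1 + 2 * κ s) + (1 + 2 * κ d) + ∑ k : TT Z s d, (1 + 2 * κ k) -
      (2 * σ) ^ 2 - 2 * (2 * σ) := by
    have h3 := hsp.val
    have h4 := grel_aeval (B := R) co g hg (fun i => (c i : R))
    have h5 := (hS (B := R) Z s d hsd hs hd (fun _ => 0) (fun _ => 0) (fun _ => 0) 0).2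
      (fun i => algebraMap R R (co i) * (c i : R) ^ 2)
    have h6 : ∑ i, (c i : R) = 2 * σ := by
      rw [← Nat.cast_sum, hσ']
      push_cast
      rfl
    simp only [hcs, hcd, hck, hcz, Algebra.algebraMap_self, RingHom.id_apply, Nat.cast_one,
      one_pow, mul_one, Nat.cast_zero, ne_eq, OfNat.ofNat_ne_zero, not_false_eq_true, zero_pow,
      mul_zero, Finset.sum_const_zero, add_zero, hκ] at h5
    rw [h6] at h4 h3
    simp only [Algebra.algebraMap_self, RingHom.id_apply, hκ] at h4
    rw [h5] at h4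
    push_cast at h3
    linear_combination 2 * h3 + h4
  refine ⟨σ, hσ, ?_⟩
  -- the universal ring
  have hP : ∀ (P : Type) [CommRing P] [IsDomain P] [Algebra R P] (b : P) (v : TT Z s d → P)
      (w : ZT Z → P), (2 : P) ≠ 0 →
      aeval (TcZ Z s d (fun i => (c i : P)) v w (2 * b)) g =
        Gt e e' (fun k => κ k) (fun z => κ z) (κ d) β σ b v w := by
    intro P _ _ _ b v w h2P
    have h := grel_aeval co g hg (TcZ Z s d (fun i => (c i : P)) v w (2 * b))
    have h1 := hS Z s d hsd hs hd (fun i => (c i : P)) v w (2 * b)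
    rw [h1.1, h1.2] at h
    have t1 : TcZ Z s d (fun i => (c i : P)) v w (2 * b) s = 1 := by
      unfold TcZ; rw [dif_neg hs, dif_pos rfl]
    have t2 : TcZ Z s d (fun i => (c i : P)) v w (2 * b) d =
        2 * b - 1 - ∑ k : TT Z s d, (1 + v k) - ∑ z, w z := by
      unfold TcZ; rw [dif_neg hd, dif_neg (fun h => hsd h.symm), dif_pos rfl]
      simp only [hck, Nat.cast_one]
    have t3 : ∀ k : TT Z s d, TcZ Z s d (fun i => (c i : P)) v w (2 * b) k = 1 + v k := by
      intro k
      unfold TcZ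
      rw [dif_neg k.2.1, dif_neg k.2.2.1, dif_neg k.2.2.2]
      show ((c k : ℕ) : P) + v k = 1 + v k
      rw [hck, Nat.cast_one]
    have t4 : ∀ z : ZT Z, TcZ Z s d (fun i => (c i : P)) v w (2 * b) z = w z := by
      intro z
      unfold TcZ
      rw [dif_pos z.2]
    simp only [t1, t2, t3, t4, hκ, one_pow, mul_one] at h
    apply mul_left_cancel₀ h2P
    rw [h]
    exact ident e he e' he' (fun k => κ k) (fun z => κ z) (κ s) (κ d) β σ hσ hβ b v w
  intro B _ _ b v w
  have h := hP (MvPolynomial (Option (TT Z s d ⊕ ZT Z)) R) (X none)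
    (fun k => X (some (Sum.inl k))) (fun z => X (some (Sum.inr z))) (by
      have : (2 : MvPolynomial (Option (TT Z s d ⊕ ZT Z)) R) = C 2 := (map_ofNat C 2).symm
      rw [this]
      intro h
      exact h2 (C_injective _ _ (by rw [h, C_0])))
  set φ : MvPolynomial (Option (TT Z s d ⊕ ZT Z)) R →ₐ[R] B :=
    aeval (fun o : Option (TT Z s d ⊕ ZT Z) => o.elim b (Sum.elim v w)) with hφ
  have h3 := congrArg φ h
  rw [Gt_map, comp_aeval_apply] at h3
  have h4 : (fun i => φ (TcZ Z s d
      (fun i => (c i : MvPolynomial (Option (TT Z s d ⊕ ZT Z)) R))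
      (fun k => X (some (Sum.inl k))) (fun z => X (some (Sum.inr z))) (2 * X none) i)) =
      TcZ Z s d (fun i => (c i : B)) v w (2 * b) := by
    funext i
    unfold TcZ
    split_ifs
    · simp [hφ]
    · simp
    · simp [hφ, map_sum]
    · simp [hφ]
  rw [h4] at h3
  rw [h3]
  congr 1
  · simp [hφ]
  · funext k
    simp [hφ]
  · funext k
    simp [hφ]

/-- the matrix -/
def QQ {τ R : Type} [DecidableEq τ] [CommRing R] (e : τ → ℕ) (κ : τ → R) (κd : R) :
    Option (Option τ) → Option (Option τ) → R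
  | none, some none => 1
  | some (some k), some (some k') =>
      if k = k' then 1 + κ k + κd else if e k < e k' then 1 + 2 * κd else 0
  | _, _ => 0

theorem QQ_ss {τ R : Type} [DecidableEq τ] [CommRing R] (e : τ → ℕ) (κ : τ → R) (κd : R)
    (k k' : τ) : QQ e κ κd (some (some k)) (some (some k')) =
      if k = k' then 1 + κ k + κd else if e k < e k' then 1 + 2 * κd else 0 := rfl

theorem QQ_sum {τ R B : Type} [Fintype τ] [DecidableEq τ] [CommRing R] [CommRing B]
    [Algebra R B] (e : τ → ℕ) (κ : τ → R) (κd : R) (Y : Option (Option τ) → B) :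
    ∑ k, ∑ k', algebraMap R B (QQ e κ κd k k') * Y k * Y k' =
      Y none * Y (some none) + qf e κ κd (fun k => Y (some (some k))) := by
  have h : ∀ k k' : τ, algebraMap R B (QQ e κ κd (some (some k)) (some (some k'))) *
      Y (some (some k)) * Y (some (some k')) =
      (if k = k' then algebraMap R B (1 + κ k + κd) * Y (some (some k)) ^ 2 else 0) +
      algebraMap R B (1 + 2 * κd) *
        (if e k < e k' then Y (some (some k)) * Y (some (some k')) else 0) := by
    intro k k'
    rw [QQ_ss]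
    by_cases h1 : k = k'
    · subst h1
      simp only [if_true, lt_irrefl, if_false]
      ring
    · rw [if_neg h1, if_neg h1]
      split_ifs
      · ring
      · simp
  have h0 : ∑ k : τ, ∑ k' : τ, algebraMap R B (QQ e κ κd (some (some k)) (some (some k'))) *
      Y (some (some k)) * Y (some (some k')) = qf e κ κd (fun k => Y (some (some k))) := by
    simp only [h, Finset.sum_add_distrib, Finset.sum_ite_eq, Finset.mem_univ, if_true,
      ← Finset.mul_sum]
    rfl
  simp only [Fintype.sum_option]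
  rw [← h0]
  have q1 : QQ e κ κd none none = 0 := rfl
  have q2 : QQ e κ κd none (some none) = 1 := rfl
  have q3 : ∀ k, QQ e κ κd none (some (some k)) = 0 := fun k => rfl
  have q4 : QQ e κ κd (some none) none = 0 := rfl
  have q5 : QQ e κ κd (some none) (some none) = 0 := rfl
  have q6 : ∀ k, QQ e κ κd (some none) (some (some k)) = 0 := fun k => rfl
  have q7 : ∀ k, QQ e κ κd (some (some k)) none = 0 := fun k => rfl
  have q8 : ∀ k, QQ e κ κd (some (some k)) (some none) = 0 := fun k => rfl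
  simp only [q1, q2, q3, q4, q5, q6, q7, q8, map_zero, map_one, zero_mul, one_mul,
    Finset.sum_const_zero, zero_add, add_zero]

theorem QQ_rad {τ R : Type} [Fintype τ] [DecidableEq τ] [CommRing R] (e : τ → ℕ)
    (he : Function.Injective e) (κ : τ → R) (κd : R) (σ : ℕ)
    (hσ : 2 + Fintype.card τ = 2 * σ) : RadI (2 : R) (QQ e κ κd) := by
  intro C _ f 𝔔 _ h2 v _ hder
  have q1 : QQ e κ κd none none = 0 := rfl
  have q2 : QQ e κ κd none (some none) = 1 := rfl
  have q3 : ∀ k, QQ e κ κd none (some (some k)) = 0 := fun k => rfl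
  have q4 : QQ e κ κd (some none) none = 0 := rfl
  have q5 : QQ e κ κd (some none) (some none) = 0 := rfl
  have q6 : ∀ k, QQ e κ κd (some none) (some (some k)) = 0 := fun k => rfl
  have q7 : ∀ k, QQ e κ κd (some (some k)) none = 0 := fun k => rfl
  have q8 : ∀ k, QQ e κ κd (some (some k)) (some none) = 0 := fun k => rfl
  rw [map_ofNat] at h2
  have hb : v (some none) ∈ 𝔔 := by
    have h := hder none
    simpa only [Fintype.sum_option, q1, q2, q3, q4, q7, add_zero, zero_add, map_zero, map_one,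
      zero_mul, one_mul, Finset.sum_const_zero] using h
  have ha : v none ∈ 𝔔 := by
    have h := hder (some none)
    simpa only [Fintype.sum_option, q2, q4, q5, q6, q8, add_zero, zero_add, map_zero, map_one,
      zero_mul, one_mul, Finset.sum_const_zero] using h
  have hk : ∀ k, (∑ k', v (some (some k'))) - v (some (some k)) ∈ 𝔔 := by
    intro k
    have h := hder (some (some k))
    simp only [Fintype.sum_option, q3, q6, q7, q8, add_zero, zero_add, map_zero,
      zero_mul] at h
    have h1 : ∀ k', f (QQ e κ κd (some (some k')) (some (some k)) +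
        QQ e κ κd (some (some k)) (some (some k'))) * v (some (some k')) =
        f (1 + 2 * κd) * v (some (some k')) +
        (if k = k' then (f (2 * (1 + κ k + κd)) - f (1 + 2 * κd)) * v (some (some k))
          else 0) := by
      intro k'
      rw [QQ_ss, QQ_ss]
      by_cases h3 : k = k'
      · subst h3
        simp only [if_true]
        rw [← map_sub, ← add_mul, ← map_add]
        congr 2
        ring
      · have h4 : ¬ k' = k := fun h => h3 h.symm
        have h5 : e k ≠ e k' := fun h => h3 (he h)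
        rw [if_neg h3, if_neg h4, if_neg h3]
        rcases lt_or_gt_of_ne h5 with h6 | h6
        · rw [if_pos h6, if_neg (by omega)]
          simp
        · rw [if_pos h6, if_neg (by omega)]
          simp
    simp only [h1, Finset.sum_add_distrib, Finset.sum_ite_eq, Finset.mem_univ, if_true,
      ← Finset.mul_sum] at h
    have h7 : (∑ k', v (some (some k'))) - v (some (some k)) =
        (f (1 + 2 * κd) * (∑ k', v (some (some k'))) +
          (f (2 * (1 + κ k + κd)) - f (1 + 2 * κd)) * v (some (some k))) -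
        2 * (f κd * (∑ k', v (some (some k'))) + (1 + f (κ k)) * v (some (some k))) := by
      simp only [map_add, map_mul, map_one, map_ofNat]
      ring
    rw [h7]
    exact 𝔔.sub_mem h (𝔔.mul_mem_right _ h2)
  have hS : (∑ k', v (some (some k'))) ∈ 𝔔 := by
    have h := 𝔔.sum_mem (fun k (_ : k ∈ Finset.univ) => hk k)
    rw [Finset.sum_sub_distrib, Finset.sum_const, Finset.card_univ, nsmul_eq_mul] at h
    have hn : (Fintype.card τ : C) = 2 * σ - 2 := by
      have h : ((2 + Fintype.card τ : ℕ) : C) = ((2 * σ : ℕ) : C) := by rw [hσ]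
      push_cast at h
      linear_combination h
    rw [hn] at h
    have h8 : (∑ k', v (some (some k'))) = 2 * ((σ - 1) * ∑ k', v (some (some k'))) -
        ((2 * σ - 2) * (∑ k', v (some (some k'))) - ∑ k', v (some (some k'))) := by ring
    rw [h8]
    exact 𝔔.sub_mem (𝔔.mul_mem_right _ h2) h
  intro i
  rcases i with _ | _ | k
  · exact ha
  · exact hb
  · have h9 : v (some (some k)) = (∑ k', v (some (some k'))) -
      ((∑ k', v (some (some k'))) - v (some (some k))) := by ring
    rw [h9]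
    exact 𝔔.sub_mem hS (hk k)

theorem rest_mem {τ ζ R B : Type} [Fintype τ] [Fintype ζ] [CommRing R] [CommRing B]
    [Algebra R B] (e' : ζ → ℕ) (κ' : ζ → R) (κd : R) (σ : ℕ) (b : B) (v : τ → B) (w : ζ → B)
    (I : Ideal B) (h2 : (2 : B) ∈ I) (hv : ∀ k, v k ∈ I) :
    rest e' κ' κd σ b v w ∈ I * Ideal.span (Set.range w) ⊔ Ideal.span (Set.range w) ^ 2 := by
  have hw : ∀ z, w z ∈ Ideal.span (Set.range w) := fun z => Ideal.subset_span ⟨z, rfl⟩
  have hW : ∑ z, w z ∈ Ideal.span (Set.range w) := Ideal.sum_mem _ fun z _ => hw z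
  have hq : qf e' κ' κd w ∈ Ideal.span (Set.range w) ^ 2 := by
    unfold qf E2
    refine Ideal.add_mem _ (Ideal.sum_mem _ fun z _ => Ideal.mul_mem_left _ _
      (Ideal.pow_mem_pow (hw z) 2)) (Ideal.mul_mem_left _ _ (Ideal.sum_mem _ fun z _ =>
        Ideal.sum_mem _ fun z' _ => ?_))
    split_ifs
    · rw [sq]
      exact Ideal.mul_mem_mul (hw z) (hw z')
    · exact Ideal.zero_mem _
  have h1 : algebraMap R B (1 + 2 * κd) * (∑ k, v k) * (∑ z, w z) -
      2 * algebraMap R B κd * (∑ z, w z) -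
      2 * algebraMap R B (1 + 2 * κd) * (b - σ) * (∑ z, w z) ∈
      I * Ideal.span (Set.range w) := by
    refine Ideal.sub_mem _ (Ideal.sub_mem _ (Ideal.mul_mem_mul (I.mul_mem_left _
      (I.sum_mem fun k _ => hv k)) hW) (Ideal.mul_mem_mul (I.mul_mem_right _ h2) hW))
      (Ideal.mul_mem_mul ?_ hW)
    exact I.mul_mem_right _ (I.mul_mem_right _ h2)
  unfold rest
  have h3 : qf e' κ' κd w + algebraMap R B (1 + 2 * κd) * (∑ k, v k) * (∑ z, w z) -
      2 * algebraMap R B κd * (∑ z, w z) -
      2 * algebraMap R B (1 + 2 * κd) * (b - σ) * (∑ z, w z) =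
      (algebraMap R B (1 + 2 * κd) * (∑ k, v k) * (∑ z, w z) -
      2 * algebraMap R B κd * (∑ z, w z) -
      2 * algebraMap R B (1 + 2 * κd) * (b - σ) * (∑ z, w z)) + qf e' κ' κd w := by ring
  rw [h3]
  exact Submodule.add_mem_sup h1 hq

end QEXEaux

open QEXEaux in
theorem QEXE_ok (_hB : S_BIL) (hS : S_SUMZ) : S_QEXE := by
  intro R ι _ _ _ _ p hp co g hco s c β hsp Z hZ d hsd hd
  subst hp
  have h2 : (2 : R) ≠ 0 := by
    have := hco.ne
    simpa using this
  have hκ' : ∀ i, ∃ κ, co i = 1 + 2 * κ := by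
    intro i
    obtain ⟨κ, hκ⟩ := hco.one i
    refine ⟨κ, ?_⟩
    push_cast at hκ
    linear_combination hκ
  choose κ hκ using hκ'
  obtain ⟨e, he⟩ : ∃ e : TT Z s d → ℕ, Function.Injective e :=
    ⟨fun k => (Fintype.equivFin (TT Z s d) k : ℕ),
      fun k k' h => (Fintype.equivFin (TT Z s d)).injective (Fin.ext h)⟩
  obtain ⟨e', he'⟩ : ∃ e : ZT Z → ℕ, Function.Injective e :=
    ⟨fun k => (Fintype.equivFin (ZT Z) k : ℕ),
      fun k k' h => (Fintype.equivFin (ZT Z)).injective (Fin.ext h)⟩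
  obtain ⟨σ, hσ, hmain⟩ := aeval_eq hS co g hco.rel h2 κ hκ s c β hsp Z hZ d hsd hd e he e' he'
  refine ⟨QQ e (fun k => κ k) (κ d), A0 σ (κ d), fun k => l0 σ (κ k) (κ d), ?_, ?_⟩
  · have := QQ_rad e he (fun k : TT Z s d => κ k) (κ d) σ hσ
    simpa using this
  · intro B _ _ Y b w ha hγ
    have ha' : Y none = 2 := by rw [← ha]; norm_num
    have hγ' : Y (some none) = Gam β (A0 σ (κ d)) (fun k : TT Z s d => l0 σ (κ k) (κ d)) 2 b
        (fun k => Y (some (some k))) := by rw [hγ, ha']
    have h3 := rest_mem e' (fun z : ZT Z => κ z) (κ d) σ b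
      (fun k : TT Z s d => Y (some (some k))) w (Ideal.span (Set.range Y))
      (by rw [← ha']; exact Ideal.subset_span ⟨none, rfl⟩)
      (fun k => Ideal.subset_span ⟨some (some k), rfl⟩)
    have h4 : TotZ 2 0 g c Z s d (Y none) b (fun k => Y (some (some k))) w -
        (∑ k, ∑ k', algebraMap R B (QQ e (fun k => κ k) (κ d) k k') * Y k * Y k' - ∑ z, w z) =
        rest e' (fun z : ZT Z => κ z) (κ d) σ b
          (fun k : TT Z s d => Y (some (some k))) w := by
      rw [QQ_sum, hγ', ha']
      unfold TotZ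
      rw [hmain]
      unfold Gt
      norm_num
    rw [h4]
    have hle : Ideal.span (Set.range Y) * Ideal.span (Set.range w) ⊔
        Ideal.span (Set.range w) ^ 2 ≤ Ideal.span (Set.range Y) ^ 3 ⊔
        Ideal.span (Set.range Y) * Ideal.span (Set.range w) ⊔ Ideal.span (Set.range w) ^ 2 := by
      rw [sup_assoc]
      exact le_sup_right
    exact hle h3

end Pool.Agent.H945R2.E
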