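import Pool.Agent.H945R2.E.Props
import Pool.Agent.H945R2.S.QPRE

/-! QPREE: regularity from a presentation at a singular point, `p = 2`. -/

set_option autoImplicit false

open scoped Pointwise

namespace Pool.Agent.H945R2.E

open Pool.Agent.H918R2.Quad Pool.Agent.H945R2.D Pool.Agent.H945R2.S MvPolynomial

namespace QPREEaux

open Pool.Agent.H945R2.S.QPREaux

section frc

variable {R F W A ρ : Type} [CommRing R] [Field F] [Algebra R F] [CommRing W]
  [Algebra R W] [CommRing A] [Algebra R A] {pr : W →ₐ[R] A} {eW : W →ₐ[R] F} {y : ρ → W}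

theorem frc_pow (f1 : ∀ r : R, Frc pr eW y (algebraMap R W r))
    (f4 : ∀ w w', Frc pr eW y w → Frc pr eW y w' → Frc pr eW y (w * w'))
    {w : W} (hw : Frc pr eW y w) (n : ℕ) : Frc pr eW y (w ^ n) := by
  induction n with
  | zero =>
    rw [pow_zero, ← map_one (algebraMap R W)]
    exact f1 1
  | succ n ih =>
    rw [pow_succ]
    exact f4 _ _ ih hw

theorem frc_aeval (f1 : ∀ r : R, Frc pr eW y (algebraMap R W r))
    (f3 : ∀ w w', Frc pr eW y w → Frc pr eW y w' → Frc pr eW y (w + w'))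
    (f4 : ∀ w w', Frc pr eW y w → Frc pr eW y w' → Frc pr eW y (w * w'))
    {w : W} (hw : Frc pr eW y w) (P : Polynomial R) : Frc pr eW y (Polynomial.aeval w P) := by
  induction P using Polynomial.induction_on with
  | C a =>
    rw [Polynomial.aeval_C]
    exact f1 a
  | add P Q h1 h2 =>
    rw [map_add]
    exact f3 _ _ h1 h2
  | monomial n a _ =>
    rw [map_mul, map_pow, Polynomial.aeval_C, Polynomial.aeval_X]
    exact f4 _ _ (f1 a) (frc_pow f1 f4 hw _)

theorem frc_sum (f1 : ∀ r : R, Frc pr eW y (algebraMap R W r))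
    (f3 : ∀ w w', Frc pr eW y w → Frc pr eW y w' → Frc pr eW y (w + w'))
    {τ : Type} (S : Finset τ) (f : τ → W) (hf : ∀ k ∈ S, Frc pr eW y (f k)) :
    Frc pr eW y (∑ k ∈ S, f k) := by
  classical
  induction S using Finset.induction_on with
  | empty =>
    rw [Finset.sum_empty, ← map_zero (algebraMap R W)]
    exact f1 0
  | insert a S ha ih =>
    rw [Finset.sum_insert ha]
    exact f3 _ _ (hf a (Finset.mem_insert_self _ _))
      (ih fun k hk => hf k (Finset.mem_insert_of_mem hk))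

theorem frc_Gam (f1 : ∀ r : R, Frc pr eW y (algebraMap R W r))
    (f3 : ∀ w w', Frc pr eW y w → Frc pr eW y w' → Frc pr eW y (w + w'))
    (f4 : ∀ w w', Frc pr eW y w → Frc pr eW y w' → Frc pr eW y (w * w'))
    {τ : Type} [Fintype τ] (β : R) (P : Polynomial R) (l : τ → Polynomial R) (a b : W) (v : τ → W)
    (ha : Frc pr eW y a) (hb : Frc pr eW y b) (hv : ∀ k, Frc pr eW y (v k)) :
    Frc pr eW y (Gam β P l a b v) := by
  unfold Gam
  refine f3 _ _ (f3 _ _ (f3 _ _ (f3 _ _ (frc_pow f1 f4 hb 2) hb) (f1 β))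
    (f4 _ _ ha (frc_aeval f1 f3 f4 hb P))) ?_
  exact frc_sum f1 f3 _ _ fun k _ => f4 _ _ (hv k) (frc_aeval f1 f3 f4 hb (l k))

end frc

end QPREEaux

open QPREEaux Pool.Agent.H945R2.S.QPREaux

theorem QPREE_ok (hS : S_SUMZ) (hP : S_PREW) (hFAB : S_FABW) : S_QPREE := by
  intro R F ι W A
  intro _ _ _ _ _ _ _ _ _ _ _ 𝒪 p e h co r g Z y s d a b c β A' l hQ pr hprs eW hker hW hloc
    Yq Yy b' hYq hYy heb hp hGam hT hGen hreg
  have hD := hQ.data
  set a' : W := Yq none with ha'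
  set w' : ZT Z → W := fun z => algebraMap R W (r z) * Yy z ^ e with hw'
  set T : ι → W := TcZ Z s d (fun i => (c i : W)) (fun k => Yq (some (some k))) w' (a' * b')
    with hTdef
  let Y : ι → W := fun i => if h : i ∈ Z then Yy ⟨i, h⟩ else T i
  have hYZ : ∀ z : ZT Z, Y z.1 = Yy z := by
    intro z
    show (if h : z.1 ∈ Z then Yy ⟨z.1, h⟩ else T z.1) = _
    rw [dif_pos z.2]
  have hYN : ∀ i, i ∉ Z → Y i = T i := by
    intro i hi
    show (if h : i ∈ Z then Yy ⟨i, h⟩ else T i) = _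
    rw [dif_neg hi]
  have hTz : Tz Z r e Y = T := by
    funext i
    unfold Tz
    split_ifs with hi
    · have h1 := hYZ ⟨i, hi⟩
      simp only at h1
      rw [h1]
      exact (TcZ_Z Z s d _ _ w' _ ⟨i, hi⟩).symm
    · exact hYN i hi
  have hea : eW a' = a := hYq none
  have hek : ∀ k : TT Z s d, eW (Yq (some (some k))) = y k - (c k : F) := fun k => hYq _
  have hTzy : ∀ i, i ∉ Z → Tz Z r e y i = y i := fun i hi => by
    unfold Tz
    rw [if_neg hi]
  have heT : ∀ i, eW (T i) = Tz Z r e y i := by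
    intro i
    have h2 : eW (T i) = TcZ Z s d (fun i => eW (c i : W)) (fun k => eW (Yq (some (some k))))
      (fun z => eW (w' z)) (eW (a' * b')) i := map_TcZ (eW : W →+* F) Z s d _ _ _ _ i
    rw [h2]
    apply TcZ_eq hS Z s d hQ.hd hD.hsZ hQ.hdZ
    · rw [hTzy s hD.hsZ, hD.hs]
    · intro k
      rw [hek, map_natCast, hTzy k.1 k.2.1]
    · intro z
      rw [hw', map_mul, AlgHom.commutes, map_pow, hYy]
      unfold Tz
      rw [if_pos z.2]
    · rw [map_mul, hea, heb]; exact hD.hL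
  have heY : ∀ i, eW (Y i) = y i := by
    intro i
    by_cases hi : i ∈ Z
    · have h1 := hYZ ⟨i, hi⟩
      simp only at h1
      rw [h1, hYy]
    · rw [hYN i hi, heT, hTzy i hi]
  have hYs : Y s = 1 := by
    rw [hYN s hD.hsZ]
    exact TcZ_s Z s d hD.hsZ _ _ _ _
  have hsum : ∑ i, T i = a' * b' := (hS Z s d hQ.hd hD.hsZ hQ.hdZ _ _ _ _).1
  have hp' : pr (p : W) = pr (a' ^ (0 + 1) * b' ^ 0) := by
    rw [pow_zero, mul_one, zero_add, pow_one]
    exact hp
  refine hP 𝒪 p e 0 co r g Z y s a b hD pr hprs eW hker hW hloc Y a' b' heY hea heb hYs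
    (by rw [hTz, hsum]) hp' (by rw [hTz]; exact hT) ?_ hreg
  obtain ⟨hFa, hFb, hFY⟩ := hFAB 𝒪 p e 0 co r g Z y s a b hD pr eW hker Y a' b' heY hea heb hYs
    (by rw [hTz, hsum]) hp'
  obtain ⟨f1, f2, f3, f4, f5, f6, f7⟩ := FRC_ok pr eW hker (fun i : {i : ι // i ≠ s} => Y i)
  have hFk : ∀ k : TT Z s d, Frc pr eW (fun i : {i : ι // i ≠ s} => Y i)
      (Yq (some (some k))) := by
    intro k
    have h1 : Yq (some (some k)) = Y k.1 + algebraMap R W (-(c k.1 : R)) := by
      have h2 : Y k.1 = (c k.1 : W) + Yq (some (some k)) := by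
        rw [hYN k.1 k.2.1]
        exact TcZ_T Z s d _ _ _ _ k
      rw [h2, map_neg, map_natCast]; ring
    rw [h1]
    exact f3 _ _ (hFY _) (f1 _)
  refine hGen _ f1 ?_ f3 f4 f5 f6
  rintro w ((⟨o, rfl⟩ | ⟨z, rfl⟩) | rfl)
  · rcases o with _ | (_ | k)
    · exact hFa
    · exact f5 _ _ hGam.symm (frc_Gam f1 f3 f4 β A' l _ _ _ hFa hFb hFk)
    · exact hFk k
  · rw [← hYZ z]
    exact hFY _
  · exact hFb

end Pool.Agent.H945R2.E
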