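import Pool.Agent.H945R2.E.PropsT
import Pool.Agent.H945R2.D.FRC

/-! QPRET: regularity from a presentation at a singular point, tame primes (helper118). -/

set_option autoImplicit false

open scoped Pointwise

namespace Pool.Agent.H945R2.E

open Pool.Agent.H918R2.Quad Pool.Agent.H945R2.D Pool.Agent.H945R2.S MvPolynomial

theorem QPRET_ok : S_QPRET := by
  intro R F ι W A _ _ _ _ _ _ _ _ _ _ _ 𝒪 m h ϖ b Z y s d φ hD pr hpr eW hker hW hlof
    Yf Yy Yt hYf hYy hYt hrel hGen hreg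
  obtain ⟨j₀, hind⟩ := hD.hind
  have hm0 : m ≠ 0 := by
    have := hD.hh
    rcases hD.hmh with h1 | h1 <;> omega
  have hzs : ∀ z : ZT Z, (z : ι) ≠ s := fun z hz => hD.hsZ (hz ▸ z.2)
  have hzd : ∀ z : ZT Z, (z : ι) ≠ d := fun z hz => hD.hdZ (hz ▸ z.2)
  let Y : Option {i : ι // i ≠ s ∧ i ≠ d} → W := fun o => o.elim Yf
    (fun i => if h : i.1 ∈ Z then Yy ⟨i.1, h⟩ else Yt ⟨i.1, h, i.2.1, i.2.2⟩)
  have hYn : Y none = Yf := rfl
  have hYz : ∀ z : ZT Z, Y (some ⟨z.1, hzs z, hzd z⟩) = Yy z := by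
    intro z
    show (if h : z.1 ∈ Z then Yy ⟨z.1, h⟩ else Yt ⟨z.1, h, hzs z, hzd z⟩) = Yy z
    rw [dif_pos z.2]
  have hYt' : ∀ k : TT Z s d, Y (some ⟨k.1, k.2.2.1, k.2.2.2⟩) = Yt k := by
    intro k
    show (if h : k.1 ∈ Z then Yy ⟨k.1, h⟩ else Yt ⟨k.1, h, k.2.2.1, k.2.2.2⟩) = Yt k
    rw [dif_neg k.2.1]
  refine regular_of_pres 𝒪 hD.loc pr hpr eW hker hW ?_ hreg Y
    (C ϖ * X none + ∑ z : ZT Z, C (b z) * X (some ⟨z.1, hzs z, hzd z⟩) ^ m) ?_ ?_ j₀ ?_ ?_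
  · intro x hx
    obtain ⟨u, ⟨w, rfl⟩, v, ⟨w', rfl⟩, hU, h⟩ := hlof.2 x hx
    exact ⟨w, w', hU.1, hU.2.2, h⟩
  · intro h0
    have h1 := congrArg (aeval (fun o : Option {i : ι // i ≠ s ∧ i ≠ d} =>
      (if o = none then (1 : R) else 0))) h0
    rw [map_zero, map_add, map_mul, aeval_C, aeval_X, if_pos rfl, map_sum] at h1
    have h2 : ∑ z : ZT Z, aeval (fun o : Option {i : ι // i ≠ s ∧ i ≠ d} =>
        (if o = none then (1 : R) else 0)) (C (b z) * X (some ⟨z.1, hzs z, hzd z⟩) ^ m) = 0 := by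
      apply Finset.sum_eq_zero
      intro z _
      rw [map_mul, map_pow, aeval_X, if_neg (by simp), zero_pow hm0, mul_zero]
    rw [h2, add_zero, mul_one] at h1
    exact hD.irr.ne_zero h1
  · have h1 : aeval Y (C ϖ * X none + ∑ z : ZT Z, C (b z) *
        X (some ⟨z.1, hzs z, hzd z⟩) ^ m : MvPolynomial (Option {i : ι // i ≠ s ∧ i ≠ d}) R) =
        (∑ z : ZT Z, algebraMap R W (b z) * Yy z ^ m) + algebraMap R W ϖ * Yf := by
      rw [map_add, map_mul, aeval_C, aeval_X, map_sum, add_comm]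
      congr 1
      refine Finset.sum_congr rfl fun z _ => ?_
      rw [map_mul, map_pow, aeval_C, aeval_X, hYz]
    rw [h1]
    exact hrel
  · have h1 : (fun j : {j : Option {i : ι // i ≠ s ∧ i ≠ d} // j ≠ j₀} => eW (Y j)) =
        fun j : {j : Option {i : ι // i ≠ s ∧ i ≠ d} // j ≠ j₀} =>
          cT y φ (j : Option {i : ι // i ≠ s ∧ i ≠ d}) := by
      funext j
      rcases hj : (j : Option {i : ι // i ≠ s ∧ i ≠ d}) with _ | i
      · exact hYf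
      · show eW (if h : i.1 ∈ Z then Yy ⟨i.1, h⟩ else Yt ⟨i.1, h, i.2.1, i.2.2⟩) = y i
        split_ifs with hi
        · exact hYy ⟨i.1, hi⟩
        · exact hYt ⟨i.1, hi, i.2.1, i.2.2⟩
    rw [h1]
    exact hind
  · obtain ⟨f1, f2, f3, f4, f5, f6, f7⟩ := FRC_ok pr eW hker Y
    refine hGen _ f1 ?_ f3 f4 f5 f6
    rintro w ((hw | ⟨z, rfl⟩) | ⟨k, rfl⟩)
    · rw [Set.mem_singleton_iff] at hw
      rw [hw]
      exact f2 none
    · rw [← hYz z]
      exact f2 _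
    · rw [← hYt' k]
      exact f2 _

end Pool.Agent.H945R2.E
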