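import Pool.Agent.H945R2.E.PropsT
import Pool.Agent.H945R2.D.RA

/-! QT1: chart 1 of the resolution, tame primes (MP_4d1008_ag). -/

set_option autoImplicit false

open scoped Pointwise

namespace Pool.Agent.H945R2.E

open Pool.Agent.H918R2.Quad Pool.Agent.H945R2.D Pool.Agent.H945R2.S MvPolynomial

namespace QT1aux

/-- The point of chart 1: `u` is the exceptional parameter, `v / u` the other coordinate. -/
def pt {F ζ τ : Type} [Field F] (u v : F) (η : ζ → F) (t : τ → F) :
    Option (Option (ζ ⊕ τ)) → F :=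
  fun o => o.elim u (fun o' => o'.elim (v / u) (fun i => Sum.elim (fun z => η z / u) t i))

theorem core (hP : S_QPRET) {R F ι : Type} [CommRing R] [IsDomain R] [IsDiscreteValuationRing R]
    [Field F] [Algebra R F] [Fintype ι] [DecidableEq ι] (𝒪 : Subring F) (m h : ℕ) (ϖ : R)
    (b : ι → R) (Z : Finset ι) (y : ι → F) (s d : ι) (φ : F)
    (hD : DataT 𝒪 m h ϖ b Z y s d φ) (η : ZT Z → F) (t : TT Z s d → F)
    (hη : η = (fun z : ZT Z => y z)) (ht : t = (fun k : TT Z s d => y k))
    (u v : F) (hu : u ≠ 0) (huU : ¬ U 𝒪 u)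
    (Yf hh : MvPolynomial (Option (Option (ZT Z ⊕ TT Z s d))) R)
    (h1 : X none * hh * Yf = X none ^ 2 * X (some none))
    (h2 : aeval (pt u v η t) Yf = φ)
    (h3 : aeval (pt u v η t) (X none * hh) = algebraMap R F ϖ)
    (h4 : ∀ (A : Type) [CommRing A] [Algebra R A]
      (pr : MvPolynomial (Option (Option (ZT Z ⊕ TT Z s d))) R →ₐ[R] A),
      pr (C ϖ) = pr (X none * hh) →
      ∀ P : MvPolynomial (Option (Option (ZT Z ⊕ TT Z s d))) R → Prop,
        (∀ r : R, P (algebraMap R _ r)) → P Yf → (∀ w w', pr w = pr w' → P w → P w') →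
        P (X none) ∧ P (X none * X (some none)))
    (hlocOf' : IsLocOf 𝒪 ((aeval (pt u v η t) :
      MvPolynomial (Option (Option (ZT Z ⊕ TT Z s d))) R →ₐ[R] F).range : Set F)) :
    IsRegularLocalRing 𝒪 := by
  have hm2 : 2 ≤ m := by
    have h5 := hD.hh
    rcases hD.hmh with h6 | h6 <;> omega
  let σ : Type := Option (ZT Z ⊕ TT Z s d)
  let W : Type := MvPolynomial (Option σ) R
  let ε : W := X none
  let ν : W := X (some none)
  let H : ZT Z → W := fun z => X (some (some (Sum.inl z)))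
  let T : TT Z s d → W := fun k => X (some (some (Sum.inr k)))
  let Yy : ZT Z → W := fun z => ε * H z
  let eW : W →ₐ[R] F := aeval (pt u v η t)
  have heε : eW ε = u := by
    show aeval (pt u v η t) (X none) = u
    rw [aeval_X]; rfl
  have heν : eW ν = v / u := by
    show aeval (pt u v η t) (X (some none)) = _
    rw [aeval_X]; rfl
  have heH : ∀ z, eW (H z) = η z / u := by
    intro z
    show aeval (pt u v η t) (X (some (some (Sum.inl z)))) = _
    rw [aeval_X]; rfl
  have heT : ∀ k, eW (T k) = t k := by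
    intro k
    show aeval (pt u v η t) (X (some (some (Sum.inr k)))) = _
    rw [aeval_X]; rfl
  have heYy : ∀ z : ZT Z, eW (Yy z) = η z := by
    intro z
    show eW (ε * H z) = _
    rw [map_mul, heε, heH, mul_div_cancel₀ _ hu]
  have heYf : eW Yf = φ := h2
  have hehh : eW (ε * hh) = algebraMap R F ϖ := h3
  let R1 : W := C ϖ - X none * hh
  let G : W := ∑ z : ZT Z, C (b z) * H z ^ m
  let E : W := ν + ε ^ (m - 2) * G
  have heR1 : eW R1 = 0 := by
    show eW (C ϖ - ε * hh) = 0
    rw [map_sub, hehh]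
    have h5 : eW (C ϖ) = algebraMap R F ϖ := eW.commutes ϖ
    rw [h5, sub_self]
  have hsum : ∑ z : ZT Z, algebraMap R W (b z) * Yy z ^ m = ε ^ 2 * (ε ^ (m - 2) * G) := by
    show ∑ z : ZT Z, algebraMap R W (b z) * (ε * H z) ^ m = ε ^ 2 * (ε ^ (m - 2) *
      ∑ z : ZT Z, (C (b z) : W) * H z ^ m)
    rw [← mul_assoc, Finset.mul_sum]
    apply Finset.sum_congr rfl
    intro z _
    rw [mul_pow]
    have h5 : ε ^ m = ε ^ 2 * ε ^ (m - 2) := by rw [← pow_add]; congr 1; omega
    rw [h5, MvPolynomial.algebraMap_eq]; ring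
  have hrel : (∑ z : ZT Z, algebraMap R W (b z) * Yy z ^ m) + algebraMap R W ϖ * Yf =
      ε ^ 2 * E + R1 * Yf := by
    rw [hsum]
    show ε ^ 2 * (ε ^ (m - 2) * G) + C ϖ * Yf = ε ^ 2 * (ν + ε ^ (m - 2) * G) +
      (C ϖ - ε * hh) * Yf
    have h5 : ε * hh * Yf = ε ^ 2 * ν := h1
    rw [sub_mul, h5]; ring
  have hE0 : eW E = 0 := by
    have h5 : eW ((∑ z : ZT Z, algebraMap R W (b z) * Yy z ^ m) + algebraMap R W ϖ * Yf) = 0 := by
      rw [map_add, map_sum, map_mul, heYf, AlgHom.commutes, ← hD.rel]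
      congr 1
      apply Finset.sum_congr rfl
      intro z _
      rw [map_mul, map_pow, AlgHom.commutes, heYy, hη]
    rw [hrel, map_add, map_mul, map_mul, heR1, zero_mul, add_zero, map_pow, heε] at h5
    exact (mul_eq_zero.1 h5).resolve_left (pow_ne_zero 2 hu)
  obtain ⟨A, iA1, iA2, pr, hprs, hprk, hpr⟩ := exists_quot (R := R) (Ideal.span {R1, E} : Ideal W)
  have hprR1 : pr R1 = 0 := (hpr R1).2 (Ideal.subset_span (by simp))
  have hprE : pr E = 0 := (hpr E).2 (Ideal.subset_span (by simp))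
  have hker : ∀ w, pr w = 0 → eW w = 0 := by
    intro w hw
    have h5 := (hpr w).1 hw
    obtain ⟨x, y, hxy⟩ := Ideal.mem_span_pair.1 h5
    rw [← hxy, map_add, map_mul, map_mul, heR1, hE0]
    simp
  have hW : ∀ w, eW w ∈ 𝒪 := fun w => hlocOf'.1 _ ⟨w, rfl⟩
  have hprϖ : pr (C ϖ) = pr (X none * hh) := by
    have h5 : pr (C ϖ - X none * hh) = 0 := hprR1
    rw [map_sub] at h5
    exact sub_eq_zero.1 h5
  refine hP 𝒪 m h ϖ b Z y s d φ hD pr hprs eW hker hW hlocOf' Yf Yy T heYf ?_ ?_ ?_ ?_ ?_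
  · intro z
    rw [heYy, hη]
  · intro k
    rw [heT, ht]
  · rw [hrel, map_add, map_mul, map_mul, hprE, hprR1]
    simp
  · intro P hPr hPS hPa hPm hPe hPd w
    obtain ⟨hPε, hPεν⟩ := h4 A pr hprϖ P hPr (hPS Yf (Or.inl (Or.inl rfl))) hPe
    have heε0 : eW ε ≠ 0 := by rw [heε]; exact hu
    have hPν : P ν := hPd ε ν heε0 hPε hPεν
    have hPH : ∀ z, P (H z) := fun z =>
      hPd ε _ heε0 hPε (hPS _ (Or.inl (Or.inr ⟨z, rfl⟩)))
    have hPT : ∀ k, P (T k) := fun k => hPS _ (Or.inr ⟨k, rfl⟩)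
    have hPX : ∀ o, P (X o) := by
      intro o
      rcases o with _ | (_ | (z | k))
      · exact hPε
      · exact hPν
      · exact hPH z
      · exact hPT k
    induction w using MvPolynomial.induction_on with
    | C r => exact hPr r
    | add p q hp hq => exact hPa _ _ hp hq
    | mul_X p n hp => exact hPm _ _ hp (hPX n)
  · intro 𝔮 _ h𝔮
    have h5 : pr (X none) ∈ 𝔮 := by
      rw [h𝔮]
      show ¬ U 𝒪 (eW ε)
      rw [heε]; exact huU
    have hd : pderiv (some none) E = 1 := by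
      have hd0 : pderiv (some none) ν = 1 := pderiv_X_self _
      have hd1 : pderiv (some none) ε = 0 := pderiv_X_of_ne (by simp)
      have hd2 : pderiv (some none) G = 0 := by
        show pderiv (some none) (∑ z : ZT Z, (C (b z) : W) * H z ^ m) = 0
        rw [map_sum]
        apply Finset.sum_eq_zero
        intro z _
        have h6 : pderiv (some none) (H z) = 0 := pderiv_X_of_ne (by simp)
        rw [pderiv_C_mul, pderiv_pow, h6]
        simp
      show pderiv (some none) (ν + ε ^ (m - 2) * G) = 1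
      rw [map_add, pderiv_mul, pderiv_pow, hd0, hd1, hd2]
      simp
    refine RA_ok ϖ hD.irr (pr : W →+* A) hprs hh E hprk 𝔮 h5 none ?_
    show pr (pderiv (some none) E) ∉ 𝔮
    rw [hd, map_one]
    exact fun h6 => (inferInstance : 𝔮.IsPrime).ne_top ((Ideal.eq_top_iff_one _).2 h6)

end QT1aux

open QT1aux

theorem QT1_ok (hP : S_QPRET) : S_QT1 := by
  intro R F ι _ _ _ _ _ _ _ 𝒪 m h ϖ b Z y s d φ hD q η t hq hη ht l hC hlocOf
  have hqU : ¬ U 𝒪 (q l) := by
    rw [hq]
    cases l
    · exact hD.hϖU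
    · exact hD.hφU
  have hrange : ∀ w, w ∈ (Algebra.adjoin R (G1 q η l ∪ Set.range t) : Set F) ↔
      w ∈ ((aeval (pt (q l) (q (!l)) η t) :
        MvPolynomial (Option (Option (ZT Z ⊕ TT Z s d))) R →ₐ[R] F).range : Set F) := by
    intro w
    have h5 : Algebra.adjoin R (G1 q η l ∪ Set.range t) = (aeval (pt (q l) (q (!l)) η t) :
        MvPolynomial (Option (Option (ZT Z ⊕ TT Z s d))) R →ₐ[R] F).range := by
      rw [← Algebra.adjoin_range_eq_range_aeval]
      apply le_antisymm
      · apply Algebra.adjoin_le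
        rintro x (((hx | ⟨k, rfl⟩) | ⟨z, rfl⟩) | ⟨k, rfl⟩)
        · rw [Set.mem_singleton_iff] at hx
          rw [hx]
          exact Algebra.subset_adjoin ⟨none, rfl⟩
        · by_cases hk : k = l
          · show q k / q l ∈ _
            rw [hk, div_self hC.ql]
            exact one_mem _
          · have hk' : k = !l := by
              revert hk; cases k <;> cases l <;> simp
            rw [hk']
            exact Algebra.subset_adjoin ⟨some none, rfl⟩
        · exact Algebra.subset_adjoin ⟨some (some (Sum.inl z)), rfl⟩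
        · exact Algebra.subset_adjoin ⟨some (some (Sum.inr k)), rfl⟩
      · apply Algebra.adjoin_mono
        rintro x ⟨o, rfl⟩
        rcases o with _ | (_ | (z | k))
        · exact Or.inl (Or.inl (Or.inl rfl))
        · exact Or.inl (Or.inl (Or.inr ⟨!l, rfl⟩))
        · exact Or.inl (Or.inr ⟨z, rfl⟩)
        · exact Or.inr ⟨k, rfl⟩
    rw [h5]
  have hlocOf' : IsLocOf 𝒪 ((aeval (pt (q l) (q (!l)) η t) :
      MvPolynomial (Option (Option (ZT Z ⊕ TT Z s d))) R →ₐ[R] F).range : Set F) := by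
    have h6 : (Algebra.adjoin R (G1 q η l ∪ Set.range t) : Set F) =
      ((aeval (pt (q l) (q (!l)) η t) :
        MvPolynomial (Option (Option (ZT Z ⊕ TT Z s d))) R →ₐ[R] F).range : Set F) :=
      Set.ext hrange
    rw [← h6]; exact hlocOf
  have hq0 : q false = algebraMap R F ϖ := by rw [hq]; rfl
  have hq1 : q true = φ := by rw [hq]; rfl
  cases l
  · -- `l = false`
    have hql := hC.ql
    refine core hP 𝒪 m h ϖ b Z y s d φ hD η t hη ht (q false) (q true) hql hqU
      (X none * X (some none)) 1 (by ring) ?_ ?_ ?_ hlocOf'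
    · rw [map_mul, aeval_X, aeval_X]
      show q false * (q true / q false) = φ
      rw [mul_div_cancel₀ _ hql, hq1]
    · rw [map_mul, aeval_X, map_one, mul_one]
      exact hq0
    · intro A _ _ pr hpr P hPr hPf hPe
      refine ⟨?_, hPf⟩
      refine hPe (C ϖ) (X none) ?_ (hPr ϖ)
      rw [hpr, mul_one]
  · have hql := hC.ql
    refine core hP 𝒪 m h ϖ b Z y s d φ hD η t hη ht (q true) (q false) hql hqU
      (X none) (X (some none)) (by ring) ?_ ?_ ?_ hlocOf'
    · rw [aeval_X]
      exact hq1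
    · rw [map_mul, aeval_X, aeval_X]
      show q true * (q false / q true) = _
      rw [mul_div_cancel₀ _ hql, hq0]
    · intro A _ _ pr hpr P hPr hPf hPe
      exact ⟨hPf, hPe (C ϖ) _ hpr (hPr ϖ)⟩

end Pool.Agent.H945R2.E
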