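import Pool.Agent.H945R2.E.PropsT
import Pool.Agent.H945R2.D.RA

/-! QT2: chart 2 of the resolution, tame primes. -/

set_option autoImplicit false

open scoped Pointwise

namespace Pool.Agent.H945R2.E

open Pool.Agent.H918R2.Quad Pool.Agent.H945R2.D Pool.Agent.H945R2.S MvPolynomial

open Classical in
theorem QT2_ok (hP : S_QPRET) : S_QT2 := by
  intro R F ι _ _ _ _ _ _ _ 𝒪 m h ϖ b Z y s d φ hD q η t hq hη ht k z₀ l hk1 hkh hC hloc
  obtain ⟨n, hn⟩ : ∃ n, m = 2 * k + 2 + n := ⟨m - (2 * k + 2), by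
    rcases hD.hmh with h1 | h1 <;> omega⟩
  have hy0 := hC.yz
  have hql := hC.ql
  have hqf : q false = algebraMap R F ϖ := by rw [hq]; rfl
  have hqt : q true = φ := by rw [hq]; rfl
  -- the polynomial ring
  let σ : Type := Bool ⊕ ({z : ZT Z // z ≠ z₀} ⊕ TT Z s d)
  let W : Type := MvPolynomial (Option σ) R
  let H : ZT Z → W := fun z => if h : z = z₀ then 1 else X (some (Sum.inr (Sum.inl ⟨z, h⟩)))
  let ε : W := X none
  let ω : W := X (some (Sum.inl false))
  let ν : W := X (some (Sum.inl true))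
  let τ : W := ε * ω
  let Yq : Bool → W := fun u => if u = l then τ ^ k * ε else τ ^ k * ε * ν
  let Yy : ZT Z → W := fun z => τ * H z
  let Yt : TT Z s d → W := fun k => X (some (Sum.inr (Sum.inr k)))
  let pt : Option σ → F := fun o => o.elim (q l / η z₀ ^ k) (fun i => Sum.elim
    (fun u : Bool => if u then q (!l) / q l else η z₀ ^ (k + 1) / q l)
    (fun i' => Sum.elim (fun z : {z : ZT Z // z ≠ z₀} => η z.1 / η z₀) (fun k => t k) i') i)
  let eW : W →ₐ[R] F := aeval pt
  have heC : ∀ r, eW (C r) = algebraMap R F r := fun r => aeval_C _ r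
  have heε : eW ε = q l / η z₀ ^ k := by
    show aeval pt (X none) = _
    rw [aeval_X]; rfl
  have heω : eW ω = η z₀ ^ (k + 1) / q l := by
    show aeval pt (X (some (Sum.inl false))) = _
    rw [aeval_X]; rfl
  have heν : eW ν = q (!l) / q l := by
    show aeval pt (X (some (Sum.inl true))) = _
    rw [aeval_X]; rfl
  have heτ : eW τ = η z₀ := by
    show eW (ε * ω) = _
    rw [map_mul, heε, heω]
    field_simp
    exact pow_succ _ _
  have heH : ∀ z, eW (H z) = η z / η z₀ := by
    intro z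
    show aeval pt (if h : z = z₀ then 1 else X (some (Sum.inr (Sum.inl ⟨z, h⟩)))) = _
    split_ifs with h
    · rw [h, div_self hy0, map_one]
    · rw [aeval_X]; rfl
  have heYq : ∀ u, eW (Yq u) = q u := by
    intro u
    show eW (if u = l then τ ^ k * ε else τ ^ k * ε * ν) = q u
    split_ifs with h
    · rw [map_mul, map_pow, heτ, heε, h]
      field_simp
    · have hu : u = !l := by
        cases u <;> cases l <;> simp_all
      rw [map_mul, map_mul, map_pow, heτ, heε, heν, hu]
      field_simp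
  have heYy : ∀ z, eW (Yy z) = η z := by
    intro z
    show eW (τ * H z) = η z
    rw [map_mul, heτ, heH]
    field_simp
  have heYt : ∀ k, eW (Yt k) = t k := by
    intro k
    show aeval pt (X (some (Sum.inr (Sum.inr k)))) = _
    rw [aeval_X]; rfl
  -- the first relation
  let hh : W := τ ^ k * (if false = l then 1 else ν)
  let R1 : W := C ϖ - X none * hh
  have hR1 : R1 = C ϖ - Yq false := by
    show C ϖ - ε * (τ ^ k * (if false = l then 1 else ν)) =
      C ϖ - (if false = l then τ ^ k * ε else τ ^ k * ε * ν)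
    split_ifs <;> ring
  have heR1 : eW R1 = 0 := by
    rw [hR1, map_sub, heYq, hqf, heC, sub_self]
  -- the second relation
  let fH : W := ∑ z : ZT Z, C (b z) * H z ^ m
  let R2 : W := ν + ω ^ 2 * τ ^ n * fH
  let Dd : W := τ ^ (2 * k) * ε ^ 2
  have hqq : Yq false * Yq true = Dd * ν := by
    show (if false = l then τ ^ k * ε else τ ^ k * ε * ν) *
      (if true = l then τ ^ k * ε else τ ^ k * ε * ν) = τ ^ (2 * k) * ε ^ 2 * ν
    have e : τ ^ (2 * k) = τ ^ k * τ ^ k := by rw [two_mul, pow_add]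
    rw [e]
    cases l
    · rw [if_pos rfl, if_neg (by simp)]
      ring
    · rw [if_neg (by simp), if_pos rfl]
      ring
  have hτm : τ ^ m = Dd * (ω ^ 2 * τ ^ n) := by
    show τ ^ m = τ ^ (2 * k) * ε ^ 2 * (ω ^ 2 * τ ^ n)
    rw [hn, pow_add, pow_add]
    have : τ ^ 2 = ε ^ 2 * ω ^ 2 := by
      show (ε * ω) ^ 2 = _
      rw [mul_pow]
    rw [this]; ring
  have hfY : ∑ z : ZT Z, algebraMap R W (b z) * Yy z ^ m = τ ^ m * fH := by
    show _ = τ ^ m * ∑ z : ZT Z, C (b z) * H z ^ m
    rw [Finset.mul_sum]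
    refine Finset.sum_congr rfl fun z _ => ?_
    show C (b z) * (τ * H z) ^ m = _
    rw [mul_pow]; ring
  have hid : (∑ z : ZT Z, algebraMap R W (b z) * Yy z ^ m) + Yq false * Yq true = Dd * R2 := by
    rw [hfY, hqq, hτm]
    show Dd * (ω ^ 2 * τ ^ n) * fH + Dd * ν = Dd * (ν + ω ^ 2 * τ ^ n * fH)
    ring
  have hD0 : eW Dd ≠ 0 := by
    show eW (τ ^ (2 * k) * ε ^ 2) ≠ 0
    rw [map_mul, map_pow, map_pow, heτ, heε]
    exact mul_ne_zero (pow_ne_zero _ hy0) (pow_ne_zero _ (div_ne_zero hql (pow_ne_zero _ hy0)))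
  have heR2 : eW R2 = 0 := by
    have h1 : eW (Dd * R2) = 0 := by
      rw [← hid, map_add, map_mul eW (Yq false), heYq, heYq, hqf, hqt, map_sum, ← hD.rel]
      congr 1
      refine Finset.sum_congr rfl fun z _ => ?_
      rw [map_mul, map_pow, heYy, AlgHom.commutes, hη]
    rw [map_mul] at h1
    exact (mul_eq_zero.1 h1).resolve_left hD0
  -- the presentation
  obtain ⟨A, iA1, iA2, pr, hprs, hprk, hpr⟩ := exists_quot (R := R) (Ideal.span {R1, R2} : Ideal W)
  have hprR1 : pr R1 = 0 := (hpr R1).2 (Ideal.subset_span (by simp))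
  have hprR2 : pr R2 = 0 := (hpr R2).2 (Ideal.subset_span (by simp))
  have hker : ∀ w, pr w = 0 → eW w = 0 := by
    intro w hw
    have h1 := (hpr w).1 hw
    obtain ⟨x, y, hxy⟩ := Ideal.mem_span_pair.1 h1
    rw [← hxy, map_add, map_mul, map_mul, heR1, heR2]
    simp
  have hprϖ : pr (C ϖ) = pr (Yq false) := by
    rw [hR1, map_sub] at hprR1
    exact sub_eq_zero.1 hprR1
  -- the range
  have hrange : (Algebra.adjoin R (G2 q η k z₀ l ∪ Set.range t)) = eW.range := by
    show _ = (aeval pt).range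
    rw [← Algebra.adjoin_range_eq_range_aeval]
    apply le_antisymm
    · apply Algebra.adjoin_le
      rintro x ((((rfl | rfl) | ⟨u, rfl⟩) | ⟨z, rfl⟩) | ⟨k', rfl⟩)
      · exact Algebra.subset_adjoin ⟨none, rfl⟩
      · exact Algebra.subset_adjoin ⟨some (Sum.inl false), rfl⟩
      · by_cases hu : u = l
        · show q u / q l ∈ _
          rw [hu, div_self hql]
          exact one_mem _
        · have hu' : u = !l := by
            cases u <;> cases l <;> simp_all
          rw [hu']
          exact Algebra.subset_adjoin ⟨some (Sum.inl true), rfl⟩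
      · by_cases hz : z = z₀
        · show η z / η z₀ ∈ _
          rw [hz, div_self hy0]
          exact one_mem _
        · exact Algebra.subset_adjoin ⟨some (Sum.inr (Sum.inl ⟨z, hz⟩)), rfl⟩
      · exact Algebra.subset_adjoin ⟨some (Sum.inr (Sum.inr k')), rfl⟩
    · apply Algebra.adjoin_mono
      rintro x ⟨o, rfl⟩
      rcases o with _ | ((_ | _) | (z | k'))
      · exact Or.inl (Or.inl (Or.inl (Or.inl rfl)))
      · exact Or.inl (Or.inl (Or.inl (Or.inr rfl)))
      · exact Or.inl (Or.inl (Or.inr ⟨!l, rfl⟩))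
      · exact Or.inl (Or.inr ⟨z.1, rfl⟩)
      · exact Or.inr ⟨k', rfl⟩
  have hlocOf' : IsLocOf 𝒪 (eW.range : Set F) := by
    rw [← hrange]; exact hloc
  have hW : ∀ w, eW w ∈ 𝒪 := fun w => hlocOf'.1 _ ⟨w, rfl⟩
  refine hP 𝒪 m h ϖ b Z y s d φ hD pr hprs eW hker hW hlocOf' (Yq true) Yy Yt
    (by rw [heYq, hqt]) (fun z => by rw [heYy, hη]) (fun k' => by rw [heYt, ht]) ?_ ?_ ?_
  · have h1 : (∑ z : ZT Z, algebraMap R W (b z) * Yy z ^ m) + algebraMap R W ϖ * Yq true =
        Dd * R2 + R1 * Yq true := by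
      rw [← hid, hR1]
      show _ + C ϖ * Yq true = _
      ring
    rw [h1, map_add, map_mul pr Dd, map_mul pr R1, hprR2, hprR1]
    simp
  · -- generation
    intro P hPr hPS hPa hPm hPe hPd
    have gτ : P τ := by
      have h1 : P (Yy z₀) := hPS _ (Or.inl (Or.inr ⟨z₀, rfl⟩))
      have h2 : Yy z₀ = τ := by
        show τ * H z₀ = τ
        have : H z₀ = 1 := by
          show (if h : z₀ = z₀ then (1 : W) else X (some (Sum.inr (Sum.inl ⟨z₀, h⟩)))) = 1
          rw [dif_pos rfl]
        rw [this, mul_one]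
      rwa [h2] at h1
    have gτk : ∀ n : ℕ, P (τ ^ n) := by
      intro n
      induction n with
      | zero => rw [pow_zero]; simpa using hPr 1
      | succ n ih => rw [pow_succ]; exact hPm _ _ ih gτ
    have gYq : ∀ u, P (Yq u) := by
      intro u
      cases u
      · exact hPe _ _ hprϖ (hPr ϖ)
      · exact hPS _ (Or.inl (Or.inl rfl))
    have hYl : Yq l = τ ^ k * ε := if_pos rfl
    have hYl' : Yq (!l) = τ ^ k * ε * ν := if_neg (by cases l <;> simp)
    have gτε : P (τ ^ k * ε) := by
      rw [← hYl]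
      exact gYq l
    have hτ0 : eW (τ ^ k) ≠ 0 := by
      rw [map_pow, heτ]; exact pow_ne_zero _ hy0
    have hε0 : eW ε ≠ 0 := by
      rw [heε]; exact div_ne_zero hql (pow_ne_zero _ hy0)
    have gε : P ε := hPd _ _ hτ0 (gτk k) gτε
    have gω : P ω := hPd _ _ hε0 gε gτ
    have gν : P ν := by
      refine hPd (τ ^ k * ε) _ ?_ gτε ?_
      · rw [map_mul]; exact mul_ne_zero hτ0 hε0
      · rw [← hYl']
        exact gYq _
    have gH : ∀ z, P (H z) := by
      intro z
      refine hPd τ _ ?_ gτ (hPS _ (Or.inl (Or.inr ⟨z, rfl⟩)))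
      rw [heτ]; exact hy0
    have gX : ∀ o : Option σ, P (X o) := by
      intro o
      rcases o with _ | ((_ | _) | (z | k'))
      · exact gε
      · exact gω
      · exact gν
      · have h1 := gH z.1
        have h2 : H z.1 = (X (some (Sum.inr (Sum.inl z))) : W) := by
          show (if h : z.1 = z₀ then (1 : W) else X (some (Sum.inr (Sum.inl ⟨z.1, h⟩)))) = _
          rw [dif_neg z.2]
        rwa [h2] at h1
      · exact hPS _ (Or.inr ⟨k', rfl⟩)
    intro w
    induction w using MvPolynomial.induction_on with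
    | C x => exact hPr x
    | add w w' h1 h2 => exact hPa _ _ h1 h2
    | mul_X w o h1 => exact hPm _ _ h1 (gX o)
  · intro 𝔮 _ h𝔮
    have hεq : pr ε ∈ 𝔮 := by
      rw [h𝔮, heε]; exact hC.hεU
    have hfin : Finite σ := by
      change Finite (Bool ⊕ ({z : ZT Z // z ≠ z₀} ⊕ TT Z s d))
      infer_instance
    refine RA_ok ϖ hD.irr (pr : W →+* A) hprs hh R2 hprk 𝔮 hεq (Sum.inl true) ?_
    have hdω : pderiv (some (Sum.inl true)) ω = 0 := by
      show pderiv (some (Sum.inl true)) (X (some (Sum.inl false)) : W) = 0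
      exact pderiv_X_of_ne fun h => Bool.false_ne_true (Sum.inl.inj (Option.some.inj h))
    have hdε : pderiv (some (Sum.inl true)) ε = 0 := by
      show pderiv (some (Sum.inl true)) (X none : W) = 0
      exact pderiv_X_of_ne (by simp)
    have hdτ : pderiv (some (Sum.inl true)) τ = 0 := by
      show pderiv (some (Sum.inl true)) (ε * ω) = 0
      rw [pderiv_mul, hdω, hdε]; simp
    have hdH : ∀ z, pderiv (some (Sum.inl true)) (H z) = 0 := by
      intro z
      show pderiv (some (Sum.inl true))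
        (if h : z = z₀ then (1 : W) else X (some (Sum.inr (Sum.inl ⟨z, h⟩)))) = 0
      split_ifs with h
      · simp
      · exact pderiv_X_of_ne (by simp)
    have hdR : pderiv (some (Sum.inl true)) R2 = 1 := by
      show pderiv (some (Sum.inl true)) (ν + ω ^ 2 * τ ^ n * ∑ z : ZT Z, C (b z) * H z ^ m) = 1
      rw [map_add, pderiv_mul, pderiv_mul, pderiv_pow, pderiv_pow, hdω, hdτ, map_sum]
      have h1 : ∑ z : ZT Z, pderiv (some (Sum.inl true)) (C (b z) * H z ^ m) = 0 := by
        apply Finset.sum_eq_zero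
        intro z _
        rw [pderiv_C_mul, pderiv_pow, hdH]
        simp
      have h2 : pderiv (some (Sum.inl true)) ν = 1 := by
        show pderiv (some (Sum.inl true)) (X (some (Sum.inl true)) : W) = 1
        exact pderiv_X_self _
      rw [h1, h2]
      simp
    show pr (pderiv (some (Sum.inl true)) R2) ∉ 𝔮
    rw [hdR, map_one]
    exact fun h1 => (Ideal.IsPrime.ne_top ‹𝔮.IsPrime›) ((Ideal.eq_top_iff_one 𝔮).2 h1)

end Pool.Agent.H945R2.E
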