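import Pool.Agent.H945R2.E.PropsT
import Pool.Agent.H945R2.D.RA

/-! QT3: chart 3 of the resolution, unit case (tame primes). -/

set_option autoImplicit false

open scoped Pointwise

namespace Pool.Agent.H945R2.E

open Pool.Agent.H918R2.Quad Pool.Agent.H945R2.D Pool.Agent.H945R2.S MvPolynomial

namespace QT3aux

/-- The point of chart 3. -/
def pt {F ζ T : Type} [Field F] (q : Bool → F) (η : ζ → F) (k : ℕ) (z₀ : ζ) (t : T → F) :
    Option (Bool ⊕ ({z : ζ // z ≠ z₀} ⊕ T)) → F :=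
  fun o => o.elim (η z₀) (fun i => Sum.elim (fun m => q m / η z₀ ^ k)
    (fun j => Sum.elim (fun z => η z.1 / η z₀) t j) i)

/-- The coordinates `ν_u`. -/
noncomputable def Nu {R ζ T : Type} [CommRing R] (z₀ : ζ) (u : Bool) :
    MvPolynomial (Option (Bool ⊕ ({z : ζ // z ≠ z₀} ⊕ T))) R := X (some (Sum.inl u))

/-- The coordinates `y_z / y_{z₀}`. -/
noncomputable def Hz {R ζ T : Type} [CommRing R] [DecidableEq ζ] (z₀ z : ζ) :
    MvPolynomial (Option (Bool ⊕ ({z : ζ // z ≠ z₀} ⊕ T))) R :=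
  if h : z = z₀ then 1 else X (some (Sum.inr (Sum.inl ⟨z, h⟩)))

/-- The free coordinates. -/
noncomputable def Tk {R ζ T : Type} [CommRing R] (z₀ : ζ) (k : T) :
    MvPolynomial (Option (Bool ⊕ ({z : ζ // z ≠ z₀} ⊕ T))) R := X (some (Sum.inr (Sum.inr k)))

/-- The form `f(H)`. -/
noncomputable def fH {R ζ T : Type} [CommRing R] [DecidableEq ζ] [Fintype ζ] (b : ζ → R) (m : ℕ)
    (z₀ : ζ) : MvPolynomial (Option (Bool ⊕ ({z : ζ // z ≠ z₀} ⊕ T))) R :=
  ∑ z, C (b z) * Hz z₀ z ^ m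

/-- The second relation. -/
noncomputable def EE {R ζ T : Type} [CommRing R] [DecidableEq ζ] [Fintype ζ] (b : ζ → R) (m k : ℕ)
    (z₀ : ζ) : MvPolynomial (Option (Bool ⊕ ({z : ζ // z ≠ z₀} ⊕ T))) R :=
  Nu z₀ false * Nu z₀ true + X none ^ (m - 2 * k) * fH b m z₀

theorem eval_Hz {R F ζ T : Type} [CommRing R] [DecidableEq ζ] [Field F] [Algebra R F]
    (q : Bool → F) (η : ζ → F) (k : ℕ) (z₀ : ζ) (t : T → F) (h0 : η z₀ ≠ 0) (z : ζ) :
    aeval (pt q η k z₀ t) (Hz (R := R) (T := T) z₀ z) = η z / η z₀ := by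
  unfold Hz
  split_ifs with h
  · rw [h, div_self h0, map_one]
  · rw [aeval_X]
    rfl

theorem pderiv_Hz {R ζ T : Type} [CommRing R] [DecidableEq ζ] (z₀ z : ζ) (m : Bool) :
    pderiv (some (Sum.inl m)) (Hz (R := R) (T := T) z₀ z) = 0 := by
  unfold Hz
  split_ifs with h
  · exact pderiv_one
  · exact pderiv_X_of_ne (by simp)

theorem pderiv_fH {R ζ T : Type} [CommRing R] [DecidableEq ζ] [Fintype ζ] (b : ζ → R) (n : ℕ)
    (z₀ : ζ) (m : Bool) : pderiv (some (Sum.inl m)) (fH (T := T) b n z₀) = 0 := by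
  unfold fH
  rw [map_sum]
  apply Finset.sum_eq_zero
  intro z _
  rw [pderiv_C_mul, pderiv_pow, pderiv_Hz]
  simp

theorem pderiv_EE {R ζ T : Type} [CommRing R] [DecidableEq ζ] [Fintype ζ] (b : ζ → R) (n k : ℕ)
    (z₀ : ζ) (u : Bool) : pderiv (some (Sum.inl (!u))) (EE (T := T) b n k z₀) = Nu z₀ u := by
  unfold EE
  have h1 : pderiv (some (Sum.inl (!u))) (X none ^ (n - 2 * k) * fH (R := R) (T := T) b n z₀) = 0 := by
    rw [pderiv_mul, pderiv_pow, pderiv_fH, pderiv_X_of_ne (by simp)]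
    simp
  rw [map_add, h1, add_zero]
  unfold Nu
  rw [pderiv_mul]
  cases u
  · rw [pderiv_X_of_ne (by simp)]
    simp [pderiv_X_self]
  · rw [pderiv_X_of_ne (i := some (Sum.inl (!true))) (j := some (Sum.inl true)) (by simp)]
    simp [pderiv_X_self]

/-- The common part of QT3, QT5. -/
theorem core (hP : S_QPRET) {R F ι : Type} [CommRing R] [IsDomain R] [IsDiscreteValuationRing R]
    [Field F] [Algebra R F] [Fintype ι] [DecidableEq ι] (𝒪 : Subring F) (m h : ℕ) (ϖ : R)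
    (b : ι → R) (Z : Finset ι) (y : ι → F) (s d : ι) (φ : F) (hD : DataT 𝒪 m h ϖ b Z y s d φ)
    (q : Bool → F) (η : ZT Z → F) (t : TT Z s d → F) (hq : q = qT ϖ φ)
    (hη : η = (fun z : ZT Z => y z)) (ht : t = (fun k : TT Z s d => y k)) (k : ℕ) (z₀ : ZT Z)
    (hk1 : 1 ≤ k) (hkm : 2 * k ≤ m) (hC : C3 𝒪 q η k z₀)
    (hlocOf : IsLocOf 𝒪 (Algebra.adjoin R (G3 q η k z₀ ∪ Set.range t) : Set F))
    (hreg : ∀ (A : Type) [CommRing A]
      (pr : MvPolynomial (Option (Bool ⊕ ({z : ZT Z // z ≠ z₀} ⊕ TT Z s d))) R →+* A),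
      Function.Surjective pr →
      RingHom.ker pr = Ideal.span {C ϖ - X none * (X none ^ (k - 1) * Nu z₀ false),
        EE (fun z : ZT Z => b z) m k z₀} → ∀ (𝔮 : Ideal A) [𝔮.IsPrime],
      (∀ w, pr w ∈ 𝔮 ↔ ¬ U 𝒪 (aeval (pt q η k z₀ t) w)) →
      IsRegularLocalRing (Localization.AtPrime 𝔮)) : IsRegularLocalRing 𝒪 := by
  let W : Type := MvPolynomial (Option (Bool ⊕ ({z : ZT Z // z ≠ z₀} ⊕ TT Z s d))) R
  let τ : W := X none
  let N : Bool → W := Nu z₀
  let H : ZT Z → W := Hz z₀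
  let Yf : W := τ ^ k * N true
  let Yy : ZT Z → W := fun z => τ * H z
  let Yt : TT Z s d → W := Tk z₀
  let eW : W →ₐ[R] F := aeval (pt q η k z₀ t)
  have hτk0 : η z₀ ^ k ≠ 0 := pow_ne_zero _ hC.yz
  have hHz0 : H z₀ = 1 := by
    show Hz z₀ z₀ = 1
    unfold Hz
    rw [dif_pos rfl]
  have heτ : eW τ = η z₀ := by
    show aeval (pt q η k z₀ t) (X none) = η z₀
    rw [aeval_X]; rfl
  have heN : ∀ u, eW (N u) = q u / η z₀ ^ k := by
    intro u
    show aeval (pt q η k z₀ t) (X (some (Sum.inl u))) = _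
    rw [aeval_X]; rfl
  have heH : ∀ z : ZT Z, eW (H z) = η z / η z₀ := fun z => eval_Hz q η k z₀ t hC.yz z
  have heYf : eW Yf = φ := by
    show eW (τ ^ k * N true) = φ
    rw [map_mul, map_pow, heτ, heN, mul_div_cancel₀ _ hτk0, hq]
    rfl
  have heYy : ∀ z : ZT Z, eW (Yy z) = η z := by
    intro z
    show eW (τ * H z) = _
    rw [map_mul, heτ, heH, mul_div_cancel₀ _ hC.yz]
  have heYt : ∀ k' : TT Z s d, eW (Yt k') = t k' := by
    intro k'
    show aeval (pt q η k z₀ t) (X (some (Sum.inr (Sum.inr k')))) = _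
    rw [aeval_X]; rfl
  let hh : W := τ ^ (k - 1) * N false
  let R1 : W := C ϖ - X none * hh
  let f0 : W := fH (fun z : ZT Z => b z) m z₀
  let E : W := EE (fun z : ZT Z => b z) m k z₀
  have hτk : τ ^ k = τ * τ ^ (k - 1) := by
    rw [← pow_succ']; congr 1; omega
  have hR1 : R1 = algebraMap R W ϖ - τ ^ k * N false := by
    show C ϖ - τ * (τ ^ (k - 1) * N false) = _
    rw [hτk, MvPolynomial.algebraMap_eq]
    ring
  have heR1 : eW R1 = 0 := by
    rw [hR1, map_sub, AlgHom.commutes, map_mul, map_pow, heτ, heN, mul_div_cancel₀ _ hτk0, hq]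
    show algebraMap R F ϖ - algebraMap R F ϖ = 0
    rw [sub_self]
  have htot : (∑ z : ZT Z, algebraMap R W (b z) * Yy z ^ m) + algebraMap R W ϖ * Yf =
      τ ^ (2 * k) * E + Yf * R1 := by
    have h1 : (∑ z : ZT Z, algebraMap R W (b z) * Yy z ^ m) = τ ^ m * f0 := by
      show _ = τ ^ m * ∑ z : ZT Z, C (b z) * H z ^ m
      rw [Finset.mul_sum]
      apply Finset.sum_congr rfl
      intro z _
      show algebraMap R W (b z) * (τ * H z) ^ m = _
      rw [mul_pow, MvPolynomial.algebraMap_eq]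
      ring
    have h2 : τ ^ m = τ ^ (2 * k) * τ ^ (m - 2 * k) := by
      rw [← pow_add]; congr 1; omega
    have h3 : E = N false * N true + τ ^ (m - 2 * k) * f0 := rfl
    have h4 : τ ^ (2 * k) = τ ^ k * τ ^ k := by rw [← pow_add]; congr 1; omega
    rw [h1, hR1, h2, h3]
    show _ + algebraMap R W ϖ * (τ ^ k * N true) = _ +
      (τ ^ k * N true) * (algebraMap R W ϖ - τ ^ k * N false)
    rw [h4]
    ring
  have hetot : eW ((∑ z : ZT Z, algebraMap R W (b z) * Yy z ^ m) + algebraMap R W ϖ * Yf) = 0 := by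
    rw [map_add, map_sum, map_mul, AlgHom.commutes, heYf]
    have h1 : ∀ z : ZT Z, eW (algebraMap R W (b z) * Yy z ^ m) =
        algebraMap R F (b z) * y z ^ m := by
      intro z
      rw [map_mul, AlgHom.commutes, map_pow, heYy, hη]
    rw [Finset.sum_congr rfl fun z _ => h1 z]
    exact hD.rel
  have hE0 : eW E = 0 := by
    rw [htot, map_add, map_mul, map_mul, heR1, mul_zero, add_zero, map_pow, heτ] at hetot
    exact (mul_eq_zero.1 hetot).resolve_left (pow_ne_zero _ hC.yz)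
  obtain ⟨A, iA1, iA2, pr, hprs, hprk, hpr⟩ := exists_quot (R := R) (Ideal.span {R1, E} : Ideal W)
  have hprR1 : pr R1 = 0 := (hpr R1).2 (Ideal.subset_span (by simp))
  have hprE : pr E = 0 := (hpr E).2 (Ideal.subset_span (by simp))
  have hker : ∀ w, pr w = 0 → eW w = 0 := by
    intro w hw
    have h1 := (hpr w).1 hw
    obtain ⟨x, y, hxy⟩ := Ideal.mem_span_pair.1 h1
    rw [← hxy, map_add, map_mul, map_mul, heR1, hE0]
    simp
  have hrange : Algebra.adjoin R (G3 q η k z₀ ∪ Set.range t) = eW.range := by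
    show _ = (aeval (pt q η k z₀ t)).range
    rw [← Algebra.adjoin_range_eq_range_aeval]
    apply le_antisymm
    · apply Algebra.adjoin_le
      rintro x (((hx | ⟨u, rfl⟩) | ⟨z, rfl⟩) | ⟨k', rfl⟩)
      · rw [Set.mem_singleton_iff] at hx
        rw [hx]
        exact Algebra.subset_adjoin ⟨none, rfl⟩
      · exact Algebra.subset_adjoin ⟨some (Sum.inl u), rfl⟩
      · by_cases hz : z = z₀
        · show η z / η z₀ ∈ _
          rw [hz, div_self hC.yz]
          exact one_mem _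
        · exact Algebra.subset_adjoin ⟨some (Sum.inr (Sum.inl ⟨z, hz⟩)), rfl⟩
      · exact Algebra.subset_adjoin ⟨some (Sum.inr (Sum.inr k')), rfl⟩
    · apply Algebra.adjoin_mono
      rintro x ⟨o, rfl⟩
      rcases o with _ | (u | (z | k'))
      · exact Or.inl (Or.inl (Or.inl rfl))
      · exact Or.inl (Or.inl (Or.inr ⟨u, rfl⟩))
      · exact Or.inl (Or.inr ⟨z.1, rfl⟩)
      · exact Or.inr ⟨k', rfl⟩
  have hlocOf' : IsLocOf 𝒪 (eW.range : Set F) := by
    rw [← hrange]; exact hlocOf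
  have hW : ∀ w, eW w ∈ 𝒪 := fun w => hlocOf'.1 _ ⟨w, rfl⟩
  have hprtot : pr ((∑ z : ZT Z, algebraMap R W (b z) * Yy z ^ m) + algebraMap R W ϖ * Yf) = 0 := by
    rw [htot, map_add, map_mul, map_mul, hprE, hprR1]
    simp
  refine hP 𝒪 m h ϖ b Z y s d φ hD pr hprs eW hker hW hlocOf' Yf Yy Yt heYf ?_ ?_ hprtot ?_ ?_
  · intro z
    rw [heYy, hη]
  · intro k'
    rw [heYt, ht]
  · intro P hPr hPS hPa hPm hPe hPd w
    have hPτ : P τ := by
      have h1 := hPS (Yy z₀) (Or.inl (Or.inr ⟨z₀, rfl⟩))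
      have h2 : Yy z₀ = τ := by
        show τ * H z₀ = τ
        rw [hHz0, mul_one]
      rwa [h2] at h1
    have heτ0 : eW τ ≠ 0 := by rw [heτ]; exact hC.yz
    have hP1 : P 1 := by
      have h1 := hPr 1
      rwa [map_one] at h1
    have hPpow : ∀ i : ℕ, P (τ ^ i) := by
      intro i
      induction i with
      | zero => rw [pow_zero]; exact hP1
      | succ i ih => rw [pow_succ]; exact hPm _ _ ih hPτ
    have heτk0 : eW (τ ^ k) ≠ 0 := by
      rw [map_pow, heτ]; exact hτk0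
    have hPN : ∀ u, P (N u) := by
      intro u
      cases u
      · refine hPd (τ ^ k) (N false) heτk0 (hPpow k) (hPe _ _ ?_ (hPr ϖ))
        rw [hR1, map_sub] at hprR1
        exact sub_eq_zero.1 hprR1
      · exact hPd (τ ^ k) (N true) heτk0 (hPpow k) (hPS _ (Or.inl (Or.inl rfl)))
    have hPz : ∀ z : ZT Z, P (H z) := fun z =>
      hPd τ _ heτ0 hPτ (hPS _ (Or.inl (Or.inr ⟨z, rfl⟩)))
    have hPX : ∀ o, P (X o) := by
      intro o
      rcases o with _ | (u | (z | k'))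
      · exact hPτ
      · exact hPN u
      · have h1 := hPz z.1
        have h2 : H z.1 = X (some (Sum.inr (Sum.inl z))) := by
          show Hz z₀ z.1 = _
          unfold Hz
          rw [dif_neg z.2]
        rwa [h2] at h1
      · exact hPS _ (Or.inr ⟨k', rfl⟩)
    induction w using MvPolynomial.induction_on with
    | C r => exact hPr r
    | add p q hp hq => exact hPa _ _ hp hq
    | mul_X p n hp => exact hPm _ _ hp (hPX n)
  · intro 𝔮 _ h𝔮
    exact hreg A (pr : W →+* A) hprs hprk 𝔮 h𝔮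

end QT3aux

open QT3aux

theorem QT3_ok (hP : S_QPRET) : S_QT3 := by
  intro R F ι _ _ _ _ _ _ _ 𝒪 m h ϖ b Z y s d φ hD q η t hq hη ht k z₀ hk1 hkh hkm hC hunit hlocOf
  have hmh := hD.hmh
  refine core hP 𝒪 m h ϖ b Z y s d φ hD q η t hq hη ht k z₀ hk1 (by omega) hC hlocOf ?_
  intro A _ pr hprs hprk 𝔮 _ h𝔮
  obtain ⟨u, hu⟩ := hunit
  refine RA_ok ϖ hD.irr pr hprs _ _ hprk 𝔮 ?_ (Sum.inl (!u)) ?_
  · rw [h𝔮, aeval_X]
    show ¬ U 𝒪 (η z₀)
    rw [hη]
    exact hD.hyZ _ z₀.2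
  · rw [pderiv_EE, h𝔮, not_not]
    show U 𝒪 (aeval (pt q η k z₀ t) (X (some (Sum.inl u))))
    rw [aeval_X]
    exact hu

end Pool.Agent.H945R2.E
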