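import Pool.Agent.H945R2.E.QT3

/-! QT5: chart 3 of the resolution, `f` a unit (tame primes). -/

set_option autoImplicit false

open scoped Pointwise

namespace Pool.Agent.H945R2.E

open Pool.Agent.H918R2.Quad Pool.Agent.H945R2.D Pool.Agent.H945R2.S MvPolynomial

open QT3aux

theorem QT5_ok (hP : S_QPRET) (hB : S_RLW) : S_QT5 := by
  intro R F ι _ _ _ _ _ _ _ 𝒪 m h ϖ b Z y s d φ hD q η t hq hη ht f hf z₀ hmh hC hnU hfU hlocOf
  have hh1 := hD.hh
  refine core hP 𝒪 m h ϖ b Z y s d φ hD q η t hq hη ht h z₀ hh1 (by omega) hC hlocOf ?_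
  intro A _ pr hprs hprk 𝔮 _ h𝔮
  have hE : (EE (fun z : ZT Z => b z) m h z₀ :
      MvPolynomial (Option (Bool ⊕ ({z : ZT Z // z ≠ z₀} ⊕ TT Z s d))) R) =
      X none * fH (fun z : ZT Z => b z) m z₀ + ∑ u : Bool, X (some (Sum.inl u)) *
        (if u then (0 : MvPolynomial (Option (Bool ⊕ ({z : ZT Z // z ≠ z₀} ⊕ TT Z s d))) R)
          else Nu z₀ true) := by
    rw [Fintype.sum_bool]
    unfold EE Nu
    have h1 : m - 2 * h = 1 := by omega
    rw [h1, pow_one]
    simp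
    ring
  rw [hE] at hprk
  refine hB ϖ hD.irr pr hprs (X none ^ (h - 1) * Nu z₀ false) (fH (fun z : ZT Z => b z) m z₀)
    (fun u : Bool => if u then 0 else Nu z₀ true) hprk 𝔮 ?_ ?_ ?_
  · rw [h𝔮, aeval_X]
    show ¬ U 𝒪 (η z₀)
    rw [hη]
    exact hD.hyZ _ z₀.2
  · intro u
    rw [h𝔮, aeval_X]
    exact hnU u
  · rw [h𝔮, not_not]
    have h2 : aeval (pt q η h z₀ t) (fH (T := TT Z s d) (fun z : ZT Z => b z) m z₀) =
        f / η z₀ ^ m := by
      unfold fH
      rw [map_sum, hf]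
      unfold fY
      rw [Finset.sum_div]
      apply Finset.sum_congr rfl
      intro z _
      rw [map_mul, map_pow, eval_Hz q η h z₀ t hC.yz, ← MvPolynomial.algebraMap_eq,
        AlgHom.commutes, div_pow, mul_div_assoc]
    rw [h2]
    exact hfU

end Pool.Agent.H945R2.E
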