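import Pool.Agent.H945R2.E.PropsT
import Pool.Agent.H945R2.D.RA

/-! QT6: chart 3 of the resolution, `m = 2 h`, tame primes. -/

set_option autoImplicit false

open scoped Pointwise

namespace Pool.Agent.H945R2.E

open Pool.Agent.H918R2.Quad Pool.Agent.H945R2.D Pool.Agent.H945R2.S MvPolynomial

namespace QT6aux

section hpart

variable {R ζ τ : Type} [CommRing R] [DecidableEq ζ]

/-- the coordinates of the chart. -/
noncomputable def Hc (R τ : Type) [CommRing R] (z₀ z : ζ) :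
    MvPolynomial (Option ((Bool ⊕ {z : ζ // z ≠ z₀}) ⊕ τ)) R :=
  if h : z = z₀ then 1 else X (some (Sum.inl (Sum.inr ⟨z, h⟩)))

theorem Hc_self (z₀ : ζ) : Hc R τ z₀ z₀ = 1 := by
  unfold Hc
  rw [dif_pos rfl]

theorem Hc_ne (z₀ z : ζ) (h : z ≠ z₀) : Hc R τ z₀ z = X (some (Sum.inl (Sum.inr ⟨z, h⟩))) := by
  unfold Hc
  rw [dif_neg h]

theorem pderiv_Hc_inl (z₀ z : ζ) (m : Bool) :
    pderiv (some (Sum.inl (Sum.inl m))) (Hc R τ z₀ z) = 0 := by
  unfold Hc
  split_ifs
  · simp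
  · rw [pderiv_X_of_ne (by simp)]

theorem pderiv_Hc_inr (z₀ z : ζ) (w : {z : ζ // z ≠ z₀}) (hw : z ≠ w.1) :
    pderiv (some (Sum.inl (Sum.inr w))) (Hc R τ z₀ z) = 0 := by
  unfold Hc
  split_ifs with h
  · simp
  · rw [pderiv_X_of_ne]
    intro h1
    injection h1 with h1
    injection h1 with h1
    injection h1 with h1
    apply hw
    rw [← h1]

variable [Fintype ζ]

/-- the form `∑ r_z H_z ^ e`. -/
noncomputable def Hf (τ : Type) (r : ζ → R) (e : ℕ) (z₀ : ζ) :
    MvPolynomial (Option ((Bool ⊕ {z : ζ // z ≠ z₀}) ⊕ τ)) R :=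
  ∑ z, C (r z) * Hc R τ z₀ z ^ e

theorem Hf_inl (r : ζ → R) (e : ℕ) (z₀ : ζ) (m : Bool) :
    pderiv (some (Sum.inl (Sum.inl m))) (Hf τ r e z₀) = 0 := by
  unfold Hf
  rw [map_sum]
  apply Finset.sum_eq_zero
  intro z _
  rw [pderiv_C_mul, pderiv_pow, pderiv_Hc_inl]
  simp

theorem Hf_inr (r : ζ → R) (e : ℕ) (z₀ : ζ) (w : {z : ζ // z ≠ z₀}) :
    pderiv (some (Sum.inl (Sum.inr w))) (Hf τ r e z₀) =
      C (r w.1) * ((e : MvPolynomial (Option ((Bool ⊕ {z : ζ // z ≠ z₀}) ⊕ τ)) R) *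
        X (some (Sum.inl (Sum.inr w))) ^ (e - 1)) := by
  unfold Hf
  rw [map_sum, Finset.sum_eq_single w.1]
  · rw [pderiv_C_mul, pderiv_pow, Hc_ne z₀ w.1 w.2, pderiv_X_self, mul_one]
  · intro z _ hz
    rw [pderiv_C_mul, pderiv_pow, pderiv_Hc_inr z₀ z w hz]
    simp
  · intro h
    exact absurd (Finset.mem_univ _) h

/-- the product of the two coordinates -/
noncomputable def Nf (R : Type) [CommRing R] (τ : Type) (z₀ : ζ) :
    MvPolynomial (Option ((Bool ⊕ {z : ζ // z ≠ z₀}) ⊕ τ)) R :=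
  X (some (Sum.inl (Sum.inl false))) * X (some (Sum.inl (Sum.inl true)))

omit [DecidableEq ζ] [Fintype ζ] in
theorem Nf_false (z₀ : ζ) :
    pderiv (some (Sum.inl (Sum.inl false))) (Nf R τ z₀) =
      X (some (Sum.inl (Sum.inl true))) := by
  unfold Nf
  rw [pderiv_mul, pderiv_X_self, pderiv_X_of_ne (by simp)]
  simp

omit [DecidableEq ζ] [Fintype ζ] in
theorem Nf_inr (z₀ : ζ) (w : {z : ζ // z ≠ z₀}) :
    pderiv (some (Sum.inl (Sum.inr w))) (Nf R τ z₀) = 0 := by
  unfold Nf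
  rw [pderiv_mul, pderiv_X_of_ne (by simp), pderiv_X_of_ne (by simp)]
  simp

end hpart

/-- the Jacobian argument. -/
theorem jac {R A ζ τ : Type} [CommRing R] [Fintype ζ] [DecidableEq ζ] [CommRing A]
    (r : ζ → R) (e : ℕ) (z₀ : ζ) (he : 2 ≤ e) (heU : IsUnit (e : R))
    (hr : ∀ z, IsUnit (r z))
    (pr : MvPolynomial (Option ((Bool ⊕ {z : ζ // z ≠ z₀}) ⊕ τ)) R →+* A)
    (q : Ideal A) [hqp : q.IsPrime]
    (hE : pr (Nf R τ z₀ + Hf τ r e z₀) ∈ q)
    (hd : ∀ i, pr (pderiv (some i) (Nf R τ z₀ + Hf τ r e z₀)) ∈ q) : False := by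
  have hC : ∀ u : R, IsUnit u → ∀ x, pr (C u * x) ∈ q → pr x ∈ q := by
    intro u hu x hx
    rw [map_mul] at hx
    have h1 : IsUnit (pr (C u)) := (hu.map C).map pr
    exact (hqp.mem_or_mem hx).resolve_left (fun h => hqp.ne_top (q.eq_top_of_isUnit_mem h h1))
  -- the coordinates `H_z`
  have hH : ∀ w : {z : ζ // z ≠ z₀}, pr (X (some (Sum.inl (Sum.inr w)))) ∈ q := by
    intro w
    have h1 := hd (Sum.inl (Sum.inr w))
    rw [map_add, Nf_inr, Hf_inr, zero_add] at h1
    have h4 := hC _ (hr w.1) _ h1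
    have h5 : ((e : MvPolynomial (Option ((Bool ⊕ {z : ζ // z ≠ z₀}) ⊕ τ)) R)) = C (e : R) := by
      simp
    rw [h5] at h4
    have h6 := hC _ heU _ h4
    rw [map_pow] at h6
    exact hqp.mem_of_pow_mem _ h6
  -- the value of `f(H)`
  have hHf : pr (Hf τ r e z₀) - pr (C (r z₀)) ∈ q := by
    unfold Hf
    rw [map_sum, ← Finset.add_sum_erase _ _ (Finset.mem_univ z₀), Hc_self, one_pow, mul_one,
      add_sub_cancel_left]
    apply Ideal.sum_mem
    intro z hz
    have hz' : z ≠ z₀ := (Finset.mem_erase.1 hz).1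
    rw [Hc_ne z₀ z hz', map_mul, map_pow]
    apply q.mul_mem_left
    exact q.pow_mem_of_mem (hH _) e (by omega)
  -- the product
  have hN : pr (Nf R τ z₀) ∈ q := by
    have h1 := hd (Sum.inl (Sum.inl false))
    rw [map_add, Nf_false, Hf_inl, add_zero] at h1
    unfold Nf
    rw [map_mul]
    exact q.mul_mem_left _ h1
  have h7 : pr (C (r z₀)) ∈ q := by
    have h8 : pr (C (r z₀)) = pr (Nf R τ z₀ + Hf τ r e z₀) - pr (Nf R τ z₀) -
        (pr (Hf τ r e z₀) - pr (C (r z₀))) := by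
      rw [map_add]; ring
    rw [h8]
    exact q.sub_mem (q.sub_mem hE hN) hHf
  exact hqp.ne_top (q.eq_top_of_isUnit_mem h7 (((hr z₀).map C).map pr))

end QT6aux

open QT6aux

theorem QT6_ok (hP : S_QPRET) : S_QT6 := by
  intro R F ι _ _ _ _ _ _ _ 𝒪 m h ϖ b Z y s d φ hD q η t hq hη ht z₀ he2 hC3 hloc
  have hh := hD.hh
  have hηz : ∀ z : ZT Z, η z = y z := fun z => by rw [hη]
  have htk : ∀ k : TT Z s d, t k = y k := fun k => by rw [ht]
  have hqf : q false = algebraMap R F ϖ := by rw [hq]; rfl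
  have hqt : q true = φ := by rw [hq]; rfl
  have hτ0 : η z₀ ≠ 0 := hC3.yz
  have hτU : ¬ U 𝒪 (η z₀) := by
    rw [hηz]; exact hD.hyZ _ z₀.2
  -- the polynomial ring
  let W : Type := MvPolynomial (Option ((Bool ⊕ {z : ZT Z // z ≠ z₀}) ⊕ TT Z s d)) R
  let τ : W := X none
  let qs : Bool → W := fun u => X (some (Sum.inl (Sum.inl u)))
  let H : ZT Z → W := fun z => Hc R (TT Z s d) z₀ z
  let Yf : W := τ ^ h * qs true
  let Yy : ZT Z → W := fun z => τ * H z
  let Yt : TT Z s d → W := fun k => X (some (Sum.inr k))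
  let pt : Option ((Bool ⊕ {z : ZT Z // z ≠ z₀}) ⊕ TT Z s d) → F := fun o => o.elim (η z₀)
    (Sum.elim (Sum.elim (fun u => q u / η z₀ ^ h) (fun z => η z.1 / η z₀)) (fun k => t k))
  let eW : W →ₐ[R] F := aeval pt
  have heτ : eW τ = η z₀ := by
    show aeval pt (X none) = η z₀
    rw [aeval_X]; rfl
  have heqs : ∀ u, eW (qs u) = q u / η z₀ ^ h := by
    intro u
    show aeval pt (X (some (Sum.inl (Sum.inl u)))) = _
    rw [aeval_X]; rfl
  have heH : ∀ z, eW (H z) = η z / η z₀ := by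
    intro z
    show aeval pt (Hc R (TT Z s d) z₀ z) = _
    by_cases hz : z = z₀
    · subst hz
      rw [Hc_self, map_one, div_self hτ0]
    · rw [Hc_ne z₀ z hz, aeval_X]; rfl
  have heYt : ∀ k, eW (Yt k) = y k := by
    intro k
    show aeval pt (X (some (Sum.inr k))) = _
    rw [aeval_X, ← htk]; rfl
  have heYf : eW Yf = φ := by
    show eW (τ ^ h * qs true) = φ
    rw [map_mul, map_pow, heτ, heqs, mul_div_cancel₀ _ (pow_ne_zero h hτ0), hqt]
  have heYy : ∀ z, eW (Yy z) = y z := by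
    intro z
    show eW (τ * H z) = y z
    rw [map_mul, heτ, heH, mul_div_cancel₀ _ hτ0, hηz]
  -- the first relation
  let hh1 : W := τ ^ (h - 1) * qs false
  let R1 : W := C ϖ - X none * hh1
  have hR1 : R1 = algebraMap R W ϖ - τ ^ h * qs false := by
    have h1 : (X none : W) * τ ^ (h - 1) = τ ^ h := by
      show τ * τ ^ (h - 1) = τ ^ h
      rw [← pow_succ', Nat.sub_add_cancel hh]
    show C ϖ - X none * (τ ^ (h - 1) * qs false) = _
    rw [← mul_assoc, h1]
    rfl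
  have heR1 : eW R1 = 0 := by
    rw [hR1, map_sub, AlgHom.commutes, map_mul, map_pow, heτ, heqs,
      mul_div_cancel₀ _ (pow_ne_zero h hτ0), hqf, sub_self]
  -- the second relation
  let E : W := Nf R (TT Z s d) z₀ + Hf (TT Z s d) (fun z : ZT Z => b z) m z₀
  let Tot : W := (∑ z : ZT Z, algebraMap R W (b z) * Yy z ^ m) + algebraMap R W ϖ * Yf
  have hTE : Tot = τ ^ (2 * h) * E + Yf * R1 := by
    have e1 : (∑ z : ZT Z, algebraMap R W (b z) * Yy z ^ m) =
        τ ^ (2 * h) * Hf (TT Z s d) (fun z : ZT Z => b z) m z₀ := by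
      unfold Hf
      rw [Finset.mul_sum]
      apply Finset.sum_congr rfl
      intro z _
      show algebraMap R W (b z) * (τ * Hc R (TT Z s d) z₀ z) ^ m =
        τ ^ (2 * h) * (C (b z) * Hc R (TT Z s d) z₀ z ^ m)
      rw [mul_pow, he2]
      show C (b z) * _ = _
      ring
    have e2 : (Nf R (TT Z s d) z₀ : W) = qs false * qs true := rfl
    show (∑ z : ZT Z, algebraMap R W (b z) * Yy z ^ m) + algebraMap R W ϖ * Yf =
      τ ^ (2 * h) * (Nf R (TT Z s d) z₀ + Hf (TT Z s d) (fun z : ZT Z => b z) m z₀) + Yf * R1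
    rw [e1, e2, hR1]
    show _ + algebraMap R W ϖ * (τ ^ h * qs true) = _ + (τ ^ h * qs true) * _
    ring
  have heTot : eW Tot = 0 := by
    show eW ((∑ z : ZT Z, algebraMap R W (b z) * Yy z ^ m) + algebraMap R W ϖ * Yf) = 0
    rw [map_add, map_sum, map_mul, AlgHom.commutes, heYf, ← hD.rel]
    congr 1
    apply Finset.sum_congr rfl
    intro z _
    rw [map_mul, map_pow, AlgHom.commutes, heYy]
  have hE0 : eW E = 0 := by
    have h1 : eW (τ ^ (2 * h) * E) = 0 := by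
      have h2 : τ ^ (2 * h) * E = Tot - Yf * R1 := by
        rw [hTE]; ring
      rw [h2, map_sub, map_mul, heTot, heR1]; ring
    rw [map_mul, map_pow, heτ] at h1
    exact (mul_eq_zero.1 h1).resolve_left (pow_ne_zero _ hτ0)
  obtain ⟨A, iA1, iA2, pr, hprs, hprk, hpr⟩ := exists_quot (R := R) (Ideal.span {R1, E} : Ideal W)
  have hprR1 : pr R1 = 0 := (hpr R1).2 (Ideal.subset_span (by simp))
  have hprE : pr E = 0 := (hpr E).2 (Ideal.subset_span (by simp))
  have hker : ∀ w, pr w = 0 → eW w = 0 := by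
    intro w hw
    obtain ⟨x, y, hxy⟩ := Ideal.mem_span_pair.1 ((hpr w).1 hw)
    rw [← hxy, map_add, map_mul, map_mul, heR1, hE0]
    simp
  -- the range
  have hrange : Algebra.adjoin R (G3 q η h z₀ ∪ Set.range t) = eW.range := by
    show _ = (aeval pt).range
    rw [← Algebra.adjoin_range_eq_range_aeval]
    apply le_antisymm
    · apply Algebra.adjoin_le
      rintro x (((hx | ⟨u, rfl⟩) | ⟨z, rfl⟩) | ⟨k, rfl⟩)
      · rw [Set.mem_singleton_iff] at hx
        rw [hx]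
        exact Algebra.subset_adjoin ⟨none, rfl⟩
      · exact Algebra.subset_adjoin ⟨some (Sum.inl (Sum.inl u)), rfl⟩
      · by_cases hz : z = z₀
        · show η z / η z₀ ∈ _
          rw [hz, div_self hτ0]
          exact one_mem _
        · exact Algebra.subset_adjoin ⟨some (Sum.inl (Sum.inr ⟨z, hz⟩)), rfl⟩
      · exact Algebra.subset_adjoin ⟨some (Sum.inr k), rfl⟩
    · apply Algebra.adjoin_mono
      rintro x ⟨o, rfl⟩
      rcases o with _ | (u | z) | k
      · exact Or.inl (Or.inl (Or.inl rfl))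
      · exact Or.inl (Or.inl (Or.inr ⟨u, rfl⟩))
      · exact Or.inl (Or.inr ⟨z.1, rfl⟩)
      · exact Or.inr ⟨k, rfl⟩
  have hloc' : IsLocOf 𝒪 (eW.range : Set F) := by
    rw [← hrange]; exact hloc
  have hW : ∀ w, eW w ∈ 𝒪 := fun w => hloc'.1 _ ⟨w, rfl⟩
  have hprT : pr Tot = 0 := by
    rw [hTE, map_add, map_mul, map_mul, hprE, hprR1]
    simp
  have hprϖ : pr (algebraMap R W ϖ) = pr (τ ^ h * qs false) := by
    rw [hR1, map_sub] at hprR1
    exact sub_eq_zero.1 hprR1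
  refine hP 𝒪 m h ϖ b Z y s d φ hD pr hprs eW hker hW hloc' Yf Yy Yt heYf heYy heYt hprT ?_ ?_
  · -- generators
    intro P P1 P2 P3 P4 P5 P6
    have gpow : ∀ w : W, P w → ∀ n : ℕ, P (w ^ n) := by
      intro w hw n
      induction n with
      | zero =>
        rw [pow_zero]
        have := P1 1
        rwa [map_one] at this
      | succ n ih =>
        rw [pow_succ]
        exact P4 _ _ ih hw
    have gτ : P τ := by
      have h1 : P (Yy z₀) := P2 _ (Or.inl (Or.inr ⟨z₀, rfl⟩))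
      have h2 : Yy z₀ = τ := by
        show τ * Hc R (TT Z s d) z₀ z₀ = τ
        rw [Hc_self, mul_one]
      rwa [h2] at h1
    have hτh : eW (τ ^ h) ≠ 0 := by
      rw [map_pow, heτ]
      exact pow_ne_zero _ hτ0
    have gq : ∀ u, P (qs u) := by
      intro u
      refine P6 (τ ^ h) (qs u) hτh (gpow _ gτ _) ?_
      cases u with
      | true => exact P2 _ (Or.inl (Or.inl rfl))
      | false => exact P5 _ _ hprϖ (P1 ϖ)
    have gH : ∀ z, P (H z) := by
      intro z
      refine P6 τ (H z) ?_ gτ (P2 _ (Or.inl (Or.inr ⟨z, rfl⟩)))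
      rw [heτ]
      exact hτ0
    intro w
    induction w using MvPolynomial.induction_on with
    | C u => exact P1 u
    | add w w' h1 h2 => exact P3 _ _ h1 h2
    | mul_X w o h1 =>
      refine P4 _ _ h1 ?_
      rcases o with _ | (u | z) | k
      · exact gτ
      · exact gq u
      · have h2 := gH z.1
        have h3 : H z.1 = X (some (Sum.inl (Sum.inr z))) := Hc_ne z₀ z.1 z.2
        rwa [h3] at h2
      · exact P2 _ (Or.inr ⟨k, rfl⟩)
  · intro q' hq'p hq'
    have h1 : pr (X none) ∈ q' := by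
      rw [hq']
      show ¬ U 𝒪 (eW τ)
      rw [heτ]; exact hτU
    by_contra hreg
    refine jac (τ := TT Z s d) (fun z : ZT Z => b z) m z₀ (by omega) hD.hm (fun z => hD.hb z)
      (pr : W →+* A) q' ?_ ?_
    · show pr E ∈ q'
      rw [hprE]; exact q'.zero_mem
    · intro i
      by_contra hi
      exact hreg (RA_ok ϖ hD.irr (pr : W →+* A) hprs hh1 E hprk q' h1 i hi)

end Pool.Agent.H945R2.E
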