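import Pool.Agent.H945R2.E.Props

/-! QTFE: the third relation at a singular point, `p = 2`. -/

set_option autoImplicit false

open scoped Pointwise

namespace Pool.Agent.H945R2.E

open Pool.Agent.H918R2.Quad Pool.Agent.H945R2.D Pool.Agent.H945R2.S MvPolynomial

theorem QTFE_ok (hS : S_SUMZ) : S_QTFE := by
  intro R F ι _ _ _ _ _ _ _ 𝒪 p e h co r g Z y s d a b c β A l hQ q hq
  have hD := hQ.data
  subst hq
  have ha : (zq a (Gam β A l a b (fun k => y k - (c k : F))) y c : KT Z s d → F) none = a := rfl
  have hg : (zq a (Gam β A l a b (fun k => y k - (c k : F))) y c : KT Z s d → F) (some none) =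
      Gam β A l a b (fun k => y k - (c k : F)) := rfl
  have hk : ∀ k : TT Z s d,
      (zq a (Gam β A l a b (fun k => y k - (c k : F))) y c : KT Z s d → F) (some (some k)) =
        y k - (c k : F) := fun _ => rfl
  rw [ha, hg]
  simp only [hk]
  refine ⟨hD.ha0, ?_, trivial, ?_⟩
  · rw [hD.hp]
    ring
  unfold TotZ
  have hsum := (hS Z s d hQ.hd hD.hsZ hQ.hdZ (fun i => (c i : F)) (fun _ => 0) (fun _ => 0) 0).2
    (Tz Z r e y)
  rw [hD.hL] at hsum
  have e1 : Tz Z r e y s = 1 := by
    unfold Tz
    rw [if_neg hD.hsZ, hD.hs]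
  have e2 : Tz Z r e y d = y d := by
    unfold Tz
    rw [if_neg hQ.hdZ]
  have e3 : ∀ k : TT Z s d, Tz Z r e y k = y k := by
    intro k
    unfold Tz
    rw [if_neg k.2.1]
  have e4 : ∀ z : ZT Z, Tz Z r e y z = algebraMap R F (r z) * y z ^ e := by
    intro z
    unfold Tz
    rw [if_pos z.2]
  simp only [e1, e2, e3, e4] at hsum
  have hT : TcZ Z s d (fun i => (c i : F)) (fun k => y k - (c k : F))
      (fun z : ZT Z => algebraMap R F (r z) * y z ^ e) (a * b) = Tz Z r e y := by
    funext i
    unfold TcZ
    by_cases hZ : i ∈ Z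
    · rw [dif_pos hZ]
      unfold Tz
      rw [if_pos hZ]
    · rw [dif_neg hZ]
      by_cases his : i = s
      · rw [dif_pos his, his, e1]
      · rw [dif_neg his]
        by_cases hid : i = d
        · rw [dif_pos hid, hid, e2]
          have e5 : ∀ k : TT Z s d, (c k : F) + (y k - (c k : F)) = y k := by
            intro k
            ring
          simp only [e5]
          rw [hsum]
          ring
        · rw [dif_neg hid]
          unfold Tz
          rw [if_neg hZ]
          ring
  rw [hT]
  exact hD.hG

end Pool.Agent.H945R2.E
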