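import Pool.Agent.H945R2.E.Props
import Pool.Agent.H945R2.S.RA2
import Pool.Agent.H918R2.Quad.Reg2

/-!
Task REGQ: quotients of regular rings by independent equations.
-/

set_option autoImplicit false

open scoped Pointwise

namespace Pool.Agent.H945R2.E

open Pool.Agent.H918R2.Quad Pool.Agent.H945R2.D Pool.Agent.H945R2.S MvPolynomial

namespace REGQaux

open IsLocalRing Module

/-- local generators extending a family which is independent modulo `P ^ 2` -/
theorem exists_local_gens_fin {C : Type} [CommRing C] [IsRegularRing C] (P : Ideal C) [P.IsPrime]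
    (n : ℕ) (E : Fin n → C) (hE : ∀ i, E i ∈ P)
    (hE2 : ∀ c : Fin n → C, ∑ i, c i * E i ∈ P ^ 2 → ∀ i, c i ∈ P) :
    ∃ G : Finset C, (∀ g ∈ G, g ∈ P) ∧ ((G.card + n : ℕ) : ℕ∞) ≤ P.height ∧
      ∀ y ∈ P, ∃ c, c ∉ P ∧ c * y ∈ Ideal.span (Set.range E ∪ (G : Set C)) := by
  classical
  have hP : P.IsPrime := inferInstance
  have h1 : ∀ i, algebraMap C (Localization.AtPrime P) (E i) ∈
      maximalIdeal (Localization.AtPrime P) := by
    intro i
    rw [← Localization.AtPrime.map_eq_maximalIdeal]
    exact Ideal.mem_map_of_mem _ (hE i)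
  let t : Fin n → maximalIdeal (Localization.AtPrime P) := fun i =>
    ⟨algebraMap C (Localization.AtPrime P) (E i), h1 i⟩
  have ht : LinearIndependent (ResidueField (Localization.AtPrime P))
      (fun k => ((maximalIdeal (Localization.AtPrime P)).toCotangent (t k) :
        CotangentSpace (Localization.AtPrime P))) := by
    rw [Fintype.linearIndependent_iff]
    intro a ha
    choose b hb using fun i => IsLocalRing.residue_surjective (a i)
    have h2 : ∑ i, b i * algebraMap C (Localization.AtPrime P) (E i) ∈
        maximalIdeal (Localization.AtPrime P) ^ 2 := by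
      have h3 := (Ideal.toCotangent_eq_zero (maximalIdeal (Localization.AtPrime P))
        (∑ i, b i • t i)).1 (by
          rw [map_sum]
          rw [← ha]
          refine Finset.sum_congr rfl fun i _ => ?_
          rw [map_smul, ← hb i]
          rfl)
      have h4 : ((∑ i, b i • t i : maximalIdeal (Localization.AtPrime P)) :
          Localization.AtPrime P) = ∑ i, b i * algebraMap C (Localization.AtPrime P) (E i) := by
        rw [AddSubmonoidClass.coe_finsetSum]
        rfl
      rw [h4] at h3
      exact h3
    choose c s hc using fun i => IsLocalization.exists_mk'_eq P.primeCompl (b i)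
    -- common denominator
    let D : C := ∏ i, (s i : C)
    have hD : D ∉ P := by
      intro h
      rw [hP.prod_mem_iff] at h
      obtain ⟨i, _, hi⟩ := h
      exact (s i).2 hi
    let e : Fin n → C := fun i => (∏ j ∈ Finset.univ.erase i, (s j : C)) * c i
    have he : ∀ i, algebraMap C (Localization.AtPrime P) D * b i =
        algebraMap C (Localization.AtPrime P) (e i) := by
      intro i
      have e₁ : algebraMap C (Localization.AtPrime P) (s i) * b i =
          algebraMap C (Localization.AtPrime P) (c i) := by
        rw [← hc i, mul_comm, IsLocalization.mk'_spec]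
      have e₂ : D = (∏ j ∈ Finset.univ.erase i, (s j : C)) * s i :=
        (Finset.prod_erase_mul _ _ (Finset.mem_univ i)).symm
      rw [e₂, map_mul, mul_assoc, e₁, ← map_mul]
    have h3 : algebraMap C (Localization.AtPrime P) (∑ i, e i * E i) ∈
        (P ^ 2).map (algebraMap C (Localization.AtPrime P)) := by
      rw [Ideal.map_pow, Localization.AtPrime.map_eq_maximalIdeal]
      have h4 : algebraMap C (Localization.AtPrime P) (∑ i, e i * E i) =
          algebraMap C (Localization.AtPrime P) D *
            (∑ i, b i * algebraMap C (Localization.AtPrime P) (E i)) := by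
        rw [map_sum, Finset.mul_sum]
        refine Finset.sum_congr rfl fun i _ => ?_
        rw [map_mul, ← he i, mul_assoc]
      rw [h4]
      exact Ideal.mul_mem_left _ _ h2
    obtain ⟨c', hc', hcE⟩ := mem_of_map_mem P _ _ h3
    have h5 := hE2 (fun i => c' * e i) (by
      rw [Finset.mul_sum] at hcE
      convert hcE using 1
      exact Finset.sum_congr rfl fun i _ => mul_assoc _ _ _)
    intro i
    have h6 : c i ∈ P := by
      rcases hP.mem_or_mem (h5 i) with h | h
      · exact absurd h hc'
      · refine (hP.mem_or_mem h).resolve_left ?_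
        intro h7
        rw [hP.prod_mem_iff] at h7
        obtain ⟨j, _, hj⟩ := h7
        exact (s j).2 hj
    rw [← hb i, IsLocalRing.residue_eq_zero_iff, ← hc i]
    exact (IsLocalization.AtPrime.mk'_mem_maximal_iff (Localization.AtPrime P) P (c i) (s i)).2 h6
  obtain ⟨d, z, i, hi, hd, hz, hzE⟩ := RA2aux.exists_param_of_family t ht
  let I : Finset (Fin d) := Finset.univ.image i
  have hIcard : I.card = n := by
    rw [Finset.card_image_of_injective _ hi, Finset.card_univ, Fintype.card_fin]
  obtain ⟨G, hG, hcard, hle⟩ := exists_local_gens_aux P z hz Iᶜ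
  refine ⟨G, hG, ?_, ?_⟩
  · rw [IsLocalization.AtPrime.ringKrullDim_eq_height P (Localization.AtPrime P)] at hd
    have h1 : P.height = (d : ℕ∞) := by exact_mod_cast hd
    rw [h1]
    rw [Finset.card_compl, hIcard, Fintype.card_fin] at hcard
    have h4 : n ≤ d := by
      have h5 := Fintype.card_le_of_injective i hi
      simpa using h5
    have h5 : G.card + n ≤ d := by omega
    exact_mod_cast h5
  · intro y hy
    apply mem_of_map_mem P
    have h3 : algebraMap C (Localization.AtPrime P) y ∈ Ideal.span (Set.range z) := by
      rw [hz, ← Localization.AtPrime.map_eq_maximalIdeal]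
      exact Ideal.mem_map_of_mem _ hy
    refine (Ideal.span_le.2 ?_) h3
    rintro _ ⟨j, rfl⟩
    by_cases hj : j ∈ I
    · obtain ⟨k, _, rfl⟩ := Finset.mem_image.1 hj
      rw [hzE k]
      exact Ideal.mem_map_of_mem _ (Ideal.subset_span (Or.inl ⟨k, rfl⟩))
    · have h4 : z j ∈ Ideal.span (z '' ((Iᶜ : Finset (Fin d)) : Set (Fin d))) := by
        apply Ideal.subset_span
        exact ⟨j, by simpa using hj, rfl⟩
      exact Ideal.map_mono (Ideal.span_mono Set.subset_union_right) (hle h4)

end REGQaux

theorem REGQ_ok : S_REGQ := by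
  intro W A _ _ _ pr hpr n S hS q _ hind
  classical
  have hS0 : ∀ i, pr (S i) = 0 := by
    intro i
    rw [← RingHom.mem_ker, hS]
    exact Ideal.subset_span ⟨i, rfl⟩
  have hSP : ∀ i, S i ∈ q.comap pr := by
    intro i
    rw [Ideal.mem_comap, hS0 i]
    exact q.zero_mem
  have hmap : (q.comap pr).map (RingHom.id W) = q.comap pr := Ideal.map_id _
  obtain ⟨G, hG, hcard, hgen⟩ := REGQaux.exists_local_gens_fin (q.comap pr) n S hSP hind
  refine reg_core pr hpr (Finset.univ.image S) ?_ q (RingHom.id W) Function.surjective_id ?_ ∅ ?_ ?_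
    (Set.range S) ?_ G ?_ ?_ ?_
  · rw [hS]
    congr 1
    simp
  · intro x hx
    have hx0 : x = 0 := by simpa using hx
    rw [hx0]
    exact Ideal.zero_mem _
  · simp
  · intro x hx
    refine ⟨1, ?_, ?_⟩
    · rw [map_one]
      intro h
      exact Ideal.IsPrime.ne_top ‹_› ((Ideal.eq_top_iff_one q).2 h)
    · have hx0 : x = 0 := by simpa using hx
      rw [hx0, mul_zero, map_zero]
      exact Ideal.zero_mem _
  · rintro _ ⟨i, rfl⟩
    exact hS0 i
  · rw [hmap]
    exact hG
  · rw [hmap]
    intro y hy
    obtain ⟨c, hc, hcy⟩ := hgen y hy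
    refine ⟨c, hc, ?_⟩
    have : (RingHom.id W) '' (Set.range S) = Set.range S := by simp
    rw [this]
    exact hcy
  · refine le_trans ?_ hcard
    have h1 : (Finset.univ.image S).card ≤ n := by
      refine Finset.card_image_le.trans ?_
      simp
    have h2 : (∅ : Finset W).card + G.card + (Finset.univ.image S).card ≤ G.card + n := by
      rw [Finset.card_empty]
      omega
    exact_mod_cast h2

end Pool.Agent.H945R2.E
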