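import Pool.Agent.H945R2.E.Props

/-! Task RLW2: regularity from a linear term, with a smooth relation. -/

set_option autoImplicit false

open scoped Pointwise

namespace Pool.Agent.H945R2.E

open Pool.Agent.H918R2.Quad Pool.Agent.H945R2.D Pool.Agent.H945R2.S MvPolynomial

namespace RLW2aux

/-- a derivation sends `P ^ 2` to `P` -/
theorem der_sq {R σ : Type} [CommRing R] (P : Ideal (MvPolynomial σ R)) (i : σ)
    {x : MvPolynomial σ R} (hx : x ∈ P ^ 2) : pderiv i x ∈ P := by
  rw [pow_two] at hx
  refine Submodule.mul_induction_on hx ?_ ?_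
  · intro a ha b hb
    rw [Derivation.leibniz, smul_eq_mul, smul_eq_mul]
    exact P.add_mem (P.mul_mem_right _ ha) (P.mul_mem_right _ hb)
  · intro a b ha hb
    rw [map_add]
    exact P.add_mem ha hb

theorem der_mul {R σ : Type} [CommRing R] (P : Ideal (MvPolynomial σ R)) (i : σ)
    {c x : MvPolynomial σ R} (hx : x ∈ P) :
    pderiv i (c * x) - c * pderiv i x ∈ P := by
  rw [Derivation.leibniz, smul_eq_mul, smul_eq_mul, add_sub_cancel_left]
  exact P.mul_mem_right _ hx

theorem der_Xne {R σ : Type} [CommRing R] (P : Ideal (MvPolynomial σ R)) {i j : σ} (hij : j ≠ i)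
    {h : MvPolynomial σ R} (hx : X j ∈ P) : pderiv i (X j * h) ∈ P := by
  rw [Derivation.leibniz, pderiv_X_of_ne hij, smul_zero, add_zero, smul_eq_mul]
  exact P.mul_mem_right _ hx

theorem der_Xeq {R σ : Type} [CommRing R] (P : Ideal (MvPolynomial σ R)) (i : σ)
    {h : MvPolynomial σ R} (hx : X i ∈ P) : pderiv i (X i * h) - h ∈ P := by
  rw [Derivation.leibniz, pderiv_X_self, smul_eq_mul, smul_eq_mul, mul_one, add_sub_cancel_right]
  exact P.mul_mem_right _ hx

end RLW2aux

open RLW2aux

theorem RLW2_ok (hREG : S_REGQ) (hPIN : S_PIN) : S_RLW2 := by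
  classical
  intro R A τ ζ _ _ _ _ _ _ π hπ pr hpr h v h₁ E₁ μ hk q _ hq1 hq2 hv i₁ hE₁
  set P : Ideal (MvPolynomial (Option (τ ⊕ ζ)) R) := q.comap pr with hP
  have hX : X none ∈ P := hq1
  have hXk : ∀ k, X (some (Sum.inl k)) ∈ P := hq2
  have hvP : v ∉ P := hv
  have hdE : pderiv (some (Sum.inr i₁)) E₁ ∉ P := hE₁
  set S0 := C π - X none * h with hS0
  set S1 := E₁ + X none * h₁ with hS1
  set S2 := X none * v + ∑ k, X (some (Sum.inl k)) * μ k with hS2
  have hkP : ∀ x ∈ RingHom.ker pr, x ∈ P := fun x hx => by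
    rw [hP, Ideal.mem_comap, (RingHom.mem_ker).1 hx]
    exact q.zero_mem
  have m0 : S0 ∈ P := hkP _ (by rw [hk]; exact Ideal.subset_span (by simp))
  have m1 : S1 ∈ P := hkP _ (by rw [hk]; exact Ideal.subset_span (by simp))
  have m2 : S2 ∈ P := hkP _ (by rw [hk]; exact Ideal.subset_span (by simp))
  have hCπ : C π ∈ P := by
    have : C π = S0 + X none * h := by rw [hS0]; ring
    rw [this]
    exact P.add_mem m0 (P.mul_mem_right _ hX)
  refine hREG pr hpr 3 ![S0, S1, S2] ?_ q ?_
  · rw [hk]
    congr 1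
    rw [Matrix.range_cons, Matrix.range_cons, Matrix.range_cons, Matrix.range_empty,
      Set.union_empty]
    rfl
  intro c hc
  rw [Fin.sum_univ_three] at hc
  simp only [Matrix.cons_val_zero, Matrix.cons_val_one, Matrix.cons_val_two, Matrix.head_cons,
    Matrix.tail_cons] at hc
  rw [← hP] at hc ⊢
  -- derivatives of the relations
  have dsum : ∀ i, (∀ k, (some (Sum.inl k) : Option (τ ⊕ ζ)) ≠ i) →
      pderiv i (∑ k, X (some (Sum.inl k)) * μ k) ∈ P := by
    intro i hi
    rw [map_sum]
    exact P.sum_mem fun k _ => der_Xne P (hi k) (hXk k)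
  -- step 1
  have c1 : c 1 ∈ P := by
    have e := der_sq P (some (Sum.inr i₁)) hc
    rw [map_add, map_add] at e
    have f0 := der_mul P (some (Sum.inr i₁)) (c := c 0) m0
    have f1 := der_mul P (some (Sum.inr i₁)) (c := c 1) m1
    have f2 := der_mul P (some (Sum.inr i₁)) (c := c 2) m2
    have g0 : pderiv (some (Sum.inr i₁)) S0 ∈ P := by
      rw [hS0, map_sub, pderiv_C, zero_sub]
      exact P.neg_mem (der_Xne P (by simp) hX)
    have g1 : pderiv (some (Sum.inr i₁)) S1 - pderiv (some (Sum.inr i₁)) E₁ ∈ P := by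
      rw [hS1, map_add, add_sub_cancel_left]
      exact der_Xne P (by simp) hX
    have g2 : pderiv (some (Sum.inr i₁)) S2 ∈ P := by
      rw [hS2, map_add]
      exact P.add_mem (der_Xne P (by simp) hX) (dsum _ (by simp))
    have : c 1 * pderiv (some (Sum.inr i₁)) E₁ ∈ P := by
      have t := P.sub_mem (P.sub_mem (P.sub_mem e f0) f1) f2
      have t2 := P.sub_mem (P.sub_mem (P.sub_mem t (P.mul_mem_left (c 0) g0))
        (P.mul_mem_left (c 1) g1)) (P.mul_mem_left (c 2) g2)
      convert t2 using 1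
      ring
    exact (Ideal.IsPrime.mem_or_mem inferInstance this).resolve_right hdE
  have hc' : c 0 * S0 + c 2 * S2 ∈ P ^ 2 := by
    have : c 1 * S1 ∈ P ^ 2 := by
      rw [pow_two]
      exact Ideal.mul_mem_mul c1 m1
    have t := Ideal.sub_mem _ hc this
    convert t using 1
    ring
  have hmu : ∀ k, c 2 * μ k ∈ P := by
    intro k
    have e := der_sq P (some (Sum.inl k)) hc'
    rw [map_add] at e
    have f0 := der_mul P (some (Sum.inl k)) (c := c 0) m0
    have f2 := der_mul P (some (Sum.inl k)) (c := c 2) m2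
    have g0 : pderiv (some (Sum.inl k)) S0 ∈ P := by
      rw [hS0, map_sub, pderiv_C, zero_sub]
      exact P.neg_mem (der_Xne P (by simp) hX)
    have g2 : pderiv (some (Sum.inl k)) S2 - μ k ∈ P := by
      rw [hS2, map_add, map_sum, ← Finset.add_sum_erase _ _ (Finset.mem_univ k)]
      have u1 := der_Xne (i := some (Sum.inl k)) P (by simp) hX (h := v)
      have u2 := der_Xeq P (some (Sum.inl k)) (hXk k) (h := μ k)
      have u3 : ∑ l ∈ Finset.univ.erase k, pderiv (some (Sum.inl k))
          (X (some (Sum.inl l)) * μ l) ∈ P :=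
        P.sum_mem fun l hl => der_Xne P (by simpa using Finset.ne_of_mem_erase hl) (hXk l)
      have t := P.add_mem (P.add_mem u1 u2) u3
      convert t using 1
      ring
    have t := P.sub_mem (P.sub_mem e f0) f2
    have t2 := P.sub_mem (P.sub_mem t (P.mul_mem_left (c 0) g0)) (P.mul_mem_left (c 2) g2)
    convert t2 using 1
    ring
  have hvh : c 2 * v - c 0 * h ∈ P := by
    have e := der_sq P none hc'
    rw [map_add] at e
    have f0 := der_mul P none (c := c 0) m0
    have f2 := der_mul P none (c := c 2) m2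
    have g0 : pderiv none S0 + h ∈ P := by
      have u := der_Xeq P none hX (h := h)
      rw [hS0, map_sub, pderiv_C, zero_sub]
      convert P.neg_mem u using 1
      ring
    have g2 : pderiv none S2 - v ∈ P := by
      have u := der_Xeq P none hX (h := v)
      have u2 := dsum none (by simp)
      rw [hS2, map_add]
      convert P.add_mem u u2 using 1
      ring
    have t := P.sub_mem (P.sub_mem e f0) f2
    have t2 := P.sub_mem (P.sub_mem t (P.mul_mem_left (c 0) g0)) (P.mul_mem_left (c 2) g2)
    convert t2 using 1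
    ring
  have hsq1 : ∑ k, X (some (Sum.inl k)) * (c 2 * μ k) ∈ P ^ 2 :=
    Ideal.sum_mem _ fun k _ => by
      rw [pow_two]
      exact Ideal.mul_mem_mul (hXk k) (hmu k)
  have hsq2 : X none * (c 2 * v - c 0 * h) ∈ P ^ 2 := by
    rw [pow_two]
    exact Ideal.mul_mem_mul hX hvh
  have c0 : c 0 ∈ P := by
    apply hPIN π hπ P hCπ
    have t := Ideal.sub_mem _ (Ideal.sub_mem _ hc' hsq1) hsq2
    convert t using 1
    rw [hS0, hS2, mul_add, Finset.mul_sum]
    have : ∑ k, c 2 * (X (some (Sum.inl k)) * μ k) = ∑ k, X (some (Sum.inl k)) * (c 2 * μ k) :=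
      Finset.sum_congr rfl fun k _ => by ring
    rw [this]
    ring
  have c2 : c 2 ∈ P := by
    have : c 2 * v ∈ P := by
      have t := P.add_mem hvh (P.mul_mem_right h c0)
      rwa [sub_add_cancel] at t
    exact (Ideal.IsPrime.mem_or_mem inferInstance this).resolve_right hvP
  intro i
  fin_cases i
  · exact c0
  · exact c1
  · exact c2

end Pool.Agent.H945R2.E
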