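import Pool.Agent.H945R2.E.Props
import Pool.Agent.H945R2.S.SCZ

/-! # SCE: homogeneity of the factors, `p = 2` -/

set_option autoImplicit false

open scoped Pointwise

namespace Pool.Agent.H945R2.E

open Pool.Agent.H918R2.Quad Pool.Agent.H945R2.D Pool.Agent.H945R2.S MvPolynomial

namespace SCEaux

open Pool.Agent.H945R2.S.SCZaux

section sets

variable {F : Type} [Field F] {ι : Type} [Fintype ι]

theorem B2_eq (p e : ℕ) (x X : ι → F) (s : ι) (c : ι → ℕ) (β : F) :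
    B2 p e x X s c β = {(p : F) ^ 3} * Set.range x ^ (2 * e) ∪
      ({(∑ i, X i) ^ 2 + (p : F) * (∑ i, X i) * X s + (p : F) ^ 2 * β * X s ^ 2} ∪
      Set.range (fun i => (p : F) ^ 2 * (X i - (c i : F) * X s)) * Set.range x ^ e) := by
  ext h
  simp only [B2, Set.mem_ofPred_eq, Set.mem_union, Set.singleton_mul, Set.mem_image,
    Set.mem_singleton_iff, Set.mem_range, Set.mem_mul]
  constructor
  · rintro (⟨y, hy, rfl⟩ | rfl | ⟨i, y, hy, rfl⟩)
    · exact Or.inl ⟨y, hy, rfl⟩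
    · exact Or.inr (Or.inl rfl)
    · exact Or.inr (Or.inr ⟨_, ⟨i, rfl⟩, y, hy, rfl⟩)
  · rintro (⟨y, hy, rfl⟩ | rfl | ⟨_, ⟨i, rfl⟩, y, hy, rfl⟩)
    · exact Or.inl ⟨y, hy, rfl⟩
    · exact Or.inr (Or.inl rfl)
    · exact Or.inr (Or.inr ⟨i, y, hy, rfl⟩)

end sets

section main

variable {R F ι : Type} [CommRing R] [Field F] [Algebra R F] [Fintype ι]

theorem B2_sim (p e : ℕ) (ξ t : ι → F) (lam Lam : F) (ν : Rˣ)
    (hL : Lam = lam ^ e * algebraMap R F ν) (s : ι) (c : ι → ℕ) (β : F) :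
    SimF R (lam ^ (2 * e)) (B2 p e (fun i => lam * ξ i) (fun i => Lam * t i) s c β)
      (B2 p e ξ t s c β) := by
  rw [B2_eq, B2_eq]
  refine SimF.union ?_ (SimF.union ?_ ?_)
  · exact ((SimF.same ((p : F) ^ 3)).mul ((range_sim ξ lam).pow (2 * e))).congr (one_mul _)
  · refine SimF.single (ν ^ 2) ?_
    rw [sum_smul, hL, Units.val_pow_eq_pow_val, map_pow, mul_comm 2 e, pow_mul]
    ring
  · have h1 : SimF R (lam ^ e)
        (Set.range (fun i => (p : F) ^ 2 * (Lam * t i - (c i : F) * (Lam * t s))))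
        (Set.range (fun i => (p : F) ^ 2 * (t i - (c i : F) * t s))) := by
      refine SimF.range ν fun i => ?_
      rw [hL]
      ring
    refine (h1.mul ((range_sim ξ lam).pow e)).congr ?_
    rw [← pow_add]
    congr 1
    ring

theorem fwd [LinearOrder ι] (p e h : ℕ) (_hh : 1 ≤ h) (he : e = 2 * h + 1)
    (g : MvPolynomial ι R) (ξ t : ι → F) (lam Lam : F) (ν : Rˣ) (hlam : lam ≠ 0)
    (hL : Lam = lam ^ e * algebraMap R F ν) (Φ : Set F)
    (hΦ : IsFacE p e h g (fun i => lam * ξ i) (fun i => Lam * t i) Φ) :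
    ∃ Φ', IsFacE p e h g ξ t Φ' ∧ Sim R Φ Φ' := by
  have out : ∀ {μ : F} {Φ'}, μ ≠ 0 → SimF R μ Φ Φ' → Sim R Φ Φ' := fun hμ hs => ⟨_, hμ, hs.1, hs.2⟩
  rcases hΦ with rfl | rfl | ⟨s, c, β, hsp, hlt, hk⟩
  · exact ⟨_, Or.inl rfl, out hlam (range_sim ξ lam)⟩
  · exact ⟨_, Or.inr (Or.inl rfl), out (pow_ne_zero _ hlam)
      (Ifs_sim p e ξ t lam Lam ν hL 1)⟩
  · have hV : SimF R lam (Set.range (fun i => lam * ξ i)) (Set.range ξ) := range_sim ξ lam
    have hY : SimF R lam (Yc (fun i => lam * ξ i) c) (Yc ξ c) := Yc_sim ξ lam c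
    have hB : SimF R (lam ^ (2 * e))
        (B2 p e (fun i => lam * ξ i) (fun i => Lam * t i) s c (algebraMap R F β))
        (B2 p e ξ t s c (algebraMap R F β)) := B2_sim p e ξ t lam Lam ν hL s c _
    rcases hk with ⟨k, hk1, hk2, rfl⟩ | rfl
    · refine ⟨_, Or.inr (Or.inr ⟨s, c, β, hsp, hlt, Or.inl ⟨k, hk1, hk2, rfl⟩⟩),
        out (pow_ne_zero (2 * e) hlam) ?_⟩
      unfold Nd
      refine hB.union ?_
      refine (((SimF.same ((p : F) ^ 2)).mul (hY.pow k)).mul (hV.pow (2 * e - k))).congr ?_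
      rw [one_mul, ← pow_add]
      congr 1
      omega
    · refine ⟨_, Or.inr (Or.inr ⟨s, c, β, hsp, hlt, Or.inr rfl⟩),
        out (pow_ne_zero (3 * (2 * e)) hlam) ?_⟩
      unfold Cd
      refine SimF.union (SimF.union (SimF.union (SimF.union ?_ ?_) ?_) ?_) ?_
      · refine (hB.pow 3).congr ?_
        rw [← pow_mul]
        congr 1
        ring
      · refine ((((hB.pow 2).mul (SimF.same ((p : F) ^ 2))).mul hY).mul
          (hV.pow (2 * e - 1))).congr ?_
        rw [← pow_mul, mul_one, ← pow_succ, ← pow_add]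
        congr 1
        omega
      · refine (((hB.mul (SimF.same (((p : F) ^ 2) ^ 2))).mul (hY.pow (h + 1))).mul
          (hV.pow (2 * (2 * e) - h - 1))).congr ?_
        rw [mul_one, ← pow_add, ← pow_add]
        congr 1
        omega
      · refine (((SimF.same (((p : F) ^ 2) ^ 3)).mul (hY.pow (2 * h + 2))).mul
          (hV.pow (3 * (2 * e) - 2 * h - 2))).congr ?_
        rw [one_mul, ← pow_add]
        congr 1
        omega
      · have h1 : SimF R (lam ^ e) {((p : F) ^ 2) ^ 3 * fc (fun i => Lam * t i) c}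
            {((p : F) ^ 2) ^ 3 * fc t c} := by
          refine SimF.single ν ?_
          rw [fc_eq, hL]
          ring
        refine (h1.mul (hV.pow (3 * (2 * e) - 2 * h - 1))).congr ?_
        rw [← pow_add]
        congr 1
        omega

end main

end SCEaux

open SCEaux Pool.Agent.H945R2.S.SCZaux in
theorem SCE_ok : S_SCE := by
  intro R F ι _ _ _ _ _ p e h _ hh he g ξ t lam Lam ν hlam hL
  refine ⟨fun Φ hΦ => SCEaux.fwd p e h hh he g ξ t lam Lam ν hlam hL Φ hΦ, fun Φ' hΦ' => ?_⟩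
  have hν : algebraMap R F (ν⁻¹ : Rˣ) * algebraMap R F ν = 1 := by
    rw [← map_mul, Units.inv_mul, map_one]
  have hν0 : algebraMap R F (ν : R) ≠ 0 := right_ne_zero_of_mul_eq_one hν
  have hLam : Lam ≠ 0 := by
    rw [hL]
    exact mul_ne_zero (pow_ne_zero _ hlam) hν0
  have hL' : Lam⁻¹ = lam⁻¹ ^ e * algebraMap R F (ν⁻¹ : Rˣ) := by
    rw [hL, mul_inv, inv_pow]
    congr 1
    exact (eq_inv_of_mul_eq_one_left hν).symm
  have e1 : (fun i => lam⁻¹ * (lam * ξ i)) = ξ := by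
    funext i
    rw [← mul_assoc, inv_mul_cancel₀ hlam, one_mul]
  have e2 : (fun i => Lam⁻¹ * (Lam * t i)) = t := by
    funext i
    rw [← mul_assoc, inv_mul_cancel₀ hLam, one_mul]
  obtain ⟨Φ, hΦ, hs⟩ := SCEaux.fwd p e h hh he g (fun i => lam * ξ i) (fun i => Lam * t i) lam⁻¹
    Lam⁻¹ ν⁻¹ (inv_ne_zero hlam) hL' Φ' (by rw [e1, e2]; exact hΦ')
  exact ⟨Φ, hΦ, sim_symm hs⟩

end Pool.Agent.H945R2.E
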