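import Pool.Agent.H945R2.E.PropsT
import Pool.Agent.H945R2.S.SCZ

/-! # SCT: homogeneity of the factors, tame primes -/

set_option autoImplicit false

open scoped Pointwise

namespace Pool.Agent.H945R2.E

open Pool.Agent.H918R2.Quad Pool.Agent.H945R2.D Pool.Agent.H945R2.S MvPolynomial

namespace SCTaux

open Pool.Agent.H945R2.S.SCZaux

section main

variable {R F ι : Type} [CommRing R] [Field F] [Algebra R F] [Fintype ι] [DecidableEq ι]

theorem BT_eq (ϖ : R) (m : ℕ) (b : ι → R) (Z : Finset ι) (x : ι → F) :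
    BT ϖ m b Z x = {algebraMap R F ϖ} * Set.range x ^ m ∪
      {∑ i, if i ∈ Z then 0 else algebraMap R F (b i) * x i ^ m} := by
  ext h
  simp only [BT, Set.mem_ofPred_eq, Set.mem_union, Set.singleton_mul, Set.mem_image,
    Set.mem_singleton_iff]
  constructor
  · rintro (⟨y, hy, rfl⟩ | rfl)
    · exact Or.inl ⟨y, hy, rfl⟩
    · exact Or.inr rfl
  · rintro (⟨y, hy, rfl⟩ | rfl)
    · exact Or.inl ⟨y, hy, rfl⟩
    · exact Or.inr rfl

theorem BT_sim (ϖ : R) (m : ℕ) (b : ι → R) (Z : Finset ι) (ξ : ι → F) (lam : F) :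
    SimF R (lam ^ m) (BT ϖ m b Z (fun i => lam * ξ i)) (BT ϖ m b Z ξ) := by
  rw [BT_eq, BT_eq]
  refine SimF.union ?_ ?_
  · exact ((SimF.same (algebraMap R F ϖ)).mul ((range_sim ξ lam).pow m)).congr (one_mul _)
  · refine SimF.single 1 ?_
    rw [Units.val_one, map_one, mul_one, Finset.mul_sum]
    refine Finset.sum_congr rfl fun i _ => ?_
    split_ifs
    · rw [mul_zero]
    · rw [mul_pow]
      ring

omit [Fintype ι] [DecidableEq ι] in
theorem YT_sim (Z : Finset ι) (ξ : ι → F) (lam : F) :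
    SimF R lam (YT Z (fun i => lam * ξ i)) (YT Z ξ) := by
  constructor
  · rintro _ ⟨i, hi, rfl⟩
    exact ⟨ξ i, ⟨i, hi, rfl⟩, 1, by simp⟩
  · rintro _ ⟨i, hi, rfl⟩
    exact ⟨lam * ξ i, ⟨i, hi, rfl⟩, 1, by simp⟩

theorem fT_eq (m : ℕ) (b : ι → R) (Z : Finset ι) (ξ : ι → F) (lam : F) :
    fT m b Z (fun i => lam * ξ i) = lam ^ m * fT m b Z ξ := by
  unfold fT
  rw [Finset.mul_sum]
  refine Finset.sum_congr rfl fun i _ => ?_
  split_ifs
  · rw [mul_pow]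
    ring
  · rw [mul_zero]

theorem fwd (m h : ℕ) (hh : 1 ≤ h) (hm : m = 2 * h ∨ m = 2 * h + 1) (ϖ : R) (b : ι → R)
    (Z : Finset ι) (ξ : ι → F) (lam : F) (hlam : lam ≠ 0) (Φ : Set F)
    (hΦ : IsFacT ϖ m h b Z (fun i => lam * ξ i) Φ) :
    ∃ Φ', IsFacT ϖ m h b Z ξ Φ' ∧ Sim R Φ Φ' := by
  have out : ∀ {μ : F} {Φ'}, μ ≠ 0 → SimF R μ Φ Φ' → Sim R Φ Φ' := fun hμ hs => ⟨_, hμ, hs.1, hs.2⟩
  have hV : SimF R lam (Set.range (fun i => lam * ξ i)) (Set.range ξ) := range_sim ξ lam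
  have hY : SimF R lam (YT Z (fun i => lam * ξ i)) (YT Z ξ) := YT_sim Z ξ lam
  have hB : SimF R (lam ^ m) (BT ϖ m b Z (fun i => lam * ξ i)) (BT ϖ m b Z ξ) :=
    BT_sim ϖ m b Z ξ lam
  have h1 : ∀ n : ℕ, SimF R (1 : F) {(1 : F) ^ n} {(1 : F) ^ n} := fun n => SimF.same _
  rcases hΦ with rfl | ⟨k, hk1, hk2, rfl⟩ | ⟨hm', rfl⟩
  · exact ⟨_, Or.inl rfl, out hlam (range_sim ξ lam)⟩
  · refine ⟨_, Or.inr (Or.inl ⟨k, hk1, hk2, rfl⟩), out (pow_ne_zero m hlam) ?_⟩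
    unfold Nd
    refine hB.union ?_
    refine (((SimF.same (1 : F)).mul (hY.pow k)).mul (hV.pow (m - k))).congr ?_
    rw [one_mul, ← pow_add]
    congr 1
    omega
  · refine ⟨_, Or.inr (Or.inr ⟨hm', rfl⟩), out (pow_ne_zero (3 * m) hlam) ?_⟩
    unfold Cd
    refine SimF.union (SimF.union (SimF.union (SimF.union ?_ ?_) ?_) ?_) ?_
    · refine (hB.pow 3).congr ?_
      rw [← pow_mul]
      congr 1
      ring
    · refine ((((hB.pow 2).mul (SimF.same (1 : F))).mul hY).mul (hV.pow (m - 1))).congr ?_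
      rw [mul_one, ← pow_mul, ← pow_succ, ← pow_add]
      congr 1
      omega
    · refine (((hB.mul (h1 2)).mul (hY.pow (h + 1))).mul (hV.pow (2 * m - h - 1))).congr ?_
      rw [mul_one, ← pow_add, ← pow_add]
      congr 1
      omega
    · refine (((h1 3).mul (hY.pow (2 * h + 2))).mul (hV.pow (3 * m - 2 * h - 2))).congr ?_
      rw [one_mul, ← pow_add]
      congr 1
      omega
    · have h2 : SimF R (lam ^ m) {(1 : F) ^ 3 * fT m b Z (fun i => lam * ξ i)}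
          {(1 : F) ^ 3 * fT m b Z ξ} := by
        refine SimF.single 1 ?_
        rw [fT_eq, Units.val_one, map_one]
        ring
      refine (h2.mul (hV.pow (3 * m - 2 * h - 1))).congr ?_
      rw [← pow_add]
      congr 1
      omega

end main

end SCTaux

open SCTaux

theorem SCT_ok : S_SCT := by
  intro R F ι _ _ _ _ _ m h hh hm ϖ b Z ξ lam hlam
  refine ⟨fun Φ hΦ => fwd m h hh hm ϖ b Z ξ lam hlam Φ hΦ, fun Φ' hΦ' => ?_⟩
  have e1 : (fun i => lam⁻¹ * (lam * ξ i)) = ξ := by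
    funext i
    rw [← mul_assoc, inv_mul_cancel₀ hlam, one_mul]
  obtain ⟨Φ, hΦ, hs⟩ := fwd m h hh hm ϖ b Z (fun i => lam * ξ i) lam⁻¹ (inv_ne_zero hlam) Φ'
    (by rw [e1]; exact hΦ')
  exact ⟨Φ, hΦ, Pool.Agent.H945R2.S.SCZaux.sim_symm hs⟩

end Pool.Agent.H945R2.E
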