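import Pool.Agent.H945R2.E.Props

/-! TB2: the table for `B_2` (adapted from S/TB0.lean). -/

set_option autoImplicit false

open scoped Pointwise

namespace Pool.Agent.H945R2.E

open Pool.Agent.H918R2.Quad Pool.Agent.H945R2.D Pool.Agent.H945R2.S MvPolynomial

namespace TB2aux

theorem mem_pow {R F ι : Type} [CommRing R] [Field F] [Algebra R F] {𝒲 : Subalgebra R F}
    {t : ι → F} (ht : ∀ i, t i ∈ 𝒲) (k : ℕ) : ∀ y ∈ Set.range t ^ k, y ∈ 𝒲 := by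
  induction k with
  | zero =>
    intro y hy
    rw [pow_zero, Set.mem_one] at hy
    rw [hy]
    exact 𝒲.one_mem
  | succ k ih =>
    intro y hy
    rw [pow_succ, Set.mem_mul] at hy
    obtain ⟨u, hu, v, ⟨i, rfl⟩, rfl⟩ := hy
    exact 𝒲.mul_mem (ih u hu) (ht i)

theorem one_mem_pow {F ι : Type} [Field F] (x : ι → F) (s : ι) (hs : x s = 1) (e : ℕ) :
    (1 : F) ∈ Set.range x ^ e := by
  have h := Set.pow_mem_pow (n := e) (Set.mem_range_self (f := x) s)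
  rw [hs, one_pow] at h
  exact h

end TB2aux

theorem TB2_ok : S_TB2 := by
  intro R F ι _ _ _ _ 𝒲 𝒪 p e j x t s a b hp2 hc i₀ c β hβ hu
  have ht : ∀ i, t i ∈ 𝒲 := by
    intro i
    obtain ⟨ρ, hρ, h⟩ := hc.ht i
    rw [h]
    exact 𝒲.mul_mem hρ (𝒲.pow_mem (hc.hx i) _)
  have hy : ∀ y ∈ Set.range x ^ e, y ∈ 𝒲 := TB2aux.mem_pow hc.hx e
  have hy2 : ∀ y ∈ Set.range x ^ (2 * e), y ∈ 𝒲 := TB2aux.mem_pow hc.hx (2 * e)
  have hpa : (p : F) = a ^ (j + 1) * b ^ j := hc.hp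
  have ha0 : a ≠ 0 := hc.ha0
  have hb0 : b ≠ 0 := hc.hb0
  have hcn : ∀ n : ℕ, (n : F) ∈ 𝒲 := fun n => natCast_mem 𝒲 n
  have hj : j < 2 := hp2 ▸ hc.hj
  have hti : ∀ i, t i - (c i : F) * t i₀ ∈ 𝒲 := fun i =>
    𝒲.sub_mem (ht i) (𝒲.mul_mem (hcn _) (ht _))
  rcases Nat.eq_zero_or_pos j with hj0 | hj1
  · -- the case `j = 0`
    subst hj0
    have hpa' : (p : F) = a := by rw [hpa]; simp
    have ha2 : a ^ 2 ≠ 0 := pow_ne_zero _ ha0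
    have e1 : ∀ y : F, (p : F) ^ 3 * y / a ^ 2 = a * y := by
      intro y; rw [hpa', div_eq_iff ha2]; ring
    have e2 : ((∑ i, t i) ^ 2 + (p : F) * (∑ i, t i) * t i₀ + (p : F) ^ 2 * β * t i₀ ^ 2) / a ^ 2 =
        b ^ 2 + b * t i₀ + β * t i₀ ^ 2 := by
      rw [hpa', hc.hL, div_eq_iff ha2]; ring
    have e3 : ∀ i (y : F), (p : F) ^ 2 * (t i - (c i : F) * t i₀) * y / a ^ 2 =
        (t i - (c i : F) * t i₀) * y := by
      intro i y; rw [hpa', div_eq_iff ha2]; ring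
    refine ⟨a ^ 2, ha2, ?_, ?_, ?_⟩
    · rintro h (⟨y, hy', rfl⟩ | rfl | ⟨i, y, hy', rfl⟩)
      · rw [e1]; exact 𝒲.mul_mem hc.ha (hy2 y hy')
      · rw [e2]
        exact 𝒲.add_mem (𝒲.add_mem (𝒲.pow_mem hc.hb 2) (𝒲.mul_mem hc.hb (ht _)))
          (𝒲.mul_mem hβ (𝒲.pow_mem (ht _) 2))
      · rw [e3]; exact 𝒲.mul_mem (hti i) (hy y hy')
    · rcases hu with h | h | ⟨i, h⟩
      · omega
      · exact ⟨_, Or.inr (Or.inl rfl), by rw [e2]; exact h⟩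
      · exact ⟨_, Or.inr (Or.inr ⟨i, 1, TB2aux.one_mem_pow x s hc.hxs e, rfl⟩), by
          rw [e3, mul_one]; exact h⟩
    · rw [hpa', div_self ha2]
      exact 𝒲.one_mem
  · -- the case `j = 1`
    obtain rfl : j = 1 := by omega
    have hab : (a * b) ^ 2 ≠ 0 := pow_ne_zero _ (mul_ne_zero ha0 hb0)
    have e1 : ∀ y : F, (p : F) ^ 3 * y / (a * b) ^ 2 = a ^ 4 * b * y := by
      intro y; rw [hpa, div_eq_iff hab]; ring
    have e2 : ((∑ i, t i) ^ 2 + (p : F) * (∑ i, t i) * t i₀ + (p : F) ^ 2 * β * t i₀ ^ 2) /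
        (a * b) ^ 2 = 1 + a * (t i₀ + a * β * t i₀ ^ 2) := by
      rw [hpa, hc.hL, div_eq_iff hab]; ring
    have e3 : ∀ i (y : F), (p : F) ^ 2 * (t i - (c i : F) * t i₀) * y / (a * b) ^ 2 =
        a ^ 2 * ((t i - (c i : F) * t i₀) * y) := by
      intro i y; rw [hpa, div_eq_iff hab]; ring
    have hw : t i₀ + a * β * t i₀ ^ 2 ∈ 𝒲 :=
      𝒲.add_mem (ht _) (𝒲.mul_mem (𝒲.mul_mem hc.ha hβ) (𝒲.pow_mem (ht _) 2))
    refine ⟨(a * b) ^ 2, hab, ?_, ?_, ?_⟩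
    · rintro h (⟨y, hy', rfl⟩ | rfl | ⟨i, y, hy', rfl⟩)
      · rw [e1]
        exact 𝒲.mul_mem (𝒲.mul_mem (𝒲.pow_mem hc.ha 4) hc.hb) (hy2 y hy')
      · rw [e2]; exact 𝒲.add_mem 𝒲.one_mem (𝒲.mul_mem hc.ha hw)
      · rw [e3]; exact 𝒲.mul_mem (𝒲.pow_mem hc.ha 2) (𝒲.mul_mem (hti i) (hy y hy'))
    · refine ⟨_, Or.inr (Or.inl rfl), ?_⟩
      rw [e2]
      have haO : a ∈ 𝒪 := hc.hW _ hc.ha
      have hwO : t i₀ + a * β * t i₀ ^ 2 ∈ 𝒪 := hc.hW _ hw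
      have h1 : U 𝒪 ((1 + a * (t i₀ + a * β * t i₀ ^ 2)) +
          -(a * (t i₀ + a * β * t i₀ ^ 2))) := by
        have : (1 + a * (t i₀ + a * β * t i₀ ^ 2)) + -(a * (t i₀ + a * β * t i₀ ^ 2)) =
            (1 : F) := by ring
        rw [this]
        exact U_one
      rcases hc.loc _ _ (𝒪.add_mem 𝒪.one_mem (𝒪.mul_mem haO hwO))
        (𝒪.neg_mem (𝒪.mul_mem haO hwO)) h1 with h2 | h2
      · exact h2
      · exfalso
        apply hc.haU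
        have h3 : -(a * (t i₀ + a * β * t i₀ ^ 2)) = a * (-(t i₀ + a * β * t i₀ ^ 2)) := by
          ring
        rw [h3] at h2
        exact h2.of_mul_left haO (𝒪.neg_mem hwO)
    · have : (p : F) ^ 2 / (a * b) ^ 2 = a ^ 2 := by
        rw [hpa, div_eq_iff hab]
        ring
      rw [this]
      exact 𝒲.pow_mem hc.ha 2

end Pool.Agent.H945R2.E
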