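import Pool.Agent.H945R2.E.PropsT

/-! Task TT1 (MP_4d1008_ag). -/

set_option autoImplicit false

open scoped Pointwise

namespace Pool.Agent.H945R2.E

open Pool.Agent.H918R2.Quad Pool.Agent.H945R2.D Pool.Agent.H945R2.S MvPolynomial

namespace TT1aux

variable {R F : Type} [CommRing R] [Field F] [Algebra R F] {𝒲 : Subalgebra R F} {𝒪 : Subring F}

theorem mulW {S T : Set F} (hS : ∀ z ∈ S, z ∈ 𝒲) (hT : ∀ z ∈ T, z ∈ 𝒲) : ∀ z ∈ S * T, z ∈ 𝒲 := by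
  intro z hz
  rw [Set.mem_mul] at hz
  obtain ⟨u, hu, v, hv, rfl⟩ := hz
  exact 𝒲.mul_mem (hS u hu) (hT v hv)

theorem powW {S : Set F} (hS : ∀ z ∈ S, z ∈ 𝒲) (n : ℕ) : ∀ z ∈ S ^ n, z ∈ 𝒲 := by
  induction n with
  | zero =>
    intro z hz
    rw [pow_zero, Set.mem_one] at hz
    rw [hz]
    exact 𝒲.one_mem
  | succ n ih =>
    rw [pow_succ]
    exact mulW ih hS

theorem sinW {a : F} (ha : a ∈ 𝒲) : ∀ z ∈ ({a} : Set F), z ∈ 𝒲 := by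
  intro z hz
  rw [Set.mem_singleton_iff] at hz
  rw [hz]
  exact ha

theorem unW {S T : Set F} (hS : ∀ z ∈ S, z ∈ 𝒲) (hT : ∀ z ∈ T, z ∈ 𝒲) : ∀ z ∈ S ∪ T, z ∈ 𝒲 := by
  intro z hz
  rcases hz with hz | hz
  · exact hS z hz
  · exact hT z hz

theorem prin_one {Φ : Set F} (h : ∀ z ∈ Φ, z ∈ 𝒲) (hu : ∃ z ∈ Φ, U 𝒪 z) : Prin 𝒲 𝒪 Φ := by
  obtain ⟨z, hz, hzU⟩ := hu
  refine ⟨1, one_ne_zero, fun w hw => ?_, z, hz, ?_⟩
  · rw [div_one]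
    exact h w hw
  · rw [div_one]
    exact hzU

end TT1aux

open TT1aux

theorem TT1_ok : S_TT1 := by
  intro R F ι _ _ _ _ _ 𝒲 𝒪 hloc hW m h hh hm ϖ b Z x s hx hs hU S hS
  have hV : ∀ z ∈ Set.range x, z ∈ 𝒲 := by
    rintro _ ⟨i, rfl⟩
    exact hx i
  have h1V : (1 : F) ∈ Set.range x := ⟨s, hs⟩
  have h1p : ∀ n : ℕ, (1 : F) ∈ Set.range x ^ n := by
    intro n
    have := Set.pow_mem_pow (n := n) h1V
    rwa [one_pow] at this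
  have hph : phT m b Z x ∈ 𝒲 := by
    unfold phT
    refine 𝒲.sum_mem fun i _ => ?_
    split_ifs
    · exact 𝒲.zero_mem
    · exact 𝒲.mul_mem (𝒲.algebraMap_mem _) (𝒲.pow_mem (hx i) _)
  have hf : fT m b Z x ∈ 𝒲 := by
    unfold fT
    refine 𝒲.sum_mem fun i _ => ?_
    split_ifs
    · exact 𝒲.mul_mem (𝒲.algebraMap_mem _) (𝒲.pow_mem (hx i) _)
    · exact 𝒲.zero_mem
  have hB : ∀ z ∈ BT ϖ m b Z x, z ∈ 𝒲 := by
    rintro z (⟨y, hy, rfl⟩ | rfl)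
    · exact 𝒲.mul_mem (𝒲.algebraMap_mem _) (powW hV m y hy)
    · exact hph
  have hY : ∀ z ∈ YT Z x, z ∈ 𝒲 := by
    rintro z ⟨i, _, rfl⟩
    exact hx i
  have hphB : phT m b Z x ∈ BT ϖ m b Z x := Or.inr rfl
  rcases hS with rfl | ⟨k, hk1, hk2, rfl⟩ | ⟨hm', rfl⟩
  · exact prin_one hV ⟨1, h1V, U_one⟩
  · refine prin_one ?_ ?_
    · exact unW hB (mulW (mulW (sinW 𝒲.one_mem) (powW hY k)) (powW hV _))
    · rcases hU with ⟨i, hi, hiU⟩ | hU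
      · refine ⟨1 * x i ^ k * 1, Or.inr ?_, ?_⟩
        · exact Set.mul_mem_mul (Set.mul_mem_mul (Set.mem_singleton _)
            (Set.pow_mem_pow ⟨i, hi, rfl⟩)) (h1p _)
        · rw [one_mul, mul_one]
          exact hiU.pow k
      · exact ⟨_, Or.inl hphB, hU⟩
  · refine prin_one ?_ ?_
    · have h1 : ∀ n : ℕ, (1 : F) ^ n ∈ 𝒲 := fun n => 𝒲.pow_mem 𝒲.one_mem n
      exact unW (unW (unW (unW (powW hB 3)
        (mulW (mulW (mulW (powW hB 2) (sinW 𝒲.one_mem)) hY) (powW hV _)))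
        (mulW (mulW (mulW hB (sinW (h1 2))) (powW hY _)) (powW hV _)))
        (mulW (mulW (sinW (h1 3)) (powW hY _)) (powW hV _)))
        (mulW (sinW (𝒲.mul_mem (h1 3) hf)) (powW hV _))
    · rcases hU with ⟨i, hi, hiU⟩ | hU
      · refine ⟨1 ^ 3 * x i ^ (2 * h + 2) * 1, Or.inl (Or.inr ?_), ?_⟩
        · exact Set.mul_mem_mul (Set.mul_mem_mul (Set.mem_singleton _)
            (Set.pow_mem_pow ⟨i, hi, rfl⟩)) (h1p _)
        · rw [one_pow, one_mul, mul_one]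
          exact hiU.pow _
      · exact ⟨phT m b Z x ^ 3, Or.inl (Or.inl (Or.inl (Or.inl (Set.pow_mem_pow hphB)))),
          hU.pow 3⟩

end Pool.Agent.H945R2.E
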