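import Pool.Agent.H945R2.E.PropsT

/-! Task XBT: the base factor at the exceptional points, tame primes (MP_4d1008_ag). -/

set_option autoImplicit false

open scoped Pointwise

namespace Pool.Agent.H945R2.E

open Pool.Agent.H918R2.Quad Pool.Agent.H945R2.D Pool.Agent.H945R2.S MvPolynomial

namespace XBTaux

theorem range_pow_mem {R F ι : Type} [CommRing R] [Field F] [Algebra R F] {𝒲 : Subalgebra R F}
    {x : ι → F} (hx : ∀ i, x i ∈ 𝒲) (n : ℕ) : ∀ y ∈ Set.range x ^ n, y ∈ 𝒲 := by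
  induction n with
  | zero =>
    intro y hy
    rw [pow_zero, Set.mem_one] at hy
    rw [hy]; exact 𝒲.one_mem
  | succ n ih =>
    intro y hy
    rw [pow_succ, Set.mem_mul] at hy
    obtain ⟨u, hu, v, ⟨i, rfl⟩, rfl⟩ := hy
    exact 𝒲.mul_mem (ih u hu) (hx i)

theorem one_mem_pow {F ι : Type} [Field F] {x : ι → F} {s : ι} (hs : x s = 1) (n : ℕ) :
    (1 : F) ∈ Set.range x ^ n := by
  induction n with
  | zero => rw [pow_zero]; exact Set.mem_one.2 rfl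
  | succ n ih =>
    rw [pow_succ, Set.mem_mul]
    exact ⟨1, ih, 1, ⟨s, hs⟩, one_mul 1⟩

theorem smul_span {R F : Type} [CommRing R] [Field F] [Algebra R F] {𝒲 : Subalgebra R F}
    {S : Set F} {w z : F} (hw : w ∈ 𝒲) (hz : z ∈ Submodule.span 𝒲 S) :
    w * z ∈ Submodule.span 𝒲 S :=
  Submodule.smul_mem (Submodule.span 𝒲 S) (⟨w, hw⟩ : 𝒲) hz

end XBTaux

open XBTaux

theorem XBT_ok : S_XBT := by
  intro R F ι _ _ _ _ _ 𝒲 𝒪 m ϖ b Z x s _ hx hs
  refine ⟨?_, ?_⟩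
  · rintro h (⟨y, hy, rfl⟩ | hh)
    · refine ⟨y * algebraMap R F ϖ, smul_span (range_pow_mem hx m y hy)
        (Submodule.subset_span (Or.inl ⟨false, ?_⟩)), ?_⟩
      · simp [qT]
      · ring
    · refine ⟨phT m b Z x, Submodule.subset_span (Or.inl ⟨true, ?_⟩), ?_⟩
      · simp [qT]
      · rw [hh, one_mul]; rfl
  · rintro _ ⟨(_ | _), rfl⟩
    · refine ⟨algebraMap R F ϖ * 1, Or.inl ⟨1, one_mem_pow hs m, rfl⟩, 1, 𝒪.one_mem, ?_⟩
      simp [qT]
    · refine ⟨phT m b Z x, Or.inr rfl, 1, 𝒪.one_mem, ?_⟩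
      simp [qT]

end Pool.Agent.H945R2.E
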