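import Pool.Agent.H945R2.S.All
import Pool.Agent.H945R2.E.ARIT
import Pool.Agent.H945R2.E.BADE
import Pool.Agent.H945R2.E.BADT
import Pool.Agent.H945R2.E.BIL
import Pool.Agent.H945R2.E.BL5
import Pool.Agent.H945R2.E.BLS3
import Pool.Agent.H945R2.E.BLS4
import Pool.Agent.H945R2.E.CH1W
import Pool.Agent.H945R2.E.CH2E
import Pool.Agent.H945R2.E.DEGE
import Pool.Agent.H945R2.E.DEGT
import Pool.Agent.H945R2.E.DINDT
import Pool.Agent.H945R2.E.EC2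
import Pool.Agent.H945R2.E.EN2
import Pool.Agent.H945R2.E.EXPLE
import Pool.Agent.H945R2.E.FABW
import Pool.Agent.H945R2.E.FAMW
import Pool.Agent.H945R2.E.FINAL
import Pool.Agent.H945R2.E.FINE
import Pool.Agent.H945R2.E.FINT
import Pool.Agent.H945R2.E.GLOG
import Pool.Agent.H945R2.E.GLOT
import Pool.Agent.H945R2.E.GT
import Pool.Agent.H945R2.E.HIND
import Pool.Agent.H945R2.E.LOCE
import Pool.Agent.H945R2.E.LOCT
import Pool.Agent.H945R2.E.NZT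
import Pool.Agent.H945R2.E.PIN
import Pool.Agent.H945R2.E.PREW
import Pool.Agent.H945R2.E.QE1
import Pool.Agent.H945R2.E.QE2
import Pool.Agent.H945R2.E.QE3
import Pool.Agent.H945R2.E.QE4
import Pool.Agent.H945R2.E.QE5
import Pool.Agent.H945R2.E.QEXE
import Pool.Agent.H945R2.E.QPREE
import Pool.Agent.H945R2.E.QPRET
import Pool.Agent.H945R2.E.QT1
import Pool.Agent.H945R2.E.QT2
import Pool.Agent.H945R2.E.QT3
import Pool.Agent.H945R2.E.QT4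
import Pool.Agent.H945R2.E.QT5
import Pool.Agent.H945R2.E.QT6
import Pool.Agent.H945R2.E.QTFE
import Pool.Agent.H945R2.E.REGQ
import Pool.Agent.H945R2.E.RLW2
import Pool.Agent.H945R2.E.SCE
import Pool.Agent.H945R2.E.SCT
import Pool.Agent.H945R2.E.TB2
import Pool.Agent.H945R2.E.TT1
import Pool.Agent.H945R2.E.XB2
import Pool.Agent.H945R2.E.XBT

/-! Regular models of diagonal hypersurfaces of squarefree degree: everything together. -/

set_option autoImplicit false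

namespace Pool.Agent.H945R2.E

open Pool.Agent.H945R2.D Pool.Agent.H945R2.S

theorem ch1w' : S_CH1W := CH1W_ok SUMZ_ok PREW_ok FABW_ok
theorem ch2e' : S_CH2E := CH2E_ok (EXPLE_ok BIL_ok SUMZ_ok) SUMZ_ok PREW_ok FABW_ok
theorem qpree' : S_QPREE := QPREE_ok SUMZ_ok PREW_ok FABW_ok
theorem qtfe' : S_QTFE := QTFE_ok SUMZ_ok
theorem bl5' : S_BL5 := BL5_ok REGQ_ok PIN_ok
theorem rlw2' : S_RLW2 := RLW2_ok REGQ_ok PIN_ok

theorem loce' : S_LOCE :=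
  LOCE_ok CL_ok MAS_ok PRA_ok SIM_ok SCE_ok BLS3_ok BLS4_ok EN2_ok EC2_ok QS_ok
    PT1_ok PT2_ok PT3_ok PT4_ok TIZ_ok TB2_ok DER_ok (XB2_ok SUMZ_ok) SUMZ_ok ET_ok INDZ_ok
    (QEXE_ok BIL_ok SUMZ_ok) ch1w' ch2e' (QE1_ok qpree' qtfe' bl4') (QE2_ok qpree' qtfe' bl4')
    (QE3_ok qpree' qtfe' bl4') (QE4_ok qpree' qtfe' bl5') (QE5_ok qpree' qtfe' rlw2')

theorem loct' : S_LOCT :=
  LOCT_ok MAS_ok PRA_ok SIM_ok SCT_ok TT1_ok (GT_ok REGQ_ok PIN_ok) BLS1_ok BLS2_ok EN_ok EC_ok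
    QS_ok PT1_ok PT2_ok PT3_ok PT4_ok XBT_ok SUMZ_ok ET_ok (DINDT_ok HIND_ok) NZT_ok
    (QT1_ok QPRET_ok) (QT2_ok QPRET_ok) (QT3_ok QPRET_ok) (QT4_ok QPRET_ok bl4')
    (QT5_ok QPRET_ok RLW_ok) (QT6_ok QPRET_ok)

theorem bade' : S_BADE := BADE_ok loce' DEGE_ok FINE_ok

theorem badt' : S_BADT := BADT_ok loct' DEGT_ok FAMW_ok FINT_ok GD1M_ok

theorem glot' : S_GLOT :=
  GLOT_ok (badM bad' (BADS_ok locs' DEGS_ok FINS_ok)) bade' badt' (GOODM_ok GD1M_ok GD2M_ok)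
    ARIT_ok GLOG_ok

end Pool.Agent.H945R2.E
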