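import Pool.Agent.H945R2.S.Props2

/-! Definitions: dyadic primes (even degree) and tame primes (squarefree coefficients),
MP_4d1008_ag. -/

set_option autoImplicit false

open scoped Pointwise

namespace Pool.Agent.H945R2.E

open Pool.Agent.H918R2.Quad Pool.Agent.H945R2.D Pool.Agent.H945R2.S MvPolynomial

/-- Hypotheses on the coefficients, for every prime `p`. -/
structure CoefW {R ι : Type} [CommRing R] [Fintype ι] (p : ℕ) (co : ι → R)
    (g : MvPolynomial ι R) : Prop where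
  prime : p.Prime
  ne : (p : R) ≠ 0
  one : ∀ i, (p : R) ∣ co i - 1
  rel : GRel p co g

/-- The data of a chart, for every prime `p` (as `DataZ`). -/
structure DataW {R F ι : Type} [CommRing R] [Field F] [Algebra R F] [Fintype ι] [DecidableEq ι]
    (𝒪 : Subring F) (p e j : ℕ) (co r : ι → R) (g : MvPolynomial ι R) (Z : Finset ι)
    (y : ι → F) (s : ι) (a b : F) : Prop where
  loc : IsLoc 𝒪
  hR : ∀ r : R, algebraMap R F r ∈ 𝒪
  coef : CoefW p co g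
  irr : Irreducible (p : R)
  he : 2 ≤ e
  heU : IsUnit (e : R)
  hr : ∀ i, IsUnit (r i)
  hsZ : s ∉ Z
  hs : y s = 1
  hy : ∀ i, y i ∈ 𝒪
  hyZ : ∀ i ∈ Z, ¬ U 𝒪 (y i)
  ha : a ∈ 𝒪
  hb : b ∈ 𝒪
  ha0 : a ≠ 0
  hb0 : b ≠ 0
  haU : ¬ U 𝒪 a
  hj : j < p
  hL : ∑ i, Tz Z r e y i = a * b
  hp : (p : F) = a ^ (j + 1) * b ^ j
  hG : aeval (Tz Z r e y) g + a ^ (p - 1 - j) * b ^ (p - j) = 0
  hind : ∃ j₀ : {i : ι // i ≠ s},
    AlgebraicIndependent R (fun i : {i : {i : ι // i ≠ s} // i ≠ j₀} => y i)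

section factors

variable {F : Type} [Field F] {ι : Type} [Fintype ι]

/-- The base factor of a special point for `p = 2`. -/
def B2 (p e : ℕ) (x X : ι → F) (s : ι) (c : ι → ℕ) (β : F) : Set F :=
  {h | (∃ y ∈ Set.range x ^ (2 * e), h = (p : F) ^ 3 * y) ∨
    h = (∑ i, X i) ^ 2 + (p : F) * (∑ i, X i) * X s + (p : F) ^ 2 * β * X s ^ 2 ∨
    ∃ i, ∃ y ∈ Set.range x ^ e, h = (p : F) ^ 2 * (X i - (c i : F) * X s) * y}

/-- The factors for `p = 2`, `e = 2 h + 1`. -/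
def IsFacE {R : Type} [CommRing R] [Algebra R F] [LinearOrder ι] (p e h : ℕ)
    (g : MvPolynomial ι R) (x X : ι → F) (Φ : Set F) : Prop :=
  Φ = Set.range x ∨ Φ = Ifs p e x X 1 ∨
    ∃ (s : ι) (c : ι → ℕ) (β : R), SpZ p g s c β ∧ (∀ i, i < s → c i = 0) ∧
      ((∃ k, 1 ≤ k ∧ k ≤ h ∧ Φ = Nd (B2 p e x X s c (algebraMap R F β)) ((p : F) ^ 2)
          (Set.range x) (Yc x c) (2 * e) k) ∨
        Φ = Cd (B2 p e x X s c (algebraMap R F β)) ((p : F) ^ 2) (fc X c)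
          (Set.range x) (Yc x c) (2 * e) h)

variable {R : Type} [CommRing R] [Algebra R F]

/-- `Φ` is, up to the factor `m`, the ideal generated by `Ψ`. -/
def ExcS' (𝒲 : Subalgebra R F) (𝒪 : Subring F) (Φ Ψ : Set F) : Prop :=
  ∃ m : F, m ≠ 0 ∧ (∀ h ∈ Φ, ∃ g ∈ Submodule.span 𝒲 Ψ, h = m * g) ∧
    ∀ z ∈ Ψ, m * z ∈ Submodule.span 𝒪 Φ

/-- The base factor at the exceptional point: `B = μ (Q, Y ^ e)`. -/
def ExcB' (𝒲 : Subalgebra R F) (𝒪 : Subring F) (B : Set F) (μ : F) (Q Y : Set F) (e : ℕ) :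
    Prop :=
  (∀ h ∈ B, ∃ g ∈ Submodule.span 𝒲 (Q ∪ Y ^ e), h = μ * g) ∧
    ∀ z ∈ Q, μ * z ∈ Submodule.span 𝒪 B

end factors

/-- The coordinate `γ = b ^ 2 + b + β + a A(b) + ∑ v_k l_k(b)`. -/
noncomputable def Gam {R B τ : Type} [CommRing R] [CommRing B] [Algebra R B] [Fintype τ] (β : R)
    (A : Polynomial R) (l : τ → Polynomial R) (a b : B) (v : τ → B) : B :=
  b ^ 2 + b + algebraMap R B β + a * Polynomial.aeval b A + ∑ k, v k * Polynomial.aeval b (l k)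

/-- The situation at a singular point, `p = 2`. -/
structure QCtxE {R F ι : Type} [CommRing R] [Field F] [Algebra R F] [Fintype ι] [DecidableEq ι]
    (𝒪 : Subring F) (p e h : ℕ) (co r : ι → R) (g : MvPolynomial ι R) (Z : Finset ι)
    (y : ι → F) (s d : ι) (a b : F) (c : ι → ℕ) (β : R) (A : Polynomial R)
    (l : TT Z s d → Polynomial R) : Prop where
  two : p = 2
  data : DataW 𝒪 p e 0 co r g Z y s a b
  hh : 1 ≤ h
  heh : e = 2 * h + 1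
  hd : s ≠ d
  hdZ : d ∉ Z
  spec : SpZ p g s c β
  hZ : ∀ i, i ∈ Z ↔ c i = 0
  hq : ∀ m, (zq a (Gam β A l a b (fun k => y k - (c k : F))) y c : KT Z s d → F) m ∈ 𝒪 ∧
    ¬ U 𝒪 ((zq a (Gam β A l a b (fun k => y k - (c k : F))) y c : KT Z s d → F) m)

/-! ### Tame primes -/

section tame

variable {F : Type} [Field F] {ι : Type} [Fintype ι] [DecidableEq ι]
  {R : Type} [CommRing R] [Algebra R F]

/-- The base factor for the tame primes. -/
def BT (ϖ : R) (m : ℕ) (b : ι → R) (Z : Finset ι) (x : ι → F) : Set F :=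
  {h | (∃ y ∈ Set.range x ^ m, h = algebraMap R F ϖ * y) ∨
    h = ∑ i, if i ∈ Z then 0 else algebraMap R F (b i) * x i ^ m}

/-- The coordinates in `Z`. -/
def YT (Z : Finset ι) (x : ι → F) : Set F := {h | ∃ i ∈ Z, h = x i}

/-- The form in the coordinates in `Z`. -/
def fT (m : ℕ) (b : ι → R) (Z : Finset ι) (x : ι → F) : F :=
  ∑ i, if i ∈ Z then algebraMap R F (b i) * x i ^ m else 0

/-- The factors for the tame primes. -/
def IsFacT (ϖ : R) (m h : ℕ) (b : ι → R) (Z : Finset ι) (x : ι → F) (Φ : Set F) : Prop :=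
  Φ = Set.range x ∨
    (∃ k, 1 ≤ k ∧ k ≤ h ∧ Φ = Nd (BT ϖ m b Z x) 1 (Set.range x) (YT Z x) m k) ∨
    (m = 2 * h + 1 ∧ Φ = Cd (BT ϖ m b Z x) 1 (fT m b Z x) (Set.range x) (YT Z x) m h)

/-- `q = (ϖ, φ)`. -/
def qT (ϖ : R) (φ : F) (u : Bool) : F := if u then φ else algebraMap R F ϖ

/-- The coordinates `φ`, `y_i`, `i ≠ s, d`. -/
def cT {s d : ι} (y : ι → F) (φ : F) (o : Option {i : ι // i ≠ s ∧ i ≠ d}) : F :=
  o.elim φ (fun i => y i)

/-- The data of a chart at an exceptional point, tame case. -/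
structure DataT (𝒪 : Subring F) (m h : ℕ) (ϖ : R) (b : ι → R) (Z : Finset ι) (y : ι → F)
    (s d : ι) (φ : F) : Prop where
  loc : IsLoc 𝒪
  hR : ∀ r : R, algebraMap R F r ∈ 𝒪
  irr : Irreducible ϖ
  hm : IsUnit (m : R)
  hh : 1 ≤ h
  hmh : m = 2 * h ∨ m = 2 * h + 1
  hb : ∀ i, IsUnit (b i)
  hsZ : s ∉ Z
  hdZ : d ∉ Z
  hd : s ≠ d
  hs : y s = 1
  hy : ∀ i, i ≠ d → y i ∈ 𝒪
  hyZ : ∀ i ∈ Z, ¬ U 𝒪 (y i)
  hφ : φ ∈ 𝒪
  hφ0 : φ ≠ 0
  hφU : ¬ U 𝒪 φ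
  hϖU : ¬ U 𝒪 (algebraMap R F ϖ)
  hϖ0 : algebraMap R F ϖ ≠ 0
  rel : (∑ z : ZT Z, algebraMap R F (b z) * y z ^ m) + algebraMap R F ϖ * φ = 0
  hind : ∃ j₀ : Option {i : ι // i ≠ s ∧ i ≠ d},
    AlgebraicIndependent R (fun j : {j : Option {i : ι // i ≠ s ∧ i ≠ d} // j ≠ j₀} =>
      cT y φ (j : Option {i : ι // i ≠ s ∧ i ≠ d}))

end tame

/-- `S` spans a submodule commensurable with the forms of degree `d`. -/
def HasDegW {R F ι : Type} [CommRing R] [Field F] [Algebra R F] (ϖ : R) (x : ι → F)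
    (S : Set F) (d : ℕ) : Prop :=
  (∀ h ∈ S, h ∈ Submodule.span R (Set.range x ^ d)) ∧
    ∃ k : ℕ, ∀ y ∈ Set.range x ^ d, algebraMap R F ϖ ^ k * y ∈ Submodule.span R S

end Pool.Agent.H945R2.E
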