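import Pool.Agent.H945R2.E.Props

/-! Task EC' (MP_4d1008_ag). -/

set_option autoImplicit false

open scoped Pointwise

namespace Pool.Agent.H945R2.E

open Pool.Agent.H918R2.Quad Pool.Agent.H945R2.D Pool.Agent.H945R2.S MvPolynomial

namespace EC2aux

variable {R F : Type} [CommRing R] [Field F] [Algebra R F] (𝒲 : Subalgebra R F)

theorem pow_mem {S : Set F} (hS : ∀ x ∈ S, x ∈ 𝒲) (n : ℕ) : ∀ x ∈ S ^ n, x ∈ 𝒲 := by
  induction n with
  | zero =>
    intro x hx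
    rw [pow_zero, Set.mem_one] at hx
    rw [hx]
    exact 𝒲.one_mem
  | succ n ih =>
    intro x hx
    rw [pow_succ, Set.mem_mul] at hx
    obtain ⟨a, ha, b, hb, rfl⟩ := hx
    exact 𝒲.mul_mem (ih a ha) (hS b hb)

theorem span_le_one {S : Set F} (hS : ∀ x ∈ S, x ∈ 𝒲) : Submodule.span 𝒲 S ≤ 1 := by
  rw [Submodule.span_le]
  intro x hx
  exact Submodule.mem_one.2 ⟨⟨x, hS x hx⟩, rfl⟩

theorem absorb {I : Submodule 𝒲 F} {g v : F} (hg : g ∈ I) (hv : v ∈ 𝒲) : g * v ∈ I := by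
  have := I.smul_mem (⟨v, hv⟩ : 𝒲) hg
  rwa [Algebra.smul_def, mul_comm] at this

theorem mono {P Z : Submodule 𝒲 F} (hP : P ≤ 1) (hZ : Z ≤ 1) {i j i' j' : ℕ} (hi : i' ≤ i)
    (hj : j' ≤ j) : P ^ i * Z ^ j ≤ P ^ i' * Z ^ j' := by
  obtain ⟨a, rfl⟩ := Nat.exists_eq_add_of_le hi
  obtain ⟨b, rfl⟩ := Nat.exists_eq_add_of_le hj
  have h1 : P ^ (i' + a) ≤ P ^ i' := by
    rw [pow_add]
    calc P ^ i' * P ^ a ≤ P ^ i' * 1 := mul_le_mul' le_rfl (pow_le_one' hP a)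
      _ = P ^ i' := mul_one _
  have h2 : Z ^ (j' + b) ≤ Z ^ j' := by
    rw [pow_add]
    calc Z ^ j' * Z ^ b ≤ Z ^ j' * 1 := mul_le_mul' le_rfl (pow_le_one' hZ b)
      _ = Z ^ j' := mul_one _
  exact mul_le_mul' h1 h2

end EC2aux

open EC2aux

theorem EC2_ok : S_EC' := by
  intro R F _ _ _ 𝒲 𝒪 hW B Q V Y μ f n h hμ hV hY h1V hB hQ
  obtain ⟨hB1, hB2⟩ := hB
  set P := Submodule.span 𝒲 Q with hP
  set Z := Submodule.span 𝒲 Y with hZ
  set I := Submodule.span 𝒲 (CS Q Y f h) with hI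
  have hP1 : P ≤ 1 := span_le_one 𝒲 hQ
  have hZ1 : Z ≤ 1 := span_le_one 𝒲 hY
  have k3 : P ^ 3 * Z ^ 0 ≤ I := by
    rw [pow_zero, mul_one, hP, Submodule.span_pow]
    exact Submodule.span_mono fun x hx => Or.inl (Or.inl (Or.inl (Or.inl hx)))
  have k2 : P ^ 2 * Z ^ 1 ≤ I := by
    rw [pow_one, hP, hZ, Submodule.span_pow, Submodule.span_mul_span]
    exact Submodule.span_mono fun x hx => Or.inl (Or.inl (Or.inl (Or.inr hx)))
  have k1 : P ^ 1 * Z ^ (h + 1) ≤ I := by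
    rw [pow_one, hP, hZ, Submodule.span_pow, Submodule.span_mul_span]
    exact Submodule.span_mono fun x hx => Or.inl (Or.inl (Or.inr hx))
  have k0 : P ^ 0 * Z ^ (2 * h + 2) ≤ I := by
    rw [pow_zero, one_mul, hZ, Submodule.span_pow]
    exact Submodule.span_mono fun x hx => Or.inl (Or.inr hx)
  have m3 : ∀ i j, 3 ≤ i → P ^ i * Z ^ j ≤ I := fun i j hi =>
    (mono 𝒲 hP1 hZ1 hi (Nat.zero_le j)).trans k3
  have m2 : ∀ i j, 2 ≤ i → 1 ≤ j → P ^ i * Z ^ j ≤ I := fun i j hi hj =>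
    (mono 𝒲 hP1 hZ1 hi hj).trans k2
  have m1 : ∀ i j, 1 ≤ i → h + 1 ≤ j → P ^ i * Z ^ j ≤ I := fun i j hi hj =>
    (mono 𝒲 hP1 hZ1 hi hj).trans k1
  have m0 : ∀ i j, 2 * h + 2 ≤ j → P ^ i * Z ^ j ≤ I := fun i j hj =>
    (mono 𝒲 hP1 hZ1 (Nat.zero_le i) hj).trans k0
  have hJ : Submodule.span 𝒲 (Q ∪ Y ^ (2 * h + 1)) = P + Z ^ (2 * h + 1) := by
    rw [Submodule.span_union, hP, hZ, Submodule.span_pow, Submodule.add_eq_sup]
  rw [hJ] at hB1
  set e := 2 * h + 1 with he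
  have J3 : (P + Z ^ e) * (P + Z ^ e) * (P + Z ^ e) ≤ I := by
    have : (P + Z ^ e) * (P + Z ^ e) * (P + Z ^ e) = P ^ 3 * Z ^ 0 + (P ^ 2 * Z ^ e +
      (P ^ 2 * Z ^ e + P ^ 2 * Z ^ e)) + (P ^ 1 * Z ^ (e + e) + (P ^ 1 * Z ^ (e + e) +
        P ^ 1 * Z ^ (e + e))) + P ^ 0 * Z ^ (e + e + e) := by ring
    rw [this]
    simp only [Submodule.add_eq_sup]
    have a2 := m2 2 e le_rfl (by omega)
    have a1 := m1 1 (e + e) le_rfl (by omega)
    exact sup_le (sup_le (sup_le (m3 3 0 le_rfl) (sup_le a2 (sup_le a2 a2)))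
      (sup_le a1 (sup_le a1 a1))) (m0 0 (e + e + e) (by omega))
  have J2 : (P + Z ^ e) * (P + Z ^ e) * Z ≤ I := by
    have : (P + Z ^ e) * (P + Z ^ e) * Z = P ^ 2 * Z ^ 1 + (P ^ 1 * Z ^ (e + 1) +
      P ^ 1 * Z ^ (e + 1)) + P ^ 0 * Z ^ (e + e + 1) := by ring
    rw [this]
    simp only [Submodule.add_eq_sup]
    have a1 := m1 1 (e + 1) le_rfl (by omega)
    exact sup_le (sup_le (m2 2 1 le_rfl le_rfl) (sup_le a1 a1)) (m0 0 (e + e + 1) (by omega))
  have J1 : (P + Z ^ e) * Z ^ (h + 1) ≤ I := by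
    have : (P + Z ^ e) * Z ^ (h + 1) = P ^ 1 * Z ^ (h + 1) + P ^ 0 * Z ^ (e + (h + 1)) := by ring
    rw [this]
    simp only [Submodule.add_eq_sup]
    exact sup_le (m1 1 (h + 1) le_rfl le_rfl) (m0 0 (e + (h + 1)) (by omega))
  refine ⟨μ ^ 3, pow_ne_zero 3 hμ, ?_, ?_⟩
  · intro z hz
    rcases hz with (((hz | hz) | hz) | hz) | hz
    · rw [pow_succ, pow_two, Set.mem_mul] at hz
      obtain ⟨z', hz', b3, hb3, rfl⟩ := hz
      rw [Set.mem_mul] at hz'
      obtain ⟨b1, hb1, b2, hb2, rfl⟩ := hz'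
      obtain ⟨g1, hg1, rfl⟩ := hB1 b1 hb1
      obtain ⟨g2, hg2, rfl⟩ := hB1 b2 hb2
      obtain ⟨g3, hg3, rfl⟩ := hB1 b3 hb3
      exact ⟨g1 * g2 * g3, J3 (Submodule.mul_mem_mul (Submodule.mul_mem_mul hg1 hg2) hg3),
        by ring⟩
    · rw [Set.mem_mul] at hz
      obtain ⟨z', hz', v, hv, rfl⟩ := hz
      rw [Set.mem_mul] at hz'
      obtain ⟨z'', hz'', y, hy, rfl⟩ := hz'
      rw [Set.mem_mul] at hz''
      obtain ⟨z3, hz3, m, hm, rfl⟩ := hz''
      rw [pow_two, Set.mem_mul] at hz3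
      obtain ⟨b1, hb1, b2, hb2, rfl⟩ := hz3
      obtain ⟨g1, hg1, rfl⟩ := hB1 b1 hb1
      obtain ⟨g2, hg2, rfl⟩ := hB1 b2 hb2
      rw [Set.mem_singleton_iff] at hm
      subst hm
      exact ⟨g1 * g2 * y * v, absorb 𝒲 (J2 (Submodule.mul_mem_mul (Submodule.mul_mem_mul hg1 hg2)
        (Submodule.subset_span hy))) (pow_mem 𝒲 hV _ v hv), by ring⟩
    · rw [Set.mem_mul] at hz
      obtain ⟨z', hz', v, hv, rfl⟩ := hz
      rw [Set.mem_mul] at hz'
      obtain ⟨z'', hz'', y, hy, rfl⟩ := hz'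
      rw [Set.mem_mul] at hz''
      obtain ⟨b1, hb1, m, hm, rfl⟩ := hz''
      obtain ⟨g1, hg1, rfl⟩ := hB1 b1 hb1
      rw [Set.mem_singleton_iff] at hm
      subst hm
      refine ⟨g1 * y * v, absorb 𝒲 (J1 (Submodule.mul_mem_mul hg1 ?_)) (pow_mem 𝒲 hV _ v hv),
        by ring⟩
      rw [hZ, Submodule.span_pow]
      exact Submodule.subset_span hy
    · rw [Set.mem_mul] at hz
      obtain ⟨z', hz', v, hv, rfl⟩ := hz
      rw [Set.mem_mul] at hz'
      obtain ⟨m, hm, y, hy, rfl⟩ := hz'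
      rw [Set.mem_singleton_iff] at hm
      subst hm
      refine ⟨y * v, absorb 𝒲 (Submodule.subset_span (Or.inl (Or.inr hy)))
        (pow_mem 𝒲 hV _ v hv), by ring⟩
    · rw [Set.mem_mul] at hz
      obtain ⟨m, hm, v, hv, rfl⟩ := hz
      rw [Set.mem_singleton_iff] at hm
      subst hm
      exact ⟨f * v, absorb 𝒲 (Submodule.subset_span (Or.inr rfl)) (pow_mem 𝒲 hV _ v hv), by ring⟩
  · have h1 : ∀ k : ℕ, (1 : F) ∈ V ^ k := fun k => Set.one_mem_pow h1V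
    have hsub : ∀ {S : Set F} {x : F}, x ∈ S → x ∈ Submodule.span 𝒪 S :=
      fun hx => Submodule.subset_span hx
    intro z hz
    rcases hz with (((hz | hz) | hz) | hz) | hz
    · rw [pow_succ, pow_two, Set.mem_mul] at hz
      obtain ⟨z', hz', q3, hq3, rfl⟩ := hz
      rw [Set.mem_mul] at hz'
      obtain ⟨q1, hq1, q2, hq2, rfl⟩ := hz'
      have e1 := hB2 q1 hq1
      have e2 := hB2 q2 hq2
      have e3 := hB2 q3 hq3
      have h3 : μ ^ 3 * (q1 * q2 * q3) ∈ Submodule.span 𝒪 (B ^ 3) := by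
        have h4 := Submodule.mul_mem_mul (Submodule.mul_mem_mul e1 e2) e3
        rw [Submodule.span_mul_span, Submodule.span_mul_span] at h4
        have h5 : μ ^ 3 * (q1 * q2 * q3) = (μ * q1) * (μ * q2) * (μ * q3) := by ring
        rw [h5, pow_succ, pow_two]
        exact h4
      exact Submodule.span_mono (fun x hx => Or.inl (Or.inl (Or.inl (Or.inl hx)))) h3
    · rw [Set.mem_mul] at hz
      obtain ⟨z', hz', y, hy, rfl⟩ := hz
      rw [pow_two, Set.mem_mul] at hz'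
      obtain ⟨q1, hq1, q2, hq2, rfl⟩ := hz'
      have e1 := hB2 q1 hq1
      have e2 := hB2 q2 hq2
      have h3 : μ ^ 3 * (q1 * q2 * y) ∈
          Submodule.span 𝒪 (B ^ 2 * {μ} * Y * V ^ (n - 1)) := by
        have h4 := Submodule.mul_mem_mul (Submodule.mul_mem_mul (Submodule.mul_mem_mul
          (Submodule.mul_mem_mul e1 e2) (hsub (Set.mem_singleton μ))) (hsub hy))
          (hsub (h1 (n - 1)))
        rw [Submodule.span_mul_span, Submodule.span_mul_span, Submodule.span_mul_span,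
          Submodule.span_mul_span] at h4
        have h5 : μ ^ 3 * (q1 * q2 * y) = (μ * q1) * (μ * q2) * μ * y * 1 := by ring
        rw [h5, pow_two]
        exact h4
      exact Submodule.span_mono (fun x hx => Or.inl (Or.inl (Or.inl (Or.inr hx)))) h3
    · rw [Set.mem_mul] at hz
      obtain ⟨q1, hq1, y, hy, rfl⟩ := hz
      have e1 := hB2 q1 hq1
      have h3 : μ ^ 3 * (q1 * y) ∈
          Submodule.span 𝒪 (B * {μ ^ 2} * Y ^ (h + 1) * V ^ (2 * n - h - 1)) := by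
        have h4 := Submodule.mul_mem_mul (Submodule.mul_mem_mul
          (Submodule.mul_mem_mul e1 (hsub (Set.mem_singleton (μ ^ 2)))) (hsub hy))
          (hsub (h1 (2 * n - h - 1)))
        rw [Submodule.span_mul_span, Submodule.span_mul_span, Submodule.span_mul_span] at h4
        have h5 : μ ^ 3 * (q1 * y) = (μ * q1) * μ ^ 2 * y * 1 := by ring
        rw [h5]
        exact h4
      exact Submodule.span_mono (fun x hx => Or.inl (Or.inl (Or.inr hx))) h3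
    · apply Submodule.subset_span
      have h5 : μ ^ 3 * z = μ ^ 3 * z * 1 := by ring
      rw [h5]
      exact Or.inl (Or.inr (Set.mul_mem_mul (Set.mul_mem_mul rfl hz) (h1 _)))
    · rw [Set.mem_singleton_iff] at hz
      subst hz
      apply Submodule.subset_span
      have h5 : μ ^ 3 * z = μ ^ 3 * z * 1 := by ring
      rw [h5]
      exact Or.inr (Set.mul_mem_mul rfl (h1 _))

end Pool.Agent.H945R2.E
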