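import Pool.Agent.H945R2.E.PropsT

/-! Task NZT (MP_4d1008_ag). -/

set_option autoImplicit false

open scoped Pointwise

namespace Pool.Agent.H945R2.E

open Pool.Agent.H918R2.Quad Pool.Agent.H945R2.D Pool.Agent.H945R2.S MvPolynomial

theorem NZT_ok : S_NZT := by
  intro R F ι _ _ _ _ _ _ m hm ϖ b hb Z y s hsZ hZ hs rel ⟨j₀, hj⟩ hph
  classical
  have hZ0 : (∑ z : ZT Z, algebraMap R F (b z) * y z ^ m) = 0 := by
    rw [hph, mul_zero, add_zero] at rel
    exact rel
  obtain ⟨v, hv⟩ : ∃ v : ι → MvPolynomial {i : {i : ι // i ≠ s} // i ≠ j₀} R, v = fun i =>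
    if h : i ≠ s then (if h' : (⟨i, h⟩ : {i : ι // i ≠ s}) ≠ j₀ then X ⟨⟨i, h⟩, h'⟩ else 0)
      else 1 := ⟨_, rfl⟩
  have hv1 : ∀ i : ι, i ≠ j₀ →
      aeval (fun i : {i : {i : ι // i ≠ s} // i ≠ j₀} => y i) (v i) = y i := by
    intro i hi
    rw [hv]
    by_cases h : i ≠ s
    · have h' : (⟨i, h⟩ : {i : ι // i ≠ s}) ≠ j₀ := fun h' => hi (congrArg Subtype.val h')
      simp only [dif_pos h, dif_pos h', aeval_X]
    · simp only [dif_neg h, map_one]
      push Not at h
      rw [h, hs]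
  have hv2 : ∀ (f : {i : {i : ι // i ≠ s} // i ≠ j₀} → R) (i : ι), i ≠ j₀ →
      eval f (v i) = if h : i ≠ s then (if h' : (⟨i, h⟩ : {i : ι // i ≠ s}) ≠ j₀ then
        f ⟨⟨i, h⟩, h'⟩ else 0) else 1 := by
    intro f i hi
    rw [hv]
    by_cases h : i ≠ s
    · have h' : (⟨i, h⟩ : {i : ι // i ≠ s}) ≠ j₀ := fun h' => hi (congrArg Subtype.val h')
      simp only [dif_pos h, dif_pos h', eval_X]
    · simp only [dif_neg h, map_one]
  have hinj : ∀ P : MvPolynomial {i : {i : ι // i ≠ s} // i ≠ j₀} R,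
      aeval (fun i : {i : {i : ι // i ≠ s} // i ≠ j₀} => y i) P = 0 → P = 0 := by
    intro P hP
    exact hj (by rw [hP, map_zero])
  by_cases hj0 : (j₀ : ι) ∈ Z
  · have hP : (∑ i, if i ∈ Z then 0 else C (b i) * v i ^ m) = 0 := by
      apply hinj
      rw [map_sum, ← hph]
      unfold phT
      refine Finset.sum_congr rfl fun i _ => ?_
      split_ifs with hi
      · rw [map_zero]
      · rw [map_mul, map_pow, hv1 i (fun h => hi (h ▸ hj0)), aeval_C]
    have h1 := congrArg (eval (fun _ => (0 : R))) hP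
    rw [map_sum, map_zero, Finset.sum_eq_single s] at h1
    · rw [if_neg hsZ, map_mul, map_pow, eval_C, hv2 _ s (fun h => hsZ (h ▸ hj0))] at h1
      simp at h1
      exact hb s h1
    · intro i _ his
      split_ifs with hi
      · rw [map_zero]
      · rw [map_mul, map_pow, hv2 _ i (fun h => hi (h ▸ hj0)), dif_pos his]
        have h' : (⟨i, his⟩ : {i : ι // i ≠ s}) ≠ j₀ := by
          intro h'
          apply hi
          rw [← h'] at hj0
          exact hj0
        rw [dif_pos h', zero_pow (by omega), mul_zero]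
    · intro h
      exact absurd (Finset.mem_univ _) h
  · obtain ⟨z₀, hz₀⟩ := hZ
    have hP : (∑ z : ZT Z, C (b z) * v z ^ m) = 0 := by
      apply hinj
      rw [map_sum, ← hZ0]
      refine Finset.sum_congr rfl fun z _ => ?_
      rw [map_mul, map_pow, hv1 z (fun h => hj0 (h ▸ z.2)), aeval_C]
    have h1 := congrArg (eval (fun k : {i : {i : ι // i ≠ s} // i ≠ j₀} =>
      if ((k : {i : ι // i ≠ s}) : ι) = z₀ then (1 : R) else 0)) hP
    have h2 : ∀ z : ι, z ∈ Z → ∃ (h : z ≠ s), (⟨z, h⟩ : {i : ι // i ≠ s}) ≠ j₀ := by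
      intro z hz
      refine ⟨fun h => hsZ (h ▸ hz), fun h' => hj0 ?_⟩
      rw [← h']
      exact hz
    rw [map_sum, map_zero, Finset.sum_eq_single ⟨z₀, hz₀⟩] at h1
    · obtain ⟨h3, h4⟩ := h2 z₀ hz₀
      rw [map_mul, map_pow, eval_C, hv2 _ z₀ (fun h => hj0 (h ▸ hz₀)), dif_pos h3, dif_pos h4,
        if_pos rfl, one_pow, mul_one] at h1
      exact hb z₀ h1
    · intro z _ hz
      obtain ⟨h3, h4⟩ := h2 z z.2
      rw [map_mul, map_pow, hv2 _ z (fun h => hj0 (h ▸ z.2)), dif_pos h3, dif_pos h4,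
        if_neg (fun h => hz (Subtype.ext h)), zero_pow (by omega), mul_zero]
    · intro h
      exact absurd (Finset.mem_univ _) h

end Pool.Agent.H945R2.E
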