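import Pool.Agent.H945R2.E.Defs

/-! Statements of the tasks (MP_4d1008_ag), dyadic primes and general regularity criterion. -/

set_option autoImplicit false

open scoped Pointwise

namespace Pool.Agent.H945R2.E

open Pool.Agent.H918R2.Quad Pool.Agent.H945R2.D Pool.Agent.H945R2.S MvPolynomial

/-! ### Regularity lemmas -/

/-- REGQ. Quotients of regular rings by independent equations. -/
def S_REGQ : Prop := ∀ {W A : Type} [CommRing W] [IsRegularRing W] [CommRing A]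
  (pr : W →+* A), Function.Surjective pr → ∀ (n : ℕ) (S : Fin n → W),
  RingHom.ker pr = Ideal.span (Set.range S) → ∀ (q : Ideal A) [q.IsPrime],
  (∀ c : Fin n → W, ∑ i, c i * S i ∈ (q.comap pr) ^ 2 → ∀ i, c i ∈ q.comap pr) →
  IsRegularLocalRing (Localization.AtPrime q)

/-- PIN. The uniformizer is not in the square of a prime. -/
def S_PIN : Prop := ∀ {R σ : Type} [CommRing R] [IsDomain R] [IsDiscreteValuationRing R]
  (π : R), Irreducible π → ∀ (P : Ideal (MvPolynomial σ R)) [P.IsPrime], C π ∈ P →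
  ∀ c : MvPolynomial σ R, c * C π ∈ P ^ 2 → c ∈ P

/-- BL5. As BL4, with two smooth relations. -/
def S_BL5 : Prop := ∀ {R A κ σ : Type} [CommRing R] [IsDomain R] [IsDiscreteValuationRing R]
  [Fintype κ] [Finite σ] [CommRing A] (π : R), Irreducible π →
  ∀ (Q : κ → κ → R), RadI π Q → ∀ ν : κ → Option σ, Function.Injective ν →
  ∀ (pr : MvPolynomial (Option σ) R →+* A), Function.Surjective pr →
  ∀ h h₁ E₁ h₂ E₂ G : MvPolynomial (Option σ) R, RingHom.ker pr = Ideal.span {C π - X none * h,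
    E₁ + X none * h₁, E₂ + X none * h₂, ∑ k, ∑ l, C (Q k l) * Yv ν k * Yv ν l + G} →
  ∀ (q : Ideal A) [q.IsPrime], pr (X none) ∈ q → pr G ∈ q →
  (∀ k i, ν k = some i → pr (pderiv (some i) G) ∈ q) → (∃ k, pr (Yv ν k) ∉ q) →
  ∀ i₁ i₂ : σ, pr (pderiv (some i₁) E₁) ∉ q → pr (pderiv (some i₂) E₂) ∉ q →
  pr (pderiv (some i₂) E₁) ∈ q →
  (∀ k i, ν k = some i → pr (pderiv (some i) E₁) ∈ q) →
  (∀ k i, ν k = some i → pr (pderiv (some i) E₂) ∈ q) →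
  IsRegularLocalRing (Localization.AtPrime q)

/-- RLW2. As RLW, with a smooth relation. -/
def S_RLW2 : Prop := ∀ {R A τ ζ : Type} [CommRing R] [IsDomain R] [IsDiscreteValuationRing R]
  [Fintype τ] [Finite ζ] [CommRing A] (π : R), Irreducible π →
  ∀ (pr : MvPolynomial (Option (τ ⊕ ζ)) R →+* A), Function.Surjective pr →
  ∀ (h v h₁ E₁ : MvPolynomial (Option (τ ⊕ ζ)) R) (μ : τ → MvPolynomial (Option (τ ⊕ ζ)) R),
  RingHom.ker pr =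
    Ideal.span {C π - X none * h, E₁ + X none * h₁,
      X none * v + ∑ k, X (some (Sum.inl k)) * μ k} →
  ∀ (q : Ideal A) [q.IsPrime], pr (X none) ∈ q → (∀ k, pr (X (some (Sum.inl k))) ∈ q) →
  pr v ∉ q → ∀ i₁ : ζ, pr (pderiv (some (Sum.inr i₁)) E₁) ∉ q →
  IsRegularLocalRing (Localization.AtPrime q)

/-! ### Expansions, `p = 2` -/

/-- BIL. The form `g` is quadratic. -/
def S_BIL : Prop := ∀ {R ι : Type} [CommRing R] [IsDomain R] [Fintype ι] (p : ℕ), p = 2 →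
  ∀ (co : ι → R) (g : MvPolynomial ι R), CoefW p co g →
  ∀ {B : Type} [CommRing B] [Algebra R B] (x y : ι → B),
    aeval (fun i => x i + y i) g = aeval x g + aeval y g +
      ∑ i, algebraMap R B (co i) * x i * y i - (∑ i, x i) * ∑ i, y i

/-- The second order expansion. -/
def ExpE {R ι : Type} [CommRing R] [Fintype ι] [DecidableEq ι] (p : ℕ) (g : MvPolynomial ι R)
    (c : ι → ℕ) (Z : Finset ι) (s d : ι) (β : R) (A : Polynomial R)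
    (l : TT Z s d → Polynomial R) (Q : KT Z s d → KT Z s d → R) : Prop :=
  RadI (p : R) Q ∧
    ∀ {B : Type} [CommRing B] [Algebra R B] (Y : KT Z s d → B) (b : B) (w : ZT Z → B),
      (p : B) = Y none → Y (some none) = Gam β A l (Y none) b (fun k => Y (some (some k))) →
      TotZ p 0 g c Z s d (Y none) b (fun k => Y (some (some k))) w -
        (∑ k, ∑ k', algebraMap R B (Q k k') * Y k * Y k' - ∑ z, w z) ∈
        Ideal.span (Set.range Y) ^ 3 ⊔ Ideal.span (Set.range Y) * Ideal.span (Set.range w) ⊔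
          Ideal.span (Set.range w) ^ 2

/-- QEXE. -/
def S_QEXE : Prop := ∀ {R ι : Type} [CommRing R] [IsDomain R] [Fintype ι] [DecidableEq ι] (p : ℕ),
  p = 2 → ∀ (co : ι → R) (g : MvPolynomial ι R), CoefW p co g → ∀ (s : ι) (c : ι → ℕ) (β : R),
  SpZ p g s c β → ∀ Z : Finset ι, (∀ i, i ∈ Z ↔ c i = 0) → ∀ d : ι, s ≠ d → d ∉ Z →
  ∃ (Q : KT Z s d → KT Z s d → R) (A : Polynomial R) (l : TT Z s d → Polynomial R),
    ExpE p g c Z s d β A l Q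

/-- EXPLE. -/
def S_EXPLE : Prop := ∀ {R ι : Type} [CommRing R] [IsDomain R] [Fintype ι] [DecidableEq ι] (p : ℕ),
  p = 2 → ∀ (co : ι → R) (g : MvPolynomial ι R), CoefW p co g → ∀ (s : ι) (c : ι → ℕ) (β : R),
  SpZ p g s c β → ∀ Z : Finset ι, (∀ i, i ∈ Z ↔ c i = 0) → ∀ d : ι, s ≠ d → d ∉ Z →
  ∀ {B : Type} [CommRing B] [Algebra R B] (a b : B) (v : TT Z s d → B) (w : ZT Z → B),
  (p : B) = a → ∃ (v₁ : B) (μ : TT Z s d → B) (μ' : ZT Z → B),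
    TotZ p 0 g c Z s d a b v w = a * v₁ + ∑ k, v k * μ k + ∑ z, w z * μ' z ∧
    v₁ - (b ^ 2 + b + algebraMap R B β) ∈ Ideal.span ({a} ∪ Set.range v ∪ Set.range w)

/-! ### Tables -/

/-- TB2. -/
def S_TB2 : Prop := ∀ {R F ι : Type} [CommRing R] [Field F] [Algebra R F] [Fintype ι]
  (𝒲 : Subalgebra R F) (𝒪 : Subring F) (p e j : ℕ) (x t : ι → F) (s : ι) (a b : F), p = 2 →
  CtxZ 𝒲 𝒪 p e j x t s a b → ∀ (s' : ι) (c : ι → ℕ) (β : F), β ∈ 𝒲 →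
  (1 ≤ j ∨ U 𝒪 (b ^ 2 + b * t s' + β * t s' ^ 2) ∨ ∃ i, U 𝒪 (t i - (c i : F) * t s')) →
  PrinB 𝒲 𝒪 (B2 p e x t s' c β) ((p : F) ^ 2)

/-- XB2. -/
def S_XB2 : Prop := ∀ {R F ι : Type} [CommRing R] [Field F] [Algebra R F] [Fintype ι]
  [DecidableEq ι] (𝒲 : Subalgebra R F) (𝒪 : Subring F) (p e : ℕ) (x t : ι → F) (s d : ι)
  (a b : F), p = 2 → CtxZ 𝒲 𝒪 p e 0 x t s a b → s ≠ d → ∀ c : ι → ℕ, p ∣ ∑ i, c i → c s = 1 →
  ∀ Z : Finset ι, (∀ i, i ∈ Z ↔ c i = 0) → d ∉ Z →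
  ∀ (β : R) (A : Polynomial R) (l : TT Z s d → Polynomial R),
  ExcB' 𝒲 𝒪 (B2 p e x t s c (algebraMap R F β)) ((p : F) ^ 2)
    (Set.range (zq a (Gam β A l a b (fun k => t k - (c k : F))) t c : KT Z s d → F))
    (Yc x c) e

/-- BLS1'. -/
def S_BLS1' : Prop := ∀ {R F : Type} [CommRing R] [Field F] [Algebra R F] (𝒪 : Subring F),
  IsLoc 𝒪 → ∀ 𝒲 : Subalgebra R F, (∀ w ∈ 𝒲, w ∈ 𝒪) → ∀ Φ Ψ : Set F, Pr 𝒪 Φ →
  ExcS' 𝒲 𝒪 Φ Ψ → Pr 𝒪 Ψ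

/-- BLS2'. -/
def S_BLS2' : Prop := ∀ {R F : Type} [CommRing R] [Field F] [Algebra R F] (𝒪 : Subring F),
  IsLoc 𝒪 → ∀ (𝒲 𝒲' : Subalgebra R F), (∀ w ∈ 𝒲', w ∈ 𝒪) → 𝒲 ≤ 𝒲' → ∀ Φ Ψ : Set F,
  Prin 𝒲' 𝒪 Ψ → ExcS' 𝒲 𝒪 Φ Ψ → Prin 𝒲' 𝒪 Φ

/-- EN'. -/
def S_EN' : Prop := ∀ {R F : Type} [CommRing R] [Field F] [Algebra R F] (𝒲 : Subalgebra R F)
  (𝒪 : Subring F), (∀ w ∈ 𝒲, w ∈ 𝒪) → ∀ (B Q V Y : Set F) (μ : F) (e n k : ℕ), μ ≠ 0 →
  (∀ y ∈ V, y ∈ 𝒲) → (∀ y ∈ Y, y ∈ 𝒲) → (1 : F) ∈ V → ExcB' 𝒲 𝒪 B μ Q Y e → k ≤ e →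
  ExcS' 𝒲 𝒪 (Nd B μ V Y n k) (NS Q Y k)

/-- EC'. -/
def S_EC' : Prop := ∀ {R F : Type} [CommRing R] [Field F] [Algebra R F] (𝒲 : Subalgebra R F)
  (𝒪 : Subring F), (∀ w ∈ 𝒲, w ∈ 𝒪) → ∀ (B Q V Y : Set F) (μ f : F) (n h : ℕ), μ ≠ 0 →
  (∀ y ∈ V, y ∈ 𝒲) → (∀ y ∈ Y, y ∈ 𝒲) → (1 : F) ∈ V → ExcB' 𝒲 𝒪 B μ Q Y (2 * h + 1) →
  (∀ q ∈ Q, q ∈ 𝒲) → ExcS' 𝒲 𝒪 (Cd B μ f V Y n h) (CS Q Y f h)

/-- SCE. -/
def S_SCE : Prop := ∀ {R F ι : Type} [CommRing R] [Field F] [Algebra R F] [Fintype ι]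
  [LinearOrder ι] (p e h : ℕ), 1 ≤ p → 1 ≤ h → e = 2 * h + 1 →
  ∀ (g : MvPolynomial ι R) (ξ t : ι → F) (lam Lam : F) (ν : Rˣ), lam ≠ 0 →
  Lam = lam ^ e * algebraMap R F ν →
  (∀ Φ, IsFacE p e h g (fun i => lam * ξ i) (fun i => Lam * t i) Φ →
    ∃ Φ', IsFacE p e h g ξ t Φ' ∧ Sim R Φ Φ') ∧
  ∀ Φ', IsFacE p e h g ξ t Φ' →
    ∃ Φ, IsFacE p e h g (fun i => lam * ξ i) (fun i => Lam * t i) Φ ∧ Sim R Φ Φ'

/-! ### Presentations -/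

/-- PREW. -/
def S_PREW : Prop := ∀ {R F ι W A : Type} [CommRing R] [IsDomain R] [IsDiscreteValuationRing R]
  [Field F] [Algebra R F] [Fintype ι] [DecidableEq ι] [CommRing W] [Algebra R W] [CommRing A]
  [Algebra R A] (𝒪 : Subring F) (p e j : ℕ) (co r : ι → R) (g : MvPolynomial ι R)
  (Z : Finset ι) (y : ι → F) (s : ι) (a b : F), DataW 𝒪 p e j co r g Z y s a b →
  ∀ (pr : W →ₐ[R] A), Function.Surjective pr →
  ∀ eW : W →ₐ[R] F, (∀ w, pr w = 0 → eW w = 0) → (∀ w, eW w ∈ 𝒪) →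
  IsLocOf 𝒪 (eW.range : Set F) → ∀ (Y : ι → W) (a' b' : W), (∀ i, eW (Y i) = y i) → eW a' = a →
  eW b' = b → Y s = 1 → pr (∑ i, Tz Z r e Y i) = pr (a' * b') →
  pr (p : W) = pr (a' ^ (j + 1) * b' ^ j) →
  pr (aeval (Tz Z r e Y) g + a' ^ (p - 1 - j) * b' ^ (p - j)) = 0 →
  (∀ w, Frc pr eW (fun i : {i : ι // i ≠ s} => Y i) w) →
  (∀ (q : Ideal A) [q.IsPrime], (∀ w, pr w ∈ q ↔ ¬ U 𝒪 (eW w)) →
    IsRegularLocalRing (Localization.AtPrime q)) → IsRegularLocalRing 𝒪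

/-- FABW. -/
def S_FABW : Prop := ∀ {R F ι W A : Type} [CommRing R]
  [Field F] [Algebra R F] [Fintype ι] [DecidableEq ι] [CommRing W] [Algebra R W] [CommRing A]
  [Algebra R A] (𝒪 : Subring F) (p e j : ℕ) (co r : ι → R) (g : MvPolynomial ι R)
  (Z : Finset ι) (y : ι → F) (s : ι) (a b : F), DataW 𝒪 p e j co r g Z y s a b →
  ∀ (pr : W →ₐ[R] A) (eW : W →ₐ[R] F),
  (∀ w, pr w = 0 → eW w = 0) → ∀ (Y : ι → W) (a' b' : W), (∀ i, eW (Y i) = y i) → eW a' = a →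
  eW b' = b → Y s = 1 → pr (∑ i, Tz Z r e Y i) = pr (a' * b') →
  pr (p : W) = pr (a' ^ (j + 1) * b' ^ j) →
  Frc pr eW (fun i : {i : ι // i ≠ s} => Y i) a' ∧ Frc pr eW (fun i : {i : ι // i ≠ s} => Y i) b' ∧
    ∀ i, Frc pr eW (fun i : {i : ι // i ≠ s} => Y i) (Y i)

/-- CH1W. -/
def S_CH1W : Prop := ∀ {R F ι : Type} [CommRing R] [IsDomain R] [IsDiscreteValuationRing R]
  [Field F] [Algebra R F] [Fintype ι] [DecidableEq ι] (𝒪 : Subring F) (p e j : ℕ) (co r : ι → R)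
  (g : MvPolynomial ι R) (Z : Finset ι) (y : ι → F) (s d : ι) (a b : F),
  DataW 𝒪 p e j co r g Z y s a b → s ≠ d → d ∉ Z →
  IsLocOf 𝒪 (Algebra.adjoin R ({a, b} ∪ Set.range y) : Set F) →
  (j + 1 = p ∨ ∃ i, i ∉ Z ∧ i ≠ s ∧ i ≠ d ∧ U 𝒪 (y i ^ (p - 1) - y d ^ (p - 1))) →
  IsRegularLocalRing 𝒪

/-- CH2E. -/
def S_CH2E : Prop := ∀ {R F ι : Type} [CommRing R] [IsDomain R] [IsDiscreteValuationRing R]
  [Field F] [Algebra R F] [Fintype ι] [DecidableEq ι] (𝒪 : Subring F) (p e : ℕ) (co r : ι → R)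
  (g : MvPolynomial ι R) (Z : Finset ι) (y : ι → F) (s d : ι) (a b : F), p = 2 →
  DataW 𝒪 p e 0 co r g Z y s a b → s ≠ d → d ∉ Z →
  ∀ (c : ι → ℕ) (β : R), SpZ p g s c β → (∀ i, i ∈ Z ↔ c i = 0) →
  IsLocOf 𝒪 (Algebra.adjoin R ({a, b} ∪ Set.range y) : Set F) →
  (∀ i, i ∉ Z → ¬ U 𝒪 (y i - (c i : F))) → U 𝒪 (b ^ 2 + b + algebraMap R F β) →
  IsRegularLocalRing 𝒪

/-- QPREE. -/
def S_QPREE : Prop := ∀ {R F ι W A : Type} [CommRing R] [IsDomain R] [IsDiscreteValuationRing R]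
  [Field F] [Algebra R F] [Fintype ι] [DecidableEq ι] [CommRing W] [Algebra R W] [CommRing A]
  [Algebra R A] (𝒪 : Subring F) (p e h : ℕ)
  (co r : ι → R) (g : MvPolynomial ι R) (Z : Finset ι) (y : ι → F) (s d : ι) (a b : F)
  (c : ι → ℕ) (β : R) (A' : Polynomial R) (l : TT Z s d → Polynomial R),
  QCtxE 𝒪 p e h co r g Z y s d a b c β A' l →
  ∀ (pr : W →ₐ[R] A), Function.Surjective pr →
  ∀ eW : W →ₐ[R] F, (∀ w, pr w = 0 → eW w = 0) → (∀ w, eW w ∈ 𝒪) →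
  IsLocOf 𝒪 (eW.range : Set F) → ∀ (Yq : KT Z s d → W) (Yy : ZT Z → W) (b' : W),
  (∀ m, eW (Yq m) =
    (zq a (Gam β A' l a b (fun k => y k - (c k : F))) y c : KT Z s d → F) m) →
  (∀ z : ZT Z, eW (Yy z) = y z) → eW b' = b →
  pr (p : W) = pr (Yq none) →
  pr (Yq (some none)) = pr (Gam β A' l (Yq none) b' (fun k => Yq (some (some k)))) →
  pr (TotZ p 0 g c Z s d (Yq none) b'
    (fun k => Yq (some (some k))) (fun z => algebraMap R W (r z) * Yy z ^ e)) = 0 →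
  Gen pr eW (Set.range Yq ∪ Set.range Yy ∪ {b'}) →
  (∀ (q : Ideal A) [q.IsPrime], (∀ w, pr w ∈ q ↔ ¬ U 𝒪 (eW w)) →
    IsRegularLocalRing (Localization.AtPrime q)) → IsRegularLocalRing 𝒪

/-- QTFE. -/
def S_QTFE : Prop := ∀ {R F ι : Type} [CommRing R] [IsDomain R] [IsDiscreteValuationRing R]
  [Field F] [Algebra R F] [Fintype ι] [DecidableEq ι] (𝒪 : Subring F) (p e h : ℕ)
  (co r : ι → R) (g : MvPolynomial ι R) (Z : Finset ι) (y : ι → F) (s d : ι) (a b : F)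
  (c : ι → ℕ) (β : R) (A : Polynomial R) (l : TT Z s d → Polynomial R),
  QCtxE 𝒪 p e h co r g Z y s d a b c β A l →
  ∀ (q : KT Z s d → F), q = zq a (Gam β A l a b (fun k => y k - (c k : F))) y c →
  q none ≠ 0 ∧ (p : F) = q none ∧
  q (some none) = Gam β A l (q none) b (fun k => q (some (some k))) ∧
  TotZ p 0 g c Z s d (q none) b
    (fun k => q (some (some k))) (fun z : ZT Z => algebraMap R F (r z) * y z ^ e) = 0

/-- QE1. -/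
def S_QE1 : Prop := ∀ {R F ι : Type} [CommRing R] [IsDomain R] [IsDiscreteValuationRing R]
  [Field F] [Algebra R F] [Fintype ι] [DecidableEq ι] (𝒪 : Subring F) (p e h : ℕ)
  (co r : ι → R) (g : MvPolynomial ι R) (Z : Finset ι) (y : ι → F) (s d : ι) (a b : F)
  (c : ι → ℕ) (β : R) (A : Polynomial R) (l : TT Z s d → Polynomial R)
  (Q : KT Z s d → KT Z s d → R),
  QCtxE 𝒪 p e h co r g Z y s d a b c β A l → ExpE p g c Z s d β A l Q →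
  ∀ (q : KT Z s d → F) (η : ZT Z → F),
  q = zq a (Gam β A l a b (fun k => y k - (c k : F))) y c → η = (fun z : ZT Z => y z) →
  ∀ l', C1 𝒪 q η l' → IsLocOf 𝒪 (Algebra.adjoin R (insert b (G1 q η l')) : Set F) →
  IsRegularLocalRing 𝒪

/-- QE2. -/
def S_QE2 : Prop := ∀ {R F ι : Type} [CommRing R] [IsDomain R] [IsDiscreteValuationRing R]
  [Field F] [Algebra R F] [Fintype ι] [DecidableEq ι] (𝒪 : Subring F) (p e h : ℕ)
  (co r : ι → R) (g : MvPolynomial ι R) (Z : Finset ι) (y : ι → F) (s d : ι) (a b : F)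
  (c : ι → ℕ) (β : R) (A : Polynomial R) (l : TT Z s d → Polynomial R)
  (Q : KT Z s d → KT Z s d → R),
  QCtxE 𝒪 p e h co r g Z y s d a b c β A l → ExpE p g c Z s d β A l Q →
  ∀ (q : KT Z s d → F) (η : ZT Z → F),
  q = zq a (Gam β A l a b (fun k => y k - (c k : F))) y c → η = (fun z : ZT Z => y z) →
  ∀ k z₀ l', 1 ≤ k → k < h → C2 𝒪 q η k z₀ l' →
  IsLocOf 𝒪 (Algebra.adjoin R (insert b (G2 q η k z₀ l')) : Set F) → IsRegularLocalRing 𝒪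

/-- QE3. -/
def S_QE3 : Prop := ∀ {R F ι : Type} [CommRing R] [IsDomain R] [IsDiscreteValuationRing R]
  [Field F] [Algebra R F] [Fintype ι] [DecidableEq ι] (𝒪 : Subring F) (p e h : ℕ)
  (co r : ι → R) (g : MvPolynomial ι R) (Z : Finset ι) (y : ι → F) (s d : ι) (a b : F)
  (c : ι → ℕ) (β : R) (A : Polynomial R) (l : TT Z s d → Polynomial R)
  (Q : KT Z s d → KT Z s d → R),
  QCtxE 𝒪 p e h co r g Z y s d a b c β A l → ExpE p g c Z s d β A l Q →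
  ∀ (q : KT Z s d → F) (η : ZT Z → F),
  q = zq a (Gam β A l a b (fun k => y k - (c k : F))) y c → η = (fun z : ZT Z => y z) →
  ∀ k z₀, 1 ≤ k → k ≤ h → C3 𝒪 q η k z₀ →
  (∃ m, U 𝒪 (q m / η z₀ ^ k)) →
  IsLocOf 𝒪 (Algebra.adjoin R (insert b (G3 q η k z₀)) : Set F) → IsRegularLocalRing 𝒪

/-- QE4. -/
def S_QE4 : Prop := ∀ {R F ι : Type} [CommRing R] [IsDomain R] [IsDiscreteValuationRing R]
  [Field F] [Algebra R F] [Fintype ι] [DecidableEq ι] (𝒪 : Subring F) (p e h : ℕ)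
  (co r : ι → R) (g : MvPolynomial ι R) (Z : Finset ι) (y : ι → F) (s d : ι) (a b : F)
  (c : ι → ℕ) (β : R) (A : Polynomial R) (l : TT Z s d → Polynomial R)
  (Q : KT Z s d → KT Z s d → R),
  QCtxE 𝒪 p e h co r g Z y s d a b c β A l → ExpE p g c Z s d β A l Q →
  ∀ (q : KT Z s d → F) (η : ZT Z → F),
  q = zq a (Gam β A l a b (fun k => y k - (c k : F))) y c → η = (fun z : ZT Z => y z) →
  ∀ f : F, f = fY η (fun z : ZT Z => r z) e →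
  ∀ z₀ k₁, C3 𝒪 q η h z₀ → (∀ k, ¬ U 𝒪 (zst q η f h e z₀ k)) →
  zst q η f h e z₀ k₁ ≠ 0 → (∀ k, zst q η f h e z₀ k / zst q η f h e z₀ k₁ ∈ 𝒪) →
  IsLocOf 𝒪 (Algebra.adjoin R (insert b (G4 q η f h e z₀ k₁)) : Set F) → IsRegularLocalRing 𝒪

/-- QE5. -/
def S_QE5 : Prop := ∀ {R F ι : Type} [CommRing R] [IsDomain R] [IsDiscreteValuationRing R]
  [Field F] [Algebra R F] [Fintype ι] [DecidableEq ι] (𝒪 : Subring F) (p e h : ℕ)
  (co r : ι → R) (g : MvPolynomial ι R) (Z : Finset ι) (y : ι → F) (s d : ι) (a b : F)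
  (c : ι → ℕ) (β : R) (A : Polynomial R) (l : TT Z s d → Polynomial R)
  (Q : KT Z s d → KT Z s d → R),
  QCtxE 𝒪 p e h co r g Z y s d a b c β A l → ExpE p g c Z s d β A l Q →
  ∀ (q : KT Z s d → F) (η : ZT Z → F),
  q = zq a (Gam β A l a b (fun k => y k - (c k : F))) y c → η = (fun z : ZT Z => y z) →
  ∀ f : F, f = fY η (fun z : ZT Z => r z) e →
  ∀ z₀, C3 𝒪 q η h z₀ → (∀ m, ¬ U 𝒪 (q m / η z₀ ^ h)) →
  U 𝒪 (f / η z₀ ^ e) →
  IsLocOf 𝒪 (Algebra.adjoin R (insert b (G3 q η h z₀)) : Set F) → IsRegularLocalRing 𝒪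

/-! ### Local theorem and family -/

/-- The local situation, `p = 2`. -/
structure LocE {R F ι : Type} [CommRing R] [Field F] [Algebra R F] [Fintype ι]
    (𝒪 : Subring F) (p e h : ℕ) (co u : ι → R) (g : MvPolynomial ι R) (x : ι → F) : Prop where
  two : p = 2
  loc : IsLoc 𝒪
  hR : ∀ r : R, algebraMap R F r ∈ 𝒪
  coef : CoefW p co g
  irr : Irreducible (p : R)
  pU : ¬ U 𝒪 (p : F)
  p0 : (p : F) ≠ 0
  hh : 1 ≤ h
  heh : e = 2 * h + 1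
  heU : IsUnit (e : R)
  hu : ∀ i, IsUnit (u i)
  rel : ∑ i, algebraMap R F (co i) * (algebraMap R F (u i) * x i ^ e) ^ p = 0
  sum : ∑ i, algebraMap R F (u i) * x i ^ e ≠ 0
  hind : ∀ s, x s ≠ 0 → ∃ j₀ : {i : ι // i ≠ s},
    AlgebraicIndependent R (fun i : {i : {i : ι // i ≠ s} // i ≠ j₀} => x i / x s)

/-- LOCE. -/
def S_LOCE : Prop := ∀ {R F ι κ : Type} [CommRing R] [IsDomain R] [IsDiscreteValuationRing R]
  [Field F] [Algebra R F] [Fintype ι] [LinearOrder ι] [Fintype κ] (𝒪 : Subring F) (p e h : ℕ)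
  (co u : ι → R) (g : MvPolynomial ι R) (x : ι → F), LocE 𝒪 p e h co u g x →
  ∀ Φ : κ → Set F,
  Set.range Φ = {S | IsFacE p e h g x (fun i => algebraMap R F (u i) * x i ^ e) S} →
  ∀ f : F, f ≠ 0 → f ∈ Submodule.span R (∏ k, Φ k) → (∀ h ∈ ∏ k, Φ k, h / f ∈ 𝒪) →
  IsLocOf 𝒪 (chart R (Submodule.span R (∏ k, Φ k)) f) → IsRegularLocalRing 𝒪

/-- DEGE. -/
def S_DEGE : Prop := ∀ {R F ι : Type} [CommRing R] [Field F] [Algebra R F] [Fintype ι]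
  [LinearOrder ι] (p e h : ℕ), 1 ≤ p → 1 ≤ h → e = 2 * h + 1 →
  ∀ (g : MvPolynomial ι R) (x : ι → F) (u : ι → R) (S : Set F),
  IsFacE p e h g x (fun i => algebraMap R F (u i) * x i ^ e) S → ∃ d, HasDeg R p x S d

/-- FINE. -/
def S_FINE : Prop := ∀ {R F ι : Type} [CommRing R] [IsDomain R] [Field F] [Algebra R F] [Fintype ι]
  [LinearOrder ι] (p e h : ℕ), (p : R) ≠ 0 → ∀ (g : MvPolynomial ι R) (x X : ι → F),
  {S | IsFacE p e h g x X S}.Finite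

/-- The existence of local modules in all large degrees. -/
def LocMod {O F : Type} [CommRing O] [Field F] [Algebra O F] (𝔭 : Ideal O) {ι : Type}
    (x : ι → F) : Prop :=
  ∃ D₀ : ℕ, ∀ D, D₀ ≤ D →
  ∃ P : Submodule O F, (∀ y ∈ P, ∃ s, s ∉ 𝔭 ∧ s • y ∈ Submodule.span O (Set.range x ^ D)) ∧
    (∃ k : ℕ, ∀ c ∈ 𝔭 ^ k, ∀ y ∈ Submodule.span O (Set.range x ^ D), c • y ∈ P) ∧
    ∀ M : Submodule O F, M ≤ P → (∀ y ∈ P, ∃ s, s ∉ 𝔭 ∧ s • y ∈ M) → RegAt 𝔭 M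

/-- BADE. The local modules at the dyadic primes. -/
def S_BADE : Prop := ∀ {O R K F : Type} [CommRing O] [IsDomain O] [CommRing R] [IsDomain R]
  [Field K] [Field F] [Algebra O R] [Algebra R K] [Algebra O F] [Algebra R F] [Algebra K F]
  [IsScalarTower O R F] [IsScalarTower R K F] (𝔭 : Ideal O) [𝔭.IsPrime]
  [IsLocalization.AtPrime R 𝔭] [IsDiscreteValuationRing R]
  [Finite (IsLocalRing.ResidueField R)] [CharZero K] [IsFractionRing R K] {n : ℕ} (p e : ℕ),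
  p = 2 → Irreducible (p : R) → 3 ≤ e → Odd e → IsUnit (e : R) → ∀ a : Fin (n + 2) → O,
  (∀ i, IsUnit (algebraMap O R (a i))) → ∀ x : Fin (n + 2) → F, x 0 = 1 →
  ∑ i, algebraMap O F (a i) * x i ^ (p * e) = 0 →
  IntermediateField.adjoin K (Set.range x) = ⊤ → LinearIndependent K (fun i => x i ^ e) →
  ∀ b : Fin n → F, IsTranscendenceBasis K b → LocMod 𝔭 x

/-- GLOG. Gluing. -/
def S_GLOG : Prop := ∀ {O K F : Type} [CommRing O] [IsDedekindDomain O] [Field K] [Algebra O K]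
  [IsFractionRing O K] [Field F] [Algebra K F] [Algebra O F] [IsScalarTower O K F] {n : ℕ}
  (x : Fin (n + 2) → F), x 0 = 1 → IntermediateField.adjoin K (Set.range x) = ⊤ →
  ∀ S : Finset (Ideal O), (∀ 𝔭 ∈ S, 𝔭.IsMaximal ∧ 𝔭 ≠ ⊥) → (∀ 𝔭 ∈ S, LocMod 𝔭 x) →
  (∀ 𝔭 : Ideal O, 𝔭.IsPrime → 𝔭 ∉ S → ∀ D : ℕ, 1 ≤ D → ∀ M : Submodule O F,
    M ≤ Submodule.span O (Set.range x ^ D) →
    (∀ y ∈ Submodule.span O (Set.range x ^ D), ∃ s, s ∉ 𝔭 ∧ s • y ∈ M) → RegAt 𝔭 M) →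
  HasModule O F

end Pool.Agent.H945R2.E
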