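import Pool.Agent.H945R2.E.Props

/-! Statements of the tasks (MP_4d1008_ag), tame primes (squarefree coefficients). -/

set_option autoImplicit false

open scoped Pointwise

namespace Pool.Agent.H945R2.E

open Pool.Agent.H918R2.Quad Pool.Agent.H945R2.D Pool.Agent.H945R2.S MvPolynomial

/-- The form in the coordinates outside `Z`. -/
def phT {R F ι : Type} [CommRing R] [Field F] [Algebra R F] [Fintype ι] [DecidableEq ι] (m : ℕ)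
    (b : ι → R) (Z : Finset ι) (x : ι → F) : F :=
  ∑ i, if i ∈ Z then 0 else algebraMap R F (b i) * x i ^ m

/-- TT1. The factors at the non exceptional points. -/
def S_TT1 : Prop := ∀ {R F ι : Type} [CommRing R] [Field F] [Algebra R F] [Fintype ι]
  [DecidableEq ι] (𝒲 : Subalgebra R F) (𝒪 : Subring F), IsLoc 𝒪 → (∀ w ∈ 𝒲, w ∈ 𝒪) →
  ∀ m h : ℕ, 1 ≤ h → (m = 2 * h ∨ m = 2 * h + 1) → ∀ (ϖ : R) (b : ι → R) (Z : Finset ι)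
  (x : ι → F) (s : ι), (∀ i, x i ∈ 𝒲) → x s = 1 →
  ((∃ i ∈ Z, U 𝒪 (x i)) ∨ U 𝒪 (phT m b Z x)) →
  ∀ S, IsFacT ϖ m h b Z x S → Prin 𝒲 𝒪 S

/-- XBT. The base factor at the exceptional points. -/
def S_XBT : Prop := ∀ {R F ι : Type} [CommRing R] [Field F] [Algebra R F] [Fintype ι]
  [DecidableEq ι] (𝒲 : Subalgebra R F) (𝒪 : Subring F) (m : ℕ) (ϖ : R) (b : ι → R)
  (Z : Finset ι) (x : ι → F) (s : ι), (∀ w ∈ 𝒲, w ∈ 𝒪) → (∀ i, x i ∈ 𝒲) → x s = 1 →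
  ExcB 𝒲 𝒪 (BT ϖ m b Z x) 1 (Set.range (qT ϖ (phT m b Z x))) (YT Z x) m

/-- GT. Regularity at the non exceptional points. -/
def S_GT : Prop := ∀ {R F ι : Type} [CommRing R] [IsDomain R] [IsDiscreteValuationRing R]
  [Field F] [Algebra R F] [Fintype ι] [DecidableEq ι] (𝒪 : Subring F), IsLoc 𝒪 →
  (∀ r : R, algebraMap R F r ∈ 𝒪) → ∀ m : ℕ, IsUnit (m : R) → 2 ≤ m → ∀ ϖ : R, Irreducible ϖ →
  ¬ U 𝒪 (algebraMap R F ϖ) → ∀ b : ι → R, (∀ i, IsUnit (b i)) → ∀ (Z : Finset ι) (y : ι → F)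
  (s : ι), y s = 1 → (∀ i, y i ∈ 𝒪) →
  (∑ z : ZT Z, algebraMap R F (b z) * y z ^ m) + algebraMap R F ϖ * phT m b Z y = 0 →
  (∃ j₀ : {i : ι // i ≠ s},
    AlgebraicIndependent R (fun i : {i : {i : ι // i ≠ s} // i ≠ j₀} => y i)) →
  IsLocOf 𝒪 (Algebra.adjoin R (Set.range y) : Set F) →
  ((∃ i ∈ Z, U 𝒪 (y i)) ∨ U 𝒪 (phT m b Z y)) → IsRegularLocalRing 𝒪

/-- SCT. Homogeneity of the factors. -/
def S_SCT : Prop := ∀ {R F ι : Type} [CommRing R] [Field F] [Algebra R F] [Fintype ι]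
  [DecidableEq ι] (m h : ℕ), 1 ≤ h → (m = 2 * h ∨ m = 2 * h + 1) →
  ∀ (ϖ : R) (b : ι → R) (Z : Finset ι) (ξ : ι → F) (lam : F), lam ≠ 0 →
  (∀ Φ, IsFacT ϖ m h b Z (fun i => lam * ξ i) Φ →
    ∃ Φ', IsFacT ϖ m h b Z ξ Φ' ∧ Sim R Φ Φ') ∧
  ∀ Φ', IsFacT ϖ m h b Z ξ Φ' →
    ∃ Φ, IsFacT ϖ m h b Z (fun i => lam * ξ i) Φ ∧ Sim R Φ Φ'

/-- HIND. Exchange of algebraically independent families. -/
def S_HIND : Prop := ∀ {R F σ τ : Type} [CommRing R] [IsDomain R] [Field F] [Algebra R F]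
  [Fintype σ] [Fintype τ] (x : σ → F) (y : τ → F), Fintype.card τ = Fintype.card σ + 1 →
  AlgebraicIndependent R x → (∀ i, IsAlgebraic (Algebra.adjoin R (Set.range y)) (x i)) →
  ∃ j₁ : τ, AlgebraicIndependent R (fun j : {j : τ // j ≠ j₁} => y j)

/-- DINDT. -/
def S_DINDT : Prop := ∀ {R F ι : Type} [CommRing R] [IsDomain R] [Field F] [Algebra R F]
  [Fintype ι] [DecidableEq ι] (m : ℕ), 1 ≤ m → ∀ (b : ι → R) (Z : Finset ι) (y : ι → F)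
  (s d : ι), s ≠ d → d ∉ Z → s ∉ Z → y s = 1 → b d ≠ 0 →
  (∃ j₀ : {i : ι // i ≠ s},
    AlgebraicIndependent R (fun i : {i : {i : ι // i ≠ s} // i ≠ j₀} => y i)) →
  ∃ j₀ : Option {i : ι // i ≠ s ∧ i ≠ d},
    AlgebraicIndependent R (fun j : {j : Option {i : ι // i ≠ s ∧ i ≠ d} // j ≠ j₀} =>
      cT y (phT m b Z y) (j : Option {i : ι // i ≠ s ∧ i ≠ d}))

/-- NZT. The form `φ` does not vanish. -/
def S_NZT : Prop := ∀ {R F ι : Type} [CommRing R] [IsDomain R] [Field F] [Algebra R F]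
  [Fintype ι] [DecidableEq ι] (m : ℕ), 1 ≤ m → ∀ (ϖ : R) (b : ι → R), (∀ i, b i ≠ 0) →
  ∀ (Z : Finset ι) (y : ι → F) (s : ι), s ∉ Z → Z.Nonempty → y s = 1 →
  (∑ z : ZT Z, algebraMap R F (b z) * y z ^ m) + algebraMap R F ϖ * phT m b Z y = 0 →
  (∃ j₀ : {i : ι // i ≠ s},
    AlgebraicIndependent R (fun i : {i : {i : ι // i ≠ s} // i ≠ j₀} => y i)) →
  phT m b Z y ≠ 0

/-- QPRET. Regularity from a presentation at a singular point. -/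
def S_QPRET : Prop := ∀ {R F ι W A : Type} [CommRing R] [IsDomain R] [IsDiscreteValuationRing R]
  [Field F] [Algebra R F] [Fintype ι] [DecidableEq ι] [CommRing W] [Algebra R W] [CommRing A]
  [Algebra R A] (𝒪 : Subring F) (m h : ℕ) (ϖ : R) (b : ι → R) (Z : Finset ι) (y : ι → F)
  (s d : ι) (φ : F), DataT 𝒪 m h ϖ b Z y s d φ →
  ∀ (pr : W →ₐ[R] A), Function.Surjective pr →
  ∀ eW : W →ₐ[R] F, (∀ w, pr w = 0 → eW w = 0) → (∀ w, eW w ∈ 𝒪) →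
  IsLocOf 𝒪 (eW.range : Set F) → ∀ (Yf : W) (Yy : ZT Z → W) (Yt : TT Z s d → W), eW Yf = φ →
  (∀ z : ZT Z, eW (Yy z) = y z) → (∀ k : TT Z s d, eW (Yt k) = y k) →
  pr ((∑ z : ZT Z, algebraMap R W (b z) * Yy z ^ m) + algebraMap R W ϖ * Yf) = 0 →
  Gen pr eW ({Yf} ∪ Set.range Yy ∪ Set.range Yt) →
  (∀ (q : Ideal A) [q.IsPrime], (∀ w, pr w ∈ q ↔ ¬ U 𝒪 (eW w)) →
    IsRegularLocalRing (Localization.AtPrime q)) → IsRegularLocalRing 𝒪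

/-- QT1. -/
def S_QT1 : Prop := ∀ {R F ι : Type} [CommRing R] [IsDomain R] [IsDiscreteValuationRing R]
  [Field F] [Algebra R F] [Fintype ι] [DecidableEq ι] (𝒪 : Subring F) (m h : ℕ) (ϖ : R)
  (b : ι → R) (Z : Finset ι) (y : ι → F) (s d : ι) (φ : F), DataT 𝒪 m h ϖ b Z y s d φ →
  ∀ (q : Bool → F) (η : ZT Z → F) (t : TT Z s d → F), q = qT ϖ φ →
  η = (fun z : ZT Z => y z) → t = (fun k : TT Z s d => y k) → ∀ l, C1 𝒪 q η l →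
  IsLocOf 𝒪 (Algebra.adjoin R (G1 q η l ∪ Set.range t) : Set F) → IsRegularLocalRing 𝒪

/-- QT2. -/
def S_QT2 : Prop := ∀ {R F ι : Type} [CommRing R] [IsDomain R] [IsDiscreteValuationRing R]
  [Field F] [Algebra R F] [Fintype ι] [DecidableEq ι] (𝒪 : Subring F) (m h : ℕ) (ϖ : R)
  (b : ι → R) (Z : Finset ι) (y : ι → F) (s d : ι) (φ : F), DataT 𝒪 m h ϖ b Z y s d φ →
  ∀ (q : Bool → F) (η : ZT Z → F) (t : TT Z s d → F), q = qT ϖ φ →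
  η = (fun z : ZT Z => y z) → t = (fun k : TT Z s d => y k) → ∀ k z₀ l, 1 ≤ k → k < h →
  C2 𝒪 q η k z₀ l →
  IsLocOf 𝒪 (Algebra.adjoin R (G2 q η k z₀ l ∪ Set.range t) : Set F) → IsRegularLocalRing 𝒪

/-- QT3. -/
def S_QT3 : Prop := ∀ {R F ι : Type} [CommRing R] [IsDomain R] [IsDiscreteValuationRing R]
  [Field F] [Algebra R F] [Fintype ι] [DecidableEq ι] (𝒪 : Subring F) (m h : ℕ) (ϖ : R)
  (b : ι → R) (Z : Finset ι) (y : ι → F) (s d : ι) (φ : F), DataT 𝒪 m h ϖ b Z y s d φ →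
  ∀ (q : Bool → F) (η : ZT Z → F) (t : TT Z s d → F), q = qT ϖ φ →
  η = (fun z : ZT Z => y z) → t = (fun k : TT Z s d => y k) → ∀ k z₀, 1 ≤ k → k ≤ h →
  (k < h ∨ m = 2 * h + 1) → C3 𝒪 q η k z₀ → (∃ u, U 𝒪 (q u / η z₀ ^ k)) →
  IsLocOf 𝒪 (Algebra.adjoin R (G3 q η k z₀ ∪ Set.range t) : Set F) → IsRegularLocalRing 𝒪

/-- QT4. -/
def S_QT4 : Prop := ∀ {R F ι : Type} [CommRing R] [IsDomain R] [IsDiscreteValuationRing R]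
  [Field F] [Algebra R F] [Fintype ι] [DecidableEq ι] (𝒪 : Subring F) (m h : ℕ) (ϖ : R)
  (b : ι → R) (Z : Finset ι) (y : ι → F) (s d : ι) (φ : F), DataT 𝒪 m h ϖ b Z y s d φ →
  ∀ (q : Bool → F) (η : ZT Z → F) (t : TT Z s d → F), q = qT ϖ φ →
  η = (fun z : ZT Z => y z) → t = (fun k : TT Z s d => y k) →
  ∀ f : F, f = fY η (fun z : ZT Z => b z) m →
  ∀ z₀ k₁, m = 2 * h + 1 → C3 𝒪 q η h z₀ → (∀ k, ¬ U 𝒪 (zst q η f h m z₀ k)) →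
  zst q η f h m z₀ k₁ ≠ 0 → (∀ k, zst q η f h m z₀ k / zst q η f h m z₀ k₁ ∈ 𝒪) →
  IsLocOf 𝒪 (Algebra.adjoin R (G4 q η f h m z₀ k₁ ∪ Set.range t) : Set F) →
  IsRegularLocalRing 𝒪

/-- QT5. -/
def S_QT5 : Prop := ∀ {R F ι : Type} [CommRing R] [IsDomain R] [IsDiscreteValuationRing R]
  [Field F] [Algebra R F] [Fintype ι] [DecidableEq ι] (𝒪 : Subring F) (m h : ℕ) (ϖ : R)
  (b : ι → R) (Z : Finset ι) (y : ι → F) (s d : ι) (φ : F), DataT 𝒪 m h ϖ b Z y s d φ →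
  ∀ (q : Bool → F) (η : ZT Z → F) (t : TT Z s d → F), q = qT ϖ φ →
  η = (fun z : ZT Z => y z) → t = (fun k : TT Z s d => y k) →
  ∀ f : F, f = fY η (fun z : ZT Z => b z) m →
  ∀ z₀, m = 2 * h + 1 → C3 𝒪 q η h z₀ → (∀ u, ¬ U 𝒪 (q u / η z₀ ^ h)) →
  U 𝒪 (f / η z₀ ^ m) →
  IsLocOf 𝒪 (Algebra.adjoin R (G3 q η h z₀ ∪ Set.range t) : Set F) → IsRegularLocalRing 𝒪

/-- QT6. -/
def S_QT6 : Prop := ∀ {R F ι : Type} [CommRing R] [IsDomain R] [IsDiscreteValuationRing R]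
  [Field F] [Algebra R F] [Fintype ι] [DecidableEq ι] (𝒪 : Subring F) (m h : ℕ) (ϖ : R)
  (b : ι → R) (Z : Finset ι) (y : ι → F) (s d : ι) (φ : F), DataT 𝒪 m h ϖ b Z y s d φ →
  ∀ (q : Bool → F) (η : ZT Z → F) (t : TT Z s d → F), q = qT ϖ φ →
  η = (fun z : ZT Z => y z) → t = (fun k : TT Z s d => y k) → ∀ z₀, m = 2 * h →
  C3 𝒪 q η h z₀ →
  IsLocOf 𝒪 (Algebra.adjoin R (G3 q η h z₀ ∪ Set.range t) : Set F) → IsRegularLocalRing 𝒪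

/-! ### Local theorem and family -/

/-- The local situation, tame primes. -/
structure LocT {R F ι : Type} [CommRing R] [Field F] [Algebra R F] [Fintype ι] [DecidableEq ι]
    (𝒪 : Subring F) (m h : ℕ) (ϖ : R) (b : ι → R) (Z : Finset ι) (x : ι → F) : Prop where
  loc : IsLoc 𝒪
  hR : ∀ r : R, algebraMap R F r ∈ 𝒪
  irr : Irreducible ϖ
  hm : IsUnit (m : R)
  hh : 1 ≤ h
  hmh : m = 2 * h ∨ m = 2 * h + 1
  hb : ∀ i, IsUnit (b i)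
  ϖU : ¬ U 𝒪 (algebraMap R F ϖ)
  ϖ0 : algebraMap R F ϖ ≠ 0
  hZ : Z.Nonempty
  rel : (∑ z : ZT Z, algebraMap R F (b z) * x z ^ m) + algebraMap R F ϖ * phT m b Z x = 0
  hind : ∀ s, x s ≠ 0 → ∃ j₀ : {i : ι // i ≠ s},
    AlgebraicIndependent R (fun i : {i : {i : ι // i ≠ s} // i ≠ j₀} => x i / x s)

/-- LOCT. -/
def S_LOCT : Prop := ∀ {R F ι κ : Type} [CommRing R] [IsDomain R] [IsDiscreteValuationRing R]
  [Field F] [Algebra R F] [Fintype ι] [DecidableEq ι] [Fintype κ] (𝒪 : Subring F) (m h : ℕ)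
  (ϖ : R) (b : ι → R) (Z : Finset ι) (x : ι → F), LocT 𝒪 m h ϖ b Z x →
  ∀ Φ : κ → Set F, Set.range Φ = {S | IsFacT ϖ m h b Z x S} →
  ∀ f : F, f ≠ 0 → f ∈ Submodule.span R (∏ k, Φ k) → (∀ h ∈ ∏ k, Φ k, h / f ∈ 𝒪) →
  IsLocOf 𝒪 (chart R (Submodule.span R (∏ k, Φ k)) f) → IsRegularLocalRing 𝒪

/-- DEGT. -/
def S_DEGT : Prop := ∀ {R F ι : Type} [CommRing R] [Field F] [Algebra R F] [Fintype ι]
  [DecidableEq ι] (m h : ℕ), 1 ≤ h → (m = 2 * h ∨ m = 2 * h + 1) → ∀ (ϖ : R) (b : ι → R)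
  (Z : Finset ι) (x : ι → F) (S : Set F), IsFacT ϖ m h b Z x S → ∃ d, HasDegW ϖ x S d

/-- FAMW. -/
def S_FAMW : Prop := ∀ {R F ι : Type} [CommRing R] [Field F] [Algebra R F] [Fintype ι]
  [DecidableEq ι] (ϖ : R) (x : ι → F) (𝒮 : Set (Set F)), 𝒮.Finite → Set.range x ∈ 𝒮 →
  (∀ S ∈ 𝒮, ∃ d, HasDegW ϖ x S d) → ∃ D₀ : ℕ, ∀ D, D₀ ≤ D →
    ∃ (κ : Type) (_ : Fintype κ) (Φ : κ → Set F), Set.range Φ = 𝒮 ∧ HasDegW ϖ x (∏ k, Φ k) D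

/-- FINT. -/
def S_FINT : Prop := ∀ {R F ι : Type} [CommRing R] [Field F] [Algebra R F] [Fintype ι]
  [DecidableEq ι] (m h : ℕ) (ϖ : R) (b : ι → R) (Z : Finset ι) (x : ι → F),
  {S | IsFacT ϖ m h b Z x S}.Finite

/-- BADT. The local modules at the tame primes. -/
def S_BADT : Prop := ∀ {O R K F : Type} [CommRing O] [IsDomain O] [CommRing R] [IsDomain R]
  [Field K] [Field F] [Algebra O R] [Algebra R K] [Algebra O F] [Algebra R F] [Algebra K F]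
  [IsScalarTower O R F] [IsScalarTower R K F] (𝔭 : Ideal O) [𝔭.IsPrime]
  [IsLocalization.AtPrime R 𝔭] [IsDiscreteValuationRing R] [IsFractionRing R K] {n : ℕ} (m : ℕ),
  3 ≤ m → IsUnit (m : R) → ∀ a : Fin (n + 2) → O,
  (∀ i, IsUnit (algebraMap O R (a i)) ∨ Irreducible (algebraMap O R (a i))) →
  ∀ x : Fin (n + 2) → F, x 0 = 1 → ∑ i, algebraMap O F (a i) * x i ^ m = 0 →
  IntermediateField.adjoin K (Set.range x) = ⊤ →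
  ∀ b : Fin n → F, IsTranscendenceBasis K b → LocMod 𝔭 x

/-- ARIT. Local arithmetic of the coefficients. -/
def S_ARIT : Prop := ∀ {O : Type} [CommRing O] [IsDedekindDomain O] {ι : Type} [Fintype ι]
  (m : ℕ), 1 ≤ m → ∀ a : ι → O, (∀ 𝔭 : Ideal O, 𝔭.IsPrime → (m : O) ∉ 𝔭 ^ 2) →
  (∀ 𝔭 : Ideal O, 𝔭.IsPrime → ∀ i, a i ∉ 𝔭 ^ 2) →
  (∀ 𝔭 : Ideal O, 𝔭.IsPrime → (m : O) ∈ 𝔭 → ∀ i, a i ∉ 𝔭) →
  ∀ (𝔭 : Ideal O) [𝔭.IsPrime] {R : Type} [CommRing R] [IsDomain R] [Algebra O R]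
    [IsLocalization.AtPrime R 𝔭],
  ((m : O) ∈ 𝔭 → 𝔭 ≠ ⊥ ∧ (∃ p e : ℕ, p.Prime ∧ m = p * e ∧ Irreducible (p : R) ∧
    IsUnit (e : R)) ∧ ∀ i, IsUnit (algebraMap O R (a i))) ∧
  ((m : O) ∉ 𝔭 → IsUnit (m : R) ∧ ∀ i, IsUnit (algebraMap O R (a i)) ∨
    (a i ∈ 𝔭 ∧ 𝔭 ≠ ⊥ ∧ Irreducible (algebraMap O R (a i))))

/-- GLOT. The global module. -/
def S_GLOT : Prop := ∀ {O K F : Type} [CommRing O] [IsDedekindDomain O] [Field K] [Algebra O K]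
  [IsFractionRing O K] [Field F] [Algebra K F] [Algebra O F] [IsScalarTower O K F] [CharZero K],
  (∀ 𝔭 : Ideal O, 𝔭.IsPrime → 𝔭 ≠ ⊥ → Finite (O ⧸ 𝔭)) → ∀ {n : ℕ} (m : ℕ), 3 ≤ m →
  ∀ a : Fin (n + 2) → O, (∀ 𝔭 : Ideal O, 𝔭.IsPrime → (m : O) ∉ 𝔭 ^ 2) →
  (∀ 𝔭 : Ideal O, 𝔭.IsPrime → ∀ i, a i ∉ 𝔭 ^ 2) →
  (∀ 𝔭 : Ideal O, 𝔭.IsPrime → (m : O) ∈ 𝔭 → ∀ i, a i ∉ 𝔭) →
  ∀ x : Fin (n + 2) → F, x 0 = 1 → ∑ i, algebraMap O F (a i) * x i ^ m = 0 →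
  IntermediateField.adjoin K (Set.range x) = ⊤ →
  (∀ e : ℕ, 1 ≤ e → e < m → LinearIndependent K (fun i => x i ^ e)) →
  ∀ b : Fin n → F, IsTranscendenceBasis K b → HasModule O F

end Pool.Agent.H945R2.E
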