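import Pool.Agent.H945R2.E.PropsT
import Pool.Agent.H945R2.S.QC4

/-! QT4: chart 4 of the resolution at the tame primes. -/

set_option autoImplicit false

open scoped Pointwise

namespace Pool.Agent.H945R2.E

open Pool.Agent.H918R2.Quad Pool.Agent.H945R2.D Pool.Agent.H945R2.S MvPolynomial

namespace QT4aux

/-- The point of chart 4. -/
def pt {F κ ζ' : Type} [Field F] (q : κ → F) (g : ζ' → F) (l : κ) :
    Option ({m : κ // m ≠ l} ⊕ ζ') → F :=
  fun o => o.elim (q l) (fun k => Sum.elim (fun m => q m.1 / q l) g k)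

theorem eval_Yv {R F κ ζ' : Type} [CommRing R] [DecidableEq κ] [Field F] [Algebra R F]
    (q : κ → F) (g : ζ' → F) (l : κ) (h0 : q l ≠ 0) (m : κ) :
    aeval (pt q g l) (Yv (R := R) (QC4aux.nu (ζ := ζ') l) m) = q m / q l := by
  unfold Yv QC4aux.nu
  split_ifs with h
  · rw [h, div_self h0]; simp
  · simp [pt]

/-- minus the hyperbolic plane -/
def Qb (R : Type) [CommRing R] : Bool → Bool → R
  | false, true => -1
  | _, _ => 0

theorem Qb_rad {R : Type} [CommRing R] (π : R) : RadI π (Qb R) := by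
  intro C _ f 𝔔 _ hπ v hv hd
  have h1 := hd true
  have h2 := hd false
  simp only [Fintype.sum_bool, Qb, map_add, map_neg, map_one, map_zero] at h1 h2
  intro u
  cases u
  · have := 𝔔.neg_mem h1
    ring_nf at this
    exact this
  · have := 𝔔.neg_mem h2
    ring_nf at this
    exact this

theorem sum_Qb {R C : Type} [CommRing R] [CommRing C] (f : R →+* C) (v : Bool → C) :
    ∑ k, ∑ l, f (Qb R k l) * v k * v l = - (v false * v true) := by
  simp [Fintype.sum_bool, Qb]

end QT4aux

open QT4aux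

theorem QT4_ok (hP : S_QPRET) (hB : S_BL4) : S_QT4 := by
  intro R F ι _ _ _ _ _ _ _ 𝒪 m h ϖ b Z y s d φ hD q η t hq hη ht f hf z₀ k₁ hm hC hnU
    hk0 hk1 hlocOf
  have hh1 : 1 ≤ h := hD.hh
  have hτ0 : η z₀ ≠ 0 := hC.yz
  let κ : Type := Option (Option Bool)
  let ζ' : Type := {z : ZT Z // z ≠ z₀}
  let ξ : Type := ζ' ⊕ TT Z s d
  let σ : Type := {m : κ // m ≠ k₁} ⊕ ξ
  let W : Type := MvPolynomial (Option σ) R
  let qs : κ → F := zst q η f h m z₀
  let ν : κ → Option σ := QC4aux.nu k₁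
  let gg : ξ → F := Sum.elim (fun z => η z.1 / η z₀) (fun k => t k)
  let ε : W := X none
  let τ : W := ε * Yv ν none
  let H : ZT Z → W := fun z => if hz : z = z₀ then 1 else X (some (Sum.inr (Sum.inl ⟨z, hz⟩)))
  let Yq : Bool → W := fun u => τ ^ h * (ε * Yv ν (some (some u)))
  let Yy : ZT Z → W := fun z => τ * H z
  let Yt : TT Z s d → W := fun k => X (some (Sum.inr (Sum.inr k)))
  let eW : W →ₐ[R] F := aeval (pt qs gg k₁)
  have hνl : ν k₁ = none := by
    show QC4aux.nu k₁ k₁ = none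
    unfold QC4aux.nu; rw [dif_pos rfl]
  have hYvl : (Yv ν k₁ : W) = 1 := by
    unfold Yv; rw [hνl]; rfl
  have heε : eW ε = qs k₁ := by
    show aeval (pt qs gg k₁) (X none) = qs k₁
    rw [aeval_X]; rfl
  have heYv : ∀ m, eW (Yv ν m) = qs m / qs k₁ := fun m => eval_Yv qs gg k₁ hk0 m
  have heεY : ∀ m, eW (ε * Yv ν m) = qs m := by
    intro m
    rw [map_mul, heε, heYv, mul_div_cancel₀ _ hk0]
  have heτ : eW τ = η z₀ := heεY none
  have heH : ∀ z, eW (H z) = η z / η z₀ := by
    intro z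
    show aeval (pt qs gg k₁)
      (if hz : z = z₀ then 1 else X (some (Sum.inr (Sum.inl ⟨z, hz⟩)))) = _
    split_ifs with hz
    · rw [map_one, hz, div_self hτ0]
    · rw [aeval_X]; rfl
  have hHz0 : H z₀ = 1 := by
    show (if hz : z₀ = z₀ then 1 else X (some (Sum.inr (Sum.inl ⟨z₀, hz⟩)))) = (1 : W)
    rw [dif_pos rfl]
  have hHz : ∀ z : ζ', H z.1 = X (some (Sum.inr (Sum.inl z))) := by
    intro z
    show (if hz : z.1 = z₀ then (1 : W) else
      X (some (Sum.inr (Sum.inl (⟨z.1, hz⟩ : ζ'))))) = X (some (Sum.inr (Sum.inl z)))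
    rw [dif_neg z.2]
  have heYq : ∀ u, eW (Yq u) = q u := by
    intro u
    show eW (τ ^ h * (ε * Yv ν (some (some u)))) = q u
    rw [map_mul, map_pow, heτ, heεY]
    show η z₀ ^ h * (q u / η z₀ ^ h) = q u
    rw [mul_div_cancel₀ _ (pow_ne_zero _ hτ0)]
  have heYy : ∀ z : ZT Z, eW (Yy z) = η z := by
    intro z
    show eW (τ * H z) = _
    rw [map_mul, heτ, heH, mul_div_cancel₀ _ hτ0]
  have heYt : ∀ k, eW (Yt k) = t k := by
    intro k
    show aeval (pt qs gg k₁) (X (some (Sum.inr (Sum.inr k)))) = _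
    rw [aeval_X]; rfl
  let wW : ZT Z → W := fun z => algebraMap R W (b z) * Yy z ^ m
  let Tot : W := (∑ z : ZT Z, wW z) + algebraMap R W ϖ * Yq true
  have heTot : eW Tot = 0 := by
    show eW ((∑ z : ZT Z, algebraMap R W (b z) * Yy z ^ m) + algebraMap R W ϖ * Yq true) = 0
    rw [map_add, map_sum, map_mul, heYq, AlgHom.commutes, ← hD.rel, hq]
    congr 1
    apply Finset.sum_congr rfl
    intro z _
    rw [map_mul, map_pow, heYy, AlgHom.commutes, hη]
  -- the first relation
  let hh : W := τ ^ h * Yv ν (some (some false))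
  let R1 : W := C ϖ - X none * hh
  have hR1 : R1 = algebraMap R W ϖ - Yq false := by
    show C ϖ - X none * (τ ^ h * Yv ν (some (some false))) =
      algebraMap R W ϖ - τ ^ h * (X none * Yv ν (some (some false)))
    rw [MvPolynomial.algebraMap_eq]
    ring
  have heR1 : eW R1 = 0 := by
    rw [hR1, map_sub, heYq, AlgHom.commutes, hq]
    exact sub_self _
  -- the second relation
  let E₁ : W := ∑ z : ZT Z, C (b z) * H z ^ m
  let h₁ : W := - Yv ν (some none)
  let R2 : W := E₁ + X none * h₁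
  have hR2 : R2 = E₁ - ε * Yv ν (some none) := by
    show E₁ + ε * (- Yv ν (some none)) = _
    ring
  have heE1 : eW E₁ = f / η z₀ ^ m := by
    show eW (∑ z : ZT Z, C (b z) * H z ^ m) = _
    rw [map_sum, hf]
    unfold fY
    rw [Finset.sum_div]
    apply Finset.sum_congr rfl
    intro z _
    rw [map_mul, map_pow, heH, div_pow, ← MvPolynomial.algebraMap_eq, AlgHom.commutes]
    ring
  have heR2 : eW R2 = 0 := by
    rw [hR2, map_sub, heE1, heεY]
    show f / η z₀ ^ m - f / η z₀ ^ m = 0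
    rw [sub_self]
  -- the third relation
  let Q : κ → κ → R := QC4aux.Qs (Qb R)
  let E : W := ∑ k, ∑ l, C (Q k l) * Yv ν k * Yv ν l + 0
  have hQs : ∑ k, ∑ l, (C (Q k l) : W) * Yv ν k * Yv ν l =
      - (Yv ν (some (some false)) * Yv ν (some (some true))) - Yv ν none * Yv ν (some none) := by
    have h1 := QC4aux.sum_Qs (C : R →+* W) (Qb R) (fun k => (Yv ν k : W))
    rw [sum_Qb] at h1
    exact h1
  have hTotE : Tot = - (τ ^ (2 * h) * ε ^ 2 * E) + (Yq true * R1 + τ ^ m * R2) := by
    have h1 : ∑ z : ZT Z, wW z = τ ^ m * E₁ := by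
      show ∑ z : ZT Z, algebraMap R W (b z) * (τ * H z) ^ m = τ ^ m *
        ∑ z : ZT Z, (C (b z) : W) * H z ^ m
      rw [Finset.mul_sum]
      apply Finset.sum_congr rfl
      intro z _
      rw [mul_pow, MvPolynomial.algebraMap_eq]; ring
    show (∑ z : ZT Z, wW z) + algebraMap R W ϖ * Yq true =
      - (τ ^ (2 * h) * ε ^ 2 * (∑ k, ∑ l, C (Q k l) * Yv ν k * Yv ν l + 0)) +
        (Yq true * R1 + τ ^ m * R2)
    rw [h1, hQs, hR1, hR2]
    show τ ^ m * E₁ + algebraMap R W ϖ * (τ ^ h * (ε * Yv ν (some (some true)))) =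
      - (τ ^ (2 * h) * ε ^ 2 * (- (Yv ν (some (some false)) * Yv ν (some (some true))) -
        Yv ν none * Yv ν (some none) + 0)) +
        ((τ ^ h * (ε * Yv ν (some (some true)))) * (algebraMap R W ϖ -
          τ ^ h * (ε * Yv ν (some (some false)))) + τ ^ m * (E₁ - ε * Yv ν (some none)))
    have h2 : τ ^ m = τ ^ (2 * h) * (ε * Yv ν none) := by
      rw [hm, pow_succ]
    rw [h2]
    ring
  have hE0 : eW E = 0 := by
    have h1 : eW (τ ^ (2 * h) * ε ^ 2 * E) = 0 := by
      have h2 : τ ^ (2 * h) * ε ^ 2 * E = (Yq true * R1 + τ ^ m * R2) - Tot := by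
        rw [hTotE]; ring
      rw [h2, map_sub, map_add, map_mul eW (Yq true), map_mul eW (τ ^ m), heR1, heR2, heTot]
      simp
    rw [map_mul, map_mul, map_pow, map_pow, heε, heτ] at h1
    exact (mul_eq_zero.1 h1).resolve_left (mul_ne_zero (pow_ne_zero _ hτ0) (pow_ne_zero 2 hk0))
  obtain ⟨A, iA1, iA2, pr, hprs, hprk, hpr⟩ :=
    exists_quot (R := R) (Ideal.span {R1, R2, E} : Ideal W)
  have hprR1 : pr R1 = 0 := (hpr R1).2 (Ideal.subset_span (by simp))
  have hprR2 : pr R2 = 0 := (hpr R2).2 (Ideal.subset_span (by simp))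
  have hprE : pr E = 0 := (hpr E).2 (Ideal.subset_span (by simp))
  have hker : ∀ w, pr w = 0 → eW w = 0 := by
    intro w hw
    have h1 := (hpr w).1 hw
    have h2 : (Ideal.span {R1, R2, E} : Ideal W) ≤ RingHom.ker (eW : W →+* F) := by
      rw [Ideal.span_le]
      rintro x hx
      rw [Set.mem_insert_iff, Set.mem_insert_iff, Set.mem_singleton_iff] at hx
      rw [SetLike.mem_coe, RingHom.mem_ker]
      rcases hx with rfl | rfl | rfl
      · exact heR1
      · exact heR2
      · exact hE0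
    exact (RingHom.mem_ker).1 (h2 h1)
  -- the range
  have hrange : Algebra.adjoin R (G4 q η f h m z₀ k₁ ∪ Set.range t) = eW.range := by
    show _ = (aeval (pt qs gg k₁)).range
    rw [← Algebra.adjoin_range_eq_range_aeval]
    apply le_antisymm
    · apply Algebra.adjoin_le
      rintro x (((hx | ⟨k, rfl⟩) | ⟨z, rfl⟩) | ⟨k, rfl⟩)
      · rw [Set.mem_singleton_iff] at hx
        rw [hx]
        exact Algebra.subset_adjoin ⟨none, rfl⟩
      · by_cases hk : k = k₁
        · show qs k / qs k₁ ∈ _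
          rw [hk, div_self hk0]
          exact one_mem _
        · exact Algebra.subset_adjoin ⟨some (Sum.inl ⟨k, hk⟩), rfl⟩
      · by_cases hz : z = z₀
        · show η z / η z₀ ∈ _
          rw [hz, div_self hτ0]
          exact one_mem _
        · exact Algebra.subset_adjoin ⟨some (Sum.inr (Sum.inl ⟨z, hz⟩)), rfl⟩
      · exact Algebra.subset_adjoin ⟨some (Sum.inr (Sum.inr k)), rfl⟩
    · apply Algebra.adjoin_mono
      rintro x ⟨o, rfl⟩
      rcases o with _ | (k | (z | k))
      · exact Or.inl (Or.inl (Or.inl rfl))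
      · exact Or.inl (Or.inl (Or.inr ⟨k.1, rfl⟩))
      · exact Or.inl (Or.inr ⟨z.1, rfl⟩)
      · exact Or.inr ⟨k, rfl⟩
  have hlocOf' : IsLocOf 𝒪 (eW.range : Set F) := by
    rw [← hrange]; exact hlocOf
  have hW : ∀ w, eW w ∈ 𝒪 := fun w => hlocOf'.1 _ ⟨w, rfl⟩
  have hprp : pr (algebraMap R W ϖ) = pr (Yq false) := by
    rw [hR1, map_sub] at hprR1
    exact sub_eq_zero.1 hprR1
  have hprφ : pr E₁ = pr (ε * Yv ν (some none)) := by
    rw [hR2, map_sub] at hprR2
    exact sub_eq_zero.1 hprR2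
  have hprTot : pr Tot = 0 := by
    rw [hTotE]
    simp only [map_add, map_neg, map_mul, hprE, hprR1, hprR2, mul_zero, add_zero, neg_zero]
  refine hP 𝒪 m h ϖ b Z y s d φ hD pr hprs eW hker hW hlocOf' (Yq true) Yy Yt ?_ ?_ ?_
    hprTot ?_ ?_
  · rw [heYq, hq]; rfl
  · intro z
    rw [heYy, hη]
  · intro k
    rw [heYt, ht]
  · intro P hPr hPS hPa hPm hPe hPd w
    have heε0 : eW ε ≠ 0 := by rw [heε]; exact hk0
    have heτ0 : eW τ ≠ 0 := by rw [heτ]; exact hτ0
    have hPτ : P τ := by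
      have h1 := hPS (Yy z₀) (Or.inl (Or.inr ⟨z₀, rfl⟩))
      have h2 : Yy z₀ = τ := by
        show τ * H z₀ = τ
        rw [hHz0, mul_one]
      rwa [h2] at h1
    have hPH : ∀ z, P (H z) := fun z =>
      hPd τ (H z) heτ0 hPτ (hPS _ (Or.inl (Or.inr ⟨z, rfl⟩)))
    have hP1 : P 1 := by
      have := hPr 1
      rwa [map_one] at this
    have hPpow : ∀ (x : W), P x → ∀ n : ℕ, P (x ^ n) := by
      intro x hx n
      induction n with
      | zero => rw [pow_zero]; exact hP1
      | succ n ih => rw [pow_succ]; exact hPm _ _ ih hx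
    have hP0 : P 0 := by
      have := hPr 0
      rwa [map_zero] at this
    have hPE : P E₁ := by
      show P (∑ z : ZT Z, C (b z) * H z ^ m)
      refine Finset.sum_induction _ P hPa hP0 fun z _ => ?_
      refine hPm _ _ ?_ (hPpow _ (hPH z) m)
      exact hPr (b z)
    have hPYq : ∀ u, P (Yq u) := by
      intro u
      cases u
      · exact hPe _ _ hprp (hPr ϖ)
      · exact hPS _ (Or.inl (Or.inl rfl))
    have hPk : ∀ k : κ, P (ε * Yv ν k) := by
      intro k
      match k with
      | none => exact hPτ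
      | some none => exact hPe _ _ hprφ hPE
      | some (some u) =>
        refine hPd (τ ^ h) _ ?_ (hPpow _ hPτ h) (hPYq u)
        rw [map_pow]
        exact pow_ne_zero _ heτ0
    have hPε : P ε := by
      have h1 := hPk k₁
      rwa [hYvl, mul_one] at h1
    have hPv : ∀ m, P (Yv ν m) := fun m => hPd ε (Yv ν m) heε0 hPε (hPk m)
    have hPX : ∀ o, P (X o) := by
      intro o
      rcases o with _ | (k | (z | k))
      · exact hPε
      · have h1 := hPv k.1
        have h2 : (Yv ν k.1 : W) = X (some (Sum.inl k)) := by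
          show (Yv (QC4aux.nu k₁) k.1 : W) = _
          unfold Yv QC4aux.nu
          rw [dif_neg k.2]
          rfl
        rwa [h2] at h1
      · rw [← hHz z]
        exact hPH z.1
      · exact hPS _ (Or.inr ⟨k, rfl⟩)
    induction w using MvPolynomial.induction_on with
    | C r => exact hPr r
    | add p q hp hq => exact hPa _ _ hp hq
    | mul_X p n hp => exact hPm _ _ hp (hPX n)
  · intro 𝔮 _ h𝔮
    have h1 : pr (X none) ∈ 𝔮 := by
      rw [h𝔮]
      show ¬ U 𝒪 (eW ε)
      rw [heε]; exact hnU k₁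
    have hne1 : (1 : A) ∉ 𝔮 := fun h =>
      (inferInstance : 𝔮.IsPrime).ne_top ((Ideal.eq_top_iff_one _).2 h)
    have hunit : ∀ u : R, IsUnit u → ∀ x : W, pr (C u * x) ∈ 𝔮 → pr x ∈ 𝔮 := by
      intro u hu x hx
      obtain ⟨u', rfl⟩ := hu
      have h2 : x = C ((u'⁻¹ : Rˣ) : R) * (C (u' : R) * x) := by
        rw [← mul_assoc, ← C_mul, Units.inv_mul, C_1, one_mul]
      rw [h2, map_mul]
      exact 𝔮.mul_mem_left _ hx
    have hprE1 : pr E₁ ∈ 𝔮 := by
      rw [hprφ, map_mul]
      exact 𝔮.mul_mem_right _ h1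
    -- derivatives of `E₁`
    have hdH1 : ∀ (z : ζ'), pderiv (some (Sum.inr (Sum.inl z))) (H z.1) = 1 := by
      intro z
      rw [hHz]
      exact pderiv_X_self _
    have hdH0 : ∀ (z z' : ζ'), z' ≠ z →
        pderiv (some (Sum.inr (Sum.inl z))) (H z'.1) = 0 := by
      intro z z' hzz
      rw [hHz]
      exact pderiv_X_of_ne fun h2 => hzz (by simpa using h2)
    have hdE : ∀ z : ζ', pderiv (some (Sum.inr (Sum.inl z))) E₁ =
        C ((m : R) * b z.1) * H z.1 ^ (m - 1) := by
      intro z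
      show pderiv (some (Sum.inr (Sum.inl z))) (∑ z : ZT Z, C (b z) * H z ^ m) = _
      rw [map_sum, Finset.sum_eq_single z.1]
      · rw [pderiv_C_mul, pderiv_pow, hdH1 z, C_mul, map_natCast]
        ring
      · intro z' _ hz'
        rw [pderiv_C_mul, pderiv_pow]
        by_cases hz0 : z' = z₀
        · rw [hz0, hHz0]
          simp
        · have := hdH0 z ⟨z', hz0⟩ (by
            rintro rfl
            exact hz' rfl)
          rw [this]
          simp
      · intro h2
        exact absurd (Finset.mem_univ _) h2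
    have hex : ∃ z₁ : ζ', pr (pderiv (some (Sum.inr (Sum.inl z₁))) E₁) ∉ 𝔮 := by
      by_contra hcon
      push Not at hcon
      have hHq : ∀ z : ζ', pr (H z.1) ∈ 𝔮 := by
        intro z
        have h2 := hcon z
        rw [hdE] at h2
        have h3 := hunit _ (hD.hm.mul (hD.hb z.1)) _ h2
        rw [map_pow] at h3
        exact (inferInstance : 𝔮.IsPrime).mem_of_pow_mem _ h3
      have h2 : pr E₁ - pr (C (b z₀)) ∈ 𝔮 := by
        have h3 : E₁ - C (b z₀) = ∑ z ∈ Finset.univ.erase z₀, C (b z) * H z ^ m := by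
          show ∑ z : ZT Z, C (b z) * H z ^ m - C (b z₀) = _
          rw [← Finset.add_sum_erase _ _ (Finset.mem_univ z₀), hHz0, one_pow, mul_one]
          ring
        rw [← map_sub, h3, map_sum]
        apply Ideal.sum_mem
        intro z hz
        have hz' : z ≠ z₀ := Finset.ne_of_mem_erase hz
        rw [map_mul, map_pow]
        exact Ideal.mul_mem_left _ _ (Ideal.pow_mem_of_mem _ (hHq ⟨z, hz'⟩) m (by omega))
      have h3 : pr (C (b z₀)) ∈ 𝔮 := by
        have := 𝔮.sub_mem hprE1 h2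
        rwa [sub_sub_cancel] at this
      have h4 := hunit _ (hD.hb z₀) 1 (by rwa [mul_one])
      rw [map_one] at h4
      exact hne1 h4
    obtain ⟨z₁, hz₁⟩ := hex
    refine hB ϖ hD.irr Q (QC4aux.Qs_rad _ (Qb R) (Qb_rad ϖ)) ν (QC4aux.nu_inj k₁) (pr : W →+* A)
      hprs hh h₁ E₁ 0 hprk 𝔮 h1 ?_ ?_ ⟨k₁, ?_⟩ (Sum.inr (Sum.inl z₁)) hz₁ ?_
    · rw [map_zero]
      exact 𝔮.zero_mem
    · intro k i _
      rw [map_zero, map_zero]
      exact 𝔮.zero_mem
    · show pr (Yv ν k₁) ∉ 𝔮
      rw [hYvl, map_one]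
      exact hne1
    · intro k i hki
      obtain ⟨m', rfl⟩ := QC4aux.nu_some k₁ k i hki
      have hd2 : pderiv (some (Sum.inl m')) E₁ = 0 := by
        show pderiv (some (Sum.inl m')) (∑ z : ZT Z, C (b z) * H z ^ m) = 0
        rw [map_sum]
        apply Finset.sum_eq_zero
        intro z _
        have h3 : pderiv (some (Sum.inl m')) (H z) = 0 := by
          by_cases hz0 : z = z₀
          · rw [hz0, hHz0]
            simp
          · have := hHz ⟨z, hz0⟩
            simp only at this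
            rw [this]
            exact pderiv_X_of_ne (by simp)
        rw [pderiv_C_mul, pderiv_pow, h3]
        simp
      show pr (pderiv (some (Sum.inl m')) E₁) ∈ 𝔮
      rw [hd2, map_zero]
      exact 𝔮.zero_mem

end Pool.Agent.H945R2.E
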